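import Pool.Agent.H77.K3.Defs3
import Pool.Agent.H37.SFQ.Mult

/-!
# Definitions for the lower bound
-/

set_option autoImplicit false

namespace Pool.Agent.H77.K3

open Finset Pool.Agent.H77.SV

/-- the sieved set: as `Ok`, but with weaker conditions on squares, coprimality and the smooth part -/
structure Ok1 (P : Par) (z Y Z : ℕ) : Prop where
  hY : Y % 16 = 7
  hZ : Z % 16 = 7
  hw : ∀ p : ℕ, p.Prime → p ≠ 2 → p ≤ P.w → ¬ p ∣ (Y + Z) * Y * Z
  hq : Y ≤ z * lpf Y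
  hr : Z ≤ z * lpf Z
  sb : Squarefree (Y / lpf Y)
  sc : Squarefree (Z / lpf Z)
  bc : (Y / lpf Y).Coprime (Z / lpf Z)
  hI : ∀ i < P.J, ((P.I z i).filter (· ∣ Y + Z)).card = 1
  hn : ∀ p : ℕ, p.Prime → p ∣ Y + Z → z < p → p ≤ z ^ P.M → ∃ i < P.J, p ∈ P.I z i

open Classical in
noncomputable def S1 (P : Par) (z T : ℕ) : Finset (ℕ × ℕ) :=
  ((Ioc (T / 2) T) ×ˢ (Ioc (T / 2) T)).filter fun x => Ok1 P z x.1 x.2

/-- the odd primes up to `w` -/
def oP (w : ℕ) : Finset ℕ := (Ioc 2 w).filter Nat.Prime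

/-- the modulus -/
def WW (w : ℕ) : ℕ := 16 * ∏ p ∈ oP w, p

/-- squarefree numbers up to `z` with all prime factors `> w` -/
def Bset (w z : ℕ) : Finset ℕ :=
  (Icc 1 z).filter fun b => Squarefree b ∧ ∀ p ∈ b.primeFactors, w < p

/-- the classes of `(Y, Z)` -/
def Cl (w : ℕ) : Finset (ℕ × ℕ) :=
  ((range (WW w)) ×ˢ (range (WW w))).filter fun x => x.1 % 16 = 7 ∧ x.2 % 16 = 7 ∧
    ∀ p ∈ oP w, ¬ p ∣ x.1 ∧ ¬ p ∣ x.2 ∧ ¬ p ∣ x.1 + x.2

/-- primes `q` with `b q` in `(T/2, T]` and in the class `α` -/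
def Qa (w T b α : ℕ) : Finset ℕ :=
  (Ioc 0 T).filter fun q => q.Prime ∧ T / 2 < b * q ∧ b * q ≤ T ∧ (b * q) % WW w = α

open Classical in
/-- pairs `(q, r)` for given `b, c`, classes and medium primes -/
noncomputable def NB (P : Par) (z T b c α β : ℕ) (pp : Fin P.J → ℕ) : ℕ :=
  (((Qa P.w T b α) ×ˢ (Qa P.w T c β)).filter fun x =>
    (∀ i, pp i ∣ b * x.1 + c * x.2) ∧
      ∀ p ∈ Pr z (z ^ P.M), (∀ i, p ≠ pp i) → ¬ p ∣ b * x.1 + c * x.2).card

/-- squarefree `d ≤ z^(10 M)` with all prime factors in `(z, z^M]` -/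
def Ds (z M : ℕ) : Finset ℕ :=
  (Icc 1 (z ^ (10 * M))).filter fun d => Squarefree d ∧ ∀ p ∈ d.primeFactors, z < p ∧ p ≤ z ^ M

/-- the error terms -/
noncomputable def Er (Qs Rs : Finset ℕ) (b c d : ℕ) : ℝ :=
  (((Qs ×ˢ Rs).filter fun x => d ∣ b * x.1 + c * x.2).card : ℝ) -
    (Qs.card : ℝ) * Rs.card / d.totient

/-- `prod_(z < p ≤ z^M) (1 - 1/(p-1))` -/
noncomputable def VV0 (z M : ℕ) : ℝ := ∏ p ∈ Pr z (z ^ M), (1 - 1 / ((p : ℝ) - 1))

/-- absolute value of a character sum -/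
noncomputable def Sx {d : ℕ} (Qs : Finset ℕ) (χ : DirichletCharacter ℂ d) : ℝ :=
  ‖∑ q ∈ Qs, χ (q : ZMod d)‖

/-- the block of a prime: `p^(2^k) ≤ y < p^(2^(k+1))` -/
def blk (y p : ℕ) : ℕ := Nat.log 2 (Nat.log p y)

/-- admissible sets of primes: at most `2k + 2` elements in the block `k`, with at most one
exceptional block, which has `2k + 3` elements -/
def AdmD (y : ℕ) (D : Finset ℕ) : Prop :=
  (∀ k, (D.filter fun p => blk y p = k).card ≤ 2 * k + 3) ∧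
    ∀ k k', (D.filter fun p => blk y p = k).card = 2 * k + 3 →
      (D.filter fun p => blk y p = k').card = 2 * k' + 3 → k = k'

open Classical in
/-- the coefficients of the lower bound sieve -/
noncomputable def lam (y : ℕ) (D : Finset ℕ) : ℝ := if AdmD y D then (-1) ^ D.card else 0

end Pool.Agent.H77.K3
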