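import Pool.Agent.H77.K3.Defs

/-!
# A1: the sum over all patterns

`sum_Tm`: `sum over (v, vq, vr) of Tm = All`.

Proof. Exchange the sums: for a fixed `d` the condition in `Tm` determines the first components of
`v u`, `vq`, `vr` (they are `a_u d`, `a_q d`, `a_r d`), so the sum over patterns is
`(1/4)^(card U + 2) * prod_u (sum_(c : V2) sg (dot c (y_u d))) * (sum_c sg (dot c (yq d))) *
(sum_c sg (dot c (yr d)))`, and `sum_(c : V2) sg (dot c y) = 4` if `y = 0` and `= 0` otherwise
(finite check: `V2` has four elements). (Use `Fintype.piFinset`/`Finset.prod_univ_sum`, or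
`Fintype.sum_prod_type` and the equivalence `(U → V2 × V2) ≃ (U → V2) × (U → V2)`.)
-/

set_option autoImplicit false

namespace Pool.Agent.H77.K3

open Finset Pool.Agent.H77.SV

theorem sum_sg (y : V2) : ∑ c : V2, sg (dot c y) = if y = 0 then 4 else 0 := by
  have h : ∀ f : V2 → ℝ, ∑ c : V2, f c = f (0, 0) + f (0, 1) + (f (1, 0) + f (1, 1)) := by
    intro f
    rw [Fintype.sum_prod_type]
    have h2 : ∀ g : ZMod 2 → ℝ, ∑ c : ZMod 2, g c = g 0 + g 1 := fun g => Fin.sum_univ_two g
    rw [h2, h2, h2]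
  rw [h]
  obtain ⟨y1, y2⟩ := y
  have e : ∀ t : ZMod 2, t = 0 ∨ t = 1 := by decide
  have e2 : (1 + 1 : ZMod 2) = 0 := by decide
  rcases e y1 with rfl | rfl <;> rcases e y2 with rfl | rfl <;>
    (simp [sg, dot, Prod.ext_iff, e2]; try norm_num)

theorem sum_Tm {U D : Type} [Fintype U] [DecidableEq U] [AddCommGroup D] [Module (ZMod 2) D] [Fintype D]
    (X : Dat U D) :
    ∑ v : U → LL, ∑ vq : LL, ∑ vr : LL, X.Tm v vq vr = (X.All : ℝ) := by
  classical
  have key : ∀ a y : V2, ∑ x : LL, (if a = x.1 then sg (dot x.2 y) else 0) =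
      if y = 0 then (4 : ℝ) else 0 := by
    intro a y
    rw [Fintype.sum_prod_type, Finset.sum_eq_single a]
    · simp only [if_true]
      exact sum_sg y
    · intro b _ hb
      exact Finset.sum_eq_zero fun c _ => if_neg fun h => hb h.symm
    · intro h
      exact absurd (Finset.mem_univ _) h
  have hT : ∀ (v : U → LL) (vq vr : LL), X.Tm v vq vr = (1 / 4 : ℝ) ^ (Fintype.card U + 2) *
      ∑ d : D, (∏ u, (if X.a u d = (v u).1 then sg (dot (v u).2 (X.y u d)) else 0)) *
        (if X.aq d = vq.1 then sg (dot vq.2 (X.yq d)) else 0) *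
        (if X.ar d = vr.1 then sg (dot vr.2 (X.yr d)) else 0) := by
    intro v vq vr
    unfold Dat.Tm
    congr 1
    refine sum_congr rfl fun d _ => ?_
    by_cases h : ∀ u, X.a u d = (v u).1
    · by_cases hq : X.aq d = vq.1
      · by_cases hr : X.ar d = vr.1
        · rw [if_pos ⟨h, hq, hr⟩, if_pos hq, if_pos hr]
          congr 2
          exact prod_congr rfl fun u _ => (if_pos (h u)).symm
        · rw [if_neg fun h' => hr h'.2.2, if_neg hr, mul_zero]
      · rw [if_neg fun h' => hq h'.2.1, if_neg hq, mul_zero, zero_mul]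
    · rw [if_neg fun h' => h h'.1]
      obtain ⟨u, hu⟩ := not_forall.1 h
      rw [Finset.prod_eq_zero (mem_univ u) (if_neg hu), zero_mul, zero_mul]
  have hd : ∀ d : D, ∑ v : U → LL, ∑ vq : LL, ∑ vr : LL,
      (∏ u, (if X.a u d = (v u).1 then sg (dot (v u).2 (X.y u d)) else 0)) *
        (if X.aq d = vq.1 then sg (dot vq.2 (X.yq d)) else 0) *
        (if X.ar d = vr.1 then sg (dot vr.2 (X.yr d)) else 0) =
      (∏ u, (if X.y u d = 0 then (4 : ℝ) else 0)) * (if X.yq d = 0 then (4 : ℝ) else 0) *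
        (if X.yr d = 0 then (4 : ℝ) else 0) := by
    intro d
    simp only [← Finset.mul_sum, key]
    simp only [← Finset.sum_mul, ← Finset.mul_sum, key]
    congr 2
    have h := Finset.prod_univ_sum (fun _ : U => (univ : Finset LL))
      (fun (u : U) (x : LL) => if X.a u d = x.1 then sg (dot x.2 (X.y u d)) else (0 : ℝ))
    rw [Fintype.piFinset_univ] at h
    rw [← h]
    exact prod_congr rfl fun u _ => key _ _
  simp only [hT, ← Finset.mul_sum]
  have hsw : ∑ v : U → LL, ∑ vq : LL, ∑ vr : LL, ∑ d : D,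
      (∏ u, (if X.a u d = (v u).1 then sg (dot (v u).2 (X.y u d)) else 0)) *
        (if X.aq d = vq.1 then sg (dot vq.2 (X.yq d)) else 0) *
        (if X.ar d = vr.1 then sg (dot vr.2 (X.yr d)) else 0) =
      ∑ d : D, (∏ u, (if X.y u d = 0 then (4 : ℝ) else 0)) *
        (if X.yq d = 0 then (4 : ℝ) else 0) * (if X.yr d = 0 then (4 : ℝ) else 0) := by
    rw [← Finset.sum_congr rfl fun d _ => hd d]
    rw [Finset.sum_comm' (s := (univ : Finset D)) (t := fun _ => (univ : Finset (U → LL)))
      (t' := univ) (s' := fun _ => univ) (by simp)]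
    refine sum_congr rfl fun v _ => ?_
    rw [Finset.sum_comm' (s := (univ : Finset D)) (t := fun _ => (univ : Finset LL))
      (t' := univ) (s' := fun _ => univ) (by simp)]
    refine sum_congr rfl fun vq _ => ?_
    exact Finset.sum_comm
  rw [hsw, Finset.mul_sum]
  have hp : ∀ d : D, (1 / 4 : ℝ) ^ (Fintype.card U + 2) *
      ((∏ u, (if X.y u d = 0 then (4 : ℝ) else 0)) *
        (if X.yq d = 0 then (4 : ℝ) else 0) * (if X.yr d = 0 then (4 : ℝ) else 0)) =
      if (∀ u, X.y u d = 0) ∧ X.yq d = 0 ∧ X.yr d = 0 then 1 else 0 := by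
    intro d
    by_cases h : ∀ u, X.y u d = 0
    · by_cases hq : X.yq d = 0
      · by_cases hr : X.yr d = 0
        · rw [if_pos hq, if_pos hr, if_pos ⟨h, hq, hr⟩,
            Finset.prod_congr rfl fun u _ => if_pos (h u), Finset.prod_const, Finset.card_univ,
            one_div, inv_pow]
          field_simp
          rw [pow_add]
        · have hneg : ¬ ((∀ u, X.y u d = 0) ∧ X.yq d = 0 ∧ X.yr d = 0) := fun h' => hr h'.2.2
          rw [if_neg hr, if_neg hneg, mul_zero, mul_zero]
      · have hneg : ¬ ((∀ u, X.y u d = 0) ∧ X.yq d = 0 ∧ X.yr d = 0) := fun h' => hq h'.2.1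
        rw [if_neg hq, if_neg hneg, mul_zero, zero_mul, mul_zero]
    · have hneg : ¬ ((∀ u, X.y u d = 0) ∧ X.yq d = 0 ∧ X.yr d = 0) := fun h' => h h'.1
      rw [if_neg hneg]
      obtain ⟨u, hu⟩ := not_forall.1 h
      rw [Finset.prod_eq_zero (mem_univ u) (if_neg hu), zero_mul, zero_mul, mul_zero]
  rw [Finset.sum_congr rfl fun d _ => hp d]
  unfold Dat.All
  rw [Nat.card_eq_fintype_card, Fintype.card_subtype, Finset.sum_boole]

end Pool.Agent.H77.K3
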