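import Pool.Agent.H77.K3.Defs

/-!
# A3: the six planes

Finite facts about `LL = V2 × V2` (16 elements), by `decide` (possibly after splitting on `k` by
`fin_cases`, or after translating one of the vectors away). Each plane is a subgroup, `QQ` vanishes
on it; two distinct nonzero singular orthogonal vectors span exactly one of the six planes, and a
singular vector orthogonal to both lies in this plane.
-/

set_option autoImplicit false

namespace Pool.Agent.H77.K3

open Finset Pool.Agent.H77.SV

theorem inW_zero (k : Fin 6) : inW k 0 := by
  revert k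
  decide +kernel

theorem inW_add (k : Fin 6) (x y : LL) (hx : inW k x) (hy : inW k y) : inW k (x + y) := by
  revert k x y
  decide +kernel

theorem QQ_of_inW (k : Fin 6) (x : LL) (hx : inW k x) : QQ x = 0 := by
  revert k x
  decide +kernel

set_option synthInstance.maxSize 4000 in
theorem plane (x y : LL) (hx : x ≠ 0) (hy : y ≠ 0) (hxy : x ≠ y) (h1 : QQ x = 0) (h2 : QQ y = 0)
    (h3 : QQ (x + y) = 0) :
    ∃ k, inW k x ∧ inW k y ∧ (∀ u, QQ u = 0 → QQ (u + x) = 0 → QQ (u + y) = 0 → inW k u) ∧
      ∀ k', inW k' x → inW k' y → k' = k := by
  revert x y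
  decide +kernel

end Pool.Agent.H77.K3
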