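import Pool.Agent.H77.K3.A3

/-!
# A4: the sum over the patterns in a coset of a plane, general formula

Let `R` be a set of representatives of `LL / {inW k}`: for every `x` there is exactly one `r ∈ R`
with `inW k (x + r)`. Put `cS k r a y = sum over c : V2 with inW k ((a, c) + r) of sg (dot c y)`.
If `U` is nonempty, the sum of `Tm` over the patterns with `NW k v vq vr` is
`4 * (1/4)^(card U + 2) * sum over r ∈ R, d with yq d = yr d of
  (prod_u cS k r (a_u d) (y_u d)) * cS k r (aq d + ar d) (yq d)`.

Proof. `NW k v vq vr` holds iff for exactly one `r ∈ R`: `inW k (v u + r)` for all `u` and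
`inW k (vq + vr + r)` (as `inW k` is a subgroup of a group of exponent 2, `U` nonempty). So the sum
is the sum over `r ∈ R` of the sum over all patterns with this property. Exchange with the sum over
`d`; the first components of `v u`, `vq`, `vr` are determined by `d`, the second components are free
subject to the conditions, so for fixed `d`, `r` we get
`prod_u cS k r (a_u d) (y_u d) * sum over (cq, cr) with inW k ((aq d + ar d, cq + cr) + r) of
sg (dot cq (yq d)) * sg (dot cr (yr d))`. In the last sum put `cr = cq + c`: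
`sg (dot cq (yq d)) * sg (dot (cq + c) (yr d)) = sg (dot cq (yq d + yr d)) * sg (dot c (yr d))`,
and the sum over `cq` is `4` if `yq d = yr d` and `0` otherwise (`sum_sg`, reprove it here).
-/

set_option autoImplicit false

namespace Pool.Agent.H77.K3

open Finset Pool.Agent.H77.SV

/-- the local factor -/
noncomputable def cS (k : Fin 6) (r : LL) (a y : V2) : ℝ :=
  ∑ c : V2, if inW k ((a, c) + r) then sg (dot c y) else 0

private theorem V2_two (x : V2) : x + x = 0 := by
  revert x
  decide

private theorem LL_two (x : LL) : x + x = 0 := by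
  revert x
  decide +kernel

private theorem LL_cancel (x y z : LL) : x + y + (y + z) = x + z := by
  have h : x + y + (y + z) = x + (y + y) + z := by abel
  rw [h, LL_two, add_zero]

private theorem V2_add_eq_zero (x y : V2) : x + y = 0 ↔ x = y := by
  revert x y
  decide +kernel

private theorem sum_sg4 (y : V2) : ∑ c : V2, sg (dot c y) = if y = 0 then 4 else 0 := by
  have h : ∀ f : V2 → ℝ, ∑ c : V2, f c = f (0, 0) + f (0, 1) + (f (1, 0) + f (1, 1)) := by
    intro f
    rw [Fintype.sum_prod_type]
    have h2 : ∀ g : ZMod 2 → ℝ, ∑ c : ZMod 2, g c = g 0 + g 1 := fun g => Fin.sum_univ_two g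
    rw [h2, h2, h2]
  rw [h]
  obtain ⟨y1, y2⟩ := y
  have e : ∀ t : ZMod 2, t = 0 ∨ t = 1 := by decide
  have e2 : (1 + 1 : ZMod 2) = 0 := by decide
  rcases e y1 with rfl | rfl <;> rcases e y2 with rfl | rfl <;>
    (simp [sg, dot, Prod.ext_iff, e2]; try norm_num)

private theorem sg_mul (s t : ZMod 2) : sg s * sg t = sg (s + t) := by
  have e : ∀ t : ZMod 2, t = 0 ∨ t = 1 := by decide
  have e2 : (1 + 1 : ZMod 2) = 0 := by decide
  rcases e s with rfl | rfl <;> rcases e t with rfl | rfl <;> simp [sg, e2]

/-- the sum over one place -/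
private theorem sum_one (k : Fin 6) (r : LL) (a y : V2) :
    ∑ x : LL, (if inW k (x + r) then (1 : ℝ) else 0) *
      (if a = x.1 then sg (dot x.2 y) else 0) = cS k r a y := by
  rw [Fintype.sum_prod_type, Finset.sum_eq_single a]
  · unfold cS
    refine sum_congr rfl fun c _ => ?_
    rw [if_pos rfl]
    split_ifs <;> simp
  · intro b _ hb
    refine Finset.sum_eq_zero fun c _ => ?_
    rw [if_neg (show ¬ a = (b, c).1 from fun h => hb h.symm), mul_zero]
  · intro h
    exact absurd (Finset.mem_univ _) h

/-- the sum over the last two places -/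
private theorem sum_two (k : Fin 6) (r : LL) (a b y z : V2) :
    ∑ p : LL, ∑ q : LL, (if inW k (p + q + r) then (1 : ℝ) else 0) *
      ((if a = p.1 then sg (dot p.2 y) else 0) * (if b = q.1 then sg (dot q.2 z) else 0)) =
      if y = z then 4 * cS k r (a + b) y else 0 := by
  have h1 : ∑ p : LL, ∑ q : LL, (if inW k (p + q + r) then (1 : ℝ) else 0) *
      ((if a = p.1 then sg (dot p.2 y) else 0) * (if b = q.1 then sg (dot q.2 z) else 0)) =
      ∑ c : V2, ∑ e : V2, (if inW k ((a + b, c + e) + r) then (1 : ℝ) else 0) *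
        (sg (dot c y) * sg (dot e z)) := by
    rw [Fintype.sum_prod_type, Finset.sum_eq_single a]
    · refine sum_congr rfl fun c _ => ?_
      rw [Fintype.sum_prod_type, Finset.sum_eq_single b]
      · refine sum_congr rfl fun e _ => ?_
        rw [if_pos rfl, if_pos rfl]
        rfl
      · intro b' _ hb
        refine Finset.sum_eq_zero fun c _ => ?_
        rw [if_neg (show ¬ b = (b', c).1 from fun h => hb h.symm), mul_zero, mul_zero]
      · intro h
        exact absurd (Finset.mem_univ _) h
    · intro a' _ ha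
      refine Finset.sum_eq_zero fun c _ => Finset.sum_eq_zero fun q _ => ?_
      rw [if_neg (show ¬ a = (a', c).1 from fun h => ha h.symm), zero_mul, mul_zero]
    · intro h
      exact absurd (Finset.mem_univ _) h
  rw [h1]
  have h2 : ∀ c : V2, ∑ e : V2, (if inW k ((a + b, c + e) + r) then (1 : ℝ) else 0) *
        (sg (dot c y) * sg (dot e z)) =
      sg (dot c (y + z)) * cS k r (a + b) z := by
    intro c
    unfold cS
    rw [Finset.mul_sum]
    rw [← Equiv.sum_comp (Equiv.addLeft c)]
    refine sum_congr rfl fun e _ => ?_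
    rw [Equiv.coe_addLeft, ← add_assoc, V2_two, zero_add, sg_mul, mul_ite, mul_zero, sg_mul]
    have h3 : dot c y + dot (c + e) z = dot c (y + z) + dot e z := by
      simp only [dot, Prod.fst_add, Prod.snd_add]
      ring
    rw [h3, ite_mul, one_mul, zero_mul]
  rw [Finset.sum_congr rfl fun c _ => h2 c, ← Finset.sum_mul, sum_sg4]
  by_cases h : y = z
  · rw [if_pos h, if_pos ((V2_add_eq_zero y z).2 h), h]
  · rw [if_neg h, if_neg (fun h' => h ((V2_add_eq_zero y z).1 h')), zero_mul]

/-- the indicator of `NW` -/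
private theorem ind_NW {U : Type} [Fintype U] [Nonempty U] (k : Fin 6) (R : Finset LL)
    (hR : ∀ x : LL, ∃! r, r ∈ R ∧ inW k (x + r)) (v : U → LL) (p q : LL) (t : Decidable (NW k v p q)) :
    (@ite ℝ (NW k v p q) t 1 0) = ∑ r ∈ R, (∏ u, if inW k (v u + r) then (1 : ℝ) else 0) *
      (if inW k (p + q + r) then (1 : ℝ) else 0) := by
  obtain ⟨u0⟩ := ‹Nonempty U›
  obtain ⟨r0, ⟨hr0, hw0⟩, huniq⟩ := hR (v u0)
  rw [Finset.sum_eq_single r0]
  · by_cases h : NW k v p q
    · rw [if_pos h]
      have h1 : ∀ u, inW k (v u + r0) := fun u => by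
        have h3 := inW_add k _ _ (h.1 u u0) hw0
        rwa [LL_cancel] at h3
      have h2 : inW k (p + q + r0) := by
        have h3 := inW_add k _ _ (h.2 u0) hw0
        have h4 : v u0 + p + q + (v u0 + r0) = (p + q) + v u0 + (v u0 + r0) := by abel
        rwa [h4, LL_cancel] at h3
      rw [if_pos h2, Finset.prod_congr rfl fun u _ => if_pos (h1 u), Finset.prod_const_one, one_mul]
    · rw [if_neg h]
      by_cases h1 : ∀ u, inW k (v u + r0)
      · by_cases h2 : inW k (p + q + r0)
        · exfalso
          apply h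
          refine ⟨fun u u' => ?_, fun u => ?_⟩
          · have h3 := inW_add k _ _ (h1 u) (h1 u')
            have h4 : v u + r0 + (v u' + r0) = v u + r0 + (r0 + v u') := by abel
            rwa [h4, LL_cancel] at h3
          · have h3 := inW_add k _ _ (h1 u) h2
            have h4 : v u + r0 + (p + q + r0) = v u + r0 + (r0 + (p + q)) := by abel
            rw [h4, LL_cancel, ← add_assoc] at h3
            exact h3
        · rw [if_neg h2, mul_zero]
      · obtain ⟨u, hu⟩ := not_forall.1 h1
        rw [Finset.prod_eq_zero (mem_univ u) (if_neg hu), zero_mul]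
  · intro r hr hne
    have hn : ¬ inW k (v u0 + r) := fun h => hne (huniq r ⟨hr, h⟩)
    rw [Finset.prod_eq_zero (mem_univ u0) (if_neg hn), zero_mul]
  · intro h
    exact absurd hr0 h

open Classical in
theorem sum_NW {U D : Type} [Fintype U] [DecidableEq U] [Nonempty U] [AddCommGroup D] [Module (ZMod 2) D]
    [Fintype D] (X : Dat U D) (k : Fin 6) (R : Finset LL)
    (hR : ∀ x : LL, ∃! r, r ∈ R ∧ inW k (x + r)) :
    (∑ v : U → LL, ∑ vq : LL, ∑ vr : LL, if NW k v vq vr then X.Tm v vq vr else 0) =
      4 * (1 / 4 : ℝ) ^ (Fintype.card U + 2) * ∑ r ∈ R, ∑ d : D,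
        if X.yq d = X.yr d then
          (∏ u, cS k r (X.a u d) (X.y u d)) * cS k r (X.aq d + X.ar d) (X.yq d) else 0 := by
  have hT : ∀ (v : U → LL) (vq vr : LL), X.Tm v vq vr = (1 / 4 : ℝ) ^ (Fintype.card U + 2) *
      ∑ d : D, (∏ u, (if X.a u d = (v u).1 then sg (dot (v u).2 (X.y u d)) else 0)) *
        ((if X.aq d = vq.1 then sg (dot vq.2 (X.yq d)) else 0) *
        (if X.ar d = vr.1 then sg (dot vr.2 (X.yr d)) else 0)) := by
    intro v vq vr
    unfold Dat.Tm
    congr 1
    refine sum_congr rfl fun d _ => ?_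
    by_cases h : ∀ u, X.a u d = (v u).1
    · by_cases hq : X.aq d = vq.1
      · by_cases hr : X.ar d = vr.1
        · rw [if_pos ⟨h, hq, hr⟩, if_pos hq, if_pos hr, mul_assoc]
          congr 1
          exact prod_congr rfl fun u _ => (if_pos (h u)).symm
        · rw [if_neg fun h' => hr h'.2.2, if_neg hr, mul_zero, mul_zero]
      · rw [if_neg fun h' => hq h'.2.1, if_neg hq, zero_mul, mul_zero]
    · rw [if_neg fun h' => h h'.1]
      obtain ⟨u, hu⟩ := not_forall.1 h
      rw [Finset.prod_eq_zero (mem_univ u) (if_neg hu), zero_mul]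
  have h1 : ∀ (v : U → LL) (vq vr : LL), (if NW k v vq vr then X.Tm v vq vr else 0) =
      (1 / 4 : ℝ) ^ (Fintype.card U + 2) * ∑ r ∈ R, ∑ d : D,
        (∏ u, ((if inW k (v u + r) then (1 : ℝ) else 0) *
          (if X.a u d = (v u).1 then sg (dot (v u).2 (X.y u d)) else 0))) *
        ((if inW k (vq + vr + r) then (1 : ℝ) else 0) *
          ((if X.aq d = vq.1 then sg (dot vq.2 (X.yq d)) else 0) *
            (if X.ar d = vr.1 then sg (dot vr.2 (X.yr d)) else 0))) := by
    intro v vq vr
    have h2 : (if NW k v vq vr then X.Tm v vq vr else 0) =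
        (if NW k v vq vr then (1 : ℝ) else 0) * X.Tm v vq vr := by
      split_ifs <;> simp
    rw [h2, ind_NW k R hR, hT, mul_left_comm, Finset.sum_mul]
    congr 1
    refine sum_congr rfl fun r _ => ?_
    rw [Finset.mul_sum]
    refine sum_congr rfl fun d _ => ?_
    rw [Finset.prod_mul_distrib]
    ring
  simp only [h1, ← Finset.mul_sum]
  rw [mul_comm (4 : ℝ), mul_assoc]
  congr 1
  have h3 : ∀ (r : LL) (d : D), ∑ v : U → LL, ∑ vq : LL, ∑ vr : LL,
        (∏ u, ((if inW k (v u + r) then (1 : ℝ) else 0) *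
          (if X.a u d = (v u).1 then sg (dot (v u).2 (X.y u d)) else 0))) *
        ((if inW k (vq + vr + r) then (1 : ℝ) else 0) *
          ((if X.aq d = vq.1 then sg (dot vq.2 (X.yq d)) else 0) *
            (if X.ar d = vr.1 then sg (dot vr.2 (X.yr d)) else 0))) =
      4 * (if X.yq d = X.yr d then
          (∏ u, cS k r (X.a u d) (X.y u d)) * cS k r (X.aq d + X.ar d) (X.yq d) else 0) := by
    intro r d
    simp only [← Finset.mul_sum]
    rw [← Finset.sum_mul, sum_two]
    have h := Finset.prod_univ_sum (fun _ : U => (univ : Finset LL))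
      (fun (u : U) (x : LL) => (if inW k (x + r) then (1 : ℝ) else 0) *
        (if X.a u d = x.1 then sg (dot x.2 (X.y u d)) else 0))
    rw [Fintype.piFinset_univ] at h
    rw [← h, Finset.prod_congr rfl fun u _ => sum_one k r (X.a u d) (X.y u d)]
    split_ifs
    · ring
    · simp
  rw [Finset.mul_sum]
  have h4 : ∀ r : LL, 4 * ∑ d : D, (if X.yq d = X.yr d then
          (∏ u, cS k r (X.a u d) (X.y u d)) * cS k r (X.aq d + X.ar d) (X.yq d) else 0) =
      ∑ v : U → LL, ∑ vq : LL, ∑ vr : LL, ∑ d : D,
        (∏ u, ((if inW k (v u + r) then (1 : ℝ) else 0) *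
          (if X.a u d = (v u).1 then sg (dot (v u).2 (X.y u d)) else 0))) *
        ((if inW k (vq + vr + r) then (1 : ℝ) else 0) *
          ((if X.aq d = vq.1 then sg (dot vq.2 (X.yq d)) else 0) *
            (if X.ar d = vr.1 then sg (dot vr.2 (X.yr d)) else 0))) := by
    intro r
    rw [Finset.mul_sum, ← Finset.sum_congr rfl fun d _ => h3 r d, Finset.sum_comm]
    refine sum_congr rfl fun v _ => ?_
    rw [Finset.sum_comm]
    refine sum_congr rfl fun vq _ => ?_
    exact Finset.sum_comm
  rw [Finset.sum_congr rfl fun r _ => h4 r]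
  symm
  rw [Finset.sum_comm]
  refine sum_congr rfl fun v _ => ?_
  rw [Finset.sum_comm]
  refine sum_congr rfl fun vq _ => ?_
  exact Finset.sum_comm

end Pool.Agent.H77.K3
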