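import Pool.Agent.H77.K3.A4
import Pool.Agent.H77.K3.A2

/-!
# A5: planes 0, 1, 2

For `k = 0, 1, 2` the sum over the patterns in a coset of the plane is at most `4 Str`.

Use `sum_NW`. Write `n = card U + 1`, so the prefactor is `(1/4)^n`.

* `k = 0` (`{a = 0}`): representatives `R = {(a0, 0)}`. `cS 0 (a0,0) a y` is `4` if `a = a0` and
  `y = 0`, and `0` otherwise. So the sum is `sum over a0 of #{d : yq d = yr d, all a_u = a0,
  aq + ar = a0, all y_u = 0, yq = 0}`; adding the element `t` of `R2` for `τ = a0` is a bijection of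
  this set onto the set counted by `Str` (`a_u`, `aq + ar` become `0`, the `y` do not change). So the
  sum is `4 Str`.
* `k = 1` (`{c = 0}`): `R = {(0, c0)}`, `cS 1 (0,c0) a y = sg (dot c0 y)`; the product over `u` and
  the last factor is `sg (dot c0 (sum_u y_u d + yq d)) = 1` by `y_sum`. So the sum is
  `(1/4)^n * 4 * #{yq = yr} ≤ 4 Str` by `card_le`.
* `k = 2` (`{c = J2 a}`): `R = {(0, c0)}`, `cS 2 (0,c0) a y = sg (dot (J2 a + c0) y)`, of absolute
  value 1, so the sum is at most `(1/4)^n * 4 * #{yq = yr} ≤ 4 Str`.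
-/

set_option autoImplicit false

namespace Pool.Agent.H77.K3

open Finset Pool.Agent.H77.SV

namespace A5

/-- integer version of the local factor -/
def cZ (k : Fin 6) (r : LL) (a y : V2) : ℤ :=
  ∑ c : V2, if inW k ((a, c) + r) then (if dot c y = 0 then 1 else -1) else 0

theorem cS_eq (k : Fin 6) (r : LL) (a y : V2) : cS k r a y = (cZ k r a y : ℝ) := by
  unfold cS cZ sg
  push_cast
  rfl

theorem cZ_zero : ∀ a0 a y : V2, cZ 0 (a0, 0) a y = if a = a0 ∧ y = 0 then 4 else 0 := by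
  decide +kernel

theorem cZ_one : ∀ c0 a y : V2, |cZ 1 (0, c0) a y| = 1 := by
  decide +kernel

theorem cZ_two : ∀ c0 a y : V2, |cZ 2 (0, c0) a y| = 1 := by
  decide +kernel

theorem v2_self (a : V2) : a + a = 0 := by
  revert a
  decide

theorem v2_eq {a b : V2} (h : a + b = 0) : a = b := by
  revert h
  revert a b
  decide

/-- representatives for the first plane -/
def R0 : Finset LL := univ.image fun a : V2 => (a, (0 : V2))

/-- representatives for the second and third plane -/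
def R1 : Finset LL := univ.image fun c : V2 => ((0 : V2), c)

theorem hR0 (x : LL) : ∃! r, r ∈ R0 ∧ inW 0 (x + r) := by
  refine ⟨(x.1, 0), ⟨by simp [R0], ?_⟩, ?_⟩
  · show x.1 + x.1 = 0
    exact v2_self _
  · rintro ⟨r1, r2⟩ ⟨h1, h2⟩
    have h3 : r2 = 0 := by
      simp only [R0, mem_image, mem_univ, true_and, Prod.mk.injEq] at h1
      obtain ⟨a, -, h⟩ := h1
      exact h.symm
    have h4 : x.1 + r1 = 0 := h2
    rw [h3, v2_eq h4]

theorem hR1 (x : LL) : ∃! r, r ∈ R1 ∧ inW 1 (x + r) := by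
  refine ⟨(0, x.2), ⟨by simp [R1], ?_⟩, ?_⟩
  · show x.2 + x.2 = 0
    exact v2_self _
  · rintro ⟨r1, r2⟩ ⟨h1, h2⟩
    have h3 : r1 = 0 := by
      simp only [R1, mem_image, mem_univ, true_and, Prod.mk.injEq] at h1
      obtain ⟨a, h, -⟩ := h1
      exact h.symm
    have h4 : x.2 + r2 = 0 := h2
    rw [h3, v2_eq h4]

theorem hR2 (x : LL) : ∃! r, r ∈ R1 ∧ inW 2 (x + r) := by
  refine ⟨(0, x.2 + J2 x.1), ⟨by simp [R1], ?_⟩, ?_⟩
  · show x.2 + (x.2 + J2 x.1) = J2 (x.1 + 0)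
    rw [add_zero, ← add_assoc, v2_self, zero_add]
  · rintro ⟨r1, r2⟩ ⟨h1, h2⟩
    have h3 : r1 = 0 := by
      simp only [R1, mem_image, mem_univ, true_and, Prod.mk.injEq] at h1
      obtain ⟨a, h, -⟩ := h1
      exact h.symm
    subst h3
    have h4 : x.2 + r2 = J2 (x.1 + 0) := h2
    rw [add_zero] at h4
    have h5 : r2 = x.2 + J2 x.1 := by
      rw [← h4, ← add_assoc, v2_self, zero_add]
    rw [h5]

theorem sum_R0 (f : LL → ℝ) : ∑ r ∈ R0, f r = ∑ a : V2, f (a, 0) := by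
  rw [R0, sum_image]
  intro a _ b _ h
  exact (Prod.mk.inj h).1

theorem sum_R1 (f : LL → ℝ) : ∑ r ∈ R1, f r = ∑ a : V2, f (0, a) := by
  rw [R1, sum_image]
  intro a _ b _ h
  exact (Prod.mk.inj h).2

theorem card_V2 : (Fintype.card V2 : ℝ) = 4 := by
  have : Fintype.card V2 = 4 := by decide
  rw [this]
  norm_num

theorem pre (N : ℕ) : 4 * (1 / 4 : ℝ) ^ (N + 2) * 4 ^ (N + 1) = 1 := by
  have h : (1 / 4 : ℝ) ^ (N + 1) * 4 ^ (N + 1) = 1 := by
    rw [← mul_pow]
    norm_num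
  calc 4 * (1 / 4 : ℝ) ^ (N + 2) * 4 ^ (N + 1) =
      (4 * (1 / 4)) * ((1 / 4 : ℝ) ^ (N + 1) * 4 ^ (N + 1)) := by ring
    _ = 1 := by rw [h]; norm_num

open Classical in
theorem set_le {U D : Type} [Fintype U] [DecidableEq U] [AddCommGroup D] [Module (ZMod 2) D]
    [Fintype D] {X : Dat U D} (hX : X.Good) (a0 : V2) :
    ((univ.filter fun d : D => X.yq d = X.yr d ∧ (∀ u, X.a u d = a0 ∧ X.y u d = 0) ∧
      X.aq d + X.ar d = a0 ∧ X.yq d = 0).card : ℝ) ≤ (X.Str : ℝ) := by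
  obtain ⟨t, ht1, ht2, ht3, ht4⟩ := hX.R2 a0
  have hs : X.Str = (univ.filter fun d : D => (∀ u, X.a u d = 0 ∧ X.y u d = 0) ∧ X.yq d = 0 ∧
      X.yr d = 0 ∧ X.aq d = X.ar d).card := by
    unfold Dat.Str
    rw [Nat.card_eq_fintype_card, Fintype.card_subtype]
  rw [hs]
  norm_cast
  refine card_le_card_of_injOn (fun d => d + t) ?_ ?_
  · intro d hd
    simp only [coe_filter, mem_univ, true_and, Set.mem_ofPred_eq] at hd ⊢
    obtain ⟨h1, h2, h3, h4⟩ := hd
    refine ⟨fun u => ⟨?_, ?_⟩, ?_, ?_, ?_⟩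
    · rw [map_add, (h2 u).1, (ht1 u).1, v2_self]
    · rw [map_add, (h2 u).2, (ht1 u).2, add_zero]
    · rw [map_add, h4, ht2, add_zero]
    · rw [map_add, ← h1, h4, ht3, add_zero]
    · apply v2_eq
      rw [map_add, map_add]
      calc X.aq d + X.aq t + (X.ar d + X.ar t) = (X.aq d + X.ar d) + (X.aq t + X.ar t) := by abel
        _ = 0 := by rw [h3, ht4, v2_self]
  · intro d _ e _ h
    exact add_right_cancel h

open Classical in
theorem case0 {U D : Type} [Fintype U] [DecidableEq U] [Nonempty U] [AddCommGroup D] [Module (ZMod 2) D]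
    [Fintype D] {X : Dat U D} (hX : X.Good) :
    (∑ v : U → LL, ∑ vq : LL, ∑ vr : LL, if NW 0 v vq vr then X.Tm v vq vr else 0) ≤
      4 * (X.Str : ℝ) := by
  rw [sum_NW X 0 R0 hR0, sum_R0]
  have h1 : ∀ a0 : V2, (∑ d : D, if X.yq d = X.yr d then
      (∏ u, cS 0 (a0, 0) (X.a u d) (X.y u d)) * cS 0 (a0, 0) (X.aq d + X.ar d) (X.yq d) else 0) =
      4 ^ (Fintype.card U + 1) * ((univ.filter fun d : D => X.yq d = X.yr d ∧
        (∀ u, X.a u d = a0 ∧ X.y u d = 0) ∧ X.aq d + X.ar d = a0 ∧ X.yq d = 0).card : ℝ) := by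
    intro a0
    rw [card_filter]
    push_cast
    rw [mul_sum]
    refine sum_congr rfl fun d _ => ?_
    by_cases hq : X.yq d = X.yr d
    · rw [if_pos hq]
      by_cases hu : ∀ u, X.a u d = a0 ∧ X.y u d = 0
      · have e1 : ∏ u, cS 0 (a0, 0) (X.a u d) (X.y u d) = 4 ^ (Fintype.card U) := by
          rw [prod_congr rfl (fun u _ => ?_ : ∀ u ∈ univ, cS 0 (a0, 0) (X.a u d) (X.y u d) = 4)]
          · rw [prod_const, card_univ]
          · rw [cS_eq, cZ_zero, if_pos (hu u)]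
            norm_num
        rw [e1, cS_eq, cZ_zero]
        by_cases hl : X.aq d + X.ar d = a0 ∧ X.yq d = 0
        · rw [if_pos hl, if_pos ⟨hq, hu, hl.1, hl.2⟩]
          push_cast
          ring
        · rw [if_neg hl, if_neg (fun h => hl ⟨h.2.2.1, h.2.2.2⟩)]
          push_cast
          ring
      · rw [if_neg (fun h => hu h.2.1)]
        obtain ⟨u, hu⟩ := not_forall.mp hu
        have e1 : ∏ u, cS 0 (a0, 0) (X.a u d) (X.y u d) = 0 := by
          refine prod_eq_zero (mem_univ u) ?_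
          rw [cS_eq, cZ_zero, if_neg hu]
          norm_num
        rw [e1]
        ring
    · rw [if_neg hq, if_neg (fun h => hq h.1)]
      ring
  rw [sum_congr rfl fun a0 _ => h1 a0, ← mul_sum, ← mul_assoc, pre, one_mul]
  calc _ ≤ ∑ _a0 : V2, (X.Str : ℝ) := sum_le_sum fun a0 _ => set_le hX a0
    _ = 4 * (X.Str : ℝ) := by rw [sum_const, card_univ, nsmul_eq_mul, card_V2]

open Classical in
theorem case12 {U D : Type} [Fintype U] [DecidableEq U] [Nonempty U] [AddCommGroup D] [Module (ZMod 2) D]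
    [Fintype D] {X : Dat U D} (hX : X.Good) (k : Fin 6)
    (hR : ∀ x : LL, ∃! r, r ∈ R1 ∧ inW k (x + r))
    (hc : ∀ c0 a y : V2, |cZ k (0, c0) a y| = 1) :
    (∑ v : U → LL, ∑ vq : LL, ∑ vr : LL, if NW k v vq vr then X.Tm v vq vr else 0) ≤
      4 * (X.Str : ℝ) := by
  rw [sum_NW X k R1 hR, sum_R1]
  have hab : ∀ c0 a y : V2, |cS k (0, c0) a y| = 1 := by
    intro c0 a y
    rw [cS_eq, ← Int.cast_abs, hc]
    norm_num
  have h1 : ∀ c0 : V2, (∑ d : D, if X.yq d = X.yr d then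
      (∏ u, cS k (0, c0) (X.a u d) (X.y u d)) * cS k (0, c0) (X.aq d + X.ar d) (X.yq d) else 0) ≤
      4 ^ (Fintype.card U + 1) * (X.Str : ℝ) := by
    intro c0
    calc _ ≤ ∑ d : D, if X.yq d = X.yr d then (1 : ℝ) else 0 := by
          refine sum_le_sum fun d _ => ?_
          split_ifs
          · refine le_trans (le_abs_self _) (le_of_eq ?_)
            rw [abs_mul, abs_prod, hab, mul_one]
            exact prod_eq_one fun u _ => hab _ _ _
          · exact le_rfl
      _ = (Nat.card {d : D // X.yq d = X.yr d} : ℝ) := by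
          rw [Nat.card_eq_fintype_card, Fintype.card_subtype, card_filter]
          push_cast
          rfl
      _ ≤ _ := by
          have := card_le hX
          exact_mod_cast this
  calc _ ≤ 4 * (1 / 4 : ℝ) ^ (Fintype.card U + 2) * ∑ _c0 : V2, 4 ^ (Fintype.card U + 1) * (X.Str : ℝ) :=
        mul_le_mul_of_nonneg_left (sum_le_sum fun c0 _ => h1 c0) (by positivity)
    _ = 4 * (X.Str : ℝ) := by
        rw [sum_const, card_univ, nsmul_eq_mul, card_V2]
        calc 4 * (1 / 4 : ℝ) ^ (Fintype.card U + 2) * (4 * (4 ^ (Fintype.card U + 1) * (X.Str : ℝ))) =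
            (4 * (1 / 4 : ℝ) ^ (Fintype.card U + 2) * 4 ^ (Fintype.card U + 1)) * (4 * (X.Str : ℝ)) := by ring
          _ = _ := by rw [pre, one_mul]

end A5

open Classical in
theorem NW_012 {U D : Type} [Fintype U] [DecidableEq U] [Nonempty U] [AddCommGroup D] [Module (ZMod 2) D]
    [Fintype D] {X : Dat U D} (hX : X.Good) (k : Fin 6) (hk : (k : ℕ) < 3) :
    (∑ v : U → LL, ∑ vq : LL, ∑ vr : LL, if NW k v vq vr then X.Tm v vq vr else 0) ≤
      4 * (X.Str : ℝ) := by
  have hk' : k = 0 ∨ k = 1 ∨ k = 2 := by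
    revert hk
    revert k
    decide
  rcases hk' with rfl | rfl | rfl
  · exact A5.case0 hX
  · exact A5.case12 hX 1 A5.hR1 A5.cZ_one
  · exact A5.case12 hX 2 A5.hR2 A5.cZ_two

end Pool.Agent.H77.K3
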