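import Pool.Agent.H77.K3.A1
import Pool.Agent.H77.K3.A5
import Pool.Agent.H77.K3.A6
import Pool.Agent.H77.K3.A7

/-!
# A8: the main algebraic inequality

`All ≤ 12 Str + 4 (1/2)^J (Km_3 + Km_4 + Km_5) + 2^20 (1/2)^J 4^(card U - J) K0
  + (sum over the coupled patterns of Tm)`, `J = card M ≥ 1`.

Proof. `All` is the sum of `Tm` over all patterns (`sum_Tm`), that is, over the coupled ones and the
uncoupled ones. Call a pattern degenerate if `v` takes at most two values on `M`.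

An uncoupled pattern which is not degenerate satisfies `NW k` for exactly one `k`: let `i0, i1, i2 ∈
M` with distinct values; put `x = v i0 + v i1`, `y = v i0 + v i2`: nonzero, distinct, and
`QQ x = QQ y = QQ (x + y) = 0` (uncoupled; `x + y = v i1 + v i2`). By `plane` there is exactly one
`k` with `inW k x`, `inW k y`. For `u ∈ U` the vector `v i0 + v u` is singular, and
`(v i0 + v u) + x = v i1 + v u`, `(v i0 + v u) + y = v i2 + v u` are singular, so
`inW k (v i0 + v u)`; the same for `v i0 + vq + vr`. Hence `NW k` (by `inW_add`).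
Conversely, if `NW k` then the pattern is uncoupled (`QQ_of_inW`), and for a nondegenerate pattern
`k` is unique (`plane`).
So `sum over uncoupled = sum over (uncoupled, degenerate) + sum over k of
[sum over NW k - sum over (NW k, degenerate)]`, and the degenerate sums (seven of them) are each at
most `card_deg * (1/4)^(card U + 2) * K0` in absolute value (`Tm_le`), where
`16^2 * 2^J * 16^(l+2) * (1/4)^(J+l+2) = 2^8 * (1/2)^J * 4^(l+2)`, `l = card U - J`; and
`7 * 2^8 * 4^2 ≤ 2^20`. The sums over `NW k` are bounded by `NW_012` (`3 * 4 = 12`) and `NW_345`.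
-/

set_option autoImplicit false

namespace Pool.Agent.H77.K3

open Finset Pool.Agent.H77.SV

private lemma add_self' (a : LL) : a + a = 0 := by
  revert a; decide

private lemma canc (a u b : LL) : (a + u) + (a + b) = b + u := by
  have h : (a + u) + (a + b) = (a + a) + (b + u) := by abel
  rw [h, add_self', zero_add]

private lemma canc3 (a s t b : LL) : (a + s + t) + (a + b) = b + s + t := by
  have h : (a + s + t) + (a + b) = (a + a) + (b + s + t) := by abel
  rw [h, add_self', zero_add]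

private lemma canc4 (a u s t : LL) : (a + u) + (a + s + t) = u + s + t := by
  have h : (a + u) + (a + s + t) = (a + a) + (u + s + t) := by abel
  rw [h, add_self', zero_add]

private lemma add_ne_zero' {a b : LL} (h : a ≠ b) : a + b ≠ 0 := by
  intro h0
  apply h
  have : a = (a + b) + b := by rw [add_assoc, add_self', add_zero]
  rw [this, h0, zero_add]

private lemma unc_of_NW {U : Type} {M : Finset U} {k : Fin 6} {v : U → LL} {vq vr : LL}
    (h : NW k v vq vr) : Unc M v vq vr :=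
  ⟨fun i _ u => QQ_of_inW k _ (h.1 i u), fun i _ => QQ_of_inW k _ (h.2 i)⟩

open Classical in
private lemma ex_unique {U : Type} {M : Finset U} {v : U → LL} {vq vr : LL}
    (h : Unc M v vq vr) (hd : ¬ (M.image v).card ≤ 2) :
    ∃ k, NW k v vq vr ∧ ∀ k', NW k' v vq vr → k' = k := by
  rw [not_le, Finset.two_lt_card_iff] at hd
  obtain ⟨a, b, c, ha, hb, hc, hab, hac, hbc⟩ := hd
  obtain ⟨i0, hi0, rfl⟩ := mem_image.1 ha
  obtain ⟨i1, hi1, rfl⟩ := mem_image.1 hb
  obtain ⟨i2, hi2, rfl⟩ := mem_image.1 hc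
  have hx : v i0 + v i1 ≠ 0 := add_ne_zero' hab
  have hy : v i0 + v i2 ≠ 0 := add_ne_zero' hac
  have hxy : v i0 + v i1 ≠ v i0 + v i2 := fun e => hbc (add_left_cancel e)
  have h3 : QQ (v i0 + v i1 + (v i0 + v i2)) = 0 := by
    rw [canc]; exact h.1 i2 hi2 i1
  obtain ⟨k, hkx, hky, hk, hu⟩ := plane _ _ hx hy hxy (h.1 i0 hi0 i1) (h.1 i0 hi0 i2) h3
  have h0 : ∀ u, inW k (v i0 + v u) := by
    intro u
    refine hk _ (h.1 i0 hi0 u) ?_ ?_
    · rw [canc]; exact h.1 i1 hi1 u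
    · rw [canc]; exact h.1 i2 hi2 u
  have h1 : inW k (v i0 + vq + vr) := by
    refine hk _ (h.2 i0 hi0) ?_ ?_
    · rw [canc3]; exact h.2 i1 hi1
    · rw [canc3]; exact h.2 i2 hi2
  refine ⟨k, ⟨fun u u' => ?_, fun u => ?_⟩, fun k' hk' => hu k' (hk'.1 i0 i1) (hk'.1 i0 i2)⟩
  · have := inW_add k _ _ (h0 u') (h0 u)
    rwa [canc] at this
  · have := inW_add k _ _ (h0 u) h1
    rwa [canc4] at this

open Classical in
private lemma pt {U : Type} (M : Finset U) (f : (U → LL) × LL × LL → ℝ)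
    (x : (U → LL) × LL × LL) :
    f x = (if Unc M x.1 x.2.1 x.2.2 then 0 else f x) +
      (if Unc M x.1 x.2.1 x.2.2 ∧ (M.image x.1).card ≤ 2 then f x else 0) +
      ∑ k : Fin 6, (if NW k x.1 x.2.1 x.2.2 then f x else 0) -
      ∑ k : Fin 6, (if NW k x.1 x.2.1 x.2.2 ∧ (M.image x.1).card ≤ 2 then f x else 0) := by
  by_cases hU : Unc M x.1 x.2.1 x.2.2
  · by_cases hd : (M.image x.1).card ≤ 2
    · simp [hU, hd]
    · obtain ⟨k, hk, hu⟩ := ex_unique hU hd
      have h1 : ∑ k : Fin 6, (if NW k x.1 x.2.1 x.2.2 then f x else 0) = f x := by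
        rw [Finset.sum_eq_single k]
        · rw [if_pos hk]
        · intro b _ hb
          exact if_neg fun h => hb (hu b h)
        · intro h
          exact absurd (mem_univ _) h
      rw [h1]
      simp [hU, hd]
  · have h0 : ∀ k, ¬ NW k x.1 x.2.1 x.2.2 := fun k h => hU (unc_of_NW h)
    simp [hU, h0]

open Classical in
private lemma deg_bd {U : Type} [Fintype U] [DecidableEq U] (M : Finset U)
    (f : (U → LL) × LL × LL → ℝ) (c : ℝ) (hc : 0 ≤ c) (hf : ∀ x, |f x| ≤ c)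
    (p : (U → LL) × LL × LL → Prop) :
    |∑ x : (U → LL) × LL × LL, (if p x ∧ (M.image x.1).card ≤ 2 then f x else 0)| ≤
      (16 ^ 2 * 2 ^ M.card * 16 ^ (Fintype.card U - M.card + 2) : ℝ) * c := by
  calc |∑ x : (U → LL) × LL × LL, (if p x ∧ (M.image x.1).card ≤ 2 then f x else 0)|
      ≤ ∑ x : (U → LL) × LL × LL, |if p x ∧ (M.image x.1).card ≤ 2 then f x else 0| :=
        Finset.abs_sum_le_sum_abs _ _
    _ ≤ ∑ x : (U → LL) × LL × LL, (if (M.image x.1).card ≤ 2 then c else 0) := by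
        refine sum_le_sum fun x _ => ?_
        by_cases hd : (M.image x.1).card ≤ 2
        · by_cases hp : p x
          · rw [if_pos ⟨hp, hd⟩, if_pos hd]; exact hf x
          · rw [if_neg fun h => hp h.1, if_pos hd, abs_zero]; exact hc
        · rw [if_neg fun h => hd h.2, if_neg hd, abs_zero]
    _ = (((univ : Finset ((U → LL) × LL × LL)).filter
          fun x => (M.image x.1).card ≤ 2).card : ℝ) * c := by
        rw [← sum_filter, sum_const, nsmul_eq_mul]
    _ ≤ _ := by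
        refine mul_le_mul_of_nonneg_right ?_ hc
        have := card_deg (U := U) M
        exact_mod_cast this

open Classical in
theorem alg_main {U D : Type} [Fintype U] [DecidableEq U] [AddCommGroup D] [Module (ZMod 2) D]
    [Fintype D] {X : Dat U D} (hX : X.Good) (M : Finset U) (hM : 1 ≤ M.card) :
    (X.All : ℝ) ≤ 12 * X.Str +
      4 * (1 / 2 : ℝ) ^ M.card * (X.Km M (1, 0) + X.Km M (0, 1) + X.Km M (1, 1) : ℝ) +
      2 ^ 20 * (1 / 2 : ℝ) ^ M.card * 4 ^ (Fintype.card U - M.card) * X.K0 +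
      ∑ v : U → LL, ∑ vq : LL, ∑ vr : LL, if Unc M v vq vr then 0 else X.Tm v vq vr := by
  obtain ⟨u0, hu0⟩ := card_pos.1 (by omega : 0 < M.card)
  have : Nonempty U := ⟨u0⟩
  set f : (U → LL) × LL × LL → ℝ := fun x => X.Tm x.1 x.2.1 x.2.2 with hf
  set c : ℝ := (1 / 4 : ℝ) ^ (Fintype.card U + 2) * X.K0 with hc
  have hc0 : 0 ≤ c := by positivity
  have hfc : ∀ x, |f x| ≤ c := fun x => Tm_le X _ _ _
  have e1 : ∀ g : (U → LL) → LL → LL → ℝ, ∑ v : U → LL, ∑ vq : LL, ∑ vr : LL, g v vq vr =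
      ∑ x : (U → LL) × LL × LL, g x.1 x.2.1 x.2.2 := by
    intro g
    have h1 := Fintype.sum_prod_type (fun x : (U → LL) × (LL × LL) => g x.1 x.2.1 x.2.2)
    rw [h1]
    refine sum_congr rfl fun v _ => ?_
    exact (Fintype.sum_prod_type (fun x : LL × LL => g v x.1 x.2)).symm
  have hall : (X.All : ℝ) = ∑ x, f x := by
    rw [← sum_Tm X, e1]
  have hNW : ∀ k : Fin 6, ∑ x : (U → LL) × LL × LL, (if NW k x.1 x.2.1 x.2.2 then f x else 0) =
      ∑ v : U → LL, ∑ vq : LL, ∑ vr : LL, if NW k v vq vr then X.Tm v vq vr else 0 := by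
    intro k
    rw [e1]
  have hco : ∑ x : (U → LL) × LL × LL, (if Unc M x.1 x.2.1 x.2.2 then 0 else f x) =
      ∑ v : U → LL, ∑ vq : LL, ∑ vr : LL, if Unc M v vq vr then 0 else X.Tm v vq vr := by
    rw [e1]
  have hsum : ∑ x, f x = ∑ x : (U → LL) × LL × LL, (if Unc M x.1 x.2.1 x.2.2 then 0 else f x) +
      ∑ x : (U → LL) × LL × LL,
        (if Unc M x.1 x.2.1 x.2.2 ∧ (M.image x.1).card ≤ 2 then f x else 0) +
      ∑ k : Fin 6, ∑ x : (U → LL) × LL × LL, (if NW k x.1 x.2.1 x.2.2 then f x else 0) -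
      ∑ k : Fin 6, ∑ x : (U → LL) × LL × LL,
        (if NW k x.1 x.2.1 x.2.2 ∧ (M.image x.1).card ≤ 2 then f x else 0) := by
    rw [sum_comm (s := (univ : Finset (Fin 6))), sum_comm (s := (univ : Finset (Fin 6))),
      ← sum_add_distrib, ← sum_add_distrib, ← sum_sub_distrib]
    exact sum_congr rfl fun x _ => pt M f x
  set B : ℝ := (16 ^ 2 * 2 ^ M.card * 16 ^ (Fintype.card U - M.card + 2) : ℝ) * c with hB
  have b1 : |∑ x : (U → LL) × LL × LL,
      (if Unc M x.1 x.2.1 x.2.2 ∧ (M.image x.1).card ≤ 2 then f x else 0)| ≤ B :=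
    deg_bd M f c hc0 hfc fun x => Unc M x.1 x.2.1 x.2.2
  have b2 : ∀ k : Fin 6, |∑ x : (U → LL) × LL × LL,
      (if NW k x.1 x.2.1 x.2.2 ∧ (M.image x.1).card ≤ 2 then f x else 0)| ≤ B := fun k =>
    deg_bd M f c hc0 hfc fun x => NW k x.1 x.2.1 x.2.2
  have b3 : -(6 * B) ≤ ∑ k : Fin 6, ∑ x : (U → LL) × LL × LL,
      (if NW k x.1 x.2.1 x.2.2 ∧ (M.image x.1).card ≤ 2 then f x else 0) := by
    have : ∑ k : Fin 6, (-B) ≤ ∑ k : Fin 6, ∑ x : (U → LL) × LL × LL,
        (if NW k x.1 x.2.1 x.2.2 ∧ (M.image x.1).card ≤ 2 then f x else 0) :=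
      sum_le_sum fun k _ => (abs_le.1 (b2 k)).1
    simpa using this
  have hcard : M.card ≤ Fintype.card U := card_le_univ M
  have hBv : B = 2 ^ 12 * (1 / 2 : ℝ) ^ M.card * 4 ^ (Fintype.card U - M.card) * X.K0 := by
    obtain ⟨l, hl⟩ := Nat.exists_eq_add_of_le hcard
    rw [hB, hc, hl, Nat.add_sub_cancel_left]
    have h1 : (16 : ℝ) ^ (l + 2) = 4 ^ l * 4 ^ l * 256 := by
      rw [pow_add, ← mul_pow]; norm_num
    have h2 : (1 / 4 : ℝ) ^ (M.card + l + 2) = (1 / 4) ^ M.card * (1 / 4) ^ l * (1 / 16) := by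
      rw [pow_add, pow_add]; norm_num
    have h3 : (2 : ℝ) ^ M.card * (1 / 4) ^ M.card = (1 / 2) ^ M.card := by
      rw [← mul_pow]; norm_num
    have h4 : (4 : ℝ) ^ l * (1 / 4) ^ l = 1 := by
      rw [← mul_pow]; norm_num
    rw [h1, h2]
    calc (16 ^ 2 * 2 ^ M.card * (4 ^ l * 4 ^ l * 256) : ℝ) *
        ((1 / 4) ^ M.card * (1 / 4) ^ l * (1 / 16) * X.K0)
        = 2 ^ 12 * ((2 : ℝ) ^ M.card * (1 / 4) ^ M.card) * (4 ^ l * (1 / 4) ^ l) * 4 ^ l * X.K0 := by
          ring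
      _ = _ := by rw [h3, h4]; ring
  have hBn : 0 ≤ B := by positivity
  have s6 : ∑ k : Fin 6, ∑ x : (U → LL) × LL × LL, (if NW k x.1 x.2.1 x.2.2 then f x else 0) ≤
      12 * X.Str + 4 * (1 / 2 : ℝ) ^ M.card *
        (X.Km M (1, 0) + X.Km M (0, 1) + X.Km M (1, 1) : ℝ) := by
    rw [Fin.sum_univ_six]
    have n0 := NW_012 hX 0 (by decide)
    have n1 := NW_012 hX 1 (by decide)
    have n2 := NW_012 hX 2 (by decide)
    have n3 := NW_345 hX M 3 (by decide)
    have n4 := NW_345 hX M 4 (by decide)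
    have n5 := NW_345 hX M 5 (by decide)
    rw [← hNW] at n0 n1 n2 n3 n4 n5
    have t3 : tk 3 = (1, 0) := by decide
    have t4 : tk 4 = (0, 1) := by decide
    have t5 : tk 5 = (1, 1) := by decide
    rw [t3] at n3
    rw [t4] at n4
    rw [t5] at n5
    linarith
  rw [hall, hsum, ← hco]
  have b1' := (abs_le.1 b1).2
  have hB20 : 7 * B ≤ 2 ^ 20 * (1 / 2 : ℝ) ^ M.card * 4 ^ (Fintype.card U - M.card) * X.K0 := by
    have : 2 ^ 20 * (1 / 2 : ℝ) ^ M.card * 4 ^ (Fintype.card U - M.card) * X.K0 = 2 ^ 8 * B := by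
      rw [hBv]; ring
    rw [this]
    nlinarith
  linarith

end Pool.Agent.H77.K3
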