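import Pool.Agent.H77.K3.B1
import Pool.Agent.H77.SV.Lc

/-!
# B3: the torsion vectors

For `Y, Z` with `Nice Y Z` the vector `tor Y Z τ` is in the Selmer group, for every `τ ∈ F_2^2`.
(`tor` is additive in `τ`, so it suffices to treat `τ = (1,0)` and `τ = (0,1)`: `Sl Y Z` is a
subgroup.) Write `X = Y + Z = 2 X'`; then `X' = 7 mod 8`, `X', Y, Z` are odd, squarefree and pairwise
coprime, `oddP Y Z` is the disjoint union of the sets of primes of `X'`, `Y`, `Z`.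

`τ = (1,0)`: values `(1,0)` on `X'`, `(0,1)` on `Y`, `(1,1)` on `Z`, `s = (0,1)`, `t = (1,0)`.
(The integers are `D1 = X Z`, `D2 = -Y Z`.) `τ = (0,1)`: `(0,1)` on `X'`, `(1,1)` on `Y`, `(1,0)` on
`Z`, `s = 0`, `t = (0,1)` (`D1 = Y Z`, `D2 = X Y`).

Condition at 2: `sum_(p | N) bt p 2` is `1` iff `N = 3, 5 mod 8` (product of the classes mod 8, the
map `u ↦ [u = 3, 5 mod 8]` is a homomorphism on odd classes), and `sum_(p | N) bt p (-1)` is `1` iff
`N = 3 mod 4` (`N` odd squarefree). `τ = (1,0)`: `cL1 = bit2 (X' Z)`, `X' Z = 1 mod 8`: `0`.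
`cL2 = bit4 (Y Z) + 1 + 1`, `Y Z = 1 mod 8`: `0`. `cL3 = bit2 (Y Z) + bit4 (X' Z) = 0`. `τ = (0,1)`:
`cL1 = bit2 (Y Z) = 0`, `cL2 = bit4 (X' Y) + 0 + 0 = 0`, `cL3 = bit2 (X' Y) + bit4 (Y Z) = 0`.

Conditions at `p ∈ oddP`: by `bt_prod` the sum over `q ≠ p` with `bt p 2 • t + bt p (-1) • s` is
`(bt p D1_p, bt p D2_p)`, `D_p` = `D` without the prime `p`. We use `bt_congr`, `bt_mul`, `bt_sq`.
`ε = bt p (-1)`.
* `τ = (1,0)`, `p | X'`, `X_p = X / p`: `rho = bt p (X_p Z)`, `v_p = (1,0)`, `NN = 0`. First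
  coordinate: `bt p (X_p Z) + rho = 0`. Second: `bt p (-Y Z) = bt p (Y^2) = 0` (`Z = -Y mod p`).
* `τ = (1,0)`, `p | Y`: `rho = bt p (Y_p Z)`, `v_p = (0,1)`, `NN = (0, ε)`. First: `bt p (X Z) =
  bt p (Z^2) = 0` (`X = Z mod p`). Second: `bt p (-Y_p Z) + rho + ε = 0`.
* `τ = (1,0)`, `p | Z`: `rho = bt p (X Z_p)`, `v_p = (1,1)`, `NN = (0, ε)`. First:
  `bt p (X Z_p) + rho = 0`. Second: `bt p (-Y Z_p) + rho + ε = 0` as `X = Y mod p`.
* `τ = (0,1)`, `p | X'`: `v_p = (0,1)`, `NN = (ε, ε)`. First: `bt p (Y Z) + ε = bt p (-Y^2) + ε = 0`.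
  Second: `bt p (X_p Y) + rho + ε = bt p (X_p^2 Y Z) + ε = 0`.
* `τ = (0,1)`, `p | Y`: `v_p = (1,1)`, `NN = (0, 0)`. First: `bt p (Y_p Z) + rho = 0`. Second:
  `bt p (X Y_p) + rho = 0` (`X = Z mod p`).
* `τ = (0,1)`, `p | Z`: `v_p = (1,0)`, `NN = (0, ε * 0) = 0`. First: `bt p (Y Z_p) + rho = 0`
  (`X = Y mod p`). Second: `bt p (X Y) = bt p (Y^2) = 0`.
-/

set_option autoImplicit false

namespace Pool.Agent.H77.K3

open Finset Pool.Agent.H77.SV

/-- the pairs for which the descent is carried out -/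
structure Nice (Y Z : ℕ) : Prop where
  hY : Y % 16 = 7
  hZ : Z % 16 = 7
  hc : Y.Coprime Z
  hw : ∀ p : ℕ, p.Prime → p ≠ 2 → p ≤ 384 → ¬ p ∣ (Y + Z) * Y * Z
  hsq : ∀ p : ℕ, p.Prime → p ≠ 2 → ¬ p ^ 2 ∣ (Y + Z) * Y * Z

/-- the torsion vectors -/
def tor (Y Z : ℕ) (τ : V2) : EE :=
  (fun p => if p ∈ oddP Y Z then
      (if typ Y Z p = 0 then τ else if typ Y Z p = 1 then (τ.2, τ.1 + τ.2) else (τ.1 + τ.2, τ.1))
    else 0, (0, τ.1), τ)

private theorem b3_self {p : ℕ} (hp : p.Prime) : bt p (p : ℤ) = 0 := by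
  have h : bt p (p : ℤ) = bt p 0 := bt_congr (Int.modEq_zero_iff_dvd.2 dvd_rfl)
  rw [h]
  unfold bt
  rw [jacobiSym.zero_left hp.one_lt]
  decide

private theorem b3_sum2 (S : Finset ℕ) : (∀ p ∈ S, p.Prime ∧ p ≠ 2) →
    (∑ p ∈ S, bt p 2 = if (∏ p ∈ S, p) % 8 = 3 ∨ (∏ p ∈ S, p) % 8 = 5 then 1 else 0) ∧
    (∑ p ∈ S, bt p (-1) = if (∏ p ∈ S, p) % 4 = 3 then 1 else 0) ∧ (∏ p ∈ S, p) % 2 = 1 := by
  classical
  induction S using Finset.induction_on with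
  | empty => intro _; simp
  | insert a S ha ih =>
    intro h
    obtain ⟨h1, h2, h3⟩ := ih fun p hp => h p (mem_insert_of_mem hp)
    obtain ⟨hp, hp2⟩ := h a (mem_insert_self _ _)
    have hodd : a % 2 = 1 := hp.eq_two_or_odd.resolve_left hp2
    rw [sum_insert ha, sum_insert ha, prod_insert ha, h1, h2, bt_two hp hp2, bt_neg_one hp hp2]
    generalize (∏ p ∈ S, p) = N at *
    have e8 : a * N % 8 = (a % 8) * (N % 8) % 8 := Nat.mul_mod a N 8
    have e4 : a * N % 4 = (a % 4) * (N % 4) % 4 := Nat.mul_mod a N 4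
    have e2 : a * N % 2 = (a % 2) * (N % 2) % 2 := Nat.mul_mod a N 2
    have ea : a % 8 = 1 ∨ a % 8 = 3 ∨ a % 8 = 5 ∨ a % 8 = 7 := by omega
    have eN : N % 8 = 1 ∨ N % 8 = 3 ∨ N % 8 = 5 ∨ N % 8 = 7 := by omega
    have ea4 : a % 4 = (a % 8) % 4 := by omega
    have eN4 : N % 4 = (N % 8) % 4 := by omega
    rw [e8, e4, e2, hodd, h3, ea4, eN4]
    rcases ea with h5 | h5 | h5 | h5 <;> rcases eN with h6 | h6 | h6 | h6 <;> rw [h5, h6] <;> decide

private theorem b3_pf {N : ℕ} (hN : Squarefree N) (ho : N % 2 = 1) :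
    (∑ p ∈ N.primeFactors, bt p 2 = if N % 8 = 3 ∨ N % 8 = 5 then 1 else 0) ∧
    (∑ p ∈ N.primeFactors, bt p (-1) = if N % 4 = 3 then 1 else 0) := by
  have h := b3_sum2 N.primeFactors fun p hp => by
    refine ⟨Nat.prime_of_mem_primeFactors hp, fun h2 => ?_⟩
    have := Nat.dvd_of_mem_primeFactors hp
    rw [h2] at this
    omega
  rw [Nat.prod_primeFactors_of_squarefree hN] at h
  exact ⟨h.1, h.2.1⟩

private theorem b3_C {p N : ℕ} (hp : p.Prime) (hN : Squarefree N) (hd : ¬ p ∣ N) :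
    ∑ q ∈ N.primeFactors, bt p (q : ℤ) = bt p (N : ℤ) := by
  have h := bt_prod hp N.primeFactors (fun q => (q : ℤ)) fun q hq h => hd
    ((Int.natCast_dvd_natCast.1 h).trans (Nat.dvd_of_mem_primeFactors hq))
  rw [← h.1, ← Nat.cast_prod, Nat.prod_primeFactors_of_squarefree hN]

private theorem b3_Cd {p N : ℕ} (hp : p.Prime) (hN : Squarefree N) (hd : p ∣ N) :
    ∑ q ∈ N.primeFactors, bt p (q : ℤ) = bt p ((N / p : ℕ) : ℤ) ∧ ¬ p ∣ N / p := by
  have hN0 : N ≠ 0 := hN.ne_zero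
  obtain ⟨M, rfl⟩ := hd
  have hM : M ≠ 0 := fun h => hN0 (by rw [h, mul_zero])
  have hpM : ¬ p ∣ M := by
    intro h
    have h1 : p * p ∣ p * M := Nat.mul_dvd_mul_left p h
    have h2 := hN p h1
    exact hp.one_lt.ne' (Nat.isUnit_iff.1 h2)
  have hMs : Squarefree M := hN.squarefree_of_dvd (Dvd.intro_left p rfl)
  rw [Nat.mul_div_cancel_left M hp.pos, Nat.primeFactors_mul hp.ne_zero hM, hp.primeFactors,
    sum_union (by
      rw [Finset.disjoint_singleton_left]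
      exact fun h => hpM (Nat.dvd_of_mem_primeFactors h)), sum_singleton, b3_self hp, zero_add]
  exact ⟨b3_C hp hMs hpM, hpM⟩

/-- facts -/
private structure B3 (Y Z X : ℕ) : Prop where
  hX : Y + Z = 2 * X
  sX : Squarefree X
  sY : Squarefree Y
  sZ : Squarefree Z
  oX : X % 8 = 7
  oY : Y % 8 = 7
  oZ : Z % 8 = 7
  XY : ∀ p : ℕ, p.Prime → p ∣ X → p ∣ Y → False
  XZ : ∀ p : ℕ, p.Prime → p ∣ X → p ∣ Z → False
  YZ : ∀ p : ℕ, p.Prime → p ∣ Y → p ∣ Z → False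

private theorem b3_facts {Y Z : ℕ} (h : Nice Y Z) : ∃ X, B3 Y Z X := by
  have h1 := h.hY
  have h2 := h.hZ
  have hYZ : ∀ p : ℕ, p.Prime → p ∣ Y → p ∣ Z → False := fun p hp h1 h2 =>
    hp.one_lt.ne' (Nat.dvd_one.1 (h.hc ▸ Nat.dvd_gcd h1 h2))
  have hsq : ∀ N : ℕ, N % 2 = 1 → N ∣ (Y + Z) * Y * Z → Squarefree N := by
    intro N hN hd
    rw [Nat.squarefree_iff_prime_squarefree]
    intro p hp hpp
    have hp2 : p ≠ 2 := by
      rintro rfl
      omega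
    refine h.hsq p hp hp2 ?_
    rw [sq]
    exact hpp.trans hd
  refine ⟨(Y + Z) / 2, ⟨by omega, hsq _ (by omega) ?_, hsq _ (by omega) ?_, hsq _ (by omega) ?_,
    by omega, by omega, by omega, ?_, ?_, hYZ⟩⟩
  · have h3 : (Y + Z) / 2 ∣ Y + Z := ⟨2, by omega⟩
    exact dvd_mul_of_dvd_left (dvd_mul_of_dvd_left h3 _) _
  · exact dvd_mul_of_dvd_left (dvd_mul_left _ _) _
  · exact dvd_mul_left _ _
  · intro p hp hX hY
    have h3 : (Y + Z) / 2 ∣ Y + Z := ⟨2, by omega⟩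
    exact hYZ p hp hY ((Nat.dvd_add_right hY).1 (hX.trans h3))
  · intro p hp hX hZ
    have h3 : (Y + Z) / 2 ∣ Y + Z := ⟨2, by omega⟩
    exact hYZ p hp ((Nat.dvd_add_left hZ).1 (hX.trans h3)) hZ

private theorem b3_odd {Y Z X : ℕ} (h : B3 Y Z X) :
    oddP Y Z = X.primeFactors ∪ Y.primeFactors ∪ Z.primeFactors := by
  have h1 := h.oX
  have h2 := h.oY
  have h3 := h.oZ
  have hX0 : X ≠ 0 := by omega
  have hY0 : Y ≠ 0 := by omega
  have hZ0 : Z ≠ 0 := by omega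
  unfold oddP
  rw [h.hX, Nat.primeFactors_mul (by positivity) hZ0, Nat.primeFactors_mul (by positivity) hY0,
    Nat.primeFactors_mul (by norm_num) hX0, Nat.prime_two.primeFactors]
  ext p
  simp only [mem_erase, mem_union, mem_singleton]
  constructor
  · rintro ⟨h4, ((h5 | h5) | h5) | h5⟩
    · exact absurd h5 h4
    · exact Or.inl (Or.inl h5)
    · exact Or.inl (Or.inr h5)
    · exact Or.inr h5
  · intro h4
    refine ⟨?_, ?_⟩
    · rintro rfl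
      rcases h4 with (h4 | h4) | h4 <;> have := Nat.dvd_of_mem_primeFactors h4 <;> omega
    · rcases h4 with (h4 | h4) | h4
      · exact Or.inl (Or.inl (Or.inr h4))
      · exact Or.inl (Or.inr h4)
      · exact Or.inr h4

private theorem b3_split {Y Z X : ℕ} (h : B3 Y Z X) {A : Type} [AddCommMonoid A] (g : ℕ → A) :
    ∑ q ∈ oddP Y Z, g q = ∑ q ∈ X.primeFactors, g q + ∑ q ∈ Y.primeFactors, g q +
      ∑ q ∈ Z.primeFactors, g q := by
  rw [b3_odd h, sum_union, sum_union]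
  · rw [Finset.disjoint_left]
    intro p h1 h2
    exact h.XY p (Nat.prime_of_mem_primeFactors h1) (Nat.dvd_of_mem_primeFactors h1)
      (Nat.dvd_of_mem_primeFactors h2)
  · rw [Finset.disjoint_left]
    intro p h1 h2
    rcases mem_union.1 h1 with h1 | h1
    · exact h.XZ p (Nat.prime_of_mem_primeFactors h1) (Nat.dvd_of_mem_primeFactors h1)
        (Nat.dvd_of_mem_primeFactors h2)
    · exact h.YZ p (Nat.prime_of_mem_primeFactors h1) (Nat.dvd_of_mem_primeFactors h1)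
        (Nat.dvd_of_mem_primeFactors h2)

private theorem b3_val {Y Z X : ℕ} (h : B3 Y Z X) (τ : V2) :
    (∀ p ∈ X.primeFactors, (tor Y Z τ).1 p = τ) ∧
    (∀ p ∈ Y.primeFactors, (tor Y Z τ).1 p = (τ.2, τ.1 + τ.2)) ∧
    (∀ p ∈ Z.primeFactors, (tor Y Z τ).1 p = (τ.1 + τ.2, τ.1)) := by
  refine ⟨fun p hp => ?_, fun p hp => ?_, fun p hp => ?_⟩
  · have h1 := Nat.prime_of_mem_primeFactors hp
    have h2 := Nat.dvd_of_mem_primeFactors hp
    have h3 : p ∈ oddP Y Z := by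
      rw [b3_odd h]
      exact mem_union_left _ (mem_union_left _ hp)
    have h4 : ¬ p ∣ Y := fun h5 => h.XY p h1 h2 h5
    have h5 : ¬ p ∣ Z := fun h5 => h.XZ p h1 h2 h5
    simp [tor, typ, h3, h4, h5]
  · have h1 := Nat.prime_of_mem_primeFactors hp
    have h2 := Nat.dvd_of_mem_primeFactors hp
    have h3 : p ∈ oddP Y Z := by
      rw [b3_odd h]
      exact mem_union_left _ (mem_union_right _ hp)
    simp [tor, typ, h3, h2]
  · have h1 := Nat.prime_of_mem_primeFactors hp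
    have h2 := Nat.dvd_of_mem_primeFactors hp
    have h3 : p ∈ oddP Y Z := by
      rw [b3_odd h]
      exact mem_union_right _ hp
    have h4 : ¬ p ∣ Y := fun h5 => h.YZ p h1 h5 h2
    simp [tor, typ, h3, h4, h2]

private theorem b3_sum {Y Z X : ℕ} (h : B3 Y Z X) (τ : V2) {p : ℕ} (hp : p.Prime) :
    ∑ q ∈ (oddP Y Z).erase p, bt p q • (tor Y Z τ).1 q =
      (∑ q ∈ X.primeFactors, bt p (q : ℤ)) • τ +
      (∑ q ∈ Y.primeFactors, bt p (q : ℤ)) • ((τ.2, τ.1 + τ.2) : V2) +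
      (∑ q ∈ Z.primeFactors, bt p (q : ℤ)) • ((τ.1 + τ.2, τ.1) : V2) := by
  obtain ⟨h1, h2, h3⟩ := b3_val h τ
  have h4 : ∑ q ∈ (oddP Y Z).erase p, bt p q • (tor Y Z τ).1 q =
      ∑ q ∈ oddP Y Z, bt p q • (tor Y Z τ).1 q := by
    apply sum_subset (erase_subset _ _)
    intro q hq hq'
    have h5 : q = p := by
      by_contra h6
      exact hq' (mem_erase.2 ⟨h6, hq⟩)
    rw [h5, b3_self hp, zero_smul]
  rw [h4, b3_split h, sum_smul, sum_smul, sum_smul]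
  congr 1
  · congr 1
    · exact sum_congr rfl fun q hq => by rw [h1 q hq]
    · exact sum_congr rfl fun q hq => by rw [h2 q hq]
  · exact sum_congr rfl fun q hq => by rw [h3 q hq]

private theorem b3_z {p N : ℕ} (h : ¬ p ∣ N) : ¬ (p : ℤ) ∣ (N : ℤ) := fun h1 =>
  h (Int.natCast_dvd_natCast.1 h1)

private theorem b3_bt2 {p N : ℕ} (hp : p.Prime) (h2 : p ≠ 2) (h : ¬ p ∣ N) :
    bt p ((2 * N : ℕ) : ℤ) = bt p 2 + bt p (N : ℤ) := by
  push_cast
  refine bt_mul hp ?_ (b3_z h)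
  intro h3
  have h4 : p ∣ 2 := Int.natCast_dvd_natCast.1 (by exact_mod_cast h3)
  exact h2 ((Nat.prime_dvd_prime_iff_eq hp Nat.prime_two).1 h4)

private theorem b3_y {Y Z X : ℕ} (h : B3 Y Z X) (τ : V2) {p : ℕ} (hp : p ∈ oddP Y Z) :
    yF Y Z (tor Y Z τ).1 (0, τ.1) τ p = 0 := by
  have hp1 : p.Prime := by
    unfold oddP at hp
    exact Nat.prime_of_mem_primeFactors (mem_of_mem_erase hp)
  have hp2 : p ≠ 2 := by
    unfold oddP at hp
    exact ne_of_mem_erase hp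
  obtain ⟨v1, v2, v3⟩ := b3_val h τ
  unfold yF
  rw [b3_sum h τ hp1]
  rw [b3_odd h] at hp
  rcases mem_union.1 hp with hp | hp
  · rcases mem_union.1 hp with hp | hp
    · -- p divides X
      have hd := Nat.dvd_of_mem_primeFactors hp
      have nY : ¬ p ∣ Y := fun h5 => h.XY p hp1 hd h5
      have nZ : ¬ p ∣ Z := fun h5 => h.XZ p hp1 hd h5
      obtain ⟨c1, c2⟩ := b3_Cd hp1 h.sX hd
      rw [v1 p hp, c1, b3_C hp1 h.sY nY, b3_C hp1 h.sZ nZ]
      have ht : typ Y Z p = 0 := by simp [typ, nY, nZ]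
      have hXp : (Y + Z) / p = 2 * (X / p) := by rw [h.hX, Nat.mul_div_assoc 2 hd]
      have hr : rho Y Z p = bt p 2 + bt p ((X / p : ℕ) : ℤ) + bt p (Z : ℤ) := by
        unfold rho
        rw [if_neg nY, if_neg nZ, hXp, Nat.cast_mul (2 * (X / p)) Z, bt_mul hp1 _ (b3_z nZ),
          b3_bt2 hp1 hp2 c2]
        apply b3_z
        intro h5
        rcases (Nat.Prime.dvd_mul hp1).1 h5 with h6 | h6
        · exact hp2 ((Nat.prime_dvd_prime_iff_eq hp1 Nat.prime_two).1 h6)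
        · exact c2 h6
      have hm1 : ¬ (p : ℤ) ∣ -1 := by
        intro h5
        rw [dvd_neg] at h5
        have h6 : p ∣ 1 := Int.natCast_dvd_natCast.1 (by exact_mod_cast h5)
        exact hp1.one_lt.ne' (Nat.dvd_one.1 h6)
      have hZ : bt p (Z : ℤ) = bt p (-1) + bt p (Y : ℤ) := by
        rw [← bt_mul hp1 hm1 (b3_z nY)]
        apply bt_congr
        rw [Int.modEq_iff_dvd]
        have h5 : (p : ℤ) ∣ ((Y + Z : ℕ) : ℤ) := by
          rw [h.hX]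
          exact Int.natCast_dvd_natCast.2 (dvd_mul_of_dvd_right hd 2)
        have h6 : (-1 * (Y : ℤ) - (Z : ℤ)) = -((Y + Z : ℕ) : ℤ) := by
          push_cast
          ring
        rw [h6]
        exact h5.neg_right
      rw [hr, ht, hZ]
      generalize bt p (Y : ℤ) = y
      generalize bt p (-1) = e
      generalize bt p 2 = w
      generalize bt p ((X / p : ℕ) : ℤ) = x
      clear v1 v2 v3
      obtain ⟨t1, t2⟩ := τ
      revert y e w x t1 t2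
      decide
    · have hd := Nat.dvd_of_mem_primeFactors hp
      have nX : ¬ p ∣ X := fun h5 => h.XY p hp1 h5 hd
      have nZ : ¬ p ∣ Z := fun h5 => h.YZ p hp1 hd h5
      obtain ⟨c1, c2⟩ := b3_Cd hp1 h.sY hd
      rw [v2 p hp, c1, b3_C hp1 h.sX nX, b3_C hp1 h.sZ nZ]
      have ht : typ Y Z p = 1 := by simp [typ, hd]
      have hr : rho Y Z p = bt p ((Y / p : ℕ) : ℤ) + bt p (Z : ℤ) := by
        unfold rho
        rw [if_pos hd, Nat.cast_mul, bt_mul hp1 (b3_z c2) (b3_z nZ)]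
      have hZ : bt p (Z : ℤ) = bt p 2 + bt p (X : ℤ) := by
        rw [← b3_bt2 hp1 hp2 nX, ← h.hX]
        apply bt_congr
        rw [Int.modEq_iff_dvd]
        push_cast
        have h5 : ((Y : ℤ) + Z - Z) = Y := by ring
        rw [h5]
        exact Int.natCast_dvd_natCast.2 hd
      rw [hr, ht, hZ]
      generalize bt p (X : ℤ) = y
      generalize bt p (-1) = e
      generalize bt p 2 = w
      generalize bt p ((Y / p : ℕ) : ℤ) = x
      clear v1 v2 v3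
      obtain ⟨t1, t2⟩ := τ
      revert y e w x t1 t2
      decide
  · have hd := Nat.dvd_of_mem_primeFactors hp
    have nX : ¬ p ∣ X := fun h5 => h.XZ p hp1 h5 hd
    have nY : ¬ p ∣ Y := fun h5 => h.YZ p hp1 h5 hd
    obtain ⟨c1, c2⟩ := b3_Cd hp1 h.sZ hd
    rw [v3 p hp, c1, b3_C hp1 h.sX nX, b3_C hp1 h.sY nY]
    have ht : typ Y Z p = 2 := by simp [typ, hd, nY]
    have n2X : ¬ p ∣ 2 * X := by
      intro h5
      rcases (Nat.Prime.dvd_mul hp1).1 h5 with h6 | h6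
      · exact hp2 ((Nat.prime_dvd_prime_iff_eq hp1 Nat.prime_two).1 h6)
      · exact nX h6
    have hr : rho Y Z p = bt p 2 + bt p (X : ℤ) + bt p ((Z / p : ℕ) : ℤ) := by
      unfold rho
      rw [if_neg nY, if_pos hd, h.hX, Nat.cast_mul (2 * X), bt_mul hp1 (b3_z n2X) (b3_z c2),
        b3_bt2 hp1 hp2 nX]
    have hY : bt p (Y : ℤ) = bt p 2 + bt p (X : ℤ) := by
      rw [← b3_bt2 hp1 hp2 nX, ← h.hX]
      apply bt_congr
      rw [Int.modEq_iff_dvd]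
      push_cast
      have h5 : ((Y : ℤ) + Z - Y) = Z := by ring
      rw [h5]
      exact Int.natCast_dvd_natCast.2 hd
    rw [hr, ht, hY]
    generalize bt p (X : ℤ) = y
    generalize bt p (-1) = e
    generalize bt p 2 = w
    generalize bt p ((Z / p : ℕ) : ℤ) = x
    clear v1 v2 v3
    obtain ⟨t1, t2⟩ := τ
    revert y e w x t1 t2
    decide

private theorem b3_two {Y Z X : ℕ} (h : B3 Y Z X) (τ : V2) : Cd Y Z (tor Y Z τ) := by
  obtain ⟨v1, v2, v3⟩ := b3_val h τ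
  have h7 := h.oX
  have h8 := h.oY
  have h9 := h.oZ
  obtain ⟨x1, x2⟩ := b3_pf h.sX (by omega)
  obtain ⟨y1, y2⟩ := b3_pf h.sY (by omega)
  obtain ⟨z1, z2⟩ := b3_pf h.sZ (by omega)
  rw [if_neg (by omega)] at x1 y1 z1
  rw [if_pos (by omega)] at x2 y2 z2
  have e1 : ∀ N : ℕ, ∀ g : ℕ → V2, ∀ c : V2, (∀ p ∈ N.primeFactors, g p = c) →
      ∀ u : ℕ → ZMod 2, ∑ p ∈ N.primeFactors, u p * (g p).1 = (∑ p ∈ N.primeFactors, u p) * c.1 ∧
        ∑ p ∈ N.primeFactors, u p * (g p).2 = (∑ p ∈ N.primeFactors, u p) * c.2 := by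
    intro N g c hg u
    rw [sum_mul, sum_mul]
    exact ⟨sum_congr rfl fun p hp => by rw [hg p hp], sum_congr rfl fun p hp => by rw [hg p hp]⟩
  refine ⟨?_, ?_, ?_⟩
  · show ∑ p ∈ oddP Y Z, bt p 2 * ((tor Y Z τ).1 p).1 = 0
    rw [b3_split h, (e1 X _ _ v1 _).1, (e1 Y _ _ v2 _).1, (e1 Z _ _ v3 _).1, x1, y1, z1]
    simp
  · show ∑ p ∈ oddP Y Z, bt p (-1) * ((tor Y Z τ).1 p).2 + τ.1 + τ.1 = 0
    rw [b3_split h, (e1 X _ _ v1 _).2, (e1 Y _ _ v2 _).2, (e1 Z _ _ v3 _).2, x2, y2, z2]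
    clear v1 v2 v3
    obtain ⟨t1, t2⟩ := τ
    revert t1 t2
    decide
  · show ∑ p ∈ oddP Y Z, (bt p 2 * ((tor Y Z τ).1 p).2 + bt p (-1) * ((tor Y Z τ).1 p).1) = 0
    rw [sum_add_distrib, b3_split h, b3_split h, (e1 X _ _ v1 _).2, (e1 Y _ _ v2 _).2,
      (e1 Z _ _ v3 _).2, (e1 X _ _ v1 _).1, (e1 Y _ _ v2 _).1, (e1 Z _ _ v3 _).1, x1, y1, z1,
      x2, y2, z2]
    clear v1 v2 v3
    obtain ⟨t1, t2⟩ := τ
    revert t1 t2
    decide

theorem tor_mem {Y Z : ℕ} (h : Nice Y Z) (τ : V2) : tor Y Z τ ∈ Sl Y Z := by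
  obtain ⟨X, hX⟩ := b3_facts h
  refine mem_DDQ.2 ⟨⟨fun p hp => ?_, rfl, b3_two hX τ⟩, fun p hp => b3_y hX τ hp⟩
  show (if p ∈ oddP Y Z then _ else (0 : V2)) = 0
  rw [if_neg hp]

end Pool.Agent.H77.K3
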