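import Pool.Agent.H77.K3.C8

/-!
# C9: data which are constant on a fibre

Hypotheses as in C8. For `m ∈ Mset`, `p ∈ I i`, `q ∈ Qset b`, `r ∈ Qset c` with `q ≠ r`,
`b q + c r = n p m` (so `(b q, c r) ∈ SSk`, `fib_iff`):
* `Tup n b c p m q r`;
* `oddP (b q) (c r) = P0 n b c ∪ {p, m, q, r}`, with `# = # P0 + 4`, and
  `smP z (b q) (c r) = (P0 n b c).filter (· ≤ z)`;
* the values of `GV` at `p`, `m`, `q`, `r` are `v i`, `v j`, `vq`, `vr`, and at the primes of
  `P0 n b c` they do not depend on `(p, m, q, r)`: for `u ≤ z` the value is `V u`. For `u > z`,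
  `u ∈ P0`: `u | n` (`b, c ≤ z`), `u = uu l` where `l` is the number of elements of `bgX` smaller
  than `u`, that is `#{u' | n : z < u' < u} + [p < u] + [m < u]`; and `[p < u]`, `[m < u]` do not
  depend on `p ∈ I i`, `m ∈ Mset`: `u ∉ I i` and `I i` is an interval of primes, `u` a prime, so
  `p < u` iff `z^(ff i) < u`; and `m < u` iff `#{u' | n : z < u' ≤ u}` (the rank of `u` in `n`
  increased by one) is larger than `#{u' | n : z < u' < m} = j - [i < j]`
  (`m ∤ n`, so `u ≠ m`).
-/

set_option autoImplicit false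

namespace Pool.Agent.H77.K3

open Finset Pool.Agent.H77.SV

/-- the valid tuples over `(n, b, c)` -/
structure Val (P : Par) (z T i j n b c p m q r : ℕ) : Prop where
  hm : m ∈ Mset P z T i j n
  hp : p ∈ P.I z i
  hq : q ∈ Qset T b
  hr : r ∈ Qset T c
  ne : q ≠ r
  eq : b * q + c * r = n * p * m


private theorem c9_SS {P : Par} {z T k : ℕ} {x : ℕ × ℕ} (hx : x ∈ SSk P z T k) :
    x ∈ SS P z T := by
  unfold SSk at hx
  exact (Finset.mem_filter.mp hx).1

private theorem c9_base {P : Par} (hP : P.Adm) {z T k i j : ℕ} (hz : 2 ≤ z) (hwz : P.w ≤ z)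
    (hT : P.TZ z T) (hi : i < P.J) (hj : j < k) (hij : i ≠ j) {n b c : ℕ}
    (hK : KeyOK P z k i j n b c) {p m q r : ℕ} (h : Val P z T i j n b c p m q r) :
    (b * q, c * r) ∈ SSk P z T k ∧ uu z (b * q) (c * r) i = p ∧ uu z (b * q) (c * r) j = m ∧
      lpf (b * q) = q ∧ lpf (c * r) = r ∧ b * q + c * r = n * p * m :=
  (fib_iff hP hz hwz hT hi hj hij n b c p m q r).mpr
    ⟨hK, h.hp, h.hm, h.hq, h.hr, h.ne, h.eq⟩

private theorem c9_key (n b c p m q r : ℕ) (h : b * q + c * r = n * p * m) :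
    (b * q + c * r) * (b * q) * (c * r) = (n * b * c) * (p * m * q * r) := by
  rw [h]; ring

private theorem c9_tup {P : Par} (hP : P.Adm) {z T k i j : ℕ} (hz : 2 ≤ z) (hwz : P.w ≤ z)
    (hT : P.TZ z T) (hi : i < P.J) (hj : j < k) (hij : i ≠ j) {n b c : ℕ}
    (hK : KeyOK P z k i j n b c) {p m q r : ℕ} (h : Val P z T i j n b c p m q r) :
    Tup n b c p m q r ∧ z < p ∧ z < m ∧ z < q ∧ z < r := by
  obtain ⟨hx, hup, hum, hlq, hlr, heq⟩ := c9_base hP hz hwz hT hi hj hij hK h
  have F : Fac P z T (b * q) (c * r) := fac hP hz hT (c9_SS hx)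
  have U : UU P z (b * q) (c * r) k := uufac hP hz hT hx
  have hik : i < k := lt_of_lt_of_le hi U.Jk
  have pz : z < p := by rw [← hup]; exact U.gt i hik
  have mz : z < m := by rw [← hum]; exact U.gt j hj
  have pp : p.Prime := by rw [← hup]; exact U.prime i hik
  have pm : m.Prime := by rw [← hum]; exact U.prime j hj
  have pq : q.Prime := by have := F.pq; rwa [hlq] at this
  have pr : r.Prime := by have := F.pr; rwa [hlr] at this
  have hM : 1 ≤ P.M := by
    have h1 := ff_le_M hP hi
    have h2 := ee_succ P i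
    by_contra h0
    have h3 : P.M = 0 := by omega
    have h4 : P.ff i = 0 := by omega
    have h5 : (P.I z i) = ∅ := by
      unfold Par.I
      rw [h4]
      apply Finset.eq_empty_of_forall_notMem
      intro x hx
      rw [Finset.mem_filter, Finset.mem_Ioc] at hx
      have h6 : 1 ≤ z ^ P.ee i := Nat.one_le_pow _ _ (by omega)
      have h7 : z ^ 0 = 1 := pow_zero z
      omega
    have h6 := h.hp
    rw [h5] at h6
    exact absurd h6 (Finset.notMem_empty p)
  have hzM : z ≤ z ^ P.M := Nat.le_self_pow (by omega) z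
  have qz : z < q := by have := F.gq; rw [hlq] at this; omega
  have rz : z < r := by have := F.gr; rw [hlr] at this; omega
  have dp : p ∣ b * q + c * r := by rw [heq]; exact ⟨n * m, by ring⟩
  have dm : m ∣ b * q + c * r := by rw [heq]; exact ⟨n * p, by ring⟩
  have nqX : ¬ q ∣ b * q + c * r := by have := F.nqX; rwa [hlq] at this
  have nrX : ¬ r ∣ b * q + c * r := by have := F.nrX; rwa [hlr] at this
  have hsq := F.hok.hsq
  rw [c9_key n b c p m q r heq] at hsq
  have p2 : p ≠ 2 := by omega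
  have m2 : m ≠ 2 := by omega
  have q2 : q ≠ 2 := by omega
  have r2 : r ≠ 2 := by omega
  have hpm : p ≠ m := by
    rw [← hup, ← hum]
    rcases lt_or_gt_of_ne hij with h1 | h1
    · exact ne_of_lt (U.mono i j h1 hj)
    · exact ne_of_gt (U.mono j i h1 hik)
  refine ⟨⟨pp, pm, pq, pr, p2, m2, q2, r2, hpm, ?_, ?_, ?_, ?_, h.ne, ?_, ?_, ?_, ?_, heq⟩,
    pz, mz, qz, rz⟩
  · intro e; rw [e] at dp; exact nqX dp
  · intro e; rw [e] at dp; exact nrX dp
  · intro e; rw [e] at dm; exact nqX dm
  · intro e; rw [e] at dm; exact nrX dm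
  · rintro ⟨t, ht⟩
    apply hsq p pp p2
    rw [ht]
    exact ⟨t * (m * q * r), by ring⟩
  · rintro ⟨t, ht⟩
    apply hsq m pm m2
    rw [ht]
    exact ⟨t * (p * q * r), by ring⟩
  · rintro ⟨t, ht⟩
    apply hsq q pq q2
    rw [ht]
    exact ⟨t * (p * m * r), by ring⟩
  · rintro ⟨t, ht⟩
    apply hsq r pr r2
    rw [ht]
    exact ⟨t * (p * m * q), by ring⟩

private theorem c9_nbc {P : Par} {z k i j n b c : ℕ} (hK : KeyOK P z k i j n b c) :
    n * b * c ≠ 0 := by
  have h1 := hK.hn
  have h2 := hK.hb.1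
  have h3 := hK.hc.1
  exact Nat.mul_ne_zero (Nat.mul_ne_zero (by omega) (by omega)) (by omega)

private theorem c9_odd {n b c p m q r : ℕ} (h0 : n * b * c ≠ 0) (h : Tup n b c p m q r) :
    oddP (b * q) (c * r) = P0 n b c ∪ {p, m, q, r} := by
  unfold oddP P0
  rw [c9_key n b c p m q r h.eq]
  have hp0 := h.hp.pos
  have hm0 := h.hm.pos
  have hq0 := h.hq.pos
  have hr0 := h.hr.pos
  have h1 : p * m * q * r ≠ 0 := by positivity
  ext x
  rw [Finset.mem_erase, Nat.mem_primeFactors, Finset.mem_union, Finset.mem_erase,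
    Nat.mem_primeFactors]
  simp only [Finset.mem_insert, Finset.mem_singleton]
  constructor
  · rintro ⟨x2, xp, xd, -⟩
    rcases (Nat.Prime.dvd_mul xp).mp xd with hd | hd
    · exact Or.inl ⟨x2, xp, hd, h0⟩
    · right
      rcases (Nat.Prime.dvd_mul xp).mp hd with hd | hd
      · rcases (Nat.Prime.dvd_mul xp).mp hd with hd | hd
        · rcases (Nat.Prime.dvd_mul xp).mp hd with hd | hd
          · exact Or.inl ((Nat.prime_dvd_prime_iff_eq xp h.hp).mp hd)
          · exact Or.inr (Or.inl ((Nat.prime_dvd_prime_iff_eq xp h.hm).mp hd))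
        · exact Or.inr (Or.inr (Or.inl ((Nat.prime_dvd_prime_iff_eq xp h.hq).mp hd)))
      · exact Or.inr (Or.inr (Or.inr ((Nat.prime_dvd_prime_iff_eq xp h.hr).mp hd)))
  · rintro (⟨x2, xp, xd, -⟩ | rfl | rfl | rfl | rfl)
    · exact ⟨x2, xp, Dvd.dvd.mul_right xd _, Nat.mul_ne_zero h0 h1⟩
    · exact ⟨h.p2, h.hp, ⟨(n * b * c) * (m * q * r), by ring⟩, Nat.mul_ne_zero h0 h1⟩
    · exact ⟨h.m2, h.hm, ⟨(n * b * c) * (p * q * r), by ring⟩, Nat.mul_ne_zero h0 h1⟩
    · exact ⟨h.q2, h.hq, ⟨(n * b * c) * (p * m * r), by ring⟩, Nat.mul_ne_zero h0 h1⟩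
    · exact ⟨h.r2, h.hr, ⟨(n * b * c) * (p * m * q), by ring⟩, Nat.mul_ne_zero h0 h1⟩

private theorem c9_nmem {n b c x : ℕ} (h : ¬ x ∣ n * b * c) : x ∉ P0 n b c := by
  unfold P0
  rw [Finset.mem_erase, Nat.mem_primeFactors]
  rintro ⟨-, -, hd, -⟩
  exact h hd

private theorem c9_c4 {n b c p m q r : ℕ} (h : Tup n b c p m q r) :
    (P0 n b c ∪ {p, m, q, r}).card = (P0 n b c).card + 4 := by
  rw [Finset.card_union_of_disjoint]
  · congr 1
    rw [Finset.card_insert_of_notMem, Finset.card_insert_of_notMem,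
      Finset.card_insert_of_notMem, Finset.card_singleton]
    · simpa using h.qr
    · simp only [Finset.mem_insert, Finset.mem_singleton, not_or]
      exact ⟨h.mq, h.mr⟩
    · simp only [Finset.mem_insert, Finset.mem_singleton, not_or]
      exact ⟨h.pm, h.pq, h.pr⟩
  · rw [Finset.disjoint_left]
    intro x hx hx'
    simp only [Finset.mem_insert, Finset.mem_singleton] at hx'
    rcases hx' with rfl | rfl | rfl | rfl
    · exact c9_nmem h.np hx
    · exact c9_nmem h.nm hx
    · exact c9_nmem h.nq hx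
    · exact c9_nmem h.nr hx

theorem val_tup {P : Par} (hP : P.Adm) {z T k i j : ℕ} (hz : 2 ≤ z) (hwz : P.w ≤ z)
    (hT : P.TZ z T) (hi : i < P.J) (hj : j < k) (hij : i ≠ j) {n b c : ℕ}
    (hK : KeyOK P z k i j n b c) {p m q r : ℕ} (h : Val P z T i j n b c p m q r) :
    Tup n b c p m q r ∧ oddP (b * q) (c * r) = P0 n b c ∪ {p, m, q, r} ∧
      (oddP (b * q) (c * r)).card = (P0 n b c).card + 4 ∧
      smP z (b * q) (c * r) = (P0 n b c).filter (· ≤ z) := by
  obtain ⟨ht, pz, mz, qz, rz⟩ := c9_tup hP hz hwz hT hi hj hij hK h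
  have ho := c9_odd (c9_nbc hK) ht
  refine ⟨ht, ho, ?_, ?_⟩
  · rw [ho, c9_c4 ht]
  · unfold smP
    rw [ho, Finset.filter_union]
    have h1 : ({p, m, q, r} : Finset ℕ).filter (· ≤ z) = ∅ := by
      apply Finset.filter_eq_empty_iff.mpr
      intro x hx
      simp only [Finset.mem_insert, Finset.mem_singleton] at hx
      rcases hx with rfl | rfl | rfl | rfl <;> omega
    rw [h1, Finset.union_empty]


private theorem c9_inj {P : Par} {z Y Z k : ℕ} (U : UU P z Y Z k) {l l' : ℕ} (h : l < k)
    (h' : l' < k) (e : uu z Y Z l = uu z Y Z l') : l = l' := by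
  rcases lt_trichotomy l l' with h1 | h1 | h1
  · exact absurd e (ne_of_lt (U.mono l l' h1 h'))
  · exact h1
  · exact absurd e (ne_of_gt (U.mono l' l h1 h))

private theorem c9_rank {P : Par} {z Y Z k : ℕ} (U : UU P z Y Z k) {l : ℕ} (h : l < k) :
    ((bgX z Y Z).filter (· < uu z Y Z l)).card = l := by
  have h1 : (bgX z Y Z).filter (· < uu z Y Z l) = (range l).image (uu z Y Z) := by
    ext x
    rw [Finset.mem_filter, Finset.mem_image]
    constructor
    · rintro ⟨hx, hl⟩
      obtain ⟨a, ha, rfl⟩ := U.surj x hx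
      refine ⟨a, ?_, rfl⟩
      rw [Finset.mem_range]
      by_contra hla
      rcases Nat.lt_or_ge l a with h2 | h2
      · exact absurd (U.mono l a h2 ha) (by omega)
      · have : a = l := by omega
        rw [this] at hl
        exact lt_irrefl _ hl
    · rintro ⟨a, ha, rfl⟩
      rw [Finset.mem_range] at ha
      exact ⟨U.mem a (by omega), U.mono a l ha h⟩
  rw [h1, Finset.card_image_of_injOn, Finset.card_range]
  intro a ha a' ha' e
  simp only [Finset.coe_range, Set.mem_Iio] at ha ha'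
  exact c9_inj U (by omega) (by omega) e

private theorem c9_bg {n b c p m q r z : ℕ} (h0 : n ≠ 0) (h : Tup n b c p m q r)
    (pz : z < p) (mz : z < m) :
    bgX z (b * q) (c * r) = n.primeFactors.filter (z < ·) ∪ {p, m} := by
  unfold bgX
  rw [h.eq]
  have hp0 := h.hp.pos
  have hm0 := h.hm.pos
  ext x
  rw [Finset.mem_filter, Nat.mem_primeFactors, Finset.mem_union, Finset.mem_filter,
    Nat.mem_primeFactors]
  simp only [Finset.mem_insert, Finset.mem_singleton]
  have h1 : n * p * m ≠ 0 := Nat.mul_ne_zero (Nat.mul_ne_zero h0 (by omega)) (by omega)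
  constructor
  · rintro ⟨⟨xp, xd, -⟩, xz⟩
    rcases (Nat.Prime.dvd_mul xp).mp xd with hd | hd
    · rcases (Nat.Prime.dvd_mul xp).mp hd with hd | hd
      · exact Or.inl ⟨⟨xp, hd, h0⟩, xz⟩
      · exact Or.inr (Or.inl ((Nat.prime_dvd_prime_iff_eq xp h.hp).mp hd))
    · exact Or.inr (Or.inr ((Nat.prime_dvd_prime_iff_eq xp h.hm).mp hd))
  · rintro (⟨⟨xp, xd, -⟩, xz⟩ | rfl | rfl)
    · exact ⟨⟨xp, Dvd.dvd.mul_right (Dvd.dvd.mul_right xd _) _, h1⟩, xz⟩
    · exact ⟨⟨h.hp, ⟨n * m, by ring⟩, h1⟩, pz⟩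
    · exact ⟨⟨h.hm, ⟨n * p, by ring⟩, h1⟩, mz⟩

/-- the rank of `u` -/
private def rk9 (P : Par) (z i j n u : ℕ) : ℕ :=
  (n.primeFactors.filter fun x => z < x ∧ x < u).card + (if z ^ P.ee i < u then 1 else 0) +
    (if j < (n.primeFactors.filter fun x => z < x ∧ x ≤ u).card + (if i < j then 1 else 0)
      then 1 else 0)

private theorem c9_rk {P : Par} {z T k i j n b c : ℕ} (hi : i < P.J)
    (hK : KeyOK P z k i j n b c) {p m q r : ℕ} (h : Val P z T i j n b c p m q r)
    (ht : Tup n b c p m q r) (pz : z < p) (mz : z < m) {u : ℕ} (hu : u.Prime) (hun : u ∣ n)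
    (huz : z < u) :
    ((bgX z (b * q) (c * r)).filter (· < u)).card = rk9 P z i j n u := by
  have hn0 : n ≠ 0 := by have := hK.hn; omega
  rw [c9_bg hn0 ht pz mz, Finset.filter_union, Finset.card_union_of_disjoint]
  · have hpu : (p < u ↔ z ^ P.ee i < u) := by
      have h1 := h.hp
      unfold Par.I at h1
      rw [Finset.mem_filter, Finset.mem_Ioc] at h1
      have h2 := hK.hI i hi
      rw [if_pos (Or.inl rfl)] at h2
      have h3 : u ∉ P.I z i := by
        intro hu'
        have h4 : u ∈ (P.I z i).filter (· ∣ n) := Finset.mem_filter.mpr ⟨hu', hun⟩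
        rw [Finset.card_eq_zero] at h2
        rw [h2] at h4
        exact Finset.notMem_empty _ h4
      unfold Par.I at h3
      rw [Finset.mem_filter, Finset.mem_Ioc] at h3
      constructor
      · intro h5; omega
      · intro h5
        by_contra h6
        exact h3 ⟨⟨h5, by omega⟩, hu⟩
    have hm' := h.hm
    unfold Mset at hm'
    rw [Finset.mem_filter] at hm'
    obtain ⟨-, -, -, hmn, hrk⟩ := hm'
    have hmu : (m < u ↔ j < (n.primeFactors.filter fun x => z < x ∧ x ≤ u).card +
        (if i < j then 1 else 0)) := by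
      have hne : m ≠ u := by rintro rfl; exact hmn hun
      constructor
      · intro h5
        have h6 : (n.primeFactors.filter fun x => z < x ∧ x < m) ⊂
            (n.primeFactors.filter fun x => z < x ∧ x ≤ u) := by
          rw [Finset.ssubset_iff_of_subset]
          · refine ⟨u, Finset.mem_filter.mpr ⟨Nat.mem_primeFactors.mpr ⟨hu, hun, hn0⟩, huz,
              le_refl _⟩, ?_⟩
            rw [Finset.mem_filter]
            rintro ⟨-, -, h7⟩
            omega
          · intro x hx
            rw [Finset.mem_filter] at hx ⊢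
            exact ⟨hx.1, hx.2.1, by have := hx.2.2; omega⟩
        have h7 := Finset.card_lt_card h6
        omega
      · intro h5
        by_contra h6
        have h7 : (n.primeFactors.filter fun x => z < x ∧ x ≤ u) ⊆
            (n.primeFactors.filter fun x => z < x ∧ x < m) := by
          intro x hx
          rw [Finset.mem_filter] at hx ⊢
          exact ⟨hx.1, hx.2.1, by have := hx.2.2; omega⟩
        have h8 := Finset.card_le_card h7
        omega
    unfold rk9
    have e1 : ((n.primeFactors.filter (z < ·)).filter (· < u)) =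
        n.primeFactors.filter fun x => z < x ∧ x < u := by
      rw [Finset.filter_filter]
    have e2 : (({p, m} : Finset ℕ).filter (· < u)).card =
        (if z ^ P.ee i < u then 1 else 0) +
        (if j < (n.primeFactors.filter fun x => z < x ∧ x ≤ u).card + (if i < j then 1 else 0)
          then 1 else 0) := by
      have e3 : (if z ^ P.ee i < u then 1 else 0) = (if p < u then 1 else 0) := by
        simp only [hpu]
      have e4 : (if j < (n.primeFactors.filter fun x => z < x ∧ x ≤ u).card +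
          (if i < j then 1 else 0) then 1 else 0) = (if m < u then 1 else 0) := by
        simp only [hmu]
      rw [e3, e4, Finset.filter_insert, Finset.filter_singleton]
      have hpm := ht.pm
      by_cases a1 : p < u <;> by_cases a2 : m < u <;> simp [a1, a2, hpm]
    rw [e1, e2, add_assoc]
  · rw [Finset.disjoint_left]
    intro x hx hx'
    rw [Finset.mem_filter, Finset.mem_filter, Nat.mem_primeFactors] at hx
    rw [Finset.mem_filter] at hx'
    have hd : x ∣ n * b * c := Dvd.dvd.mul_right (Dvd.dvd.mul_right hx.1.1.2.1 _) _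
    have h5 := hx'.1
    simp only [Finset.mem_insert, Finset.mem_singleton] at h5
    rcases h5 with rfl | rfl
    · exact ht.np hd
    · exact ht.nm hd

private theorem c9_sum {P : Par} {z Y Z k : ℕ} (U : UU P z Y Z k) (v : Fin k → LL) {l : ℕ}
    (h : l < k) : (∑ a : Fin k, if uu z Y Z a = uu z Y Z l then v a else 0) = v ⟨l, h⟩ := by
  rw [Finset.sum_eq_single ⟨l, h⟩]
  · simp
  · intro a _ ha
    rw [if_neg]
    intro e
    exact ha (Fin.ext (c9_inj U a.2 h e))
  · intro h'
    exact absurd (Finset.mem_univ _) h'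

private theorem c9_sum' {k : ℕ} (v : Fin k → LL) {l : ℕ}
    (h : l < k) : (∑ a : Fin k, if (a : ℕ) = l then v a else 0) = v ⟨l, h⟩ := by
  rw [Finset.sum_eq_single ⟨l, h⟩]
  · simp
  · intro a _ ha
    rw [if_neg]
    intro e
    exact ha (Fin.ext e)
  · intro h'
    exact absurd (Finset.mem_univ _) h'

theorem val_GV {P : Par} (hP : P.Adm) {z T k i j : ℕ} (hz : 2 ≤ z) (hwz : P.w ≤ z)
    (hT : P.TZ z T) (hi : i < P.J) (hj : j < k) (hik : i < k) (hij : i ≠ j) {n b c : ℕ}
    (hK : KeyOK P z k i j n b c) (v : Fin k → LL) (vq vr : LL) (V : Fin (z + 1) → LL) :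
    ∃ G0 : ℕ → LL, ∀ p m q r : ℕ, Val P z T i j n b c p m q r →
      (∀ u ∈ P0 n b c, GV z (b * q) (c * r) k v vq vr V u = G0 u) ∧
      GV z (b * q) (c * r) k v vq vr V p = v ⟨i, hik⟩ ∧
      GV z (b * q) (c * r) k v vq vr V m = v ⟨j, hj⟩ ∧
      GV z (b * q) (c * r) k v vq vr V q = vq ∧
      GV z (b * q) (c * r) k v vq vr V r = vr := by
  refine ⟨fun u => if h : u < z + 1 then V ⟨u, h⟩ else
    ∑ a : Fin k, if (a : ℕ) = rk9 P z i j n u then v a else 0, ?_⟩
  intro p m q r h
  obtain ⟨hx, hup, hum, hlq, hlr, heq⟩ := c9_base hP hz hwz hT hi hj hij hK h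
  obtain ⟨ht, pz, mz, qz, rz⟩ := c9_tup hP hz hwz hT hi hj hij hK h
  have U : UU P z (b * q) (c * r) k := uufac hP hz hT hx
  have hn0 : n ≠ 0 := by have := hK.hn; omega
  refine ⟨?_, ?_, ?_, ?_, ?_⟩
  · intro u hu
    have huP := hu
    unfold P0 at hu
    rw [Finset.mem_erase, Nat.mem_primeFactors] at hu
    obtain ⟨u2, up, ud, -⟩ := hu
    unfold GV
    by_cases huz : u < z + 1
    · simp only [dif_pos huz]
    · have hun : u ∣ n := by
        rcases (Nat.Prime.dvd_mul up).mp ud with hd | hd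
        · rcases (Nat.Prime.dvd_mul up).mp hd with hd | hd
          · exact hd
          · exfalso
            have h1 := Nat.le_of_dvd hK.hb.1 hd
            have h2 := hK.hb.2
            omega
        · exfalso
          have h1 := Nat.le_of_dvd hK.hc.1 hd
          have h2 := hK.hc.2
          omega
      have huz' : z < u := by omega
      have uq : u ≠ q := by rintro rfl; exact ht.nq ud
      have ur : u ≠ r := by rintro rfl; exact ht.nr ud
      rw [hlq, hlr]
      simp only [dif_neg huz, if_neg uq, if_neg ur]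
      have hub : u ∈ bgX z (b * q) (c * r) := by
        rw [c9_bg hn0 ht pz mz]
        exact Finset.mem_union_left _ (Finset.mem_filter.mpr
          ⟨Nat.mem_primeFactors.mpr ⟨up, hun, hn0⟩, huz'⟩)
      obtain ⟨l, hl, e⟩ := U.surj u hub
      have hr := c9_rk hi hK h ht pz mz up hun huz'
      have hrl := c9_rank U hl
      rw [e, hr] at hrl
      rw [hrl, c9_sum' v hl, ← e, c9_sum U v hl]
  · unfold GV
    rw [hlq, hlr]
    have h1 : ¬ p < z + 1 := by omega
    simp only [dif_neg h1, if_neg ht.pq, if_neg ht.pr]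
    have h2 := c9_sum U v hik
    rw [hup] at h2
    exact h2
  · unfold GV
    rw [hlq, hlr]
    have h1 : ¬ m < z + 1 := by omega
    simp only [dif_neg h1, if_neg ht.mq, if_neg ht.mr]
    have h2 := c9_sum U v hj
    rw [hum] at h2
    exact h2
  · unfold GV
    rw [hlq]
    have h1 : ¬ q < z + 1 := by omega
    simp only [dif_neg h1, if_true]
  · unfold GV
    rw [hlq, hlr]
    have h1 : ¬ r < z + 1 := by omega
    simp only [dif_neg h1, if_neg (Ne.symm ht.qr), if_true]

end Pool.Agent.H77.K3
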