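import Pool.Agent.H77.K3.C7
import Pool.Agent.H77.K3.C9
import Pool.Agent.H77.K3.C11

/-!
# C12: the terms of a fibre

For a key `(n, b, c)` there are `Ω`, functions `F, f, g` of absolute value at most 1 and a constant
`0 ≤ κ0` with `κ0 Ω ≤ 2^15 z^(A+2)` such that for all valid `(p, m, q, r)`:
`TT(b q, c r) = κ0 sum_(ω < Ω) F_ω(p) f_ω(m,q) g_ω(m,r) sg(c1 [m/p]) sg(c2 [b q/p])`,
`c1 = QQ (v i + v j)`, `c2 = QQ (v i + vq + vr)`.

Proof. `TT_expand` with `(b q, c r) ∈ SSk` (`fib_iff`): the sum over `V`, `s2`, `t`; the `V` which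
occur are those supported on `(P0 n b c).filter (· ≤ z)` (`val_tup`): there are `16^σ` of them,
`σ = # ((P0 n b c).filter (· ≤ z))`. Split further according to the class `κ ∈ (Fin 8)^4` of
`(p, m, q, r)`: for fixed `ω = (V, s2, t, κ)` the term is `0` unless the class is `κ`; if it is, the
condition at 2 is constant (`sep_cd` with `G0` from `val_GV`) and the sign is
`sg (F p + f m q + g m r + c1 [m/p] + c2 [b q/p])` (`sep_phase`), `sg` is multiplicative. The
condition that the class is `κ` is the product of the four conditions on `p`, `m`, `q`, `r`, so it can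
be included in `F`, `f`, `g`. `κ0 = (1/4)^(# P0 + 4)`. Number of `ω`: `16^σ * 2 * 4 * 8^4`;
`κ0 Ω ≤ 4^σ 2^15`, as `# P0 ≥ σ`. The primes of `(P0 n b c).filter (· ≤ z)` are `> w ≥ 384`
(`KeyOK.hw`), so `4^σ ≤` their product `≤ (prod over those dividing n) * b * c ≤ z^A z z`
(`KeyOK.hA`).
(`KeyOK.hsq`, `hn`, `hb`, `hc` give the hypotheses of `sep_phase`.)
-/

set_option autoImplicit false

namespace Pool.Agent.H77.K3

open Finset Pool.Agent.H77.SV

private theorem c12_sg (x : ZMod 2) : |sg x| ≤ 1 := by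
  unfold sg
  split_ifs <;> simp

private theorem c12_sg_add (x y : ZMod 2) : sg (x + y) = sg x * sg y := by
  revert x y
  have h : ∀ x y : ZMod 2, (x = 0 ∧ y = 0 ∧ x + y = 0) ∨ (x = 0 ∧ y ≠ 0 ∧ x + y ≠ 0) ∨
      (x ≠ 0 ∧ y = 0 ∧ x + y ≠ 0) ∨ (x ≠ 0 ∧ y ≠ 0 ∧ x + y = 0) := by decide
  intro x y
  unfold sg
  rcases h x y with ⟨h1, h2, h3⟩ | ⟨h1, h2, h3⟩ | ⟨h1, h2, h3⟩ | ⟨h1, h2, h3⟩ <;>
    simp [h1, h2, h3]

/-- functions supported on `S` -/
private abbrev WW (z : ℕ) (S : Finset ℕ) : Type :=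
  {V : Fin (z + 1) → LL // ∀ a : Fin (z + 1), (a : ℕ) ∉ S → V a = 0}

private abbrev K4 : Type := Fin 8 × Fin 8 × Fin 8 × Fin 8

private abbrev II (z : ℕ) (S : Finset ℕ) : Type := WW z S × ZMod 2 × V2 × K4

private theorem c12_card (z : ℕ) (S : Finset ℕ) (hS : ∀ x ∈ S, x ≤ z) :
    Fintype.card (II z S) ≤ 16 ^ S.card * 2 ^ 15 := by
  have h1 : Fintype.card (WW z S) ≤ 16 ^ S.card := by
    have h2 : Fintype.card (S → LL) = 16 ^ S.card := by
      rw [Fintype.card_fun, Fintype.card_coe]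
      have h3 : Fintype.card LL = 16 := by simp [LL, V2, Fintype.card_prod]
      rw [h3]
    rw [← h2]
    apply Fintype.card_le_of_injective
      (fun V : WW z S => fun u : S => V.1 ⟨u.1, by have := hS u.1 u.2; omega⟩)
    intro V V' e
    apply Subtype.ext
    funext a
    by_cases ha : (a : ℕ) ∈ S
    · have := congrFun e ⟨a.1, ha⟩
      exact this
    · rw [V.2 a ha, V'.2 a ha]
  have h3 : Fintype.card (II z S) = Fintype.card (WW z S) * 2 ^ 15 := by
    have h4 : Fintype.card (ZMod 2 × V2 × K4) = 2 ^ 15 := by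
      rw [Fintype.card_prod, Fintype.card_prod, Fintype.card_prod, Fintype.card_prod,
        Fintype.card_prod, Fintype.card_prod, ZMod.card, Fintype.card_fin]
      norm_num
    rw [Fintype.card_prod, h4]
  rw [h3]
  exact Nat.mul_le_mul_right _ h1

private theorem c12_prod_union (A B : Finset ℕ) (h : ∀ x ∈ A ∪ B, 1 ≤ x) :
    ∏ x ∈ A ∪ B, x ≤ (∏ x ∈ A, x) * ∏ x ∈ B, x := by
  rw [← Finset.prod_union_inter]
  apply Nat.le_mul_of_pos_right
  apply Finset.prod_pos
  intro x hx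
  rw [Finset.mem_inter] at hx
  exact h x (Finset.mem_union_left _ hx.1)

private theorem c12_pow {P : Par} (hP : P.Adm) {z k i j n b c : ℕ}
    (hK : KeyOK P z k i j n b c) :
    4 ^ ((P0 n b c).filter (· ≤ z)).card ≤ z ^ (P.A + 2) := by
  set S := (P0 n b c).filter (· ≤ z) with hS
  have hS' : ∀ x ∈ S, x.Prime ∧ x ≠ 2 ∧ x ∣ n * b * c ∧ x ≤ z := by
    intro x hx
    rw [hS, Finset.mem_filter] at hx
    unfold P0 at hx
    rw [Finset.mem_erase, Nat.mem_primeFactors] at hx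
    exact ⟨hx.1.2.1, hx.1.1, hx.1.2.2.1, hx.2⟩
  have h4 : ∀ x ∈ S, 4 ≤ x := by
    intro x hx
    obtain ⟨h1, h2, h3, -⟩ := hS' x hx
    by_contra h5
    have h6 := hP.hw
    exact hK.hw x h1 h2 (by omega) h3
  have hn0 : n ≠ 0 := by have := hK.hn; omega
  have hb0 : b ≠ 0 := by have := hK.hb.1; omega
  have hc0 : c ≠ 0 := by have := hK.hc.1; omega
  set A := (P0 n 1 1).filter (· ≤ z) with hA
  have hsub : S ⊆ (A ∪ b.primeFactors) ∪ c.primeFactors := by
    intro x hx
    obtain ⟨h1, h2, h3, h4⟩ := hS' x hx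
    rw [Finset.mem_union, Finset.mem_union]
    rcases (Nat.Prime.dvd_mul h1).mp h3 with hd | hd
    · rcases (Nat.Prime.dvd_mul h1).mp hd with hd | hd
      · left; left
        rw [hA, Finset.mem_filter]
        unfold P0
        rw [Finset.mem_erase, Nat.mem_primeFactors]
        exact ⟨⟨h2, h1, by rw [mul_one, mul_one]; exact hd, by simpa using hn0⟩, h4⟩
      · left; right
        exact Nat.mem_primeFactors.mpr ⟨h1, hd, hb0⟩
    · right
      exact Nat.mem_primeFactors.mpr ⟨h1, hd, hc0⟩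
  have hpos : ∀ x ∈ (A ∪ b.primeFactors) ∪ c.primeFactors, 1 ≤ x := by
    intro x hx
    rw [Finset.mem_union, Finset.mem_union] at hx
    rcases hx with (hx | hx) | hx
    · rw [hA, Finset.mem_filter] at hx
      unfold P0 at hx
      rw [Finset.mem_erase, Nat.mem_primeFactors] at hx
      exact hx.1.2.1.one_lt.le
    · exact (Nat.prime_of_mem_primeFactors hx).one_lt.le
    · exact (Nat.prime_of_mem_primeFactors hx).one_lt.le
  calc 4 ^ S.card = ∏ x ∈ S, 4 := by rw [Finset.prod_const]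
    _ ≤ ∏ x ∈ S, x := Finset.prod_le_prod (fun _ _ => Nat.zero_le _) h4
    _ ≤ ∏ x ∈ (A ∪ b.primeFactors) ∪ c.primeFactors, x :=
        Finset.prod_le_prod_of_subset_of_one_le' hsub (fun x hx _ => hpos x hx)
    _ ≤ (∏ x ∈ A ∪ b.primeFactors, x) * ∏ x ∈ c.primeFactors, x := c12_prod_union _ _ hpos
    _ ≤ ((∏ x ∈ A, x) * ∏ x ∈ b.primeFactors, x) * ∏ x ∈ c.primeFactors, x :=
        Nat.mul_le_mul_right _ (c12_prod_union _ _
          (fun x hx => hpos x (Finset.mem_union_left _ hx)))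
    _ ≤ (z ^ P.A * z) * z := by
        have h1 : ∏ x ∈ A, x ≤ z ^ P.A := hK.hA
        have h2 : ∏ x ∈ b.primeFactors, x ≤ z :=
          (Nat.le_of_dvd hK.hb.1 (Nat.prod_primeFactors_dvd b)).trans hK.hb.2
        have h3 : ∏ x ∈ c.primeFactors, x ≤ z :=
          (Nat.le_of_dvd hK.hc.1 (Nat.prod_primeFactors_dvd c)).trans hK.hc.2
        exact Nat.mul_le_mul (Nat.mul_le_mul h1 h2) h3
    _ = z ^ (P.A + 2) := by ring

private theorem c12_sum {ι : Type} [Fintype ι] [DecidableEq ι] (κ : ι) (x : ℝ) :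
    ∑ κ' : ι, (if κ = κ' then x else 0) = x := by
  rw [Finset.sum_ite_eq]
  simp

theorem fibT {P : Par} (hP : P.Adm) {z T k i j : ℕ} (hz : 2 ≤ z) (hwz : P.w ≤ z)
    (hT : P.TZ z T) (hi : i < P.J) (hj : j < k) (hik : i < k) (hij : i ≠ j) {n b c : ℕ}
    (hK : KeyOK P z k i j n b c) (v : Fin k → LL) (vq vr : LL) :
    ∃ (Ω : ℕ) (F : Fin Ω → ℕ → ℝ) (f g : Fin Ω → ℕ → ℕ → ℝ) (κ0 : ℝ), 0 ≤ κ0 ∧
      κ0 * Ω ≤ 2 ^ 15 * (z : ℝ) ^ (P.A + 2) ∧ (∀ ω p, |F ω p| ≤ 1) ∧ (∀ ω m q, |f ω m q| ≤ 1) ∧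
      (∀ ω m r, |g ω m r| ≤ 1) ∧
      ∀ p m q r : ℕ, Val P z T i j n b c p m q r →
        TT z (b * q) (c * r) k v vq vr = κ0 * ∑ ω, F ω p * f ω m q * g ω m r *
          sg (QQ (v ⟨i, hik⟩ + v ⟨j, hj⟩) * bt p (m : ℤ)) *
          sg (QQ (v ⟨i, hik⟩ + vq + vr) * bt p ((b * q : ℕ) : ℤ)) := by
  classical
  have hn0 : n * b * c ≠ 0 := by
    have h1 := hK.hn
    have h2 := hK.hb.1
    have h3 := hK.hc.1
    exact Nat.mul_ne_zero (Nat.mul_ne_zero (by omega) (by omega)) (by omega)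
  choose G0 hG0 using fun V : Fin (z + 1) → LL =>
    val_GV hP hz hwz hT hi hj hik hij hK v vq vr V
  choose Fz fz gz hph using fun (V : Fin (z + 1) → LL) (s2 : ZMod 2) (t : V2) (κ : K4) =>
    sep_phase hn0 hK.hsq κ (G0 V) (v ⟨i, hik⟩) (v ⟨j, hj⟩) vq vr (0, s2) t
  choose R hR using fun (V : Fin (z + 1) → LL) (s2 : ZMod 2) (t : V2) (κ : K4) =>
    sep_cd hn0 κ (G0 V) (v ⟨i, hik⟩) (v ⟨j, hj⟩) vq vr (0, s2) t
  set S := (P0 n b c).filter (· ≤ z) with hS
  have hSz : ∀ x ∈ S, x ≤ z := fun x hx => (Finset.mem_filter.mp hx).2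
  let e : II z S ≃ Fin (Fintype.card (II z S)) := Fintype.equivFin _
  let FF : II z S → ℕ → ℝ := fun a p =>
    if R a.1.1 a.2.1 a.2.2.1 a.2.2.2 ∧ Fin.ofNat 8 p = a.2.2.2.1 then
      sg (Fz a.1.1 a.2.1 a.2.2.1 a.2.2.2 p) else 0
  let ff : II z S → ℕ → ℕ → ℝ := fun a m q =>
    if Fin.ofNat 8 m = a.2.2.2.2.1 ∧ Fin.ofNat 8 q = a.2.2.2.2.2.1 then
      sg (fz a.1.1 a.2.1 a.2.2.1 a.2.2.2 m q) else 0
  let gg : II z S → ℕ → ℕ → ℝ := fun a m r =>
    if Fin.ofNat 8 r = a.2.2.2.2.2.2 then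
      sg (gz a.1.1 a.2.1 a.2.2.1 a.2.2.2 m r) else 0
  refine ⟨Fintype.card (II z S), fun ω => FF (e.symm ω), fun ω => ff (e.symm ω),
    fun ω => gg (e.symm ω), (1 / 4 : ℝ) ^ ((P0 n b c).card + 4), by positivity, ?_, ?_, ?_, ?_,
    ?_⟩
  · have h1 := c12_card z S hSz
    have h2 := c12_pow hP hK
    rw [← hS] at h2
    have h3 : S.card ≤ (P0 n b c).card := Finset.card_filter_le _ _
    have h4 : ((Fintype.card (II z S) : ℕ) : ℝ) ≤ 16 ^ S.card * 2 ^ 15 := by exact_mod_cast h1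
    have h5 : ((4 : ℝ)) ^ S.card ≤ (z : ℝ) ^ (P.A + 2) := by exact_mod_cast h2
    have h6 : (1 / 4 : ℝ) ^ ((P0 n b c).card + 4) ≤ (1 / 4 : ℝ) ^ S.card :=
      pow_le_pow_of_le_one (by norm_num) (by norm_num) (by omega)
    calc (1 / 4 : ℝ) ^ ((P0 n b c).card + 4) * (Fintype.card (II z S) : ℝ)
        ≤ (1 / 4 : ℝ) ^ S.card * (16 ^ S.card * 2 ^ 15) :=
          mul_le_mul h6 h4 (Nat.cast_nonneg _) (by positivity)
      _ = 2 ^ 15 * (4 : ℝ) ^ S.card := by
          have : (16 : ℝ) ^ S.card = 4 ^ S.card * 4 ^ S.card := by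
            rw [← mul_pow]; norm_num
          rw [this, one_div, inv_pow]
          have h0 : (4 : ℝ) ^ S.card ≠ 0 := by positivity
          field_simp
      _ ≤ 2 ^ 15 * (z : ℝ) ^ (P.A + 2) := by
          apply mul_le_mul_of_nonneg_left h5 (by positivity)
  · intro ω p
    show |FF (e.symm ω) p| ≤ 1
    simp only [FF]
    split_ifs
    · exact c12_sg _
    · simp
  · intro ω m q
    show |ff (e.symm ω) m q| ≤ 1
    simp only [ff]
    split_ifs
    · exact c12_sg _
    · simp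
  · intro ω m r
    show |gg (e.symm ω) m r| ≤ 1
    simp only [gg]
    split_ifs
    · exact c12_sg _
    · simp
  · intro p m q r h
    obtain ⟨ht, ho, hcard, hsm⟩ := val_tup hP hz hwz hT hi hj hij hK h
    have hx : (b * q, c * r) ∈ SSk P z T k :=
      ((fib_iff hP hz hwz hT hi hj hij n b c p m q r).mpr
        ⟨hK, h.hp, h.hm, h.hq, h.hr, h.ne, h.eq⟩).1
    have hTT := TT_expand hP hz hT hx v vq vr
    simp only at hTT
    rw [hTT, hcard]
    congr 1
    rw [hsm, ← hS]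
    rw [Equiv.sum_comp e.symm (fun a : II z S => FF a p * ff a m q * gg a m r *
      sg (QQ (v ⟨i, hik⟩ + v ⟨j, hj⟩) * bt p (m : ℤ)) *
      sg (QQ (v ⟨i, hik⟩ + vq + vr) * bt p ((b * q : ℕ) : ℤ)))]
    have hpre : ∀ V : Fin (z + 1) → LL, Pre n b c p m q r (G0 V) (v ⟨i, hik⟩) (v ⟨j, hj⟩) vq vr
        (GV z (b * q) (c * r) k v vq vr V) := fun V => hG0 V p m q r h
    have hV : ∀ φ : (Fin (z + 1) → LL) → ℝ,
        (∀ V, ¬ (∀ a : Fin (z + 1), (a : ℕ) ∉ S → V a = 0) → φ V = 0) →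
        ∑ V, φ V = ∑ V' : WW z S, φ V'.1 := by
      intro φ hφ
      rw [← Finset.sum_subtype (Finset.univ.filter fun V : Fin (z + 1) → LL =>
        ∀ a : Fin (z + 1), (a : ℕ) ∉ S → V a = 0) (by simp) φ, Finset.sum_filter]
      apply Finset.sum_congr rfl
      intro V _
      split_ifs with h1
      · rfl
      · exact hφ V h1
    rw [hV _ ?_, Fintype.sum_prod_type]
    · apply Finset.sum_congr rfl
      intro V _
      rw [Fintype.sum_prod_type]
      apply Finset.sum_congr rfl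
      intro s2 _
      conv_rhs => rw [Fintype.sum_prod_type]
      apply Finset.sum_congr rfl
      intro t _
      have key : ∀ κ : K4, FF (V, s2, t, κ) p * ff (V, s2, t, κ) m q * gg (V, s2, t, κ) m r *
          sg (QQ (v ⟨i, hik⟩ + v ⟨j, hj⟩) * bt p (m : ℤ)) *
          sg (QQ (v ⟨i, hik⟩ + vq + vr) * bt p ((b * q : ℕ) : ℤ)) =
          if cls p m q r = κ then
            (if (∀ a : Fin (z + 1), (a : ℕ) ∉ S → V.1 a = 0) ∧
              Cd (b * q) (c * r) (fun u => (GV z (b * q) (c * r) k v vq vr V.1 u).1, (0, s2), t)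
            then sg (Ph (b * q) (c * r) (GV z (b * q) (c * r) k v vq vr V.1) (0, s2) t) else 0)
          else 0 := by
        intro κ
        by_cases hκ : cls p m q r = κ
        · rw [if_pos hκ]
          have h1 := hph V.1 s2 t κ p m q r ht hκ _ (hpre V.1)
          have h2 := hR V.1 s2 t κ p m q r ht hκ _ (hpre V.1)
          have e1 : Fin.ofNat 8 p = κ.1 := by rw [← hκ]; rfl
          have e2 : Fin.ofNat 8 m = κ.2.1 := by rw [← hκ]; rfl
          have e3 : Fin.ofNat 8 q = κ.2.2.1 := by rw [← hκ]; rfl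
          have e4 : Fin.ofNat 8 r = κ.2.2.2 := by rw [← hκ]; rfl
          simp only [FF, ff, gg, e1, e2, e3, e4, and_true, and_self, if_true]
          by_cases hr : R V.1 s2 t κ
          · rw [if_pos hr, if_pos ⟨V.2, h2.mpr hr⟩, h1, c12_sg_add, c12_sg_add, c12_sg_add,
              c12_sg_add]
          · rw [if_neg hr, if_neg (fun h' => hr (h2.mp h'.2))]
            ring
        · rw [if_neg hκ]
          have h1 : ¬ (Fin.ofNat 8 p = κ.1 ∧ Fin.ofNat 8 m = κ.2.1 ∧ Fin.ofNat 8 q = κ.2.2.1 ∧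
              Fin.ofNat 8 r = κ.2.2.2) := fun h' =>
            hκ (Prod.ext h'.1 (Prod.ext h'.2.1 (Prod.ext h'.2.2.1 h'.2.2.2)))
          by_cases a1 : Fin.ofNat 8 p = κ.1
          · by_cases a2 : Fin.ofNat 8 m = κ.2.1
            · by_cases a3 : Fin.ofNat 8 q = κ.2.2.1
              · have a4 : ¬ Fin.ofNat 8 r = κ.2.2.2 := fun a4 => h1 ⟨a1, a2, a3, a4⟩
                have : gg (V, s2, t, κ) m r = 0 := by
                  simp only [gg]
                  rw [if_neg a4]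
                rw [this]
                ring
              · have : ff (V, s2, t, κ) m q = 0 := by
                  simp only [ff]
                  rw [if_neg (fun h' => a3 h'.2)]
                rw [this]
                ring
            · have : ff (V, s2, t, κ) m q = 0 := by
                simp only [ff]
                rw [if_neg (fun h' => a2 h'.1)]
              rw [this]
              ring
          · have : FF (V, s2, t, κ) p = 0 := by
              simp only [FF]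
              rw [if_neg (fun h' => a1 h'.2)]
            rw [this]
            ring
      rw [Finset.sum_congr rfl (fun κ _ => key κ)]
      exact (c12_sum (cls p m q r) _).symm
    · intro V hnV
      apply Finset.sum_eq_zero
      intro s2 _
      apply Finset.sum_eq_zero
      intro t _
      rw [if_neg (fun h' => hnV h'.1)]

end Pool.Agent.H77.K3
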