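import Pool.Agent.H77.K3.X1

/-!
# X2: the primes `uu` of `X`

Let `(Y, Z) ∈ SS P z T`, `k = # bgX z Y Z`. The list `(bgX z Y Z).sort (· ≤ ·)` is strictly
increasing of length `k` and its members are the elements of `bgX`. So `uu` is strictly increasing on
`{0, ..., k-1}` with image `bgX`.

For `i < J` the interval `(z^ee i, z^ff i]` contains exactly one prime of `X` (`hI`), it is
`ppI z Y Z i`; `z ≤ z^ee i < ppI ≤ z^ff i < z^ee (i+1)` (`2 ≤ z`, `ee (i+1) = 13 ff i`,
`ee i ≥ 1`). By `hn` every prime of `X` in `(z, z^M]` is one of these (`M = ee J > ff (J-1)`). So the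
primes of `X` which are `> z`, in increasing order, are `ppI 0 < ppI 1 < ... < ppI (J-1)`, followed
by those `> z^M`. Hence `J ≤ k`, `uu i = ppI i` for `i < J`, and `uu j > z^M` for `J ≤ j < k`.
-/

set_option autoImplicit false

namespace Pool.Agent.H77.K3

open Finset Pool.Agent.H77.SV

theorem ee_succ (P : Par) (i : ℕ) : P.ee (i + 1) = 13 * P.ff i := by
  unfold Par.ff Par.ee
  ring

private theorem x2_pos {P : Par} (hP : P.Adm) (i : ℕ) : 1 ≤ P.ee i := by
  have h1 : 1 ≤ P.E0 := by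
    have := hP.hE
    omega
  have h2 : 1 ≤ (13 * P.B) ^ i := Nat.one_le_pow _ _ (by have := hP.hB; omega)
  exact Nat.mul_pos h1 h2

private theorem x2_mono {P : Par} (hP : P.Adm) {i j : ℕ} (h : i ≤ j) : P.ee i ≤ P.ee j :=
  Nat.mul_le_mul_left _ (Nat.pow_le_pow_right (by have := hP.hB; omega) h)

theorem ff_le_M {P : Par} (hP : P.Adm) {i : ℕ} (hi : i < P.J) : 13 * P.ff i ≤ P.M := by
  rw [← ee_succ]
  exact x2_mono hP hi

/-- facts on `uu` -/
structure UU (P : Par) (z Y Z k : ℕ) : Prop where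
  mem : ∀ j < k, uu z Y Z j ∈ bgX z Y Z
  mono : ∀ i j, i < j → j < k → uu z Y Z i < uu z Y Z j
  surj : ∀ p ∈ bgX z Y Z, ∃ j < k, uu z Y Z j = p
  prime : ∀ j < k, (uu z Y Z j).Prime
  dvd : ∀ j < k, uu z Y Z j ∣ Y + Z
  gt : ∀ j < k, z < uu z Y Z j
  Jk : P.J ≤ k
  pp : ∀ i < P.J, uu z Y Z i = P.ppI z Y Z i
  ppm : ∀ i < P.J, uu z Y Z i ∈ P.I z i
  big : ∀ j, P.J ≤ j → j < k → z ^ P.M < uu z Y Z j

/-- two increasing enumerations agree on a common initial part -/
private theorem x2_enum {S : Finset ℕ} {k J M : ℕ} {u p : ℕ → ℕ} (hk : S.card = k)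
    (u1 : ∀ j < k, u j ∈ S) (u2 : ∀ i j, i < j → j < k → u i < u j)
    (u3 : ∀ x ∈ S, ∃ j < k, u j = x)
    (p1 : ∀ i < J, p i ∈ S) (p2 : ∀ i j, i < j → j < J → p i < p j)
    (p3 : ∀ x ∈ S, x ≤ M → ∃ i < J, p i = x) (p4 : ∀ i < J, p i ≤ M) :
    J ≤ k ∧ (∀ i < J, u i = p i) ∧ ∀ j, J ≤ j → j < k → M < u j := by
  have pinj : ∀ i < J, ∀ j < J, p i = p j → i = j := by
    intro i hi j hj h
    rcases lt_trichotomy i j with h1 | h1 | h1
    · exact absurd (p2 i j h1 hj) (by omega)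
    · exact h1
    · exact absurd (p2 j i h1 hi) (by omega)
  have uinj : ∀ i < k, ∀ j < k, u i = u j → i = j := by
    intro i hi j hj h
    rcases lt_trichotomy i j with h1 | h1 | h1
    · exact absurd (u2 i j h1 hj) (by omega)
    · exact h1
    · exact absurd (u2 j i h1 hi) (by omega)
  have hJk : J ≤ k := by
    have h1 : ((range J).image p).card = J := by
      rw [card_image_of_injOn, card_range]
      intro i hi j hj h
      exact pinj i (mem_range.1 hi) j (mem_range.1 hj) h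
    have h2 : (range J).image p ⊆ S := by
      intro x hx
      obtain ⟨i, hi, rfl⟩ := mem_image.1 hx
      exact p1 i (mem_range.1 hi)
    calc J = ((range J).image p).card := h1.symm
      _ ≤ S.card := card_le_card h2
      _ = k := hk
  have hu : ∀ j < k, (S.filter (· < u j)).card = j := by
    intro j hj
    have h1 : S.filter (· < u j) = (range j).image u := by
      ext x
      simp only [mem_filter, mem_image, mem_range]
      constructor
      · rintro ⟨h1, h2⟩
        obtain ⟨i, hi, rfl⟩ := u3 x h1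
        refine ⟨i, ?_, rfl⟩
        rcases lt_trichotomy i j with h3 | h3 | h3
        · exact h3
        · exact absurd h2 (by rw [h3]; omega)
        · exact absurd (u2 j i h3 hi) (by omega)
      · rintro ⟨i, hi, rfl⟩
        exact ⟨u1 i (by omega), u2 i j hi hj⟩
    rw [h1, card_image_of_injOn, card_range]
    intro a ha b hb h
    have ha' := mem_range.1 ha
    have hb' := mem_range.1 hb
    exact uinj a (by omega) b (by omega) h
  have hp : ∀ i < J, (S.filter (· < p i)).card = i := by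
    intro i hi
    have h1 : S.filter (· < p i) = (range i).image p := by
      ext x
      simp only [mem_filter, mem_image, mem_range]
      constructor
      · rintro ⟨h1, h2⟩
        obtain ⟨l, hl, rfl⟩ := p3 x h1 (h2.le.trans (p4 i hi))
        refine ⟨l, ?_, rfl⟩
        rcases lt_trichotomy l i with h3 | h3 | h3
        · exact h3
        · exact absurd h2 (by rw [h3]; omega)
        · exact absurd (p2 i l h3 hl) (by omega)
      · rintro ⟨l, hl, rfl⟩
        exact ⟨p1 l (by omega), p2 l i hl hi⟩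
    rw [h1, card_image_of_injOn, card_range]
    intro a ha b hb h
    have ha' := mem_range.1 ha
    have hb' := mem_range.1 hb
    exact pinj a (by omega) b (by omega) h
  have heq : ∀ i < J, u i = p i := by
    intro i hi
    obtain ⟨j, hj, h1⟩ := u3 (p i) (p1 i hi)
    have h2 := hu j hj
    rw [h1, hp i hi] at h2
    rw [← h1, h2]
  refine ⟨hJk, heq, fun j h1 h2 => ?_⟩
  by_contra h3
  obtain ⟨i, hi, h4⟩ := p3 (u j) (u1 j h2) (by omega)
  have h5 := uinj i (by omega) j h2 (by rw [heq i hi, h4])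
  omega

private theorem x2_sort (S : Finset ℕ) :
    (∀ j < S.card, (S.sort (· ≤ ·)).getD j 0 ∈ S) ∧
    (∀ i j, i < j → j < S.card → (S.sort (· ≤ ·)).getD i 0 < (S.sort (· ≤ ·)).getD j 0) ∧
    (∀ x ∈ S, ∃ j < S.card, (S.sort (· ≤ ·)).getD j 0 = x) := by
  have hl : (S.sort (· ≤ ·)).length = S.card := Finset.length_sort _
  have hg : ∀ j, ∀ h : j < (S.sort (· ≤ ·)).length,
      (S.sort (· ≤ ·)).getD j 0 = (S.sort (· ≤ ·))[j] := by
    intro j h
    exact List.getD_eq_getElem _ _ h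
  refine ⟨fun j hj => ?_, fun i j hij hj => ?_, fun x hx => ?_⟩
  · rw [hg j (by omega)]
    exact (Finset.mem_sort _).1 (List.getElem_mem _)
  · rw [hg i (by omega), hg j (by omega)]
    have h1 := Finset.sortedLT_sort S
    exact h1.strictMono_get (a := ⟨i, by omega⟩) (b := ⟨j, by omega⟩) (by simpa using hij)
  · obtain ⟨j, hj, h⟩ := List.mem_iff_getElem.1 ((Finset.mem_sort (· ≤ ·)).2 hx)
    exact ⟨j, by omega, by rw [hg j hj, h]⟩

theorem uufac {P : Par} (hP : P.Adm) {z T k : ℕ} (hz : 2 ≤ z) (hT : P.TZ z T) {x : ℕ × ℕ}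
    (hx : x ∈ SSk P z T k) : UU P z x.1 x.2 k := by
  classical
  obtain ⟨Y, Z⟩ := x
  rw [SSk, mem_filter] at hx
  obtain ⟨hx, hk⟩ := hx
  have hF := fac hP hz hT hx
  have hok := hF.hok
  show UU P z Y Z k
  have hY16 := hok.hY
  dsimp only at hok hk hY16
  have hXne : Y + Z ≠ 0 := by omega
  obtain ⟨s1, s2, s3⟩ := x2_sort (bgX z Y Z)
  rw [hk] at s1 s2 s3
  have hbg : ∀ p, p ∈ bgX z Y Z ↔ p.Prime ∧ p ∣ Y + Z ∧ z < p := by
    intro p
    rw [bgX, mem_filter, Nat.mem_primeFactors]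
    constructor
    · rintro ⟨⟨h1, h2, -⟩, h3⟩
      exact ⟨h1, h2, h3⟩
    · rintro ⟨h1, h2, h3⟩
      exact ⟨⟨h1, h2, hXne⟩, h3⟩
  -- the primes `ppI`
  have hpp : ∀ i < P.J, (P.I z i).filter (· ∣ Y + Z) = {P.ppI z Y Z i} := by
    intro i hi
    obtain ⟨p, hp⟩ := card_eq_one.1 (hok.hI i hi)
    rw [Par.ppI, hp, sup_singleton]
    rfl
  have hpI : ∀ i < P.J, P.ppI z Y Z i ∈ P.I z i ∧ P.ppI z Y Z i ∣ Y + Z := by
    intro i hi
    have h1 : P.ppI z Y Z i ∈ (P.I z i).filter (· ∣ Y + Z) := by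
      rw [hpp i hi]
      exact mem_singleton_self _
    exact mem_filter.1 h1
  have hI : ∀ i p, p ∈ P.I z i ↔ z ^ P.ee i < p ∧ p ≤ z ^ P.ff i ∧ p.Prime := by
    intro i p
    rw [Par.I, mem_filter, mem_Ioc, and_assoc]
  have hz1 : 1 ≤ z := by omega
  have hfe : ∀ i j, i < j → P.ff i ≤ P.ee j := by
    intro i j hij
    have h1 := x2_mono hP (show i + 1 ≤ j from hij)
    rw [ee_succ] at h1
    omega
  have hze : ∀ i, z ≤ z ^ P.ee i := fun i => by
    calc z = z ^ 1 := (pow_one z).symm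
      _ ≤ z ^ P.ee i := Nat.pow_le_pow_right hz1 (x2_pos hP i)
  have hE := x2_enum (S := bgX z Y Z) (k := k) (J := P.J) (M := z ^ P.M) (u := uu z Y Z)
    (p := P.ppI z Y Z) hk s1 s2 s3
    (fun i hi => by
      obtain ⟨h1, h2⟩ := hpI i hi
      obtain ⟨h3, h4, h5⟩ := (hI i _).1 h1
      exact (hbg _).2 ⟨h5, h2, lt_of_le_of_lt (hze i) h3⟩)
    (fun i j hij hj => by
      obtain ⟨-, h4, -⟩ := (hI i _).1 (hpI i (by omega)).1
      obtain ⟨h3, -, -⟩ := (hI j _).1 (hpI j hj).1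
      exact lt_of_le_of_lt (h4.trans (Nat.pow_le_pow_right hz1 (hfe i j hij))) h3)
    (fun x hx hxM => by
      obtain ⟨h1, h2, h3⟩ := (hbg x).1 hx
      obtain ⟨i, hi, h4⟩ := hok.hn x h1 h2 h3 hxM
      refine ⟨i, hi, ?_⟩
      have h5 : x ∈ (P.I z i).filter (· ∣ Y + Z) := mem_filter.2 ⟨h4, h2⟩
      rw [hpp i hi, mem_singleton] at h5
      exact h5.symm)
    (fun i hi => by
      obtain ⟨-, h4, -⟩ := (hI i _).1 (hpI i hi).1
      refine h4.trans (Nat.pow_le_pow_right hz1 ?_)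
      have := ff_le_M hP hi
      omega)
  obtain ⟨e1, e2, e3⟩ := hE
  exact ⟨s1, s2, s3, fun j hj => ((hbg _).1 (s1 j hj)).1, fun j hj => ((hbg _).1 (s1 j hj)).2.1,
    fun j hj => ((hbg _).1 (s1 j hj)).2.2, e1, e2, fun i hi => by
      rw [e2 i hi]
      exact (hpI i hi).1, e3⟩

end Pool.Agent.H77.K3
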