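import Pool.Agent.H77.K3.C12
import Pool.Agent.H77.K3.C13

/-!
# C14: case I

If `QQ (v i + vq + vr) = 1` for a place `i < J`, then the sum of `TT` over `SSk` is at most
`T^2 / z^2`, for `z ≥ z0(P, k)`.

Proof. `SSk` is empty unless `2 ≤ J ≤ k` (`UU.Jk`). Choose `j < k`, `j ≠ i` (`0` or `1`). By
`fib_sum` and `fibT` the sum is
`sum over n ≤ 2T, b, c ≤ z with KeyOK of κ0 sum_ω sum_(m ∈ Mset) f.. [S(n,m,b,c,ω) - diagonal]`,
where `S` is the sum of C13 with `F(p) = F_ω(p) sg(c1 [m/p])`, `f(q) = f_ω(m,q)`, `g(r) = g_ω(m,r)`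
over all `p, q, r` with `b q + c r = n p m`, and the diagonal terms are those with `q = r` (each of
absolute value at most 1); `c2 = 1`.

Main terms: `κ0 Ω ≤ 2^15 z^(A+2)`, there are `z^2` pairs `(b, c)`, and
`sum over n, m ≥ 1, z^(ee i) n m ≤ 2T, of 1000 (n m) (2T/(n m))^(7/4) = 1000 (2T)^(7/4)
sum (n m)^(-3/4) ≤ 1000 (2T)^(7/4) * 4 N^(1/4) (1 + log N)` with `N = 2T/z^(ee i)`
(`sum_(m ≤ x) m^(-3/4) ≤ 4 x^(1/4)` for `x ≥ 1`, then `sum_(n ≤ N) 1/n ≤ 1 + log N`); this is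
`≤ 16000 T^2 z^(-ee i/4) (1 + log (2T))`. As `ee i ≥ E0 ≥ 100 (A+3)` and
`log (2T) ≤ log 2 + 30 M log (z+1) ≤ z` for `z ≥ z0(M)`, the total is
`≤ 2^15 * 16000 * z^(A+4) * 2 z * T^2 z^(-25(A+3)) ≤ T^2 / (2 z^2)` for `z ≥ z0`.

Diagonal terms: for given `b, c ≤ z` and `q ≤ T` the number of `(n, p, m)` with
`(b + c) q = n p m =: X`, `p, m` primes, is at most `(number of prime factors of X)^2 ≤
(log_2 (2 z T))^2 ≤ z` for `z ≥ z0`. Total: `2^15 z^(A+2) * z^2 * T * z ≤ T^2/(2 z^2)`, because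
`T ≥ z^(30 M)`, `M ≥ 100 (A+3)`.
-/

set_option autoImplicit false

namespace Pool.Agent.H77.K3

open Finset Pool.Agent.H77.SV

private theorem l_sg (x : ZMod 2) : |sg x| ≤ 1 := by
  unfold sg
  split_ifs <;> simp

private theorem l_ee {P : Par} (hP : P.Adm) (i : ℕ) : 100 * (P.A + 3) ≤ P.ee i := by
  have h1 : P.E0 ≤ P.ee i := by
    unfold Par.ee
    exact Nat.le_mul_of_pos_right _ (pow_pos (by have := hP.hB; omega) _)
  exact hP.hE.trans h1

/-- there are no diagonal terms -/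
private theorem l_diag {P : Par} (hP : P.Adm) {z T i : ℕ} (hz : 2 ≤ z) (hT : P.TZ z T)
    (hi : i < P.J) {b c n m p q : ℕ} (hb : 1 ≤ b ∧ b ≤ z) (hc : 1 ≤ c ∧ c ≤ z)
    (hp : p ∈ P.I z i) (hq : q ∈ Qset T b) (h : b * q + c * q = n * p * m) : False := by
  unfold Par.I at hp
  rw [mem_filter, mem_Ioc] at hp
  obtain ⟨⟨hp1, hp2⟩, hpp⟩ := hp
  unfold Qset at hq
  rw [mem_filter] at hq
  obtain ⟨-, hqp, hq1, -, -⟩ := hq
  have hee := l_ee hP i
  have hd : p ∣ (b + c) * q := by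
    rw [add_mul, h]
    exact Dvd.dvd.mul_right (Dvd.intro_left n rfl) m
  rcases hpp.dvd_mul.mp hd with h1 | h1
  · have h2 : p ≤ b + c := Nat.le_of_dvd (by omega) h1
    have h3 : z ^ 2 ≤ z ^ P.ee i := Nat.pow_le_pow_right (by omega) (by omega)
    have h4 : 2 * z ≤ z ^ 2 := by nlinarith
    omega
  · have h2 : p = q := (Nat.prime_dvd_prime_iff_eq hpp hqp).mp h1
    have h3 : T < 2 * (b * q) := by omega
    have hM := ff_le_M hP hi
    have hff : 1 ≤ P.ff i := by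
      unfold Par.ff
      exact Nat.mul_pos (by have := hP.hB; omega) (by omega)
    have h4 : q ≤ z ^ P.ff i := h2 ▸ hp2
    have h5 : 2 * (b * q) ≤ z * (z * z ^ P.ff i) :=
      Nat.mul_le_mul hz (Nat.mul_le_mul hb.2 h4)
    have h6 : z * (z * z ^ P.ff i) = z ^ (P.ff i + 2) := by ring
    have h7 : z ^ (P.ff i + 2) ≤ z ^ (30 * P.M) := Nat.pow_le_pow_right (by omega) (by omega)
    have h8 := hT.1
    omega

/-- the real bound of the main terms -/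
private theorem l_B1 {P : Par} (hP : P.Adm) {z T i n m : ℕ} (hz : 2 ≤ z) (hn : 1 ≤ n)
    (hm : 1 ≤ m) :
    (if 2 * T < z ^ P.ee i * (n * m) then (0 : ℝ) else
        1000 * (n * m) * ((2 * T : ℝ) / (n * m)) ^ (7 / 4 : ℝ)) ≤
      4000 * (T : ℝ) ^ 2 / (z : ℝ) ^ (25 * (P.A + 3)) * ((1 / (n : ℝ)) * (1 / (m : ℝ))) := by
  have hz0 : (0 : ℝ) < z := by exact_mod_cast (by omega : 0 < z)
  have hn0 : (0 : ℝ) < n := by exact_mod_cast hn
  have hm0 : (0 : ℝ) < m := by exact_mod_cast hm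
  set W : ℝ := (z : ℝ) ^ (25 * (P.A + 3)) with hW
  have hW0 : 0 < W := by positivity
  split_ifs with h
  · positivity
  · push Not at h
    set x : ℝ := (n : ℝ) * m with hx
    have hx0 : 0 < x := by positivity
    set y : ℝ := (2 * T : ℝ) / x with hy
    have h1 : W ^ 4 ≤ y := by
      rw [hy, le_div_iff₀ hx0]
      have h2 : W ^ 4 = (z : ℝ) ^ (100 * (P.A + 3)) := by
        rw [hW, ← pow_mul]
        congr 1
        ring
      rw [h2]
      have h3 : (z : ℝ) ^ (100 * (P.A + 3)) ≤ (z : ℝ) ^ P.ee i :=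
        pow_le_pow_right₀ (by exact_mod_cast (by omega : 1 ≤ z)) (l_ee hP i)
      have h4 : (z : ℝ) ^ P.ee i * x ≤ 2 * T := by
        rw [hx]
        exact_mod_cast h
      exact (mul_le_mul_of_nonneg_right h3 hx0.le).trans h4
    have hy0 : 0 < y := lt_of_lt_of_le (by positivity) h1
    have h5 : W ≤ y ^ (1 / 4 : ℝ) := by
      have h6 : (W ^ 4) ^ (1 / 4 : ℝ) ≤ y ^ (1 / 4 : ℝ) :=
        Real.rpow_le_rpow (by positivity) h1 (by norm_num)
      have h7 : (W ^ 4) ^ (1 / 4 : ℝ) = W := by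
        rw [← Real.rpow_natCast, ← Real.rpow_mul hW0.le]
        norm_num
      rwa [h7] at h6
    have h8 : y ^ (7 / 4 : ℝ) * W ≤ y ^ 2 := by
      have h9 : y ^ (7 / 4 : ℝ) * y ^ (1 / 4 : ℝ) = y ^ 2 := by
        rw [← Real.rpow_add hy0, ← Real.rpow_natCast]
        norm_num
      rw [← h9]
      exact mul_le_mul_of_nonneg_left h5 (by positivity)
    have h10 : y ^ (7 / 4 : ℝ) ≤ y ^ 2 / W := by
      rw [le_div_iff₀ hW0]
      exact h8
    calc 1000 * x * y ^ (7 / 4 : ℝ) ≤ 1000 * x * (y ^ 2 / W) :=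
          mul_le_mul_of_nonneg_left h10 (by positivity)
      _ = 4000 * (T : ℝ) ^ 2 / W * ((1 / (n : ℝ)) * (1 / (m : ℝ))) := by
          rw [hy, hx]
          field_simp
          ring

private theorem l_harm (N : ℕ) : ∑ n ∈ Icc 1 N, (1 / (n : ℝ)) ≤ 1 + Real.log N := by
  have h := harmonic_le_one_add_log N
  rw [harmonic_eq_sum_Icc] at h
  push_cast at h
  simpa [one_div] using h

/-- the bound for one key -/
private theorem l_key {P : Par} (hP : P.Adm) {z T k i j : ℕ} (hz : 2 ≤ z) (hwz : P.w ≤ z)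
    (hT : P.TZ z T) (hi : i < P.J) (hj : j < k) (hik : i < k) (hij : i ≠ j) {n b c : ℕ}
    (hK : KeyOK P z k i j n b c) (v : Fin k → LL) (vq vr : LL)
    (hQ : QQ (v ⟨i, hik⟩ + vq + vr) = 1) :
    |∑ m ∈ Mset P z T i j n, ∑ p ∈ P.I z i, ∑ q ∈ Qset T b, ∑ r ∈ Qset T c,
        if q ≠ r ∧ b * q + c * r = n * p * m then TT z (b * q) (c * r) k v vq vr else 0| ≤
      2 ^ 15 * (z : ℝ) ^ (P.A + 2) * ∑ m ∈ Icc 1 (2 * T),
        4000 * (T : ℝ) ^ 2 / (z : ℝ) ^ (25 * (P.A + 3)) * ((1 / (n : ℝ)) * (1 / (m : ℝ))) := by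
  obtain ⟨Ω, F, f, g, κ0, hκ, hκΩ, hF, hf, hg, hTT⟩ := fibT hP hz hwz hT hi hj hik hij hK v vq vr
  have hn := hK.hn
  have hn0 : (0 : ℝ) < n := by exact_mod_cast hn
  have hz0 : (0 : ℝ) < z := by exact_mod_cast (by omega : 0 < z)
  -- one m
  have hone : ∀ m ∈ Mset P z T i j n,
      |∑ p ∈ P.I z i, ∑ q ∈ Qset T b, ∑ r ∈ Qset T c,
        if q ≠ r ∧ b * q + c * r = n * p * m then TT z (b * q) (c * r) k v vq vr else 0| ≤
      2 ^ 15 * (z : ℝ) ^ (P.A + 2) * (4000 * (T : ℝ) ^ 2 / (z : ℝ) ^ (25 * (P.A + 3)) *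
        ((1 / (n : ℝ)) * (1 / (m : ℝ)))) := by
    intro m hm
    have hm1 : 1 ≤ m := by
      unfold Mset at hm
      rw [mem_filter, mem_Ioc] at hm
      omega
    set S : Fin Ω → ℝ := fun ω => ∑ p ∈ P.I z i, ∑ q ∈ Qset T b, ∑ r ∈ Qset T c,
      if b * q + c * r = n * p * m then
        (fun p => F ω p * sg (QQ (v ⟨i, hik⟩ + v ⟨j, hj⟩) * bt p (m : ℤ))) p * f ω m q *
          g ω m r * sg (bt p ((b * q : ℕ) : ℤ)) else 0 with hS
    have hSb : ∀ ω, |S ω| ≤ 4000 * (T : ℝ) ^ 2 / (z : ℝ) ^ (25 * (P.A + 3)) *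
        ((1 / (n : ℝ)) * (1 / (m : ℝ))) := by
      intro ω
      refine le_trans ?_ (l_B1 (P := P) (T := T) (i := i) hP hz hn hm1)
      refine case1_in hP hz hT hi hn hm1 hK.hb hK.hc _ (f ω m) (g ω m) ?_ (hf ω m) (hg ω m)
      intro p
      simp only [abs_mul]
      exact mul_le_one₀ (hF ω p) (abs_nonneg _) (l_sg _)
    have hEq : ∑ p ∈ P.I z i, ∑ q ∈ Qset T b, ∑ r ∈ Qset T c,
        (if q ≠ r ∧ b * q + c * r = n * p * m then TT z (b * q) (c * r) k v vq vr else 0) =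
        κ0 * ∑ ω, S ω := by
      have e1 : ∑ ω, S ω = ∑ p ∈ P.I z i, ∑ q ∈ Qset T b, ∑ r ∈ Qset T c, ∑ ω : Fin Ω,
          (if b * q + c * r = n * p * m then
          (fun p => F ω p * sg (QQ (v ⟨i, hik⟩ + v ⟨j, hj⟩) * bt p (m : ℤ))) p * f ω m q *
          g ω m r * sg (bt p ((b * q : ℕ) : ℤ)) else 0) := by
        rw [hS, sum_comm]
        refine sum_congr rfl fun p _ => ?_
        rw [sum_comm]
        refine sum_congr rfl fun q _ => ?_
        rw [sum_comm]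
      rw [e1, mul_sum]
      refine sum_congr rfl fun p hp => ?_
      rw [mul_sum]
      refine sum_congr rfl fun q hq => ?_
      rw [mul_sum]
      refine sum_congr rfl fun r hr => ?_
      by_cases he : b * q + c * r = n * p * m
      · have hne : q ≠ r := by
          rintro rfl
          exact l_diag hP hz hT hi hK.hb hK.hc hp hq he
        rw [if_pos ⟨hne, he⟩, hTT p m q r ⟨hm, hp, hq, hr, hne, he⟩]
        congr 1
        refine sum_congr rfl fun ω _ => ?_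
        rw [if_pos he, hQ, one_mul]
        ring
      · rw [if_neg (fun h => he h.2)]
        symm
        rw [mul_eq_zero]
        right
        exact sum_eq_zero fun ω _ => if_neg he
    rw [hEq, abs_mul, abs_of_nonneg hκ]
    have h1 : |∑ ω, S ω| ≤ Ω * (4000 * (T : ℝ) ^ 2 / (z : ℝ) ^ (25 * (P.A + 3)) *
        ((1 / (n : ℝ)) * (1 / (m : ℝ)))) := by
      refine (abs_sum_le_sum_abs _ _).trans ?_
      refine (sum_le_sum fun ω _ => hSb ω).trans ?_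
      rw [sum_const, card_univ, Fintype.card_fin, nsmul_eq_mul]
    calc κ0 * |∑ ω, S ω| ≤ κ0 * (Ω * (4000 * (T : ℝ) ^ 2 / (z : ℝ) ^ (25 * (P.A + 3)) *
        ((1 / (n : ℝ)) * (1 / (m : ℝ))))) := mul_le_mul_of_nonneg_left h1 hκ
      _ = (κ0 * Ω) * (4000 * (T : ℝ) ^ 2 / (z : ℝ) ^ (25 * (P.A + 3)) *
        ((1 / (n : ℝ)) * (1 / (m : ℝ)))) := by ring
      _ ≤ _ := mul_le_mul_of_nonneg_right hκΩ (by positivity)
  refine (abs_sum_le_sum_abs _ _).trans ?_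
  refine (sum_le_sum hone).trans ?_
  rw [mul_sum]
  refine sum_le_sum_of_subset_of_nonneg ?_ fun m _ _ => by positivity
  intro m hm
  unfold Mset at hm
  rw [mem_filter, mem_Ioc] at hm
  rw [mem_Icc]
  omega

/-- `log (2T)` is at most `z - 1` -/
private theorem l_log (M z T : ℕ) (hz : (100 * M + 100) ^ 2 ≤ z)
    (hT : T < (z + 1) ^ (30 * M)) (hT0 : 0 < T) : 1 + Real.log ((2 * T : ℕ) : ℝ) ≤ z := by
  set s : ℝ := Real.sqrt ((z : ℝ) + 1) with hs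
  have hz1 : (0 : ℝ) < (z : ℝ) + 1 := by positivity
  have hs0 : 0 < s := Real.sqrt_pos.mpr hz1
  have hss : s ^ 2 = (z : ℝ) + 1 := Real.sq_sqrt hz1.le
  have hsM : (100 * M + 100 : ℝ) ≤ s := by
    rw [hs]
    apply Real.le_sqrt_of_sq_le
    have h : ((100 * M + 100 : ℕ) : ℝ) ^ 2 ≤ z := by exact_mod_cast hz
    push_cast at h
    linarith
  have h1 : Real.log ((z : ℝ) + 1) ≤ 2 * s := by
    rw [← hss, Real.log_pow]
    have h2 := Real.log_le_sub_one_of_pos hs0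
    push_cast
    linarith
  have h3 : Real.log ((2 * T : ℕ) : ℝ) ≤ 1 + 30 * M * Real.log ((z : ℝ) + 1) := by
    push_cast
    have hT1 : (T : ℝ) ≠ 0 := by exact_mod_cast hT0.ne'
    rw [Real.log_mul (by norm_num) hT1]
    have h4 : Real.log 2 ≤ 1 := by
      have := Real.log_two_lt_d9
      linarith
    have h5 : Real.log (T : ℝ) ≤ 30 * M * Real.log ((z : ℝ) + 1) := by
      have h6 : (T : ℝ) ≤ ((z : ℝ) + 1) ^ (30 * M) := by exact_mod_cast hT.le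
      have h7 := Real.log_le_log (by exact_mod_cast hT0) h6
      rw [Real.log_pow] at h7
      push_cast at h7
      exact h7
    linarith
  have h8 : 30 * (M : ℝ) * Real.log ((z : ℝ) + 1) ≤ 60 * M * s := by
    have hM0 : (0 : ℝ) ≤ M := by positivity
    nlinarith
  have hM0 : (0 : ℝ) ≤ M := by positivity
  nlinarith [mul_le_mul_of_nonneg_right hsM hs0.le, mul_nonneg hM0 hs0.le]

theorem case1 {P : Par} (hP : P.Adm) (k : ℕ) : ∃ z0 : ℕ, ∀ z T : ℕ, z0 ≤ z → P.TZ z T →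
    ∀ (v : Fin k → LL) (vq vr : LL) (i : Fin k), (i : ℕ) < P.J → QQ (v i + vq + vr) = 1 →
      |∑ x ∈ SSk P z T k, TT z x.1 x.2 k v vq vr| ≤ (T : ℝ) ^ 2 / z ^ 2 := by
  refine ⟨(100 * P.M + 100) ^ 2 + P.w + 2, fun z T hz0 hT v vq vr i hiJ hQ => ?_⟩
  have hz : 2 ≤ z := by omega
  have hwz : P.w ≤ z := by omega
  have hzM : (100 * P.M + 100) ^ 2 ≤ z := by omega
  have hzR : (2 : ℝ) ≤ z := by exact_mod_cast hz
  have hzp : (0 : ℝ) < z := by linarith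
  have hTpos : 0 < T := lt_of_lt_of_le (pow_pos (by omega) _) hT.1
  by_cases hk : k < 2
  · have hem : SSk P z T k = ∅ := by
      rw [eq_empty_iff_forall_notMem]
      intro x hx
      have h1 := (uufac hP hz hT hx).Jk
      have h2 := hP.hJ
      omega
    rw [hem, sum_empty, abs_zero]
    positivity
  -- the second place
  obtain ⟨j, hj, hij⟩ : ∃ j : ℕ, j < k ∧ (i : ℕ) ≠ j := by
    by_cases h0 : (i : ℕ) = 0
    · exact ⟨1, by omega, by omega⟩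
    · exact ⟨0, by omega, h0⟩
  rw [fib_sum hP hz hwz hT hiJ hj hij (fun x => TT z x.1 x.2 k v vq vr)]
  set C : ℝ := 4000 * (T : ℝ) ^ 2 / (z : ℝ) ^ (25 * (P.A + 3)) with hC
  have hC0 : 0 ≤ C := by positivity
  set H : ℝ := ∑ n ∈ Icc 1 (2 * T), (1 / (n : ℝ)) with hH
  have hH0 : 0 ≤ H := sum_nonneg fun n _ => by positivity
  have hHz : H ≤ z := (l_harm (2 * T)).trans (l_log P.M z T hzM hT.2 hTpos)
  refine le_trans (b := ∑ n ∈ Icc 1 (2 * T), ∑ b ∈ Icc 1 z, ∑ c ∈ Icc 1 z,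
      2 ^ 15 * (z : ℝ) ^ (P.A + 2) * ∑ m ∈ Icc 1 (2 * T),
        C * ((1 / (n : ℝ)) * (1 / (m : ℝ)))) ?_ ?_
  · refine (abs_sum_le_sum_abs _ _).trans (sum_le_sum fun n hn => ?_)
    refine (abs_sum_le_sum_abs _ _).trans (sum_le_sum fun b hb => ?_)
    refine (abs_sum_le_sum_abs _ _).trans (sum_le_sum fun c hc => ?_)
    split_ifs with hK
    · exact l_key hP hz hwz hT hiJ hj i.2 hij hK v vq vr hQ
    · rw [abs_zero]
      exact mul_nonneg (by positivity) (sum_nonneg fun m _ => by positivity)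
  have hval : ∑ n ∈ Icc 1 (2 * T), ∑ b ∈ Icc 1 z, ∑ c ∈ Icc 1 z,
        2 ^ 15 * (z : ℝ) ^ (P.A + 2) * ∑ m ∈ Icc 1 (2 * T), C * ((1 / (n : ℝ)) * (1 / (m : ℝ))) =
      (z : ℝ) ^ 2 * (2 ^ 15 * (z : ℝ) ^ (P.A + 2)) * C * (H * H) := by
    have h1 : ∀ n : ℕ, ∑ m ∈ Icc 1 (2 * T), C * ((1 / (n : ℝ)) * (1 / (m : ℝ))) =
        C * ((1 / (n : ℝ)) * H) := by
      intro n
      rw [hH, mul_sum, mul_sum]
    simp only [h1, sum_const, Nat.card_Icc, nsmul_eq_mul, Nat.add_sub_cancel]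
    have h2 : ∀ n : ℕ, (z : ℝ) * ((z : ℝ) * (2 ^ 15 * (z : ℝ) ^ (P.A + 2) *
        (C * ((1 / (n : ℝ)) * H)))) = (z : ℝ) ^ 2 * (2 ^ 15 * (z : ℝ) ^ (P.A + 2)) * C * H *
        (1 / (n : ℝ)) := by
      intro n
      ring
    simp only [h2]
    rw [← mul_sum, ← hH]
    ring
  rw [hval]
  have hHH : H * H ≤ (z : ℝ) * z := mul_le_mul hHz hHz hH0 hzp.le
  calc (z : ℝ) ^ 2 * (2 ^ 15 * (z : ℝ) ^ (P.A + 2)) * C * (H * H)
      ≤ (z : ℝ) ^ 2 * (2 ^ 15 * (z : ℝ) ^ (P.A + 2)) * C * (z * z) :=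
        mul_le_mul_of_nonneg_left hHH (by positivity)
    _ ≤ (T : ℝ) ^ 2 / z ^ 2 := by
        rw [hC, le_div_iff₀ (by positivity)]
        have e1 : (z : ℝ) ^ 2 * (2 ^ 15 * (z : ℝ) ^ (P.A + 2)) *
            (4000 * (T : ℝ) ^ 2 / (z : ℝ) ^ (25 * (P.A + 3))) * (z * z) * z ^ 2 =
            (T : ℝ) ^ 2 * (2 ^ 15 * 4000 * (z : ℝ) ^ (P.A + 8) / (z : ℝ) ^ (25 * (P.A + 3))) := by
          field_simp
          ring
        rw [e1]
        have e2 : 2 ^ 15 * 4000 * (z : ℝ) ^ (P.A + 8) / (z : ℝ) ^ (25 * (P.A + 3)) ≤ 1 := by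
          rw [div_le_one (by positivity)]
          have e3 : (2 : ℝ) ^ 15 * 4000 ≤ (z : ℝ) ^ 27 := by
            have e4 : (2 : ℝ) ^ 27 ≤ (z : ℝ) ^ 27 := pow_le_pow_left₀ (by norm_num) hzR 27
            have e5 : (2 : ℝ) ^ 15 * 4000 ≤ 2 ^ 27 := by norm_num
            exact e5.trans e4
          calc (2 : ℝ) ^ 15 * 4000 * (z : ℝ) ^ (P.A + 8) ≤ (z : ℝ) ^ 27 * (z : ℝ) ^ (P.A + 8) :=
                mul_le_mul_of_nonneg_right e3 (by positivity)
            _ = (z : ℝ) ^ (27 + (P.A + 8)) := by rw [← pow_add]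
            _ ≤ (z : ℝ) ^ (25 * (P.A + 3)) :=
                pow_le_pow_right₀ (by linarith) (by omega)
        calc (T : ℝ) ^ 2 * (2 ^ 15 * 4000 * (z : ℝ) ^ (P.A + 8) / (z : ℝ) ^ (25 * (P.A + 3)))
            ≤ (T : ℝ) ^ 2 * 1 := mul_le_mul_of_nonneg_left e2 (by positivity)
          _ = (T : ℝ) ^ 2 := mul_one _

end Pool.Agent.H77.K3
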