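import Pool.Agent.H77.K3.C14
import Pool.Agent.H77.K3.C16

/-!
# C17: the coupled patterns are negligible

For a pattern which is not uncoupled (`¬ Unc (MM J k) v vq vr`): either `QQ (v i + vq + vr) ≠ 0` for
some `i < J` (`case1`; values in `F_2`, so it is `1`), or all of these vanish and
`QQ (v i + v j) = 1` for some `i < J`, `j < k`; `i ≠ j` as `QQ 0 = 0`; if `j < i` exchange `i` and `j`
(`j < J`, and `QQ (v j + vq + vr) = 0` too) (`case2`). There are `16^(k+2)` patterns, so the sum is at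
most `16^(k+2) T^2/z^2 ≤ T^2/z` for `z ≥ 16^(k+2)`; take the maximum of the `z0` for
`k ≤ J + 30`.
-/

set_option autoImplicit false

namespace Pool.Agent.H77.K3

open Finset Pool.Agent.H77.SV

private theorem c17_z2 (x : ZMod 2) (h : x ≠ 0) : x = 1 := by
  revert h; revert x; decide

private theorem c17_self (a : LL) : QQ (a + a) = 0 := by
  have h2 : ∀ x : V2, x + x = 0 := by decide
  have : a + a = 0 := by
    ext1
    · exact h2 a.1
    · exact h2 a.2
  rw [this]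
  simp [QQ, dot]

private theorem c17_card : Fintype.card LL = 16 := by decide

private theorem c17_one {P : Par} (z T k z1 z2 : ℕ) (h1 : z1 ≤ z) (h2 : z2 ≤ z)
    (hTZ : P.TZ z T)
    (H1 : ∀ z T : ℕ, z1 ≤ z → P.TZ z T →
      ∀ (v : Fin k → LL) (vq vr : LL) (i : Fin k), (i : ℕ) < P.J → QQ (v i + vq + vr) = 1 →
      |∑ x ∈ SSk P z T k, TT z x.1 x.2 k v vq vr| ≤ (T : ℝ) ^ 2 / z ^ 2)
    (H2 : ∀ z T : ℕ, z2 ≤ z → P.TZ z T →
      ∀ (v : Fin k → LL) (vq vr : LL) (i j : Fin k), (i : ℕ) < P.J → i < j →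
      QQ (v i + v j) = 1 → QQ (v i + vq + vr) = 0 →
      |∑ x ∈ SSk P z T k, TT z x.1 x.2 k v vq vr| ≤ (T : ℝ) ^ 2 / z ^ 2)
    (v : Fin k → LL) (vq vr : LL) (hU : ¬ Unc (MM P.J k) v vq vr) :
    |∑ x ∈ SSk P z T k, TT z x.1 x.2 k v vq vr| ≤ (T : ℝ) ^ 2 / z ^ 2 := by
  have hmem : ∀ i : Fin k, i ∈ MM P.J k ↔ (i : ℕ) < P.J := by
    intro i; simp [MM]
  by_cases hq : ∀ i ∈ MM P.J k, QQ (v i + vq + vr) = 0
  · have hx : ¬ ∀ i ∈ MM P.J k, ∀ u, QQ (v i + v u) = 0 := fun h => hU ⟨h, hq⟩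
    push Not at hx
    obtain ⟨i, hi, u, hu⟩ := hx
    have hu1 := c17_z2 _ hu
    rcases lt_trichotomy i u with h | h | h
    · exact H2 z T h2 hTZ v vq vr i u ((hmem i).1 hi) h hu1 (hq i hi)
    · subst h
      exact absurd (c17_self (v i)) hu
    · have hu' : u ∈ MM P.J k := (hmem u).2 (lt_of_lt_of_le (show (u : ℕ) < i from h)
        ((hmem i).1 hi).le)
      refine H2 z T h2 hTZ v vq vr u i ((hmem u).1 hu') h ?_ (hq u hu')
      rw [add_comm]; exact hu1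
  · push Not at hq
    obtain ⟨i, hi, h⟩ := hq
    exact H1 z T h1 hTZ v vq vr i ((hmem i).1 hi) (c17_z2 _ h)

open Classical in
private theorem c17_sum {P : Par} (z T k : ℕ) (hz : 16 ^ (k + 2) ≤ z)
    (H : ∀ (v : Fin k → LL) (vq vr : LL), ¬ Unc (MM P.J k) v vq vr →
      |∑ x ∈ SSk P z T k, TT z x.1 x.2 k v vq vr| ≤ (T : ℝ) ^ 2 / z ^ 2) :
    |∑ x ∈ SSk P z T k, ∑ v : Fin k → LL, ∑ vq : LL, ∑ vr : LL,
      if Unc (MM P.J k) v vq vr then 0 else TT z x.1 x.2 k v vq vr| ≤ (T : ℝ) ^ 2 / z := by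
  have hz0 : 0 < z := lt_of_lt_of_le (by positivity) hz
  have hzr : (0 : ℝ) < z := by exact_mod_cast hz0
  have hb : (0 : ℝ) ≤ (T : ℝ) ^ 2 / z ^ 2 := by positivity
  have e1 : (∑ x ∈ SSk P z T k, ∑ v : Fin k → LL, ∑ vq : LL, ∑ vr : LL,
      if Unc (MM P.J k) v vq vr then 0 else TT z x.1 x.2 k v vq vr) =
      ∑ v : Fin k → LL, ∑ vq : LL, ∑ vr : LL, ∑ x ∈ SSk P z T k,
      if Unc (MM P.J k) v vq vr then 0 else TT z x.1 x.2 k v vq vr := by
    rw [sum_comm]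
    refine sum_congr rfl fun v _ => ?_
    rw [sum_comm]
    refine sum_congr rfl fun vq _ => ?_
    rw [sum_comm]
  rw [e1]
  have hin : ∀ (v : Fin k → LL) (vq vr : LL), |∑ x ∈ SSk P z T k,
      if Unc (MM P.J k) v vq vr then 0 else TT z x.1 x.2 k v vq vr| ≤ (T : ℝ) ^ 2 / z ^ 2 := by
    intro v vq vr
    by_cases hU : Unc (MM P.J k) v vq vr
    · simp only [if_pos hU, sum_const_zero, abs_zero]; exact hb
    · simp only [if_neg hU]; exact H v vq vr hU
  calc |∑ v : Fin k → LL, ∑ vq : LL, ∑ vr : LL, ∑ x ∈ SSk P z T k,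
        if Unc (MM P.J k) v vq vr then 0 else TT z x.1 x.2 k v vq vr|
      ≤ ∑ v : Fin k → LL, ∑ vq : LL, ∑ vr : LL, (T : ℝ) ^ 2 / z ^ 2 := by
        refine (abs_sum_le_sum_abs _ _).trans (sum_le_sum fun v _ => ?_)
        refine (abs_sum_le_sum_abs _ _).trans (sum_le_sum fun vq _ => ?_)
        exact (abs_sum_le_sum_abs _ _).trans (sum_le_sum fun vr _ => hin v vq vr)
    _ = (16 : ℝ) ^ (k + 2) * ((T : ℝ) ^ 2 / z ^ 2) := by
        simp only [sum_const, card_univ, Fintype.card_pi, Fintype.card_fin, c17_card, prod_const,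
          nsmul_eq_mul]
        push_cast
        ring
    _ ≤ (z : ℝ) * ((T : ℝ) ^ 2 / z ^ 2) := by
        refine mul_le_mul_of_nonneg_right ?_ hb
        exact_mod_cast hz
    _ = (T : ℝ) ^ 2 / z := by
        field_simp

open Classical in
theorem coupled {P : Par} (hP : P.Adm) : ∃ z0 : ℕ, ∀ z T : ℕ, z0 ≤ z → P.TZ z T →
    ∀ k ≤ P.J + 30, |∑ x ∈ SSk P z T k, ∑ v : Fin k → LL, ∑ vq : LL, ∑ vr : LL,
      if Unc (MM P.J k) v vq vr then 0 else TT z x.1 x.2 k v vq vr| ≤ (T : ℝ) ^ 2 / z := by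
  choose f hf using fun k => case1 hP k
  choose g hg using fun k => case2 hP k
  refine ⟨(range (P.J + 31)).sup fun k => max (max (f k) (g k)) (16 ^ (k + 2)), ?_⟩
  intro z T hz hTZ k hk
  have hle : max (max (f k) (g k)) (16 ^ (k + 2)) ≤ z :=
    le_trans (le_sup (f := fun k => max (max (f k) (g k)) (16 ^ (k + 2)))
      (mem_range.2 (by omega))) hz
  have h1 : f k ≤ z := le_trans (le_trans (le_max_left _ _) (le_max_left _ _)) hle
  have h2 : g k ≤ z := le_trans (le_trans (le_max_right _ _) (le_max_left _ _)) hle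
  have h3 : 16 ^ (k + 2) ≤ z := le_trans (le_max_right _ _) hle
  exact c17_sum z T k h3 fun v vq vr hU =>
    c17_one z T k (f k) (g k) h1 h2 hTZ (hf k) (hg k) v vq vr hU

end Pool.Agent.H77.K3
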