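import Pool.Agent.H77.K3.C2

/-!
# C3: the bilinear sum of case I

`n, K ≥ 1`, `K^5 ≤ n`, `Pp` a set of odd primes `≤ K`, `|F|, |f|, |g| ≤ 1`. Then
`|sum_(p ∈ Pp) sum_(Y ≤ n p) F(p) f(Y) g(n p - Y) (Y / p)| ≤ 1000 n K^(7/4)`.

Proof. Write `Y = y + n j`, `0 ≤ y < n`, `j = Y / n ≤ p ≤ K` and `l = p - j ∈ [0, K]`; then
`n p - Y = n l - y`. For fixed `y` the sum is `sum_(j, l ≤ K) f(y + n j) mx y j l g'(l)`, where
`g'(l) = g (n l - y)` if `y ≤ n l`, and `0` otherwise (the condition `Y ≤ n p` is `y ≤ n l`).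
For real `a_j`, `b_l` of absolute value `≤ 1`, by Cauchy's inequality twice (`M = mx y`,
`D = K + 1`):
`(sum_(j,l) a_j M_jl b_l)^2`. Put `c_l = sum_j a_j M_jl`. `(sum_l c_l b_l)^2 ≤ D sum_l c_l^2 =
D sum_(j,j') a_j a_j' (sum_l M_jl M_j'l) ≤ D * D * (sum_(j,j') (sum_l M_jl M_j'l)^2)^(1/2)`.
So `|sum| ≤ D S_y^(1/4)` with `S_y` the inner double sum of `mom4`. By Hölder (or Cauchy twice) and
`mom4`: `sum_(y < n) S_y^(1/4) ≤ n^(3/4) (sum_y S_y)^(1/4) ≤ n^(3/4) (100 (n K^3 + K^8))^(1/4) ≤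
n^(3/4) (200 n K^3)^(1/4) ≤ 4 n K^(3/4)` (`K^8 ≤ n K^3`). Total: `(K+1) * 4 n K^(3/4) ≤
8 n K^(7/4)`.
-/

set_option autoImplicit false

namespace Pool.Agent.H77.K3

open Finset Pool.Agent.H77.SV

private theorem c3_term (K : ℕ) (M : ℕ → ℕ → ℝ) (a b : ℕ → ℝ) (ha : ∀ j, |a j| ≤ 1)
    (hb : ∀ l, |b l| ≤ 1) :
    (∑ j ∈ range (K + 1), ∑ l ∈ range (K + 1), a j * M j l * b l) ^ 4 ≤
      ((K : ℝ) + 1) ^ 4 * ∑ j ∈ range (K + 1), ∑ j' ∈ range (K + 1),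
        (∑ l ∈ range (K + 1), M j l * M j' l) ^ 2 := by
  have ha2 : ∀ j, a j ^ 2 ≤ 1 := fun j => (sq_le_one_iff_abs_le_one _).2 (ha j)
  have hb2 : ∀ j, b j ^ 2 ≤ 1 := fun j => (sq_le_one_iff_abs_le_one _).2 (hb j)
  set c : ℕ → ℝ := fun l => ∑ j ∈ range (K + 1), a j * M j l with hc
  have hT : ∑ j ∈ range (K + 1), ∑ l ∈ range (K + 1), a j * M j l * b l =
      ∑ l ∈ range (K + 1), c l * b l := by
    rw [sum_comm]
    refine sum_congr rfl fun l _ => ?_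
    rw [hc, sum_mul]
  have hD : ∑ l ∈ range (K + 1), b l ^ 2 ≤ (K : ℝ) + 1 := by
    calc ∑ l ∈ range (K + 1), b l ^ 2 ≤ ∑ _l ∈ range (K + 1), (1 : ℝ) :=
          sum_le_sum fun l _ => hb2 l
      _ = (K : ℝ) + 1 := by simp
  have hc2 : 0 ≤ ∑ l ∈ range (K + 1), c l ^ 2 := sum_nonneg fun l _ => sq_nonneg _
  have h1 : (∑ l ∈ range (K + 1), c l * b l) ^ 2 ≤ ((K : ℝ) + 1) * ∑ l ∈ range (K + 1), c l ^ 2 := by
    calc (∑ l ∈ range (K + 1), c l * b l) ^ 2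
        ≤ (∑ l ∈ range (K + 1), c l ^ 2) * ∑ l ∈ range (K + 1), b l ^ 2 :=
          sum_mul_sq_le_sq_mul_sq _ _ _
      _ ≤ (∑ l ∈ range (K + 1), c l ^ 2) * ((K : ℝ) + 1) := mul_le_mul_of_nonneg_left hD hc2
      _ = _ := mul_comm _ _
  have h2 : ∑ l ∈ range (K + 1), c l ^ 2 =
      ∑ x ∈ range (K + 1) ×ˢ range (K + 1), (a x.1 * a x.2) *
        ∑ l ∈ range (K + 1), M x.1 l * M x.2 l := by
    rw [sum_product]
    calc ∑ l ∈ range (K + 1), c l ^ 2 = ∑ l ∈ range (K + 1), ∑ j ∈ range (K + 1),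
          ∑ j' ∈ range (K + 1), (a j * M j l) * (a j' * M j' l) := by
          refine sum_congr rfl fun l _ => ?_
          rw [hc, sq, sum_mul_sum]
      _ = ∑ j ∈ range (K + 1), ∑ l ∈ range (K + 1),
          ∑ j' ∈ range (K + 1), (a j * M j l) * (a j' * M j' l) := sum_comm
      _ = _ := by
          refine sum_congr rfl fun j _ => ?_
          rw [sum_comm]
          refine sum_congr rfl fun j' _ => ?_
          rw [mul_sum]
          refine sum_congr rfl fun l _ => ?_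
          ring
  have h3 : (∑ l ∈ range (K + 1), c l ^ 2) ^ 2 ≤ ((K : ℝ) + 1) ^ 2 *
      ∑ j ∈ range (K + 1), ∑ j' ∈ range (K + 1),
        (∑ l ∈ range (K + 1), M j l * M j' l) ^ 2 := by
    rw [h2]
    refine (sum_mul_sq_le_sq_mul_sq _ _ _).trans ?_
    rw [sum_product (f := fun x : ℕ × ℕ => (∑ l ∈ range (K + 1), M x.1 l * M x.2 l) ^ 2)]
    refine mul_le_mul_of_nonneg_right ?_ (sum_nonneg fun _ _ => sum_nonneg fun _ _ => sq_nonneg _)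
    calc ∑ x ∈ range (K + 1) ×ˢ range (K + 1), (a x.1 * a x.2) ^ 2
        ≤ ∑ _x ∈ range (K + 1) ×ˢ range (K + 1), (1 : ℝ) := by
          refine sum_le_sum fun x _ => ?_
          rw [mul_pow]
          exact mul_le_one₀ (ha2 _) (sq_nonneg _) (ha2 _)
      _ = ((K : ℝ) + 1) ^ 2 := by
          rw [sum_const, card_product, card_range]
          push_cast [nsmul_eq_mul]
          ring
  rw [hT]
  have hK0 : (0 : ℝ) ≤ (K : ℝ) + 1 := by positivity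
  calc (∑ l ∈ range (K + 1), c l * b l) ^ 4 = ((∑ l ∈ range (K + 1), c l * b l) ^ 2) ^ 2 := by ring
    _ ≤ (((K : ℝ) + 1) * ∑ l ∈ range (K + 1), c l ^ 2) ^ 2 :=
        pow_le_pow_left₀ (sq_nonneg _) h1 2
    _ = ((K : ℝ) + 1) ^ 2 * (∑ l ∈ range (K + 1), c l ^ 2) ^ 2 := by ring
    _ ≤ ((K : ℝ) + 1) ^ 2 * (((K : ℝ) + 1) ^ 2 *
      ∑ j ∈ range (K + 1), ∑ j' ∈ range (K + 1),
        (∑ l ∈ range (K + 1), M j l * M j' l) ^ 2) := mul_le_mul_of_nonneg_left h3 (by positivity)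
    _ = _ := by ring

private theorem c3_sum4 (n : ℕ) (T : ℕ → ℝ) :
    (∑ y ∈ range n, T y) ^ 4 ≤ (n : ℝ) ^ 3 * ∑ y ∈ range n, T y ^ 4 := by
  have h1 : (∑ y ∈ range n, T y) ^ 2 ≤ (n : ℝ) * ∑ y ∈ range n, T y ^ 2 := by
    have := sq_sum_le_card_mul_sum_sq (s := range n) (f := T)
    rwa [card_range] at this
  have h2 : (∑ y ∈ range n, T y ^ 2) ^ 2 ≤ (n : ℝ) * ∑ y ∈ range n, (T y ^ 2) ^ 2 := by
    have := sq_sum_le_card_mul_sum_sq (s := range n) (f := fun y => T y ^ 2)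
    rwa [card_range] at this
  calc (∑ y ∈ range n, T y) ^ 4 = ((∑ y ∈ range n, T y) ^ 2) ^ 2 := by ring
    _ ≤ ((n : ℝ) * ∑ y ∈ range n, T y ^ 2) ^ 2 := pow_le_pow_left₀ (sq_nonneg _) h1 2
    _ = (n : ℝ) ^ 2 * (∑ y ∈ range n, T y ^ 2) ^ 2 := by ring
    _ ≤ (n : ℝ) ^ 2 * ((n : ℝ) * ∑ y ∈ range n, (T y ^ 2) ^ 2) :=
        mul_le_mul_of_nonneg_left h2 (by positivity)
    _ = (n : ℝ) ^ 3 * ∑ y ∈ range n, T y ^ 4 := by
        have e : ∑ y ∈ range n, (T y ^ 2) ^ 2 = ∑ y ∈ range n, T y ^ 4 :=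
          sum_congr rfl fun y _ => by ring
        rw [e]
        ring

private theorem c3_reindex (n K : ℕ) (hn : 1 ≤ n) (Pp : Finset ℕ)
    (hPp : ∀ p ∈ Pp, p ≤ K) (F f g : ℕ → ℝ) :
    ∑ p ∈ Pp, ∑ Y ∈ range (n * p + 1), F p * f Y * g (n * p - Y) * jz (Y : ℤ) p =
      ∑ y ∈ range n, ∑ j ∈ range (K + 1), ∑ l ∈ range (K + 1),
        f (y + n * j) * mx n Pp F y j l * (if y ≤ n * l then g (n * l - y) else 0) := by
  classical
  rw [sum_sigma' Pp (fun p => range (n * p + 1))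
    (fun p Y => F p * f Y * g (n * p - Y) * jz (Y : ℤ) p)]
  have hR : ∑ y ∈ range n, ∑ j ∈ range (K + 1), ∑ l ∈ range (K + 1),
        f (y + n * j) * mx n Pp F y j l * (if y ≤ n * l then g (n * l - y) else 0) =
      ∑ x ∈ (range n ×ˢ (range (K + 1) ×ˢ range (K + 1))).filter
        (fun x => x.2.1 + x.2.2 ∈ Pp ∧ x.1 ≤ n * x.2.2),
        f (x.1 + n * x.2.1) * (F (x.2.1 + x.2.2) *
          jz ((x.1 : ℤ) + n * x.2.1) (x.2.1 + x.2.2)) * g (n * x.2.2 - x.1) := by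
    rw [sum_filter, sum_product]
    refine sum_congr rfl fun y _ => ?_
    rw [sum_product]
    refine sum_congr rfl fun j _ => sum_congr rfl fun l _ => ?_
    unfold mx
    by_cases h1 : j + l ∈ Pp
    · by_cases h2 : y ≤ n * l
      · simp [h1, h2]
      · simp [h1, h2]
    · simp [h1]
  rw [hR]
  refine sum_nbij' (i := fun x => (x.2 % n, x.2 / n, x.1 - x.2 / n))
    (j := fun x => ⟨x.2.1 + x.2.2, x.1 + n * x.2.1⟩) ?_ ?_ ?_ ?_ ?_
  · rintro ⟨p, Y⟩ hx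
    simp only [mem_sigma, mem_range] at hx
    obtain ⟨hp, hY⟩ := hx
    have hpK := hPp p hp
    have hdiv : Y / n ≤ p := by
      rw [Nat.div_le_iff_le_mul_add_pred (by omega)]
      omega
    have hmod := Nat.mod_lt Y (show 0 < n by omega)
    have hsum := Nat.mod_add_div Y n
    simp only [mem_filter, mem_product, mem_range]
    refine ⟨⟨hmod, Nat.lt_succ_of_le (hdiv.trans hpK),
      Nat.lt_succ_of_le ((Nat.sub_le _ _).trans hpK)⟩, ?_, ?_⟩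
    · rw [Nat.add_sub_cancel' hdiv]; exact hp
    · rw [Nat.mul_sub]
      have : n * (Y / n) ≤ n * p := Nat.mul_le_mul_left _ hdiv
      omega
  · rintro ⟨y, j, l⟩ hx
    simp only [mem_filter, mem_product, mem_range] at hx
    obtain ⟨⟨hy, hj, hl⟩, h1, h2⟩ := hx
    simp only [mem_sigma, mem_range]
    refine ⟨h1, ?_⟩
    rw [Nat.mul_add]
    omega
  · rintro ⟨p, Y⟩ hx
    simp only [mem_sigma, mem_range] at hx
    obtain ⟨hp, hY⟩ := hx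
    have hdiv : Y / n ≤ p := by
      rw [Nat.div_le_iff_le_mul_add_pred (by omega)]
      omega
    have hsum := Nat.mod_add_div Y n
    simp only
    rw [Nat.add_sub_cancel' hdiv, hsum]
  · rintro ⟨y, j, l⟩ hx
    simp only [mem_filter, mem_product, mem_range] at hx
    obtain ⟨⟨hy, hj, hl⟩, h1, h2⟩ := hx
    have e1 : (y + n * j) % n = y := by
      rw [Nat.add_mul_mod_self_left, Nat.mod_eq_of_lt hy]
    have e2 : (y + n * j) / n = j := by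
      rw [Nat.add_mul_div_left _ _ (by omega), Nat.div_eq_of_lt hy, Nat.zero_add]
    simp only
    rw [e1, e2, Nat.add_sub_cancel_left]
  · rintro ⟨p, Y⟩ hx
    simp only [mem_sigma, mem_range] at hx
    obtain ⟨hp, hY⟩ := hx
    have hdiv : Y / n ≤ p := by
      rw [Nat.div_le_iff_le_mul_add_pred (by omega)]
      omega
    have hsum := Nat.mod_add_div Y n
    simp only
    rw [Nat.add_sub_cancel' hdiv]
    have e3 : n * (p - Y / n) - Y % n = n * p - Y := by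
      rw [Nat.mul_sub]
      have : n * (Y / n) ≤ n * p := Nat.mul_le_mul_left _ hdiv
      omega
    have e4 : ((Y % n : ℕ) : ℤ) + n * ((Y / n : ℕ) : ℤ) = (Y : ℤ) := by
      exact_mod_cast hsum
    rw [e3, e4, hsum]
    ring

theorem lemI (n K : ℕ) (hK : 1 ≤ K) (hKn : K ^ 5 ≤ n) (Pp : Finset ℕ)
    (hPp : ∀ p ∈ Pp, p.Prime ∧ p ≠ 2 ∧ p ≤ K) (F f g : ℕ → ℝ) (hF : ∀ p, |F p| ≤ 1)
    (hf : ∀ p, |f p| ≤ 1) (hg : ∀ p, |g p| ≤ 1) :
    |∑ p ∈ Pp, ∑ Y ∈ range (n * p + 1), F p * f Y * g (n * p - Y) * jz (Y : ℤ) p| ≤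
      1000 * n * (K : ℝ) ^ (7 / 4 : ℝ) := by
  have hn : 1 ≤ n := (Nat.one_le_pow _ _ hK).trans hKn
  have hK0 : (1 : ℝ) ≤ K := by exact_mod_cast hK
  have hn0 : (1 : ℝ) ≤ n := by exact_mod_cast hn
  rw [c3_reindex n K hn Pp (fun p hp => (hPp p hp).2.2) F f g]
  set T : ℕ → ℝ := fun y => ∑ j ∈ range (K + 1), ∑ l ∈ range (K + 1),
    f (y + n * j) * mx n Pp F y j l * (if y ≤ n * l then g (n * l - y) else 0) with hT
  have h1 : ∀ y, T y ^ 4 ≤ ((K : ℝ) + 1) ^ 4 * ∑ j ∈ range (K + 1), ∑ j' ∈ range (K + 1),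
      (∑ l ∈ range (K + 1), mx n Pp F y j l * mx n Pp F y j' l) ^ 2 := by
    intro y
    refine c3_term K (fun j l => mx n Pp F y j l) (fun j => f (y + n * j))
      (fun l => if y ≤ n * l then g (n * l - y) else 0) (fun j => hf _) (fun l => ?_)
    split_ifs
    · exact hg _
    · simp
  have h2 := c3_sum4 n T
  have h3 := mom4 n K hn hK Pp hPp F hF
  have h4 : ∑ y ∈ range n, T y ^ 4 ≤ ((K : ℝ) + 1) ^ 4 * (100 * ((n : ℝ) * K ^ 3 + K ^ 8)) := by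
    calc ∑ y ∈ range n, T y ^ 4 ≤ ∑ y ∈ range n, ((K : ℝ) + 1) ^ 4 *
          ∑ j ∈ range (K + 1), ∑ j' ∈ range (K + 1),
          (∑ l ∈ range (K + 1), mx n Pp F y j l * mx n Pp F y j' l) ^ 2 :=
          sum_le_sum fun y _ => h1 y
      _ = ((K : ℝ) + 1) ^ 4 * ∑ y ∈ range n, ∑ j ∈ range (K + 1), ∑ j' ∈ range (K + 1),
          (∑ l ∈ range (K + 1), mx n Pp F y j l * mx n Pp F y j' l) ^ 2 := by rw [mul_sum]
      _ ≤ _ := mul_le_mul_of_nonneg_left h3 (by positivity)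
  have hKn' : (K : ℝ) ^ 5 ≤ n := by exact_mod_cast hKn
  have h5 : (K : ℝ) ^ 8 ≤ n * K ^ 3 := by
    calc (K : ℝ) ^ 8 = (K : ℝ) ^ 5 * (K : ℝ) ^ 3 := by ring
      _ ≤ (n : ℝ) * (K : ℝ) ^ 3 := mul_le_mul_of_nonneg_right hKn' (by positivity)
  have h6 : ((K : ℝ) + 1) ^ 4 ≤ 16 * K ^ 4 := by
    calc ((K : ℝ) + 1) ^ 4 ≤ (2 * K) ^ 4 := pow_le_pow_left₀ (by positivity) (by linarith) 4
      _ = 16 * K ^ 4 := by ring
  have h7 : (∑ y ∈ range n, T y) ^ 4 ≤ 3200 * ((n : ℝ) ^ 4 * K ^ 7) := by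
    calc (∑ y ∈ range n, T y) ^ 4 ≤ (n : ℝ) ^ 3 * ∑ y ∈ range n, T y ^ 4 := h2
      _ ≤ (n : ℝ) ^ 3 * (((K : ℝ) + 1) ^ 4 * (100 * ((n : ℝ) * K ^ 3 + K ^ 8))) :=
          mul_le_mul_of_nonneg_left h4 (by positivity)
      _ ≤ (n : ℝ) ^ 3 * ((16 * K ^ 4) * (100 * ((n : ℝ) * K ^ 3 + n * K ^ 3))) := by
          refine mul_le_mul_of_nonneg_left (mul_le_mul h6 ?_ (by positivity) (by positivity))
            (by positivity)
          linarith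
      _ = 3200 * ((n : ℝ) ^ 4 * K ^ 7) := by ring
  have h8 : (1000 * (n : ℝ) * (K : ℝ) ^ (7 / 4 : ℝ)) ^ 4 = 1000 ^ 4 * ((n : ℝ) ^ 4 * K ^ 7) := by
    have e : ((K : ℝ) ^ (7 / 4 : ℝ)) ^ 4 = (K : ℝ) ^ 7 := by
      rw [← Real.rpow_natCast, ← Real.rpow_mul (by positivity), ← Real.rpow_natCast]
      norm_num
    rw [mul_pow, mul_pow, e]
    ring
  have h9 : |∑ y ∈ range n, T y| ^ 4 ≤ (1000 * (n : ℝ) * (K : ℝ) ^ (7 / 4 : ℝ)) ^ 4 := by
    rw [h8, show |∑ y ∈ range n, T y| ^ 4 = (∑ y ∈ range n, T y) ^ 4 from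
      (Even.pow_abs (by decide) _)]
    refine h7.trans (mul_le_mul_of_nonneg_right (by norm_num) (by positivity))
  exact le_of_pow_le_pow_left₀ (by norm_num) (by positivity) h9

end Pool.Agent.H77.K3
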