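import Pool.Agent.H77.K3.C4

/-!
# C5: the fourth moment over `m`

`K ≥ 1`, `K^6 ≤ N`, `Pp` a set of odd primes `≤ K`, `|F| ≤ 1`, `θ : ℕ → ℂ` of absolute value `1`
(here `e(p a / (2K+1))`). Then
`sum_(N < m ≤ 2N) |sum_(p ∈ Pp) F(p) (m/p) θ(p)|^4 ≤ 4 N K^2`.

Proof. `|z|^4 = z z z* z*`; expand into quadruples `(p1, ..., p4)`:
`sum over quadruples of (coefficient of absolute value ≤ 1) * sum_(N < m ≤ 2N) prod_i (m/p_i)`.
If one of the `p_i` is different from the three others, the inner sum is a sum over `y < N` of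
`prod_i ((y + N + 1)/p_i)`, at most `K^4` (`inc4`); there are at most `K^4` quadruples, total
`K^8 ≤ N K^2`. Otherwise the quadruple is paired: `p1 = p2, p3 = p4` or `p1 = p3, p2 = p4` or
`p1 = p4, p2 = p3`; there are at most `3 K^2` of these and the inner sum is at most `N`.
(`Pp` has at most `K` elements.)
-/

set_option autoImplicit false

namespace Pool.Agent.H77.K3

open Finset Pool.Agent.H77.SV

private lemma c5_jz (a : ℤ) (p : ℕ) : |jz a p| ≤ 1 := by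
  unfold jz
  rcases jacobiSym.trichotomy a p with h | h | h <;> simp [h]

private lemma c5_shift (N : ℕ) (f : ℕ → ℝ) :
    ∑ m ∈ Ioc N (2 * N), f m = ∑ y ∈ range N, f (y + (N + 1)) := by
  have h1 : Ioc N (2 * N) = Ico (N + 1) (2 * N + 1) := by
    ext x
    simp only [mem_Ioc, mem_Ico]
    omega
  rw [h1, sum_Ico_eq_sum_range]
  have h2 : 2 * N + 1 - (N + 1) = N := by omega
  rw [h2]
  exact sum_congr rfl fun y _ => by rw [add_comm]

private lemma c5_card (K : ℕ) (Pp : Finset ℕ) (hPp : ∀ p ∈ Pp, p.Prime ∧ p ≠ 2 ∧ p ≤ K) :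
    Pp.card ≤ K := by
  have h : Pp ⊆ Icc 1 K := fun p hp => mem_Icc.2 ⟨(hPp p hp).1.one_lt.le, (hPp p hp).2.2⟩
  have := card_le_card h
  simpa using this

private lemma c5_pair (Pp : Finset ℕ) (x : Fin 4 → ℕ) (hx : x ∈ Fintype.piFinset fun _ => Pp)
    (hb : ¬ ∃ i, ∀ j, j ≠ i → x j ≠ x i) :
    x ∈ ((Pp ×ˢ Pp).image fun t => ![t.1, t.1, t.2, t.2]) ∪
      ((Pp ×ˢ Pp).image fun t => ![t.1, t.2, t.1, t.2]) ∪
      ((Pp ×ˢ Pp).image fun t => ![t.1, t.2, t.2, t.1]) := by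
  have hm : ∀ i, x i ∈ Pp := fun i => Fintype.mem_piFinset.1 hx i
  push Not at hb
  have hx4 : x = ![x 0, x 1, x 2, x 3] := by
    ext i
    fin_cases i <;> rfl
  have hcase : (x 0 = x 1 ∧ x 2 = x 3) ∨ (x 0 = x 2 ∧ x 1 = x 3) ∨ (x 0 = x 3 ∧ x 1 = x 2) := by
    obtain ⟨j0, h0, e0⟩ := hb 0
    obtain ⟨j1, h1, e1⟩ := hb 1
    obtain ⟨j2, h2, e2⟩ := hb 2
    obtain ⟨j3, h3, e3⟩ := hb 3
    fin_cases j0 <;> fin_cases j1 <;> fin_cases j2 <;> fin_cases j3 <;>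
      simp only [Fin.zero_eta, Fin.mk_one, Fin.reduceFinMk, ne_eq, not_true_eq_false] at h0 h1 h2 h3 e0 e1 e2 e3 <;>
      omega
  simp only [mem_union, mem_image, mem_product, Prod.exists]
  rcases hcase with ⟨h1, h2⟩ | ⟨h1, h2⟩ | ⟨h1, h2⟩
  · refine Or.inl (Or.inl ⟨x 0, x 2, ⟨hm 0, hm 2⟩, ?_⟩)
    rw [hx4]
    simp [← h1, ← h2]
  · refine Or.inl (Or.inr ⟨x 0, x 1, ⟨hm 0, hm 1⟩, ?_⟩)
    rw [hx4]
    simp [← h1, ← h2]
  · refine Or.inr ⟨x 0, x 1, ⟨hm 0, hm 1⟩, ?_⟩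
    rw [hx4]
    simp [← h1, ← h2]

private lemma c5_expand (N : ℕ) (Pp : Finset ℕ) (c : ℕ → ℂ) (hc : ∀ p, ‖c p‖ ≤ 1)
    (J : ℕ → ℕ → ℝ) :
    ∑ m ∈ Ioc N (2 * N), ‖∑ p ∈ Pp, c p * (J m p : ℂ)‖ ^ 4 ≤
      ∑ x ∈ Fintype.piFinset (fun _ : Fin 4 => Pp),
        |∑ m ∈ Ioc N (2 * N), ∏ i, J m (x i)| := by
  set g : Fin 4 → ℕ → ℂ := ![c, fun p => (starRingEnd ℂ) (c p), c,
    fun p => (starRingEnd ℂ) (c p)] with hg
  have hgn : ∀ i p, ‖g i p‖ ≤ 1 := by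
    intro i p
    fin_cases i <;> simp [hg, hc p]
  have key : ((∑ m ∈ Ioc N (2 * N), ‖∑ p ∈ Pp, c p * (J m p : ℂ)‖ ^ 4 : ℝ) : ℂ) =
      ∑ x ∈ Fintype.piFinset (fun _ : Fin 4 => Pp),
        (∏ i, g i (x i)) * ((∑ m ∈ Ioc N (2 * N), ∏ i, J m (x i) : ℝ) : ℂ) := by
    push_cast
    simp only [mul_sum]
    rw [sum_comm]
    refine sum_congr rfl fun m _ => ?_
    set z : ℂ := ∑ p ∈ Pp, c p * (J m p : ℂ) with hz
    have hz' : (starRingEnd ℂ) z = ∑ p ∈ Pp, (starRingEnd ℂ) (c p) * (J m p : ℂ) := by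
      rw [hz, map_sum]
      refine sum_congr rfl fun p _ => ?_
      rw [map_mul, Complex.conj_ofReal]
    have h1 : ((‖z‖ : ℝ) : ℂ) ^ 4 = ∏ i : Fin 4, ∑ p ∈ Pp, g i p * (J m p : ℂ) := by
      rw [Fin.prod_univ_four]
      have e0 : ∑ p ∈ Pp, g 0 p * (J m p : ℂ) = z := rfl
      have e1 : ∑ p ∈ Pp, g 1 p * (J m p : ℂ) = (starRingEnd ℂ) z := hz'.symm
      have e2 : ∑ p ∈ Pp, g 2 p * (J m p : ℂ) = z := rfl
      have e3 : ∑ p ∈ Pp, g 3 p * (J m p : ℂ) = (starRingEnd ℂ) z := hz'.symm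
      rw [e0, e1, e2, e3, Complex.mul_conj', mul_assoc, Complex.mul_conj']
      ring
    rw [h1, prod_univ_sum]
    refine sum_congr rfl fun x _ => ?_
    rw [prod_mul_distrib]
  have hnn : 0 ≤ ∑ m ∈ Ioc N (2 * N), ‖∑ p ∈ Pp, c p * (J m p : ℂ)‖ ^ 4 :=
    sum_nonneg fun m _ => by positivity
  rw [← abs_of_nonneg hnn, ← Real.norm_eq_abs, ← Complex.norm_real, key]
  refine (norm_sum_le _ _).trans (sum_le_sum fun x _ => ?_)
  rw [norm_mul, Complex.norm_real, Real.norm_eq_abs, norm_prod]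
  exact mul_le_of_le_one_left (abs_nonneg _)
    (prod_le_one (fun i _ => norm_nonneg _) fun i _ => hgn i (x i))

theorem mom4m (N K : ℕ) (hK : 1 ≤ K) (hKN : K ^ 6 ≤ N) (Pp : Finset ℕ)
    (hPp : ∀ p ∈ Pp, p.Prime ∧ p ≠ 2 ∧ p ≤ K) (F : ℕ → ℝ) (hF : ∀ p, |F p| ≤ 1) (θ : ℕ → ℂ)
    (hθ : ∀ p, ‖θ p‖ = 1) :
    ∑ m ∈ Ioc N (2 * N), ‖∑ p ∈ Pp, ((F p * jz (m : ℤ) p : ℝ) : ℂ) * θ p‖ ^ 4 ≤
      4 * (N : ℝ) * K ^ 2 := by
  have hcard := c5_card K Pp hPp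
  have hcardR : (Pp.card : ℝ) ≤ K := by exact_mod_cast hcard
  have hc : ∀ p, ‖(F p : ℂ) * θ p‖ ≤ 1 := by
    intro p
    rw [norm_mul, hθ p, mul_one, Complex.norm_real, Real.norm_eq_abs]
    exact hF p
  have h0 := c5_expand N Pp (fun p => (F p : ℂ) * θ p) hc (fun m p => jz (m : ℤ) p)
  have h1 : ∑ m ∈ Ioc N (2 * N), ‖∑ p ∈ Pp, ((F p * jz (m : ℤ) p : ℝ) : ℂ) * θ p‖ ^ 4 =
      ∑ m ∈ Ioc N (2 * N), ‖∑ p ∈ Pp, (F p : ℂ) * θ p * (jz (m : ℤ) p : ℂ)‖ ^ 4 := by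
    refine sum_congr rfl fun m _ => ?_
    have : ∑ p ∈ Pp, ((F p * jz (m : ℤ) p : ℝ) : ℂ) * θ p =
        ∑ p ∈ Pp, (F p : ℂ) * θ p * (jz (m : ℤ) p : ℂ) := by
      refine sum_congr rfl fun p _ => ?_
      push_cast
      ring
    rw [this]
  rw [h1]
  refine h0.trans ?_
  classical
  set Q := Fintype.piFinset (fun _ : Fin 4 => Pp) with hQ
  have hQc : (Q.card : ℝ) ≤ (K : ℝ) ^ 4 := by
    have : Q.card = Pp.card ^ 4 := by
      rw [hQ, Fintype.card_piFinset]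
      simp
    rw [this]
    push_cast
    exact pow_le_pow_left₀ (by positivity) hcardR 4
  rw [← sum_filter_add_sum_filter_not Q (fun x => ∃ i, ∀ j, j ≠ i → x j ≠ x i)]
  have hA : ∑ x ∈ Q.filter (fun x => ∃ i, ∀ j, j ≠ i → x j ≠ x i),
      |∑ m ∈ Ioc N (2 * N), ∏ i, jz (m : ℤ) (x i)| ≤ (N : ℝ) * K ^ 2 := by
    calc ∑ x ∈ Q.filter (fun x => ∃ i, ∀ j, j ≠ i → x j ≠ x i),
          |∑ m ∈ Ioc N (2 * N), ∏ i, jz (m : ℤ) (x i)|
        ≤ ∑ x ∈ Q.filter (fun x => ∃ i, ∀ j, j ≠ i → x j ≠ x i), (K : ℝ) ^ 4 := by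
          refine sum_le_sum fun x hx => ?_
          rw [mem_filter] at hx
          have hm : ∀ i, x i ∈ Pp := fun i => Fintype.mem_piFinset.1 hx.1 i
          have h2 := inc4 (K := K) x (fun _ => (N : ℤ) + 1) (fun i => hPp _ (hm i)) hx.2 N
          rw [c5_shift N fun m => ∏ i, jz (m : ℤ) (x i)]
          refine le_trans (le_of_eq ?_) h2
          congr 1
      _ = ((Q.filter (fun x => ∃ i, ∀ j, j ≠ i → x j ≠ x i)).card : ℝ) * (K : ℝ) ^ 4 := by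
          rw [sum_const, nsmul_eq_mul]
      _ ≤ (K : ℝ) ^ 4 * (K : ℝ) ^ 4 := by
          refine mul_le_mul_of_nonneg_right (le_trans ?_ hQc) (by positivity)
          exact_mod_cast card_le_card (filter_subset _ _)
      _ = (K : ℝ) ^ 6 * K ^ 2 := by ring
      _ ≤ (N : ℝ) * K ^ 2 := by
          refine mul_le_mul_of_nonneg_right ?_ (by positivity)
          exact_mod_cast hKN
  have hB : ∑ x ∈ Q.filter (fun x => ¬ ∃ i, ∀ j, j ≠ i → x j ≠ x i),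
      |∑ m ∈ Ioc N (2 * N), ∏ i, jz (m : ℤ) (x i)| ≤ 3 * (K : ℝ) ^ 2 * N := by
    have hcB : ((Q.filter (fun x => ¬ ∃ i, ∀ j, j ≠ i → x j ≠ x i)).card : ℝ) ≤
        3 * (K : ℝ) ^ 2 := by
      have hsub : Q.filter (fun x => ¬ ∃ i, ∀ j, j ≠ i → x j ≠ x i) ⊆
          ((Pp ×ˢ Pp).image fun t => ![t.1, t.1, t.2, t.2]) ∪
          ((Pp ×ˢ Pp).image fun t => ![t.1, t.2, t.1, t.2]) ∪
          ((Pp ×ˢ Pp).image fun t => ![t.1, t.2, t.2, t.1]) := by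
        intro x hx
        rw [mem_filter] at hx
        exact c5_pair Pp x hx.1 hx.2
      have h3 : (Q.filter (fun x => ¬ ∃ i, ∀ j, j ≠ i → x j ≠ x i)).card ≤
          3 * Pp.card ^ 2 := by
        refine (card_le_card hsub).trans ((card_union_le _ _).trans ?_)
        have i1 := card_union_le ((Pp ×ˢ Pp).image fun t => ![t.1, t.1, t.2, t.2])
          ((Pp ×ˢ Pp).image fun t => ![t.1, t.2, t.1, t.2])
        have i2 : ((Pp ×ˢ Pp).image fun t => ![t.1, t.1, t.2, t.2]).card ≤ Pp.card ^ 2 :=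
          card_image_le.trans (by rw [card_product, sq])
        have i3 : ((Pp ×ˢ Pp).image fun t => ![t.1, t.2, t.1, t.2]).card ≤ Pp.card ^ 2 :=
          card_image_le.trans (by rw [card_product, sq])
        have i4 : ((Pp ×ˢ Pp).image fun t => ![t.1, t.2, t.2, t.1]).card ≤ Pp.card ^ 2 :=
          card_image_le.trans (by rw [card_product, sq])
        omega
      calc ((Q.filter (fun x => ¬ ∃ i, ∀ j, j ≠ i → x j ≠ x i)).card : ℝ)
          ≤ ((3 * Pp.card ^ 2 : ℕ) : ℝ) := by exact_mod_cast h3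
        _ = 3 * (Pp.card : ℝ) ^ 2 := by push_cast; ring
        _ ≤ 3 * (K : ℝ) ^ 2 := by
            have := pow_le_pow_left₀ (by positivity) hcardR 2
            linarith
    calc ∑ x ∈ Q.filter (fun x => ¬ ∃ i, ∀ j, j ≠ i → x j ≠ x i),
          |∑ m ∈ Ioc N (2 * N), ∏ i, jz (m : ℤ) (x i)|
        ≤ ∑ x ∈ Q.filter (fun x => ¬ ∃ i, ∀ j, j ≠ i → x j ≠ x i), (N : ℝ) := by
          refine sum_le_sum fun x _ => ?_
          calc |∑ m ∈ Ioc N (2 * N), ∏ i, jz (m : ℤ) (x i)|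
              ≤ ∑ m ∈ Ioc N (2 * N), |∏ i, jz (m : ℤ) (x i)| := abs_sum_le_sum_abs _ _
            _ ≤ ∑ m ∈ Ioc N (2 * N), (1 : ℝ) := by
                refine sum_le_sum fun m _ => ?_
                rw [abs_prod]
                exact prod_le_one (fun i _ => abs_nonneg _) fun i _ => c5_jz _ _
            _ = (N : ℝ) := by
                rw [sum_const, Nat.card_Ioc, nsmul_eq_mul, mul_one]
                have : 2 * N - N = N := by omega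
                rw [this]
      _ = ((Q.filter (fun x => ¬ ∃ i, ∀ j, j ≠ i → x j ≠ x i)).card : ℝ) * N := by
          rw [sum_const, nsmul_eq_mul]
      _ ≤ 3 * (K : ℝ) ^ 2 * N := mul_le_mul_of_nonneg_right hcB (by positivity)
  have := add_le_add hA hB
  refine this.trans (le_of_eq ?_)
  ring

end Pool.Agent.H77.K3
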