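import Pool.Agent.H77.K3.X4
import Pool.Agent.H77.K3.A1
import Pool.Agent.H77.K3.Defs2

/-!
# C7: expansion of the term of a pattern

For `x = (Y, Z) ∈ SSk P z T k`: `TT` is `(1/4)^(# oddP)` times the sum, over all functions
`V : Fin (z+1) → LL` which vanish outside `smP z Y Z`, and over `s2 ∈ F_2`, `t ∈ F_2^2` such that
the vector `(first components of GV, (0, s2), t)` satisfies the condition at 2, of
`sg (Ph Y Z (GV ...) (0, s2) t)`.

Proof. `G = GV ...`. `oddP` is the disjoint union of `smP` (primes `≤ z`), `{uu j : j < k}`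
(injective), `{lpf Y}`, `{lpf Z}` (`Fac`, `UU`), so `# oddP = # smP + k + 2`, and on these sets `G` is
`V`, `v j`, `vq`, `vr`; `G` vanishes outside `oddP`. An element `d ∈ DD z Y Z` is an element
`d = (a, (0, s2), t) ∈ G2` with `yL Y Z p d = 0` for `p ∈ smP`. By `sum_sg` the indicator function of
the latter is `prod_(p ∈ smP) (1/4) sum_(c : V2) sg (dot c (yL Y Z p d))`. Insert this in the
definition of `TT`: the sum over `d` becomes a sum over `a` on `smP`, `s2`, `t` (with the condition at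
2; `a` is prescribed at the other primes of `oddP`), and over `c` on `smP`; `V p = (a p, c p)`. The
product of all signs is `sg` of the sum `sum_(p ∈ oddP) dot (c p) (y_p)` = `Ph`
(`sg (x + y) = sg x * sg y`).
-/

set_option autoImplicit false

namespace Pool.Agent.H77.K3

open Finset Pool.Agent.H77.SV

private theorem c7_sg_add (x y : ZMod 2) : sg (x + y) = sg x * sg y := by
  have h : ∀ x : ZMod 2, x = 0 ∨ x = 1 := by decide
  have h2 : (1 : ZMod 2) + 1 = 0 := by decide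
  rcases h x with rfl | rfl <;> rcases h y with rfl | rfl <;> simp [sg, h2]

private theorem c7_sg_zero : sg 0 = 1 := by simp [sg]

private theorem c7_sg_sum {ι : Type} (s : Finset ι) (f : ι → ZMod 2) :
    sg (∑ i ∈ s, f i) = ∏ i ∈ s, sg (f i) := by
  classical
  induction s using Finset.induction_on with
  | empty => simp [sg]
  | insert a s ha ih => rw [sum_insert ha, prod_insert ha, c7_sg_add, ih]

private theorem c7_prodFin (N : ℕ) (S : Finset ℕ) (hS : ∀ p ∈ S, p < N) (h : ℕ → ℝ) :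
    ∏ n : Fin N, (if (n : ℕ) ∈ S then h n else 1) = ∏ p ∈ S, h p := by
  rw [Fin.prod_univ_eq_prod_range (fun n => if n ∈ S then h n else 1) N, ← prod_filter]
  refine prod_congr ?_ fun _ _ => rfl
  ext p
  simp only [mem_filter, mem_range]
  exact ⟨fun h => h.2, fun h => ⟨hS p h, h⟩⟩

/-- the first components -/
private def AG (z Y Z k : ℕ) (v : Fin k → LL) (vq vr : LL) (a : Fin (z + 1) → V2) (p : ℕ) : V2 :=
  (GV z Y Z k v vq vr (fun n => (a n, 0)) p).1

private theorem c7_fst (z Y Z k : ℕ) (v : Fin k → LL) (vq vr : LL) (V : Fin (z + 1) → LL) (p : ℕ) :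
    (GV z Y Z k v vq vr V p).1 = AG z Y Z k v vq vr (fun n => (V n).1) p := by
  unfold AG GV
  split_ifs <;> rfl

section facts

variable {P : Par} {z T k Y Z : ℕ} (F : Fac P z T Y Z) (u : UU P z Y Z k)
  (hq : z < lpf Y) (hr : z < lpf Z) (v : Fin k → LL) (vq vr : LL) (V : Fin (z + 1) → LL)

private theorem c7_lt {p : ℕ} (hp : p < z + 1) : GV z Y Z k v vq vr V p = V ⟨p, hp⟩ := by
  rw [GV, dif_pos hp]

include hq in
private theorem c7_q : GV z Y Z k v vq vr V (lpf Y) = vq := by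
  rw [GV, dif_neg (by omega), if_pos rfl]

include F hr in
private theorem c7_r : GV z Y Z k v vq vr V (lpf Z) = vr := by
  rw [GV, dif_neg (by omega), if_neg (fun h => F.ne h.symm), if_pos rfl]

include F in
private theorem c7_nq {p : ℕ} (hp : p ∈ bgX z Y Z) : p ≠ lpf Y ∧ p ≠ lpf Z := by
  have h := F.dj2
  rw [disjoint_left] at h
  have h1 := h (mem_union_right _ hp)
  simp only [mem_insert, mem_singleton, not_or] at h1
  exact h1

include F u in
private theorem c7_u (j : Fin k) : GV z Y Z k v vq vr V (uu z Y Z j) = v j := by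
  have h1 := c7_nq F (u.mem j j.2)
  have h2 := u.gt j j.2
  rw [GV, dif_neg (by omega), if_neg h1.1, if_neg h1.2, sum_eq_single j]
  · rw [if_pos rfl]
  · intro i _ hij
    rw [if_neg]
    intro he
    rcases Nat.lt_trichotomy (i : ℕ) j with h | h | h
    · have := u.mono i j h j.2
      omega
    · exact hij (Fin.ext h)
    · have := u.mono j i h i.2
      omega
  · intro h
    exact absurd (mem_univ _) h

include F in
private theorem c7_mem {p : ℕ} : p ∈ oddP Y Z ↔
    p ∈ smP z Y Z ∨ p ∈ bgX z Y Z ∨ p = lpf Y ∨ p = lpf Z := by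
  rw [F.odd]
  simp only [mem_union, mem_insert, mem_singleton]
  tauto

include F u in
private theorem c7_out (hV : ∀ n : Fin (z + 1), (n : ℕ) ∉ smP z Y Z → V n = 0) {p : ℕ}
    (hp : p ∉ oddP Y Z) : GV z Y Z k v vq vr V p = 0 := by
  rw [c7_mem F] at hp
  push Not at hp
  obtain ⟨h1, h2, h3, h4⟩ := hp
  by_cases h : p < z + 1
  · rw [c7_lt v vq vr V h]
    exact hV _ h1
  · rw [GV, dif_neg h, if_neg h3, if_neg h4]
    refine sum_eq_zero fun j _ => ?_
    rw [if_neg]
    rintro rfl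
    exact h2 (u.mem j j.2)

include F u hq hr in
/-- the product of the signs -/
private theorem c7_prod (a : ℕ → V2) (s t : V2) :
    sg (∑ p ∈ oddP Y Z, dot (GV z Y Z k v vq vr V p).2 (yF Y Z a s t p)) =
      (∏ n : Fin (z + 1), if (n : ℕ) ∈ smP z Y Z then sg (dot (V n).2 (yF Y Z a s t n)) else 1) *
      ((∏ j : Fin k, sg (dot (v j).2 (yF Y Z a s t (uu z Y Z j)))) *
        sg (dot vq.2 (yF Y Z a s t (lpf Y))) * sg (dot vr.2 (yF Y Z a s t (lpf Z)))) := by
  rw [c7_sg_sum, F.odd, prod_union F.dj2, prod_union F.dj1, prod_pair F.ne,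
    c7_q hq, c7_r F hr]
  have h1 : ∏ x ∈ smP z Y Z, sg (dot (GV z Y Z k v vq vr V x).2 (yF Y Z a s t x)) =
      ∏ n : Fin (z + 1), if (n : ℕ) ∈ smP z Y Z then
        sg (dot (V n).2 (yF Y Z a s t n)) else 1 := by
    rw [← c7_prodFin (z + 1) (smP z Y Z)
      (fun p hp => by
        have := (mem_filter.1 hp).2
        omega) (fun x => sg (dot (GV z Y Z k v vq vr V x).2 (yF Y Z a s t x)))]
    refine prod_congr rfl fun n _ => ?_
    rw [c7_lt v vq vr V n.2]
  have h2 : ∏ x ∈ bgX z Y Z, sg (dot (GV z Y Z k v vq vr V x).2 (yF Y Z a s t x)) =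
      ∏ j : Fin k, sg (dot (v j).2 (yF Y Z a s t (uu z Y Z j))) := by
    symm
    refine prod_bij (fun j _ => uu z Y Z j) (fun j _ => u.mem j j.2) ?_ ?_ ?_
    · intro i _ j _ hij
      rcases Nat.lt_trichotomy (i : ℕ) j with h | h | h
      · have := u.mono i j h j.2
        omega
      · exact Fin.ext h
      · have := u.mono j i h i.2
        omega
    · intro p hp
      obtain ⟨j, hj, rfl⟩ := u.surj p hp
      exact ⟨⟨j, hj⟩, mem_univ _, rfl⟩
    · intro j _
      rw [c7_u F u]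
  rw [h1, h2]
  ring

end facts

open Classical in
/-- sum over the second components -/
private theorem c7_sumc {N : ℕ} (S : Finset ℕ) (hS : ∀ p ∈ S, p < N) (y : ℕ → V2) :
    ∑ c : Fin N → V2, (if ∀ n : Fin N, (n : ℕ) ∉ S → c n = 0 then
      ∏ n : Fin N, (if (n : ℕ) ∈ S then sg (dot (c n) (y n)) else 1) else 0) =
      if ∀ p ∈ S, y p = 0 then (4 : ℝ) ^ S.card else 0 := by
  have h1 : ∀ c : Fin N → V2, (if ∀ n : Fin N, (n : ℕ) ∉ S → c n = 0 then
      ∏ n : Fin N, (if (n : ℕ) ∈ S then sg (dot (c n) (y n)) else 1) else 0) =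
      ∏ n : Fin N, (if (n : ℕ) ∈ S then sg (dot (c n) (y n)) else if c n = 0 then 1 else 0) := by
    intro c
    split_ifs with h
    · refine prod_congr rfl fun n _ => ?_
      by_cases hn : (n : ℕ) ∈ S
      · rw [if_pos hn, if_pos hn]
      · rw [if_neg hn, if_neg hn, if_pos (h n hn)]
    · push Not at h
      obtain ⟨n, hn, hc⟩ := h
      symm
      refine prod_eq_zero (mem_univ n) ?_
      rw [if_neg hn, if_neg hc]
  rw [sum_congr rfl fun c _ => h1 c]
  have h2 := Finset.prod_univ_sum (fun _ : Fin N => (univ : Finset V2))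
    (fun n c => if (n : ℕ) ∈ S then sg (dot c (y n)) else if c = 0 then (1 : ℝ) else 0)
  rw [Fintype.piFinset_univ] at h2
  rw [← h2]
  have h3 : ∀ n : Fin N, (∑ c : V2, if (n : ℕ) ∈ S then sg (dot c (y n)) else
      if c = 0 then (1 : ℝ) else 0) = if (n : ℕ) ∈ S then (if y n = 0 then 4 else 0) else 1 := by
    intro n
    by_cases hn : (n : ℕ) ∈ S
    · simp only [if_pos hn]
      rw [sum_sg]
    · simp only [if_neg hn]
      rw [sum_ite_eq' univ (0 : V2) (fun _ => (1 : ℝ)), if_pos (mem_univ _)]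
  rw [prod_congr rfl fun n _ => h3 n, c7_prodFin N S hS (fun n => if y n = 0 then (4 : ℝ) else 0)]
  split_ifs with h
  · rw [prod_congr rfl fun p hp => if_pos (h p hp), prod_const]
  · push Not at h
    obtain ⟨p, hp, hy⟩ := h
    exact prod_eq_zero hp (if_neg hy)

open Classical in
theorem TT_expand {P : Par} (hP : P.Adm) {z T k : ℕ} (hz : 2 ≤ z) (hT : P.TZ z T) {x : ℕ × ℕ}
    (hx : x ∈ SSk P z T k) (v : Fin k → LL) (vq vr : LL) :
    TT z x.1 x.2 k v vq vr = (1 / 4 : ℝ) ^ (oddP x.1 x.2).card *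
      ∑ V : Fin (z + 1) → LL, ∑ s2 : ZMod 2, ∑ t : V2,
        if (∀ n : Fin (z + 1), (n : ℕ) ∉ smP z x.1 x.2 → V n = 0) ∧
            Cd x.1 x.2 (fun q => (GV z x.1 x.2 k v vq vr V q).1, (0, s2), t) then
          sg (Ph x.1 x.2 (GV z x.1 x.2 k v vq vr V) (0, s2) t) else 0 := by
  obtain ⟨Y, Z⟩ := x
  have hx' := mem_filter.1 hx
  have F : Fac P z T Y Z := fac hP hz hT hx'.1
  have u : UU P z Y Z k := uufac hP hz hT hx
  have hk : (bgX z Y Z).card = k := hx'.2
  have hM : 1 ≤ P.M := by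
    have h1 := hP.hE
    have h2 := hP.hB
    have h3 : 0 < (13 * P.B) ^ P.J := Nat.pow_pos (by omega)
    have h4 : 0 < P.E0 := by omega
    exact Nat.mul_pos h4 h3
  have hzM : z ≤ z ^ P.M := Nat.le_self_pow (by omega) z
  have hq : z < lpf Y := lt_of_le_of_lt hzM F.gq
  have hr : z < lpf Z := lt_of_le_of_lt hzM F.gr
  show TT z Y Z k v vq vr = (1 / 4 : ℝ) ^ (oddP Y Z).card *
      ∑ V : Fin (z + 1) → LL, ∑ s2 : ZMod 2, ∑ t : V2,
        if (∀ n : Fin (z + 1), (n : ℕ) ∉ smP z Y Z → V n = 0) ∧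
            Cd Y Z (fun q => (GV z Y Z k v vq vr V q).1, (0, s2), t) then
          sg (Ph Y Z (GV z Y Z k v vq vr V) (0, s2) t) else 0
  have hcard : (oddP Y Z).card = (k + 2) + (smP z Y Z).card := by
    rw [F.odd, card_union_of_disjoint F.dj2, card_union_of_disjoint F.dj1, hk, card_pair F.ne]
    ring
  have hsm : ∀ p ∈ smP z Y Z, p < z + 1 := by
    intro p hp
    have := (mem_filter.1 hp).2
    omega
  -- the common factor
  let φ : (ℕ → V2) → ZMod 2 → V2 → ℝ := fun a s2 t =>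
    (∏ j : Fin k, sg (dot (v j).2 (yF Y Z a (0, s2) t (uu z Y Z j)))) *
        sg (dot vq.2 (yF Y Z a (0, s2) t (lpf Y))) * sg (dot vr.2 (yF Y Z a (0, s2) t (lpf Z)))
  let A : (Fin (z + 1) → V2) → ℕ → V2 := AG z Y Z k v vq vr
  -- right side
  have hR : (∑ V : Fin (z + 1) → LL, ∑ s2 : ZMod 2, ∑ t : V2,
        if (∀ n : Fin (z + 1), (n : ℕ) ∉ smP z Y Z → V n = 0) ∧
            Cd Y Z (fun q => (GV z Y Z k v vq vr V q).1, (0, s2), t) then
          sg (Ph Y Z (GV z Y Z k v vq vr V) (0, s2) t) else 0) =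
      (4 : ℝ) ^ (smP z Y Z).card * ∑ a : Fin (z + 1) → V2, ∑ s2 : ZMod 2, ∑ t : V2,
        if (∀ n : Fin (z + 1), (n : ℕ) ∉ smP z Y Z → a n = 0) ∧ Cd Y Z (A a, (0, s2), t) ∧
          ∀ p ∈ smP z Y Z, yF Y Z (A a) (0, s2) t p = 0 then φ (A a) s2 t else 0 := by
    rw [← Equiv.sum_comp (Equiv.arrowProdEquivProdArrow (Fin (z + 1)) (fun _ => V2)
      (fun _ => V2)).symm, Fintype.sum_prod_type, mul_sum]
    refine sum_congr rfl fun a _ => ?_
    rw [sum_comm, mul_sum]
    refine sum_congr rfl fun s2 _ => ?_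
    rw [sum_comm, mul_sum]
    refine sum_congr rfl fun t _ => ?_
    have e0 : ∀ c : Fin (z + 1) → V2, ∀ q,
        (GV z Y Z k v vq vr ((Equiv.arrowProdEquivProdArrow (Fin (z + 1)) (fun _ => V2)
          (fun _ => V2)).symm (a, c)) q).1 = A a q := by
      intro c q
      rw [c7_fst]
      rfl
    have e1 : ∀ c : Fin (z + 1) → V2,
        (if (∀ n : Fin (z + 1), (n : ℕ) ∉ smP z Y Z →
            ((Equiv.arrowProdEquivProdArrow (Fin (z + 1)) (fun _ => V2)
            (fun _ => V2)).symm (a, c)) n = 0) ∧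
            Cd Y Z (fun q => (GV z Y Z k v vq vr ((Equiv.arrowProdEquivProdArrow (Fin (z + 1))
              (fun _ => V2) (fun _ => V2)).symm (a, c)) q).1, (0, s2), t) then
          sg (Ph Y Z (GV z Y Z k v vq vr ((Equiv.arrowProdEquivProdArrow (Fin (z + 1)) (fun _ => V2)
            (fun _ => V2)).symm (a, c))) (0, s2) t) else 0) =
        (if (∀ n : Fin (z + 1), (n : ℕ) ∉ smP z Y Z → a n = 0) ∧ Cd Y Z (A a, (0, s2), t) then
          φ (A a) s2 t else 0) *
        (if ∀ n : Fin (z + 1), (n : ℕ) ∉ smP z Y Z → c n = 0 then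
          ∏ n : Fin (z + 1), (if (n : ℕ) ∈ smP z Y Z then
            sg (dot (c n) (yF Y Z (A a) (0, s2) t n)) else 1) else 0) := by
      intro c
      have e2 : (fun q => (GV z Y Z k v vq vr ((Equiv.arrowProdEquivProdArrow (Fin (z + 1))
              (fun _ => V2) (fun _ => V2)).symm (a, c)) q).1) = A a := funext (e0 c)
      have e3 : (∀ n : Fin (z + 1), (n : ℕ) ∉ smP z Y Z →
            ((Equiv.arrowProdEquivProdArrow (Fin (z + 1)) (fun _ => V2)
            (fun _ => V2)).symm (a, c)) n = 0) ↔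
          (∀ n : Fin (z + 1), (n : ℕ) ∉ smP z Y Z → a n = 0) ∧
          (∀ n : Fin (z + 1), (n : ℕ) ∉ smP z Y Z → c n = 0) := by
        constructor
        · intro h
          exact ⟨fun n hn => congrArg Prod.fst (h n hn), fun n hn => congrArg Prod.snd (h n hn)⟩
        · rintro ⟨h1, h2⟩ n hn
          exact Prod.ext (h1 n hn) (h2 n hn)
      have e4 : sg (Ph Y Z (GV z Y Z k v vq vr ((Equiv.arrowProdEquivProdArrow (Fin (z + 1))
            (fun _ => V2) (fun _ => V2)).symm (a, c))) (0, s2) t) =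
          (∏ n : Fin (z + 1), (if (n : ℕ) ∈ smP z Y Z then
            sg (dot (c n) (yF Y Z (A a) (0, s2) t n)) else 1)) * φ (A a) s2 t := by
        rw [Ph, e2, c7_prod F u hq hr]
        rfl
      rw [e2, e4]
      by_cases h1 : ∀ n : Fin (z + 1), (n : ℕ) ∉ smP z Y Z → a n = 0
      · by_cases h2 : ∀ n : Fin (z + 1), (n : ℕ) ∉ smP z Y Z → c n = 0
        · by_cases h3 : Cd Y Z (A a, (0, s2), t)
          · rw [if_pos ⟨e3.2 ⟨h1, h2⟩, h3⟩, if_pos ⟨h1, h3⟩, if_pos h2, mul_comm]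
          · rw [if_neg (fun h => h3 h.2), if_neg (fun h => h3 h.2), zero_mul]
        · rw [if_neg (fun h => h2 (e3.1 h.1).2), if_neg h2, mul_zero]
      · rw [if_neg (fun h => h1 (e3.1 h.1).1), if_neg (fun h => h1 h.1), zero_mul]
    rw [sum_congr rfl fun c _ => e1 c, ← mul_sum, c7_sumc (smP z Y Z) hsm]
    by_cases h1 : (∀ n : Fin (z + 1), (n : ℕ) ∉ smP z Y Z → a n = 0) ∧ Cd Y Z (A a, (0, s2), t)
    · rw [if_pos h1]
      by_cases h2 : ∀ p ∈ smP z Y Z, yF Y Z (A a) (0, s2) t p = 0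
      · rw [if_pos h2, if_pos ⟨h1.1, h1.2, h2⟩, mul_comm]
      · rw [if_neg h2, if_neg (fun h => h2 h.2.2), mul_zero, mul_zero]
    · rw [if_neg h1, zero_mul, if_neg (fun h => h1 ⟨h.1, h.2.1⟩), mul_zero]
  -- the elements of `DD`
  have hL : (∑ d : DD z Y Z, if (∀ j : Fin k, (dat z Y Z k).a j d = (v j).1) ∧
        (dat z Y Z k).aq d = vq.1 ∧ (dat z Y Z k).ar d = vr.1 then
        (∏ j, sg (dot (v j).2 ((dat z Y Z k).y j d))) * sg (dot vq.2 ((dat z Y Z k).yq d)) *
          sg (dot vr.2 ((dat z Y Z k).yr d)) else 0) =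
      ∑ a : Fin (z + 1) → V2, ∑ s2 : ZMod 2, ∑ t : V2,
        if (∀ n : Fin (z + 1), (n : ℕ) ∉ smP z Y Z → a n = 0) ∧ Cd Y Z (A a, (0, s2), t) ∧
          ∀ p ∈ smP z Y Z, yF Y Z (A a) (0, s2) t p = 0 then φ (A a) s2 t else 0 := by
    have hA : ∀ d : DD z Y Z, (∀ j : Fin k, (dat z Y Z k).a j d = (v j).1) ∧
        (dat z Y Z k).aq d = vq.1 ∧ (dat z Y Z k).ar d = vr.1 →
        A (fun n => d.1.1 n) = d.1.1 := by
      rintro ⟨d, hd⟩ ⟨h1, h2, h3⟩
      have hd' := (mem_DDQ.1 hd).1.1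
      funext p
      show (GV z Y Z k v vq vr (fun n => (d.1 n, 0)) p).1 = d.1 p
      by_cases hp : p < z + 1
      · rw [c7_lt v vq vr _ hp]
      by_cases hp2 : p = lpf Y
      · rw [hp2, c7_q hq]
        exact h2.symm
      by_cases hp3 : p = lpf Z
      · rw [hp3, c7_r F hr]
        exact h3.symm
      by_cases hp4 : p ∈ bgX z Y Z
      · obtain ⟨j, hj, rfl⟩ := u.surj p hp4
        rw [c7_u F u v vq vr _ ⟨j, hj⟩]
        exact (h1 ⟨j, hj⟩).symm
      · have hno : p ∉ oddP Y Z := by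
          rw [c7_mem F]
          rintro (h | h | h | h)
          · exact hp (hsm p h)
          · exact hp4 h
          · exact hp2 h
          · exact hp3 h
        rw [hd' p hno, GV, dif_neg hp, if_neg hp2, if_neg hp3]
        rw [sum_eq_zero]
        · rfl
        · intro j _
          rw [if_neg]
          rintro rfl
          exact hp4 (u.mem j j.2)
    have hprod : ∀ g : (Fin (z + 1) → V2) → ZMod 2 → V2 → ℝ,
        (∑ a : Fin (z + 1) → V2, ∑ s2 : ZMod 2, ∑ t : V2, g a s2 t) =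
          ∑ w : (Fin (z + 1) → V2) × ZMod 2 × V2, g w.1 w.2.1 w.2.2 := by
      intro g
      rw [Fintype.sum_prod_type]
      refine sum_congr rfl fun a _ => ?_
      rw [Fintype.sum_prod_type]
    rw [hprod, ← sum_filter, ← sum_filter]
    have hpair : ∀ d : DD z Y Z, d.1.2.1 = (0, d.1.2.1.2) := by
      rintro ⟨d, hd⟩
      exact Prod.ext (mem_DDQ.1 hd).1.2.1 rfl
    refine sum_bij (fun d _ => ((fun n : Fin (z + 1) => d.1.1 n), d.1.2.1.2, d.1.2.2)) ?_ ?_ ?_ ?_
    · intro d hd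
      have hd1 := (mem_filter.1 hd).2
      have hA1 := hA d hd1
      rw [mem_filter]
      refine ⟨mem_univ _, ?_, ?_, ?_⟩
      · intro n hn
        refine (mem_DDQ.1 d.2).1.1 _ ?_
        intro ho
        apply hn
        rw [smP, mem_filter]
        refine ⟨ho, ?_⟩
        have := n.2
        omega
      · show Cd Y Z (A (fun n => d.1.1 n), (0, d.1.2.1.2), d.1.2.2)
        rw [hA1, ← hpair d]
        exact (mem_DDQ.1 d.2).1.2.2
      · intro p hp
        show yF Y Z (A (fun n => d.1.1 n)) (0, d.1.2.1.2) d.1.2.2 p = 0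
        rw [hA1, ← hpair d]
        exact (mem_DDQ.1 d.2).2 p hp
    · intro d hd e he hde
      have hA1 := hA d (mem_filter.1 hd).2
      have hA2 := hA e (mem_filter.1 he).2
      simp only [Prod.mk.injEq] at hde
      apply Subtype.ext
      refine Prod.ext ?_ (Prod.ext ?_ hde.2.2)
      · rw [← hA1, ← hA2, hde.1]
      · rw [hpair d, hpair e, hde.2.1]
    · rintro ⟨a, s2, t⟩ hw
      obtain ⟨-, h1, h2, h3⟩ := mem_filter.1 hw
      have hout : ∀ p, p ∉ oddP Y Z → A a p = 0 := by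
        intro p hp
        show (GV z Y Z k v vq vr (fun n => (a n, 0)) p).1 = 0
        have h1' : ∀ n : Fin (z + 1), (n : ℕ) ∉ smP z Y Z → ((a n, 0) : LL) = 0 :=
          fun n hn => Prod.ext (h1 n hn) rfl
        rw [c7_out F u v vq vr _ h1' hp]
        rfl
      have hmem : ((A a, (0, s2), t) : EE) ∈ DD z Y Z := mem_DDQ.2 ⟨⟨hout, rfl, h2⟩, h3⟩
      refine ⟨⟨(A a, (0, s2), t), hmem⟩, ?_, ?_⟩
      · rw [mem_filter]
        refine ⟨mem_univ _, fun j => ?_, ?_, ?_⟩
        · show (GV z Y Z k v vq vr (fun n => (a n, 0)) (uu z Y Z j)).1 = _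
          rw [c7_u F u]
        · show (GV z Y Z k v vq vr (fun n => (a n, 0)) (lpf Y)).1 = _
          rw [c7_q hq]
        · show (GV z Y Z k v vq vr (fun n => (a n, 0)) (lpf Z)).1 = _
          rw [c7_r F hr]
      · refine Prod.ext (funext fun n => ?_) rfl
        show (GV z Y Z k v vq vr (fun n => (a n, 0)) (n : ℕ)).1 = a n
        rw [c7_lt v vq vr _ n.2]
    · intro d hd
      have hA1 := hA d (mem_filter.1 hd).2
      show _ = φ (A (fun n => d.1.1 n)) d.1.2.1.2 d.1.2.2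
      rw [hA1]
      show _ = (∏ j : Fin k, sg (dot (v j).2 (yF Y Z d.1.1 (0, d.1.2.1.2) d.1.2.2 (uu z Y Z j)))) *
        sg (dot vq.2 (yF Y Z d.1.1 (0, d.1.2.1.2) d.1.2.2 (lpf Y))) *
        sg (dot vr.2 (yF Y Z d.1.1 (0, d.1.2.1.2) d.1.2.2 (lpf Z)))
      rw [← hpair d]
      rfl
  have hTm : TT z Y Z k v vq vr = (1 / 4 : ℝ) ^ (k + 2) *
      ∑ d : DD z Y Z, if (∀ j : Fin k, (dat z Y Z k).a j d = (v j).1) ∧
        (dat z Y Z k).aq d = vq.1 ∧ (dat z Y Z k).ar d = vr.1 then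
        (∏ j, sg (dot (v j).2 ((dat z Y Z k).y j d))) * sg (dot vq.2 ((dat z Y Z k).yq d)) *
          sg (dot vr.2 ((dat z Y Z k).yr d)) else 0 := by
    rw [TT, Dat.Tm, Fintype.card_fin]
    refine congrArg _ (sum_congr (by ext d; simp) fun d _ => ?_)
    by_cases h : (∀ j : Fin k, (dat z Y Z k).a j d = (v j).1) ∧
        (dat z Y Z k).aq d = vq.1 ∧ (dat z Y Z k).ar d = vr.1
    · rw [if_pos h, if_pos h]
    · rw [if_neg h, if_neg h]
  rw [hTm, hR, hL, hcard, pow_add (1 / 4 : ℝ) (k + 2), ← mul_assoc,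
    mul_assoc ((1 / 4 : ℝ) ^ (k + 2)) _ ((4 : ℝ) ^ (smP z Y Z).card), ← mul_pow]
  norm_num

end Pool.Agent.H77.K3
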