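import Pool.Agent.H77.K3.B1
import Pool.Agent.H77.SV.Lc

/-!
# D1: the condition at 2, integers

Classes of odd integers mod 8: `e4 u = 1` iff `u = 3 mod 4`, `e8 u = 1` iff `u = 3, 5 mod 8`; both
are homomorphisms to `F_2` on odd integers (`e4_mul`, `e8_mul`).
`up 2 N` is the odd part of `N ≠ 0` (`up_spec`).

`two_int`: let `α = β = 1 mod 8`, `a`, `e` coprime, `e ≠ 0`, and let
`a (a - 2 α e^2) (a - 4 β e^2)` be a nonzero square. Then, with `c = a - 2 α e^2`:
`e8 (up 2 a) = 0`, `e4 (up 2 c) = v_2(a) mod 2`, `e8 (up 2 c) = e4 (up 2 a)`.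

Proof. A nonzero square has even 2-adic valuation and odd part `= 1 mod 8`. It suffices to find
`j` and odd `u`, `u'` mod 8 with `a = 2^j u` etc.

Case `e` even: `a` is odd, `e^2 = 0 mod 4`, so `c = a mod 8`, `a - 4 β e^2 = a mod 8`, the product is
`a^3 = a mod 8`, hence `a = 1 mod 8`, `c = 1 mod 8`.

Case `e` odd: `e^2 = 1 mod 8`; put `α' = α e^2`, `β' = β e^2`, both `= 1 mod 8`.
* `a` odd: `a (a-2) (a-4) = 1 mod 8` holds only for `a = 7` (of 1, 3, 5, 7); then `c = 5 mod 8`:
  `(a, c) ~ (7, 5)`: `e8 7 = 0`, `e4 5 = 0 = v`, `e8 5 = 1 = e4 7`.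
* `a = 2 a1`, `a1` odd: the product is `8 a1 (a1 - α') (a1 - 2 β')`, `a1 - α' = 2^j u ≠ 0` even,
  `a1 - 2 β'` odd; `3 + j` is even, so `j` is odd.
  - `j = 1`: `a1 = 1 + 2 u mod 8`, `a1 - 2 β' = 2 u - 1`; `a1 u (a1 - 2 β') = 1 mod 8` holds only for
    `u = 3`: `(a, c) = (2 a1, 4 u) ~ (2 * 7, 3)`: `e8 7 = 0`, `e4 3 = 1 = v_2(a)`, `e8 3 = 1 = e4 7`.
  - `j ≥ 3`: `a1 = 1`, `a1 - 2 β' = 7`, `7 u = 1`, `u = 7 mod 8`: `(a, c) = (2 a1, 2^(j+1) u) ~
    (2 * 1, 7)`: `0`; `e4 7 = 1`; `e8 7 = 0 = e4 1`.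
* `a = 4 a2`: the product is `32 a2 (2 a2 - α') (a2 - β')`, `2 a2 - α'` odd, `c = 2 (2 a2 - α')`.
  - `a2` odd: `a2 - β' = 2^j u` even, `5 + j` even, `j` odd.
    `j = 1`: `a2 = 1 + 2u`, `2 a2 - α' = 5 mod 8`, `(1 + 2u) 5 u = 1` only for `u = 3`, `a2 = 7`:
    `(a, c) ~ (7, 2 * 5)`: `e8 7 = 0`, `e4 5 = 0 = v`, `e8 5 = 1 = e4 7`.
    `j ≥ 3`: `a2 = 1`, `2 a2 - α' = 1`: `(a, c) ~ (1, 2 * 1)`.
  - `a2 = 2^j u` even, `j ≥ 1`: `5 + j` even, `j` odd.
    `j = 1`: `2 a2 - α' = 4u - 1 = 3 mod 8`, `a2 - β' = 2u - 1`, `3 u (2u - 1) = 1` only for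
    `u = 7`: `(a, c) ~ (2 * 7, 2 * 3)`, `v_2(a) = 3`: `e8 7 = 0`, `e4 3 = 1`, `e8 3 = 1 = e4 7`.
    `j ≥ 3`: `2 a2 - α' = 7`, `a2 - β' = 7`, `u = 1`: `(a, c) ~ (2 * 1, 2 * 7)`: `e8 1 = 0`,
    `e4 7 = 1 = v`, `e8 7 = 0 = e4 1`.
-/

set_option autoImplicit false

namespace Pool.Agent.H77.K3

open Finset Pool.Agent.H77.SV

/-- `1` iff `u = 3 mod 4` -/
def e4 (u : ℤ) : ZMod 2 := if u % 4 = 3 then 1 else 0

/-- `1` iff `u = 3, 5 mod 8` -/
def e8 (u : ℤ) : ZMod 2 := if u % 8 = 3 ∨ u % 8 = 5 then 1 else 0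

private lemma d1_odd8 {a : ℤ} (ha : a % 2 = 1) : a % 8 = 1 ∨ a % 8 = 3 ∨ a % 8 = 5 ∨ a % 8 = 7 := by
  omega

private lemma d1_e4 {a r : ℤ} (h : a % 8 = r) : e4 a = if r % 4 = 3 then 1 else 0 := by
  subst h
  unfold e4
  have h : a % 8 % 4 = a % 4 := by omega
  rw [h]

private lemma d1_e8 {a r : ℤ} (h : a % 8 = r) : e8 a = if r = 3 ∨ r = 5 then 1 else 0 := by
  subst h
  rfl

private lemma d1_mul2 (a b : ℤ) : (a * b) % 8 = ((a % 8) * (b % 8)) % 8 := Int.mul_emod a b 8

theorem e4_mul {a b : ℤ} (ha : a % 2 = 1) (hb : b % 2 = 1) : e4 (a * b) = e4 a + e4 b := by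
  rcases d1_odd8 ha with h | h | h | h <;> rcases d1_odd8 hb with h' | h' | h' | h' <;>
    rw [d1_e4 (d1_mul2 a b), d1_e4 h, d1_e4 h', h, h'] <;> decide

theorem e8_mul {a b : ℤ} (ha : a % 2 = 1) (hb : b % 2 = 1) : e8 (a * b) = e8 a + e8 b := by
  rcases d1_odd8 ha with h | h | h | h <;> rcases d1_odd8 hb with h' | h' | h' | h' <;>
    rw [d1_e8 (d1_mul2 a b), d1_e8 h, d1_e8 h', h, h'] <;> decide

/-- the conditions at 2 for two nonzero rational numbers -/
def C2 (x x' : ℚ) : Prop :=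
  e8 (up 2 (x.num * x.den)) = 0 ∧ e4 (up 2 (x'.num * x'.den)) = vb 2 x ∧
    e8 (up 2 (x'.num * x'.den)) = e4 (up 2 (x.num * x.den))

private lemma d1_up {N u : ℤ} {v : ℕ} (hu : u % 2 = 1) (h : N = 2 ^ v * u) :
    up 2 N = u ∧ padicValInt 2 N = v := by
  have hp : Fact (Nat.Prime 2) := ⟨Nat.prime_two⟩
  have hu0 : u ≠ 0 := by
    rintro rfl
    simp at hu
  have hnd : ¬ ((2 : ℕ) : ℤ) ∣ u := by
    push_cast
    omega
  have hv : padicValInt 2 N = v := by
    rw [h, padicValInt.mul (pow_ne_zero _ two_ne_zero) hu0, padicValInt.eq_zero_of_not_dvd hnd,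
      add_zero]
    have h1 : ((2 : ℤ) ^ v) = ((2 ^ v : ℕ) : ℤ) := by push_cast; rfl
    rw [h1, padicValInt.of_nat]
    exact padicValNat.prime_pow v
  refine ⟨?_, hv⟩
  unfold up
  rw [hv, h]
  push_cast
  exact Int.mul_ediv_cancel_left _ (pow_ne_zero _ two_ne_zero)

/-- `N = 2^v u` with `u` odd -/
private lemma d1_ex {N : ℤ} (hN : N ≠ 0) : ∃ (v : ℕ) (u : ℤ), N = 2 ^ v * u ∧ u % 2 = 1 := by
  obtain ⟨h1, h2⟩ := up_spec Nat.prime_two hN
  refine ⟨padicValInt 2 N, up 2 N, ?_, ?_⟩
  · simpa using h1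
  · push_cast at h2
    omega

private lemma d1_sq8 {s : ℤ} (hs : s % 2 = 1) : (s * s) % 8 = 1 := by
  rcases d1_odd8 hs with h | h | h | h <;> rw [d1_mul2, h] <;> norm_num

/-- a nonzero square -/
private lemma d1_sqr {N u : ℤ} {v : ℕ} (hu : u % 2 = 1) (h : N = 2 ^ v * u) (hs : IsSquare N) :
    v % 2 = 0 ∧ u % 8 = 1 := by
  obtain ⟨r, hr⟩ := hs
  have hN : N ≠ 0 := by
    rw [h]
    refine mul_ne_zero (pow_ne_zero _ two_ne_zero) ?_
    rintro rfl
    simp at hu
  have hr0 : r ≠ 0 := by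
    rintro rfl
    exact hN (by rw [hr, mul_zero])
  obtain ⟨j, s, hj, hs⟩ := d1_ex hr0
  have h2 : N = 2 ^ (2 * j) * (s * s) := by
    rw [hr, hj]
    ring
  have h3 := d1_up hu h
  have h4 : (s * s) % 2 = 1 := by
    have := d1_sq8 hs
    omega
  have h5 := d1_up h4 h2
  have h6 : v = 2 * j := h3.2.symm.trans h5.2
  have h7 : u = s * s := h3.1.symm.trans h5.1
  refine ⟨by omega, ?_⟩
  rw [h7]
  exact d1_sq8 hs

private lemma d1_fin {a c u w : ℤ} {i k : ℕ} (ha : a = 2 ^ i * u) (hu : u % 2 = 1)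
    (hc : c = 2 ^ k * w) (hw : w % 2 = 1)
    (h : e8 u = 0 ∧ e4 w = ((i : ℕ) : ZMod 2) ∧ e8 w = e4 u) :
    e8 (up 2 a) = 0 ∧ e4 (up 2 c) = ((padicValInt 2 a : ℕ) : ZMod 2) ∧
      e8 (up 2 c) = e4 (up 2 a) := by
  obtain ⟨h1, h2⟩ := d1_up hu ha
  obtain ⟨h3, h4⟩ := d1_up hw hc
  rw [h1, h2, h3]
  exact h

private lemma d1_cast0 {i : ℕ} (h : i % 2 = 0) : ((i : ℕ) : ZMod 2) = 0 := by
  rw [ZMod.natCast_eq_zero_iff]
  omega

private lemma d1_cast1 {i : ℕ} (h : i % 2 = 1) : ((i : ℕ) : ZMod 2) = 1 := by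
  have h1 : i = (i - 1) + 1 := by omega
  rw [h1]
  push_cast
  rw [d1_cast0 (by omega), zero_add]

private lemma d1_mul3 (a b c : ℤ) : (a * b * c) % 8 = ((a % 8) * (b % 8) * (c % 8)) % 8 := by
  rw [Int.mul_emod, Int.mul_emod a b]
  simp [Int.mul_emod]

private lemma d1_pow {j : ℕ} (h : 3 ≤ j) (u : ℤ) : ((2 : ℤ) ^ j * u) % 8 = 0 := by
  obtain ⟨m, rfl⟩ := Nat.exists_eq_add_of_le h
  have : (2 : ℤ) ^ (3 + m) * u = 8 * (2 ^ m * u) := by
    rw [pow_add]
    ring
  omega

theorem two_int {α β a e : ℤ} (hα : α % 8 = 1) (hβ : β % 8 = 1) (he : e ≠ 0)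
    (hc : IsCoprime a e) (h0 : a * (a - 2 * α * e ^ 2) * (a - 4 * β * e ^ 2) ≠ 0)
    (hs : IsSquare (a * (a - 2 * α * e ^ 2) * (a - 4 * β * e ^ 2))) :
    e8 (up 2 a) = 0 ∧ e4 (up 2 (a - 2 * α * e ^ 2)) = ((padicValInt 2 a : ℕ) : ZMod 2) ∧
      e8 (up 2 (a - 2 * α * e ^ 2)) = e4 (up 2 a) := by
  have ha0 : a ≠ 0 := fun h => h0 (by rw [h]; ring)
  have hc0 : a - 2 * α * e ^ 2 ≠ 0 := fun h => h0 (by rw [h]; ring)
  have hd0 : a - 4 * β * e ^ 2 ≠ 0 := fun h => h0 (by rw [h]; ring)
  rcases Int.emod_two_eq_zero_or_one e with hev | hev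
  · -- `e` even, `a` odd
    have hao : a % 2 = 1 := by
      by_contra hne
      have h1 : (2 : ℤ) ∣ a := by omega
      have h2 : (2 : ℤ) ∣ e := by omega
      have h3 := hc.isUnit_of_dvd' h1 h2
      exact absurd (Int.isUnit_iff.1 h3) (by norm_num)
    obtain ⟨f, rfl⟩ : ∃ f, e = 2 * f := ⟨e / 2, by omega⟩
    have hcm : (a - 2 * α * (2 * f) ^ 2) % 8 = a % 8 := by
      have : a - 2 * α * (2 * f) ^ 2 = a - 8 * (α * f ^ 2) := by ring
      omega
    have hdm : (a - 4 * β * (2 * f) ^ 2) % 8 = a % 8 := by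
      have : a - 4 * β * (2 * f) ^ 2 = a - 8 * (2 * β * f ^ 2) := by ring
      omega
    have hm := d1_mul3 a (a - 2 * α * (2 * f) ^ 2) (a - 4 * β * (2 * f) ^ 2)
    rw [hcm, hdm] at hm
    have ha1 : a % 8 = 1 := by
      have hodd : (a * (a - 2 * α * (2 * f) ^ 2) * (a - 4 * β * (2 * f) ^ 2)) % 2 = 1 := by
        rcases d1_odd8 hao with h | h | h | h <;> rw [h] at hm <;> norm_num at hm <;> omega
      have h1 := (d1_sqr (v := 0) hodd (by ring) hs).2
      rcases d1_odd8 hao with h | h | h | h <;> rw [h] at hm <;> norm_num at hm <;> omega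
    refine d1_fin (i := 0) (k := 0) (u := a) (w := a - 2 * α * (2 * f) ^ 2) (by ring) hao
      (by ring) (by omega) ?_
    rw [d1_e8 ha1, d1_e4 (hcm.trans ha1), d1_e8 (hcm.trans ha1), d1_e4 ha1]
    norm_num
  · -- `e` odd
    have he2 : (e ^ 2) % 8 = 1 := by
      rw [sq]
      exact d1_sq8 hev
    obtain ⟨A, hA⟩ : ∃ A, A = α * e ^ 2 := ⟨_, rfl⟩
    obtain ⟨B, hB⟩ : ∃ B, B = β * e ^ 2 := ⟨_, rfl⟩
    have hA8 : A % 8 = 1 := by
      rw [hA, d1_mul2, hα, he2]
      norm_num
    have hB8 : B % 8 = 1 := by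
      rw [hB, d1_mul2, hβ, he2]
      norm_num
    have hcA : a - 2 * α * e ^ 2 = a - 2 * A := by rw [hA]; ring
    have hdB : a - 4 * β * e ^ 2 = a - 4 * B := by rw [hB]; ring
    rw [hcA] at hc0 h0 hs ⊢
    rw [hdB] at hd0 h0 hs
    clear hcA hdB hA hB hα hβ
    rcases Int.emod_two_eq_zero_or_one a with ha2 | ha2
    · obtain ⟨a1, rfl⟩ : ∃ a1, a = 2 * a1 := ⟨a / 2, by omega⟩
      rcases Int.emod_two_eq_zero_or_one a1 with ha3 | ha3
      · obtain ⟨a2, rfl⟩ : ∃ a2, a1 = 2 * a2 := ⟨a1 / 2, by omega⟩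
        rcases Int.emod_two_eq_zero_or_one a2 with ha4 | ha4
        · -- `a2` even
          obtain ⟨j, u, hj, hu⟩ := d1_ex (N := a2) (fun h => ha0 (by rw [h]; ring))
          have hj1 : 1 ≤ j := by
            rcases Nat.eq_zero_or_pos j with h | h
            · subst h
              rw [pow_zero, one_mul] at hj
              omega
            · exact h
          have hw : (2 * a2 - A) % 2 = 1 := by omega
          have ht : (a2 - B) % 2 = 1 := by omega
          have hP : 2 * (2 * a2) * (2 * (2 * a2) - 2 * A) * (2 * (2 * a2) - 4 * B) =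
              2 ^ (5 + j) * (u * (2 * a2 - A) * (a2 - B)) := by
            have : 2 * (2 * a2) * (2 * (2 * a2) - 2 * A) * (2 * (2 * a2) - 4 * B) =
              32 * (a2 * (2 * a2 - A) * (a2 - B)) := by ring
            rw [this]
            nth_rewrite 1 [hj]
            rw [pow_add]
            ring
          have hodd : (u * (2 * a2 - A) * (a2 - B)) % 2 = 1 := by
            rw [Int.mul_emod, Int.mul_emod u, hu, hw, ht]
            norm_num
          obtain ⟨h1, h2⟩ := d1_sqr hodd hP hs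
          have hj2 : j % 2 = 1 := by omega
          rw [d1_mul3] at h2
          refine d1_fin (i := 2 + j) (k := 1) (u := u) (w := 2 * a2 - A) ?_ hu (by ring) hw ?_
          · rw [pow_add]
            nth_rewrite 1 [hj]
            ring
          rw [d1_cast1 (by omega : (2 + j) % 2 = 1)]
          rcases Nat.lt_or_ge j 3 with hj3 | hj3
          · have hj4 : j = 1 := by omega
            subst hj4
            have h3 : (2 * a2 - A) % 8 = 3 := by omega
            rcases d1_odd8 hu with h | h | h | h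
            · have h4 : (a2 - B) % 8 = 1 := by omega
              rw [h, h3, h4] at h2
              norm_num at h2
            · have h4 : (a2 - B) % 8 = 5 := by omega
              rw [h, h3, h4] at h2
              norm_num at h2
            · have h4 : (a2 - B) % 8 = 1 := by omega
              rw [h, h3, h4] at h2
              norm_num at h2
            · rw [d1_e8 h, d1_e4 h3, d1_e8 h3, d1_e4 h]
              norm_num
          · have h5 : a2 % 8 = 0 := by
              rw [hj]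
              exact d1_pow hj3 u
            have h3 : (2 * a2 - A) % 8 = 7 := by omega
            have h4 : (a2 - B) % 8 = 7 := by omega
            rw [h3, h4] at h2
            rcases d1_odd8 hu with h | h | h | h
            · rw [d1_e8 h, d1_e4 h3, d1_e8 h3, d1_e4 h]
              norm_num
            all_goals
              rw [h] at h2
              norm_num at h2
        · -- `a2` odd
          obtain ⟨j, u, hj, hu⟩ := d1_ex (N := a2 - B) (fun h => hd0 (by linarith))
          have hj1 : 1 ≤ j := by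
            rcases Nat.eq_zero_or_pos j with h | h
            · subst h
              rw [pow_zero, one_mul] at hj
              omega
            · exact h
          have hw : (2 * a2 - A) % 2 = 1 := by omega
          have hP : 2 * (2 * a2) * (2 * (2 * a2) - 2 * A) * (2 * (2 * a2) - 4 * B) =
              2 ^ (5 + j) * (a2 * (2 * a2 - A) * u) := by
            have : 2 * (2 * a2) * (2 * (2 * a2) - 2 * A) * (2 * (2 * a2) - 4 * B) =
              32 * (a2 * (2 * a2 - A) * (a2 - B)) := by ring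
            rw [this, hj, pow_add]
            ring
          have hodd : (a2 * (2 * a2 - A) * u) % 2 = 1 := by
            rw [Int.mul_emod, Int.mul_emod a2, hu, hw, ha4]
            norm_num
          obtain ⟨h1, h2⟩ := d1_sqr hodd hP hs
          have hj2 : j % 2 = 1 := by omega
          rw [d1_mul3] at h2
          refine d1_fin (i := 2) (k := 1) (u := a2) (w := 2 * a2 - A) (by ring) ha4 (by ring) hw ?_
          rw [d1_cast0 (by omega : 2 % 2 = 0)]
          rcases Nat.lt_or_ge j 3 with hj3 | hj3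
          · have hj4 : j = 1 := by omega
            subst hj4
            rcases d1_odd8 hu with h | h | h | h
            · have h3 : (2 * a2 - A) % 8 = 5 := by omega
              have h4 : a2 % 8 = 3 := by omega
              rw [h, h3, h4] at h2
              norm_num at h2
            · have h3 : (2 * a2 - A) % 8 = 5 := by omega
              have h4 : a2 % 8 = 7 := by omega
              rw [d1_e8 h4, d1_e4 h3, d1_e8 h3, d1_e4 h4]
              norm_num
            · have h3 : (2 * a2 - A) % 8 = 5 := by omega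
              have h4 : a2 % 8 = 3 := by omega
              rw [h, h3, h4] at h2
              norm_num at h2
            · have h3 : (2 * a2 - A) % 8 = 5 := by omega
              have h4 : a2 % 8 = 7 := by omega
              rw [h, h3, h4] at h2
              norm_num at h2
          · have h5 : (a2 - B) % 8 = 0 := by
              rw [hj]
              exact d1_pow hj3 u
            have h4 : a2 % 8 = 1 := by omega
            have h3 : (2 * a2 - A) % 8 = 1 := by omega
            rw [d1_e8 h4, d1_e4 h3, d1_e8 h3, d1_e4 h4]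
            norm_num
      · -- `a1` odd
        obtain ⟨j, u, hj, hu⟩ := d1_ex (N := a1 - A) (fun h => hc0 (by linarith))
        have hj1 : 1 ≤ j := by
          rcases Nat.eq_zero_or_pos j with h | h
          · subst h
            rw [pow_zero, one_mul] at hj
            omega
          · exact h
        have hw : (a1 - 2 * B) % 2 = 1 := by omega
        have hP : 2 * a1 * (2 * a1 - 2 * A) * (2 * a1 - 4 * B) =
            2 ^ (3 + j) * (a1 * u * (a1 - 2 * B)) := by
          have : 2 * a1 * (2 * a1 - 2 * A) * (2 * a1 - 4 * B) =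
            8 * (a1 * (a1 - A) * (a1 - 2 * B)) := by ring
          rw [this, hj, pow_add]
          ring
        have hodd : (a1 * u * (a1 - 2 * B)) % 2 = 1 := by
          rw [Int.mul_emod, Int.mul_emod a1, hu, hw, ha3]
          norm_num
        obtain ⟨h1, h2⟩ := d1_sqr hodd hP hs
        have hj2 : j % 2 = 1 := by omega
        rw [d1_mul3] at h2
        refine d1_fin (i := 1) (k := 1 + j) (u := a1) (w := u) (by ring) ha3 ?_ hu ?_
        · have : 2 * a1 - 2 * A = 2 * (a1 - A) := by ring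
          rw [this, hj, pow_add]
          ring
        rw [d1_cast1 (by omega : 1 % 2 = 1)]
        rcases Nat.lt_or_ge j 3 with hj3 | hj3
        · have hj4 : j = 1 := by omega
          subst hj4
          rcases d1_odd8 hu with h | h | h | h
          · have h3 : (a1 - 2 * B) % 8 = 1 := by omega
            have h4 : a1 % 8 = 3 := by omega
            rw [h, h3, h4] at h2
            norm_num at h2
          · have h4 : a1 % 8 = 7 := by omega
            rw [d1_e8 h4, d1_e4 h, d1_e8 h, d1_e4 h4]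
            norm_num
          · have h3 : (a1 - 2 * B) % 8 = 1 := by omega
            have h4 : a1 % 8 = 3 := by omega
            rw [h, h3, h4] at h2
            norm_num at h2
          · have h3 : (a1 - 2 * B) % 8 = 5 := by omega
            have h4 : a1 % 8 = 7 := by omega
            rw [h, h3, h4] at h2
            norm_num at h2
        · have h5 : (a1 - A) % 8 = 0 := by
            rw [hj]
            exact d1_pow hj3 u
          have h4 : a1 % 8 = 1 := by omega
          have h3 : (a1 - 2 * B) % 8 = 7 := by omega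
          rw [h3, h4] at h2
          rcases d1_odd8 hu with h | h | h | h
          · rw [h] at h2
            norm_num at h2
          · rw [h] at h2
            norm_num at h2
          · rw [h] at h2
            norm_num at h2
          · rw [d1_e8 h4, d1_e4 h, d1_e8 h, d1_e4 h4]
            norm_num
    · -- `a` odd
      have hw : (a - 2 * A) % 2 = 1 := by omega
      have ht : (a - 4 * B) % 2 = 1 := by omega
      have hodd : (a * (a - 2 * A) * (a - 4 * B)) % 2 = 1 := by
        rw [Int.mul_emod, Int.mul_emod a, ha2, hw, ht]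
        norm_num
      obtain ⟨h1, h2⟩ := d1_sqr (v := 0) hodd (by ring) hs
      rw [d1_mul3] at h2
      refine d1_fin (i := 0) (k := 0) (u := a) (w := a - 2 * A) (by ring) ha2 (by ring) hw ?_
      rw [d1_cast0 (by omega : 0 % 2 = 0)]
      rcases d1_odd8 ha2 with h | h | h | h
      · have h3 : (a - 2 * A) % 8 = 7 := by omega
        have h4 : (a - 4 * B) % 8 = 5 := by omega
        rw [h, h3, h4] at h2
        norm_num at h2
      · have h3 : (a - 2 * A) % 8 = 1 := by omega
        have h4 : (a - 4 * B) % 8 = 7 := by omega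
        rw [h, h3, h4] at h2
        norm_num at h2
      · have h3 : (a - 2 * A) % 8 = 3 := by omega
        have h4 : (a - 4 * B) % 8 = 1 := by omega
        rw [h, h3, h4] at h2
        norm_num at h2
      · have h3 : (a - 2 * A) % 8 = 5 := by omega
        rw [d1_e8 h, d1_e4 h3, d1_e8 h3, d1_e4 h]
        norm_num

end Pool.Agent.H77.K3
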