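import Pool.Agent.H77.K3.D2
import Pool.Agent.H77.K3.D3
import Pool.Agent.H77.SV.MatS
import Pool.Agent.H77.SV.Supp

/-!
# D4: the image of a point lies in the Selmer group

For a point `Q` of `F3.E Y Z`, `Nice Y Z`, let
`del Q = ((v_p)_p, (0, [k2 Q < 0]), (vb 2 (k1 Q), vb 2 (k2 Q)))`, `v_p = (vb p (k1 Q), vb p (k2 Q))`
for `p ∈ oddP Y Z`, and `0` otherwise. Claim: `del Q ∈ Sl Y Z`, and `k1 Q > 0`.

Proof. `A = X Y^2 Z`, `B = X^2 Y Z`, `A - B = - X Y Z^2`, `0 < A < B`.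
* `k1 Q > 0`: `Q = 0`: `1`. `x = 0`: `A B > 0`. Otherwise `k1 = x`, and `x (x - A) (x - B) = y^2 ≥ 0`
  with `0 < A < B` excludes `x < 0`.
* Support: for a prime `p ≠ 2` not dividing `X Y Z` both `vb` vanish (`supp`; `p` does not divide
  `A B (A - B)`), so `oddP` contains all odd primes with nonzero `vb`; `kap_ne_zero` gives `k1, k2 ≠ 0`.
* Condition at 2: `two_point` with `e_sum` for `x = k1 Q` (positive) and `x = k2 Q`, `O = oddP Y Z`,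
  and `bt_e4`, `bt_e8`: `cL1 = e8 (up 2 (k1..)) = 0`; `cL2 = e4 (k2) - [k2 < 0] + [k2 < 0] + vb 2 k1 =
  0`; `cL3 = e8 (k2) + e4 (k1) = 0`.
* Condition at `p ∈ oddP Y Z`: `p > 384`. Let `i = typ Y Z p`; then `p` divides `F3.l i Y Z`
  (`l 0 = Y + Z`, `l 1 = Y`, `l 2 = Z`), `p^2` does not. `rel_star` with `w = 384` (`F3.Big 384`:
  `big`, finite check), `F3.ty i = none`, so `VV`, `CC` are everything, and taking `c = (1,0)`,
  `c = (0,1)`: `(lb p (k1 Q), lb p (k2 Q)) = lb p (R i) • v_p + mat (F3.N i p) v_p`.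
  `mat_N`: `mat (F3.N i p) v = NN i (bt p (-1)) v` (compute `F3.K i`: for `i = 0` it is
  `((1,-1),(1,-1))`, for `i = 1` it is `((1,1),(-1,-1))`, for `i = 2` it is `((1,1),(1,-1))`; and
  `bt p 1 = 0`). `lb_R`: `lb p (F3.R i Y Z) = rho Y Z p`: `R 0 = A`, `R 1 = B`, `R 2 = A`; e.g. for
  `i = 0`: `A = X Y^2 Z = p * ((X/p) Z * Y^2)`, so `up p A = (X/p) Z Y^2`, `lb_intCast`, `bt_mul`,
  `bt_sq`. And by `lb_eq_sum` with `O = insert 2 (oddP Y Z)`: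
  `lb p (k1 Q) = 0 * bt p (-1) + vb 2 (k1 Q) * bt p 2 + sum_(q ∈ oddP, q ≠ p) vb q (k1 Q) bt p q`, and
  the same for `k2` with `[k2 < 0] bt p (-1)`. So `yF ... p = 0`.
-/

set_option autoImplicit false

namespace Pool.Agent.H77.K3

open Finset Pool.Agent.H77.SV

private lemma l0 (m n : ℤ) : F3.l 0 m n = m + n := by
  show (1 : ℤ) * m + 1 * n = m + n
  ring

private lemma l1 (m n : ℤ) : F3.l 1 m n = m := by
  show (1 : ℤ) * m + 0 * n = m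
  ring

private lemma l2 (m n : ℤ) : F3.l 2 m n = n := by
  show (0 : ℤ) * m + 1 * n = n
  ring

private lemma PF (m n : ℤ) : F3.P m n = (m + n) * m * n := by
  rw [Fam.P, Fin.prod_univ_three, l0, l1, l2]

private lemma AF (m n : ℤ) : F3.A m n = (m + n) * m ^ 2 * n := by
  rw [Fam.A, Fin.prod_univ_three, l0, l1, l2]
  show (1 : ℤ) * ((m + n) ^ 1 * m ^ 2 * n ^ 1) = _
  ring

private lemma BF (m n : ℤ) : F3.B m n = (m + n) ^ 2 * m * n := by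
  rw [Fam.B, Fin.prod_univ_three, l0, l1, l2]
  show (1 : ℤ) * ((m + n) ^ 2 * m ^ 1 * n ^ 1) = _
  ring

theorem big {w : ℕ} (hw : 384 ≤ w) : F3.Big w := by
  have h1 : (1 : ℤ) ≤ w := by exact_mod_cast (by omega : 1 ≤ w)
  refine ⟨by omega, by omega, ?_, ?_, ?_, ?_, ?_, ?_⟩
  · have : ∀ i, |F3.r i| ≤ 1 := by decide
    exact fun i => (this i).trans h1
  · have : ∀ i, |F3.s i| ≤ 1 := by decide
    exact fun i => (this i).trans h1
  · have : ∀ i j, |F3.r i * F3.s j - F3.r j * F3.s i| ≤ 1 := by decide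
    exact fun i j => (this i j).trans h1
  · show |(1 : ℤ)| ≤ w
    simpa using h1
  · show |(1 : ℤ)| ≤ w
    simpa using h1
  · show |(-1 : ℤ)| ≤ w
    simpa using h1

theorem ty_F3 (i : Fin 3) : F3.ty i = none := by
  revert i
  decide

private lemma K0v : F3.K 0 = ((1, -1), (1, -1)) := by decide
private lemma K1v : F3.K 1 = ((1, 1), (-1, -1)) := by decide
private lemma K2v : F3.K 2 = ((1, 1), (1, -1)) := by decide

theorem mat_N (i : Fin 3) (p : ℕ) (v : V2) : mat (F3.N i p) v = NN i (bt p (-1)) v := by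
  have h1 := bt_one p
  fin_cases i
  · show mat (F3.N 0 p) v = NN 0 (bt p (-1)) v
    unfold mat Fam.N dot NN
    rw [K0v]
    simp [h1]
  · show mat (F3.N 1 p) v = NN 1 (bt p (-1)) v
    unfold mat Fam.N dot NN
    rw [K1v]
    simp [h1, mul_add]
  · show mat (F3.N 2 p) v = NN 2 (bt p (-1)) v
    unfold mat Fam.N dot NN
    rw [K2v]
    simp [h1]

private lemma lb_pus {p : ℕ} (hp : p.Prime) {u t : ℤ} (hu : ¬ (p : ℤ) ∣ u) (ht : ¬ (p : ℤ) ∣ t) :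
    lb p (((p : ℤ) * (u * (t * t)) : ℤ) : ℚ) = bt p u := by
  have hpp := Nat.prime_iff_prime_int.1 hp
  have htt : ¬ (p : ℤ) ∣ t * t := fun h => (hpp.dvd_mul.1 h).elim ht ht
  have hut : ¬ (p : ℤ) ∣ u * (t * t) := fun h => (hpp.dvd_mul.1 h).elim hu htt
  have hut0 : ((u * (t * t) : ℤ) : ℚ) ≠ 0 := by
    rw [Int.cast_ne_zero]
    rintro h
    exact hut (by rw [h]; exact dvd_zero _)
  have hp0 : (((p : ℤ) : ℤ) : ℚ) ≠ 0 := by
    rw [Int.cast_natCast, Nat.cast_ne_zero]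
    exact hp.ne_zero
  rw [Int.cast_mul, lb_mul hp hp0 hut0, Int.cast_natCast, lb_self hp, zero_add, lb_int hp hut,
    bt_mul hp hu htt, bt_sq hp ht, add_zero]

private lemma oddP_mem {Y Z p : ℕ} (hp : p ∈ oddP Y Z) :
    p ≠ 2 ∧ p.Prime ∧ p ∣ (Y + Z) * Y * Z ∧ (Y + Z) * Y * Z ≠ 0 := by
  rw [oddP, mem_erase, Nat.mem_primeFactors] at hp
  exact hp

private lemma ndz {p n : ℕ} (h : ¬ p ∣ n) : ¬ (p : ℤ) ∣ (n : ℤ) := fun h' => h (Int.natCast_dvd_natCast.1 h')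

/-- the three cases -/
private lemma cases3 {Y Z p : ℕ} (hp : p ∈ oddP Y Z) (hc : Y.Coprime Z)
    (hsq : ¬ p ^ 2 ∣ (Y + Z) * Y * Z) :
    (typ Y Z p = 1 ∧ p ∣ Y ∧ ¬ p ∣ Z ∧ ¬ p ∣ Y + Z ∧ ¬ p ^ 2 ∣ Y) ∨
    (typ Y Z p = 2 ∧ p ∣ Z ∧ ¬ p ∣ Y ∧ ¬ p ∣ Y + Z ∧ ¬ p ^ 2 ∣ Z) ∨
    (typ Y Z p = 0 ∧ p ∣ Y + Z ∧ ¬ p ∣ Y ∧ ¬ p ∣ Z ∧ ¬ p ^ 2 ∣ Y + Z) := by
  obtain ⟨h2, hpp, hd, h0⟩ := oddP_mem hp
  have hYZ : ¬ (p ∣ Y ∧ p ∣ Z) := by
    rintro ⟨a, b⟩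
    have := Nat.dvd_gcd a b
    rw [hc.gcd_eq_one] at this
    exact hpp.one_lt.ne' (Nat.dvd_one.1 this)
  by_cases hY : p ∣ Y
  · left
    have hZ : ¬ p ∣ Z := fun h => hYZ ⟨hY, h⟩
    refine ⟨?_, hY, hZ, ?_, ?_⟩
    · unfold typ
      rw [if_pos hY]
    · intro h
      exact hZ ((Nat.dvd_add_right hY).1 h)
    · intro h
      exact hsq ((h.mul_left _).mul_right _)
  · by_cases hZ : p ∣ Z
    · right; left
      refine ⟨?_, hZ, hY, ?_, ?_⟩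
      · unfold typ
        rw [if_neg hY, if_pos hZ]
      · intro h
        exact hY ((Nat.dvd_add_left hZ).1 h)
      · intro h
        exact hsq (h.mul_left _)
    · right; right
      have hX : p ∣ Y + Z := by
        rcases (hpp.dvd_mul).1 hd with h | h
        · rcases (hpp.dvd_mul).1 h with h | h
          · exact h
          · exact absurd h hY
        · exact absurd h hZ
      refine ⟨?_, hX, hY, hZ, ?_⟩
      · unfold typ
        rw [if_neg hY, if_neg hZ]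
      · intro h
        exact hsq ((h.mul_right _).mul_right _)

private lemma ndm {p a b : ℕ} (hp : p.Prime) (ha : ¬ p ∣ a) (hb : ¬ p ∣ b) : ¬ p ∣ a * b := fun h =>
  (hp.dvd_mul.1 h).elim ha hb

private lemma div_nd {p a : ℕ} (hp : p.Prime) (h : p ∣ a) (h2 : ¬ p ^ 2 ∣ a) :
    ¬ p ∣ a / p ∧ a = p * (a / p) := by
  obtain ⟨t, rfl⟩ := h
  rw [Nat.mul_div_cancel_left _ hp.pos]
  refine ⟨?_, rfl⟩
  intro h
  apply h2
  rw [sq]
  exact Nat.mul_dvd_mul_left p h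

theorem lb_R {Y Z p : ℕ} (hp : p ∈ oddP Y Z) (hc : Y.Coprime Z)
    (hsq : ¬ p ^ 2 ∣ (Y + Z) * Y * Z) :
    lb p ((F3.R (typ Y Z p) (Y : ℤ) (Z : ℤ) : ℤ) : ℚ) = rho Y Z p := by
  obtain ⟨h2, hpp, hd, h0⟩ := oddP_mem hp
  rcases cases3 hp hc hsq with ⟨ht, hY, hZ, hX, hs⟩ | ⟨ht, hZ, hY, hX, hs⟩ | ⟨ht, hX, hY, hZ, hs⟩
  · obtain ⟨hn, he⟩ := div_nd hpp hY hs
    rw [ht]
    have hR : F3.R 1 (Y : ℤ) (Z : ℤ) = F3.B (Y : ℤ) (Z : ℤ) := by
      unfold Fam.R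
      rw [if_neg (by decide), if_pos (by decide)]
    rw [hR, BF]
    have hrho : rho Y Z p = bt p ((Y / p * Z : ℕ) : ℤ) := by
      unfold rho
      rw [if_pos hY]
    have hcalc : ((Y : ℤ) + Z) ^ 2 * Y * Z =
        (p : ℤ) * (((Y / p * Z : ℕ) : ℤ) * ((((Y + Z : ℕ) : ℤ)) * ((Y + Z : ℕ) : ℤ))) := by
      have he' : (Y : ℤ) = (p : ℤ) * ((Y / p : ℕ) : ℤ) := by exact_mod_cast he
      push_cast
      push_cast at he'
      linear_combination ((Y : ℤ) + Z) ^ 2 * Z * he'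
    rw [hcalc, lb_pus hpp (ndz (ndm hpp hn hZ)) (ndz hX), hrho]
  · obtain ⟨hn, he⟩ := div_nd hpp hZ hs
    rw [ht]
    have hR : F3.R 2 (Y : ℤ) (Z : ℤ) = F3.A (Y : ℤ) (Z : ℤ) := by
      unfold Fam.R
      rw [if_pos (by decide)]
    rw [hR, AF]
    have hrho : rho Y Z p = bt p (((Y + Z) * (Z / p) : ℕ) : ℤ) := by
      unfold rho
      rw [if_neg hY, if_pos hZ]
    have hcalc : ((Y : ℤ) + Z) * Y ^ 2 * Z =
        (p : ℤ) * ((((Y + Z) * (Z / p) : ℕ) : ℤ) * ((Y : ℤ) * (Y : ℤ))) := by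
      have he' : (Z : ℤ) = (p : ℤ) * ((Z / p : ℕ) : ℤ) := by exact_mod_cast he
      push_cast
      push_cast at he'
      linear_combination ((Y : ℤ) + Z) * Y ^ 2 * he'
    rw [hcalc, lb_pus hpp (ndz (ndm hpp hX hn)) (ndz hY), hrho]
  · obtain ⟨hn, he⟩ := div_nd hpp hX hs
    rw [ht]
    have hR : F3.R 0 (Y : ℤ) (Z : ℤ) = F3.A (Y : ℤ) (Z : ℤ) := by
      unfold Fam.R
      rw [if_pos (by decide)]
    rw [hR, AF]
    have hrho : rho Y Z p = bt p (((Y + Z) / p * Z : ℕ) : ℤ) := by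
      unfold rho
      rw [if_neg hY, if_neg hZ]
    have hcalc : ((Y : ℤ) + Z) * Y ^ 2 * Z =
        (p : ℤ) * ((((Y + Z) / p * Z : ℕ) : ℤ) * ((Y : ℤ) * (Y : ℤ))) := by
      have he' : ((Y : ℤ) + Z) = (p : ℤ) * (((Y + Z) / p : ℕ) : ℤ) := by exact_mod_cast he
      push_cast
      push_cast at he'
      linear_combination (Y ^ 2 * Z : ℤ) * he'
    rw [hcalc, lb_pus hpp (ndz (ndm hpp hn hZ)) (ndz hY), hrho]

/-- the image of a point -/
noncomputable def del (Y Z : ℕ) (Q : (F3.E (Y : ℤ) (Z : ℤ)).Point) : EE :=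
  (fun p => if p ∈ oddP Y Z then (vb p (k1 Q), vb p (k2 Q)) else 0,
    (0, if k2 Q < 0 then 1 else 0), (vb 2 (k1 Q), vb 2 (k2 Q)))

private lemma A_pos {Y Z : ℕ} (hY : 0 < Y) (hZ : 0 < Z) : 0 < (F3.A (Y : ℤ) (Z : ℤ) : ℚ) := by
  rw [AF]
  have : (0 : ℤ) < Y := by exact_mod_cast hY
  have : (0 : ℤ) < Z := by exact_mod_cast hZ
  have h : (0 : ℤ) < ((Y : ℤ) + Z) * Y ^ 2 * Z := by positivity
  exact_mod_cast h

private lemma B_pos {Y Z : ℕ} (hY : 0 < Y) (hZ : 0 < Z) : 0 < (F3.B (Y : ℤ) (Z : ℤ) : ℚ) := by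
  rw [BF]
  have : (0 : ℤ) < Y := by exact_mod_cast hY
  have : (0 : ℤ) < Z := by exact_mod_cast hZ
  have h : (0 : ℤ) < ((Y : ℤ) + Z) ^ 2 * Y * Z := by positivity
  exact_mod_cast h

theorem k1_pos {Y Z : ℕ} (hY : 0 < Y) (hZ : 0 < Z) (Q : (F3.E (Y : ℤ) (Z : ℤ)).Point) :
    0 < k1 Q := by
  have hA := A_pos hY hZ
  have hB := B_pos hY hZ
  rcases Q with _ | ⟨x, y, h⟩
  · show (0 : ℚ) < 1
    norm_num
  · show (0 : ℚ) < (if x = 0 then (0 - (F3.A (Y : ℤ) (Z : ℤ) : ℚ)) * (0 - (F3.B (Y : ℤ) (Z : ℤ) : ℚ))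
      else x - 0)
    split_ifs with hx
    · nlinarith [mul_pos hA hB]
    · rw [sub_zero]
      have he := (WeierstrassCurve.Affine.equation_iff x y).1 h.1
      simp only [zero_mul, add_zero] at he
      set A := (F3.A (Y : ℤ) (Z : ℤ) : ℚ) with hAd
      set B := (F3.B (Y : ℤ) (Z : ℤ) : ℚ) with hBd
      by_contra hneg
      have hx0 : x < 0 := lt_of_le_of_ne (not_lt.1 hneg) hx
      have h1 : y ^ 2 = x * ((x - A) * (x - B)) := by
        rw [he]; ring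
      have h2 : 0 < (x - A) * (x - B) := mul_pos_of_neg_of_neg (by linarith) (by linarith)
      have h3 : x * ((x - A) * (x - B)) < 0 := mul_neg_of_neg_of_pos hx0 h2
      nlinarith [sq_nonneg y]

private lemma roots1 {A B : ℚ} (hA : A ≠ 0) (hB : B ≠ 0) (hAB : A ≠ B) :
    Roots (EC A B) 0 A B := by
  refine ⟨rfl, rfl, ?_, ?_, ?_, hA.symm, hB.symm, hAB⟩
  · show -(A + B) = _
    ring
  · show A * B = _
    ring
  · show (0 : ℚ) = _
    ring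

private lemma roots2 {A B : ℚ} (hA : A ≠ 0) (hB : B ≠ 0) (hAB : A ≠ B) :
    Roots (EC A B) A 0 B := by
  refine ⟨rfl, rfl, ?_, ?_, ?_, hA, hAB, hB.symm⟩
  · show -(A + B) = _
    ring
  · show A * B = _
    ring
  · show (0 : ℚ) = _
    ring

private lemma two0 (x : ZMod 2) : x + x = 0 := CharTwo.add_self_eq_zero x

private lemma ab {x y : ZMod 2} (h : x + y = 0) : x = y := by
  revert x y; decide

private lemma lb_point {Y Z : ℕ} (hO : ∀ q ∈ oddP Y Z, q.Prime ∧ q ≠ 2) {x : ℚ} (hx : x ≠ 0)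
    (hv : ∀ q : ℕ, q.Prime → q ≠ 2 → q ∉ oddP Y Z → vb q x = 0) {p : ℕ} (hp : p.Prime)
    (hp2 : p ≠ 2) :
    lb p x = (if x < 0 then bt p (-1) else 0) + (vb 2 x * bt p 2 +
      ∑ q ∈ (oddP Y Z).erase p, vb q x * bt p q) := by
  have h2 : 2 ∉ oddP Y Z := fun h => (hO 2 h).2 rfl
  rw [lb_eq_sum hx (insert 2 (oddP Y Z)) ?_ ?_ hp, erase_insert_of_ne hp2.symm, sum_insert]
  · rfl
  · intro h
    exact h2 (mem_of_mem_erase h)
  · intro q hq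
    rcases mem_insert.1 hq with h | h
    · rw [h]; exact Nat.prime_two
    · exact (hO q h).1
  · intro q hq hn
    rw [mem_insert, not_or] at hn
    exact hv q hq hn.1 hn.2

theorem del_mem {Y Z : ℕ} (h : Nice Y Z) (Q : (F3.E (Y : ℤ) (Z : ℤ)).Point) :
    del Y Z Q ∈ Sl Y Z := by
  have hY0 : 0 < Y := by have := h.hY; omega
  have hZ0 : 0 < Z := by have := h.hZ; omega
  have hYi : (0 : ℤ) < Y := by exact_mod_cast hY0
  have hZi : (0 : ℤ) < Z := by exact_mod_cast hZ0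
  have hN0 : (Y + Z) * Y * Z ≠ 0 := by positivity
  have hPne : F3.P (Y : ℤ) (Z : ℤ) ≠ 0 := by
    rw [PF]; positivity
  obtain ⟨hA, hB, hC, hAB⟩ := abc_ne_zero (F := F3) hPne
  have hAq : ((F3.A (Y : ℤ) (Z : ℤ) : ℤ) : ℚ) ≠ 0 := Int.cast_ne_zero.2 hA
  have hBq : ((F3.B (Y : ℤ) (Z : ℤ) : ℤ) : ℚ) ≠ 0 := Int.cast_ne_zero.2 hB
  have hABq : ((F3.A (Y : ℤ) (Z : ℤ) : ℤ) : ℚ) ≠ ((F3.B (Y : ℤ) (Z : ℤ) : ℤ) : ℚ) :=
    fun h => hAB (Int.cast_injective h)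
  have hk1 : k1 Q ≠ 0 := kap_ne_zero (roots1 hAq hBq hABq) Q
  have hk2 : k2 Q ≠ 0 := kap_ne_zero (roots2 hAq hBq hABq) Q
  have hO : ∀ q ∈ oddP Y Z, q.Prime ∧ q ≠ 2 := fun q hq =>
    ⟨(oddP_mem hq).2.1, (oddP_mem hq).1⟩
  have hsup : ∀ q : ℕ, q.Prime → q ≠ 2 → q ∉ oddP Y Z → vb q (k1 Q) = 0 ∧ vb q (k2 Q) = 0 := by
    intro q hq h2 hn
    refine supp hA hB hAB hq ?_ Q
    intro hd
    have e : F3.A (Y : ℤ) (Z : ℤ) * F3.B (Y : ℤ) (Z : ℤ) *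
        (F3.A (Y : ℤ) (Z : ℤ) - F3.B (Y : ℤ) (Z : ℤ)) = -(((Y + Z) * Y * Z : ℕ) : ℤ) ^ 4 := by
      rw [AF, BF]
      push_cast
      ring
    rw [e, dvd_neg] at hd
    have h3 := (Nat.prime_iff_prime_int.1 hq).dvd_of_dvd_pow hd
    apply hn
    rw [oddP, mem_erase, Nat.mem_primeFactors]
    exact ⟨h2, hq, Int.natCast_dvd_natCast.1 h3, hN0⟩
  have hpos := k1_pos hY0 hZ0 Q
  obtain ⟨c1, c2, c3⟩ := two_point h Q
  obtain ⟨a4, a8⟩ := e_sum hk1 (oddP Y Z) hO fun q hq h2 hn => (hsup q hq h2 hn).1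
  obtain ⟨b4, b8⟩ := e_sum hk2 (oddP Y Z) hO fun q hq h2 hn => (hsup q hq h2 hn).2
  rw [if_neg (not_lt.2 hpos.le), zero_add] at a4
  rw [a8] at c1
  rw [b4] at c2
  rw [b8, a4] at c3
  have val : ∀ q ∈ oddP Y Z, (del Y Z Q).1 q = (vb q (k1 Q), vb q (k2 Q)) := fun q hq => by
    show (if q ∈ oddP Y Z then (vb q (k1 Q), vb q (k2 Q)) else 0) = _
    rw [if_pos hq]
  rw [Sl, mem_DDQ]
  refine ⟨⟨?_, rfl, ?_, ?_, ?_⟩, ?_⟩
  · intro q hq
    show (if q ∈ oddP Y Z then (vb q (k1 Q), vb q (k2 Q)) else 0) = 0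
    rw [if_neg hq]
  · show ∑ p ∈ oddP Y Z, bt p 2 * ((del Y Z Q).1 p).1 = 0
    rw [← c1]
    refine sum_congr rfl fun p hp => ?_
    rw [val p hp, bt_e8 (hO p hp).1 (hO p hp).2, mul_comm]
  · show ∑ p ∈ oddP Y Z, bt p (-1) * ((del Y Z Q).1 p).2 + (if k2 Q < 0 then 1 else 0) +
      vb 2 (k1 Q) = 0
    rw [← c2]
    have e : ∑ p ∈ oddP Y Z, bt p (-1) * ((del Y Z Q).1 p).2 =
        ∑ q ∈ oddP Y Z, vb q (k2 Q) * e4 q := by
      refine sum_congr rfl fun p hp => ?_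
      rw [val p hp, bt_e4 (hO p hp).1 (hO p hp).2, mul_comm]
    rw [e]
    generalize ∑ q ∈ oddP Y Z, vb q (k2 Q) * e4 q = S
    generalize (if k2 Q < 0 then (1 : ZMod 2) else 0) = t
    have : ∀ S t : ZMod 2, S + t + (t + S) = 0 := by decide
    exact this S t
  · show ∑ p ∈ oddP Y Z, (bt p 2 * ((del Y Z Q).1 p).2 + bt p (-1) * ((del Y Z Q).1 p).1) = 0
    rw [sum_add_distrib]
    have e : ∑ p ∈ oddP Y Z, bt p 2 * ((del Y Z Q).1 p).2 =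
        ∑ q ∈ oddP Y Z, vb q (k2 Q) * e8 q := by
      refine sum_congr rfl fun p hp => ?_
      rw [val p hp, bt_e8 (hO p hp).1 (hO p hp).2, mul_comm]
    have e' : ∑ p ∈ oddP Y Z, bt p (-1) * ((del Y Z Q).1 p).1 =
        ∑ q ∈ oddP Y Z, vb q (k1 Q) * e4 q := by
      refine sum_congr rfl fun p hp => ?_
      rw [val p hp, bt_e4 (hO p hp).1 (hO p hp).2, mul_comm]
    rw [e, e', c3]
    exact two0 _
  · intro p hp
    obtain ⟨hpp, hp2⟩ := hO p hp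
    have hsq := h.hsq p hpp hp2
    have hp384 : 384 < p := by
      by_contra hle
      exact h.hw p hpp hp2 (by omega) (oddP_mem hp).2.2.1
    have hcop : IsCoprime (Y : ℤ) (Z : ℤ) := Nat.isCoprime_iff_coprime.2 h.hc
    have hst : Pool.Agent.H77.SV.Star (F3.ea (typ Y Z p)) (F3.eb (typ Y Z p)) (F3.ec (typ Y Z p)) := by
      have : ∀ i, Pool.Agent.H77.SV.Star (F3.ea i) (F3.eb i) (F3.ec i) := by
        intro i
        fin_cases i <;> simp [F3, Pool.Agent.H77.SV.Star]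
      exact this _
    have hdl : (p : ℤ) ∣ F3.l (typ Y Z p) (Y : ℤ) (Z : ℤ) ∧
        ¬ (p : ℤ) ^ 2 ∣ F3.l (typ Y Z p) (Y : ℤ) (Z : ℤ) := by
      rcases cases3 hp h.hc hsq with ⟨ht, hd, _, _, hs⟩ | ⟨ht, hd, _, _, hs⟩ | ⟨ht, hd, _, _, hs⟩
      · rw [ht, l1]
        exact ⟨by exact_mod_cast hd, by exact_mod_cast hs⟩
      · rw [ht, l2]
        exact ⟨by exact_mod_cast hd, by exact_mod_cast hs⟩
      · rw [ht, l0]
        exact ⟨by exact_mod_cast hd, by exact_mod_cast hs⟩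
    obtain ⟨_, hrel⟩ := rel_star (big le_rfl) hpp hp384 hcop hPne hdl.1 hdl.2 hst Q
    rw [ty_F3] at hrel
    have r1 := hrel (1, 0) (mem_univ _)
    have r2 := hrel (0, 1) (mem_univ _)
    rw [mat_N, lb_R hp h.hc hsq] at r1 r2
    simp only [dot, one_mul, zero_mul, add_zero, zero_add] at r1 r2
    have s1 := lb_point hO hk1 (fun q hq h2 hn => (hsup q hq h2 hn).1) hpp hp2
    have s2 := lb_point hO hk2 (fun q hq h2 hn => (hsup q hq h2 hn).2) hpp hp2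
    rw [if_neg (not_lt.2 hpos.le), zero_add] at s1
    have hsum : ∑ q ∈ (oddP Y Z).erase p, bt p q • (del Y Z Q).1 q =
        (∑ q ∈ (oddP Y Z).erase p, vb q (k1 Q) * bt p q,
          ∑ q ∈ (oddP Y Z).erase p, vb q (k2 Q) * bt p q) := by
      have e1 : ∀ q ∈ (oddP Y Z).erase p, bt p q • (del Y Z Q).1 q =
          (vb q (k1 Q) * bt p q, vb q (k2 Q) * bt p q) := by
        intro q hq
        rw [val q (mem_of_mem_erase hq), Prod.smul_mk, smul_eq_mul, smul_eq_mul, mul_comm,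
          mul_comm (vb q (k2 Q))]
      rw [sum_congr rfl e1]
      ext
      · simp [Prod.fst_sum]
      · simp [Prod.snd_sum]
    show yF Y Z (del Y Z Q).1 (0, if k2 Q < 0 then 1 else 0) (vb 2 (k1 Q), vb 2 (k2 Q)) p = 0
    unfold yF
    rw [hsum, val p hp]
    ext
    · simp only [Prod.fst_add, Prod.smul_mk, smul_eq_mul, mul_zero, add_zero, Prod.fst_zero]
      rw [add_assoc, ← r1, s1, mul_comm (bt p 2)]
      rw [add_comm (∑ q ∈ (oddP Y Z).erase p, vb q (k1 Q) * bt p q)]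
      exact two0 _
    · simp only [Prod.snd_add, Prod.smul_mk, smul_eq_mul, Prod.snd_zero]
      rw [add_assoc, ← r2, s2, mul_comm (bt p 2)]
      have e : bt p (-1) * (if k2 Q < 0 then (1 : ZMod 2) else 0) =
          if k2 Q < 0 then bt p (-1) else 0 := by
        split_ifs <;> simp
      rw [e]
      generalize (if k2 Q < 0 then bt p (-1) else 0) = t
      generalize ∑ q ∈ (oddP Y Z).erase p, vb q (k2 Q) * bt p q = S
      generalize vb 2 (k2 Q) * bt p 2 = u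
      revert t S u
      decide

end Pool.Agent.H77.K3
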