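import Pool.Agent.H77.K3.D4
import Pool.Agent.H77.K3.D5
import Pool.Agent.H77.SV.Ineq

/-!
# D6: the descent bound

`2 ^ (rank + 2) ≤ # Sl Y Z` for `Nice Y Z`.

Proof. `F3.E Y Z` has a finitely generated group of rational points (`rank_ineq` with `w = z = 384`,
`big`; `IsCoprime Y Z` from `Nat.Coprime`, `F3.P Y Z = X Y Z ≠ 0`). Apply `two_pow_rank_add` to
`f = del Y Z` with values in `V` = the finite set of elements of `Sl Y Z` (`Set.Finite.toFinset` of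
the coercion; its cardinality is `Nat.card (Sl Y Z)`).
* If `del Q = del Q'` then `k1 Q, k1 Q'` are positive (`k1_pos`), and have the same `vb p` for all
  primes `p` (in `oddP` and for `p = 2` by `del`, for the other primes both vanish by `supp`), so
  `k1 Q * k1 Q'` is a square (`isSquare_mul_of_vb`); the same for `k2` (same sign, because the second
  sign component determines `k2 Q < 0`). `diff_two_EC` gives `Q - Q' = R + R`.
* The four elements `0, (0,0), (A,0), (B,0)` (`A = X Y^2 Z`, `B = X^2 Y Z`, `0, A, B` distinct):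
  `T = {0, T0, TA, TB}`, `TA = WeierstrassCurve.Affine.Point.some A 0 _` nonsingular as
  the three roots are distinct (`Affine.nonsingular_iff`), `-T = T`.
-/

set_option autoImplicit false

namespace Pool.Agent.H77.K3

open Finset Pool.Agent.H77.SV

private lemma d6_P (Y Z : ℤ) : F3.P Y Z = (Y + Z) * Y * Z := by
  simp [Fam.P, Fam.l, F3, Fin.prod_univ_three]

private lemma d6_A (Y Z : ℤ) : F3.A Y Z = (Y + Z) * Y ^ 2 * Z := by
  simp [Fam.A, Fam.l, F3, Fin.prod_univ_three]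

private lemma d6_B (Y Z : ℤ) : F3.B Y Z = (Y + Z) ^ 2 * Y * Z := by
  simp [Fam.B, Fam.l, F3, Fin.prod_univ_three]

private lemma d6_ns {A B e f g : ℚ} (h : Roots (EC A B) e f g) :
    (EC A B).Nonsingular e 0 := by
  rw [WeierstrassCurve.Affine.nonsingular_iff, WeierstrassCurve.Affine.equation_iff]
  rw [h.a1, h.a2, h.a3, h.a4, h.a6]
  refine ⟨by ring, Or.inl ?_⟩
  intro h'
  have : (e - f) * (e - g) = 0 := by linear_combination -h'
  rcases mul_eq_zero.1 this with h1 | h1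
  · exact h.n1 (sub_eq_zero.1 h1)
  · exact h.n2 (sub_eq_zero.1 h1)

private lemma d6_two {A B e : ℚ} (h : (EC A B).Nonsingular e 0) :
    (WeierstrassCurve.Affine.Point.some e 0 h : (EC A B).Point) +
      WeierstrassCurve.Affine.Point.some e 0 h = 0 := by
  rw [add_eq_zero_iff_eq_neg, WeierstrassCurve.Affine.Point.neg_some]
  congr 1
  simp [WeierstrassCurve.Affine.negY]

private lemma d6_supp {Y Z : ℕ} (hY : 0 < Y) (hZ : 0 < Z) (Q : (F3.E (Y : ℤ) (Z : ℤ)).Point)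
    {p : ℕ} (hp : p.Prime) (h2 : p ≠ 2) (hO : p ∉ oddP Y Z) :
    vb p (k1 Q) = 0 ∧ vb p (k2 Q) = 0 := by
  have hP : F3.P (Y : ℤ) (Z : ℤ) ≠ 0 := by
    rw [d6_P]
    positivity
  obtain ⟨hA, hB, _, hAB⟩ := abc_ne_zero hP
  refine supp hA hB hAB hp (fun hd => ?_) Q
  rw [d6_A, d6_B] at hd
  have e : ((Y : ℤ) + Z) * (Y : ℤ) ^ 2 * Z * (((Y : ℤ) + Z) ^ 2 * Y * Z) *
      (((Y : ℤ) + Z) * (Y : ℤ) ^ 2 * Z - ((Y : ℤ) + Z) ^ 2 * Y * Z) =
      -((((Y + Z) * Y * Z : ℕ) : ℤ) ^ 4) := by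
    push_cast
    ring
  rw [e, dvd_neg] at hd
  have h3 := Int.Prime.dvd_pow' hp hd
  have h4 : p ∣ (Y + Z) * Y * Z := by exact_mod_cast h3
  apply hO
  unfold oddP
  rw [mem_erase, Nat.mem_primeFactors]
  exact ⟨h2, hp, h4, by positivity⟩

theorem descent {Y Z : ℕ} (h : Nice Y Z) :
    2 ^ (Module.finrank ℤ (F3.E (Y : ℤ) (Z : ℤ)).Point + 2) ≤ Nat.card (Sl Y Z) := by
  classical
  have hY : 0 < Y := by have := h.hY; omega
  have hZ : 0 < Z := by have := h.hZ; omega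
  have hP : F3.P (Y : ℤ) (Z : ℤ) ≠ 0 := by
    rw [d6_P]
    positivity
  obtain ⟨hA, hB, _, hAB⟩ := abc_ne_zero hP
  have hA' : ((F3.A (Y : ℤ) (Z : ℤ) : ℤ) : ℚ) ≠ 0 := Int.cast_ne_zero.2 hA
  have hB' : ((F3.B (Y : ℤ) (Z : ℤ) : ℤ) : ℚ) ≠ 0 := Int.cast_ne_zero.2 hB
  have hAB' : ((F3.A (Y : ℤ) (Z : ℤ) : ℤ) : ℚ) ≠ ((F3.B (Y : ℤ) (Z : ℤ) : ℤ) : ℚ) :=
    fun h => hAB (Int.cast_injective h)
  have hc : IsCoprime (Y : ℤ) (Z : ℤ) := Nat.isCoprime_iff_coprime.2 h.hc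
  have hfin : Module.Finite ℤ (F3.E (Y : ℤ) (Z : ℤ)).Point :=
    (rank_ineq (big le_rfl) hc hP 384 le_rfl).1
  have hr := roots_EC hA' hB' hAB'
  have hrA : Roots (F3.E (Y : ℤ) (Z : ℤ)) ((F3.A (Y : ℤ) (Z : ℤ) : ℤ) : ℚ) 0
      ((F3.B (Y : ℤ) (Z : ℤ) : ℤ) : ℚ) := by
    refine ⟨hr.a1, hr.a3, ?_, ?_, ?_, hr.n1.symm, hr.n3, hr.n2⟩
    · rw [hr.a2]; ring
    · rw [hr.a4]; ring
    · rw [hr.a6]; ring
  have hrB : Roots (F3.E (Y : ℤ) (Z : ℤ)) ((F3.B (Y : ℤ) (Z : ℤ) : ℤ) : ℚ) 0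
      ((F3.A (Y : ℤ) (Z : ℤ) : ℤ) : ℚ) := by
    refine ⟨hr.a1, hr.a3, ?_, ?_, ?_, hr.n2.symm, hr.n3.symm, hr.n1⟩
    · rw [hr.a2]; ring
    · rw [hr.a4]; ring
    · rw [hr.a6]; ring
  have hk : ∀ Q : (F3.E (Y : ℤ) (Z : ℤ)).Point, k1 Q ≠ 0 ∧ k2 Q ≠ 0 := fun Q =>
    ⟨kap_ne_zero hr Q, kap_ne_zero hrA Q⟩
  -- the values
  have hmem : Set.Finite (Sl Y Z : Set EE) := Set.finite_coe_iff.1 (finite_Sl Y Z)
  set V := hmem.toFinset with hV
  have hVcard : V.card = Nat.card (Sl Y Z) := by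
    rw [hV, ← Set.ncard_eq_toFinset_card _ hmem]
    rfl
  rw [← hVcard]
  -- the four points
  set T0 : (F3.E (Y : ℤ) (Z : ℤ)).Point := WeierstrassCurve.Affine.Point.some 0 0 (d6_ns hr)
    with hT0
  set TA : (F3.E (Y : ℤ) (Z : ℤ)).Point :=
    WeierstrassCurve.Affine.Point.some ((F3.A (Y : ℤ) (Z : ℤ) : ℤ) : ℚ) 0 (d6_ns hrA) with hTA
  set TB : (F3.E (Y : ℤ) (Z : ℤ)).Point :=
    WeierstrassCurve.Affine.Point.some ((F3.B (Y : ℤ) (Z : ℤ) : ℤ) : ℚ) 0 (d6_ns hrB) with hTB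
  have n1 : (0 : (F3.E (Y : ℤ) (Z : ℤ)).Point) ≠ T0 := by
    intro h; rw [hT0, WeierstrassCurve.Affine.Point.zero_def] at h; cases h
  have n2 : (0 : (F3.E (Y : ℤ) (Z : ℤ)).Point) ≠ TA := by
    intro h; rw [hTA, WeierstrassCurve.Affine.Point.zero_def] at h; cases h
  have n3 : (0 : (F3.E (Y : ℤ) (Z : ℤ)).Point) ≠ TB := by
    intro h; rw [hTB, WeierstrassCurve.Affine.Point.zero_def] at h; cases h
  have n4 : T0 ≠ TA := by
    intro h
    have h1 := (WeierstrassCurve.Affine.Point.some.injEq _ _ _ _ _ _).mp h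
    exact hA' h1.1.symm
  have n5 : T0 ≠ TB := by
    intro h
    have h1 := (WeierstrassCurve.Affine.Point.some.injEq _ _ _ _ _ _).mp h
    exact hB' h1.1.symm
  have n6 : TA ≠ TB := by
    intro h
    have h1 := (WeierstrassCurve.Affine.Point.some.injEq _ _ _ _ _ _).mp h
    exact hAB' h1.1
  refine two_pow_rank_add V (del Y Z) (fun Q => hmem.mem_toFinset.2 (del_mem h Q)) ?_
    {0, T0, TA, TB} ?_ ?_
  · intro Q Q' hQ
    have h1 : ∀ p, (if p ∈ oddP Y Z then (vb p (k1 Q), vb p (k2 Q)) else 0 : V2) =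
        if p ∈ oddP Y Z then (vb p (k1 Q'), vb p (k2 Q')) else 0 := fun p =>
      congrFun (congrArg Prod.fst hQ) p
    have h2 : (if k2 Q < 0 then (1 : ZMod 2) else 0) = if k2 Q' < 0 then 1 else 0 :=
      congrArg (fun x : EE => x.2.1.2) hQ
    have h3 : vb 2 (k1 Q) = vb 2 (k1 Q') := congrArg (fun x : EE => x.2.2.1) hQ
    have h4 : vb 2 (k2 Q) = vb 2 (k2 Q') := congrArg (fun x : EE => x.2.2.2) hQ
    have key : ∀ q : ℕ, q.Prime → vb q (k1 Q) = vb q (k1 Q') ∧ vb q (k2 Q) = vb q (k2 Q') := by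
      intro q hq
      by_cases hq2 : q = 2
      · subst hq2
        exact ⟨h3, h4⟩
      · by_cases hqO : q ∈ oddP Y Z
        · have h5 := h1 q
          rw [if_pos hqO, if_pos hqO] at h5
          exact ⟨congrArg Prod.fst h5, congrArg Prod.snd h5⟩
        · obtain ⟨a1, a2⟩ := d6_supp hY hZ Q hq hq2 hqO
          obtain ⟨b1, b2⟩ := d6_supp hY hZ Q' hq hq2 hqO
          exact ⟨by rw [a1, b1], by rw [a2, b2]⟩
    have hs1 : k1 Q < 0 ↔ k1 Q' < 0 :=
      ⟨fun h => absurd h (not_lt.2 (k1_pos hY hZ Q).le),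
        fun h => absurd h (not_lt.2 (k1_pos hY hZ Q').le)⟩
    have hs2 : k2 Q < 0 ↔ k2 Q' < 0 := by
      by_cases a : k2 Q < 0
      · by_cases b : k2 Q' < 0
        · exact ⟨fun _ => b, fun _ => a⟩
        · rw [if_pos a, if_neg b] at h2
          exact absurd h2 one_ne_zero
      · by_cases b : k2 Q' < 0
        · rw [if_neg a, if_pos b] at h2
          exact absurd h2.symm one_ne_zero
        · exact ⟨fun h => absurd h a, fun h => absurd h b⟩
    exact diff_two_EC hA' hB' hAB' Q Q'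
      (isSquare_mul_of_vb (hk Q).1 (hk Q').1 hs1 fun q hq => (key q hq).1)
      (isSquare_mul_of_vb (hk Q).2 (hk Q').2 hs2 fun q hq => (key q hq).2)
  · rw [card_insert_of_notMem, card_insert_of_notMem, card_insert_of_notMem, card_singleton]
    · simpa using n6
    · simp only [mem_insert, mem_singleton, not_or]
      exact ⟨n4, n5⟩
    · simp only [mem_insert, mem_singleton, not_or]
      exact ⟨n1, n2, n3⟩
  · intro t ht
    simp only [mem_insert, mem_singleton] at ht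
    rcases ht with rfl | rfl | rfl | rfl
    · exact add_zero _
    · exact d6_two _
    · exact d6_two _
    · exact d6_two _

end Pool.Agent.H77.K3
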