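import Mathlib
import Pool.Agent.H77.SV.Defs

/-!
# A positive proportion of fibres of rank at most one: definitions

The elliptic K3 surface `y^2 = x (x - X Y^2 Z) (x - X^2 Y Z)`, `X = Y + Z`. The proof is explained
in /team-store/h77_k3_paper.md.
-/

set_option autoImplicit false

namespace Pool.Agent.H77.K3

open Finset Pool.Agent.H77.SV

/-! ## Vectors over `F_2` -/

/-- exchange of the coordinates -/
def J2 (a : V2) : V2 := (a.2, a.1)

/-- the symplectic form of `F_2^2`; `om a y = dot (J2 a) y` -/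
def om (a y : V2) : ZMod 2 := a.1 * y.2 + a.2 * y.1

/-- pairs `(a, c)` -/
abbrev LL : Type := V2 × V2

/-- the quadratic form `c . a` -/
def QQ (x : LL) : ZMod 2 := dot x.2 x.1

/-- The six maximal totally singular subspaces of `LL`: `{a = 0}`, `{c = 0}`, `{c = J2 a}`, and
`{a in <t>, c in <J2 t>}` for `t = (1,0), (0,1), (1,1)`. -/
def inW : Fin 6 → LL → Prop
  | 0, x => x.1 = 0
  | 1, x => x.2 = 0
  | 2, x => x.2 = J2 x.1
  | 3, x => (x.1 = 0 ∨ x.1 = (1, 0)) ∧ (x.2 = 0 ∨ x.2 = (0, 1))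
  | 4, x => (x.1 = 0 ∨ x.1 = (0, 1)) ∧ (x.2 = 0 ∨ x.2 = (1, 0))
  | 5, x => (x.1 = 0 ∨ x.1 = (1, 1)) ∧ (x.2 = 0 ∨ x.2 = (1, 1))

instance : ∀ k x, Decidable (inW k x)
  | 0, x => inferInstanceAs (Decidable (x.1 = 0))
  | 1, x => inferInstanceAs (Decidable (x.2 = 0))
  | 2, x => inferInstanceAs (Decidable (x.2 = J2 x.1))
  | 3, x => inferInstanceAs (Decidable ((x.1 = 0 ∨ x.1 = (1, 0)) ∧ (x.2 = 0 ∨ x.2 = (0, 1))))
  | 4, x => inferInstanceAs (Decidable ((x.1 = 0 ∨ x.1 = (0, 1)) ∧ (x.2 = 0 ∨ x.2 = (1, 0))))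
  | 5, x => inferInstanceAs (Decidable ((x.1 = 0 ∨ x.1 = (1, 1)) ∧ (x.2 = 0 ∨ x.2 = (1, 1))))

/-! ## The algebraic data -/

/-- Linear maps `a_u, y_u : D → F_2^2` for `u ∈ U` and for two more places `q`, `r`. -/
structure Dat (U D : Type) [AddCommGroup D] [Module (ZMod 2) D] where
  a : U → D →ₗ[ZMod 2] V2
  y : U → D →ₗ[ZMod 2] V2
  aq : D →ₗ[ZMod 2] V2
  yq : D →ₗ[ZMod 2] V2
  ar : D →ₗ[ZMod 2] V2
  yr : D →ₗ[ZMod 2] V2

namespace Dat

variable {U D : Type} [AddCommGroup D] [Module (ZMod 2) D]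

/-- reciprocity and torsion -/
structure Good [Fintype U] (X : Dat U D) : Prop where
  R1 : ∀ d d' : D, (∑ u, (om (X.a u d) (X.y u d') + om (X.y u d) (X.a u d'))) +
    (om (X.aq d) (X.yq d') + om (X.yq d) (X.aq d')) +
    (om (X.ar d) (X.yr d') + om (X.yr d) (X.ar d')) = 0
  R2 : ∀ τ : V2, ∃ t : D, (∀ u, X.a u t = τ ∧ X.y u t = 0) ∧ X.yq t = 0 ∧ X.yr t = 0 ∧
    X.aq t + X.ar t = τ

open Classical in
/-- the term of the pattern `(v, vq, vr)` -/
noncomputable def Tm [Fintype U] [Fintype D] (X : Dat U D) (v : U → LL) (vq vr : LL) : ℝ :=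
  (1 / 4 : ℝ) ^ (Fintype.card U + 2) *
    ∑ d : D, if (∀ u, X.a u d = (v u).1) ∧ X.aq d = vq.1 ∧ X.ar d = vr.1 then
      (∏ u, sg (dot (v u).2 (X.y u d))) * sg (dot vq.2 (X.yq d)) * sg (dot vr.2 (X.yr d)) else 0

/-- number of `d` with all `y = 0` -/
noncomputable def All (X : Dat U D) : ℕ :=
  Nat.card {d : D // (∀ u, X.y u d = 0) ∧ X.yq d = 0 ∧ X.yr d = 0}

/-- number of `d` with `a_u = y_u = 0`, `y_q = y_r = 0`, `a_q = a_r` -/
noncomputable def Str (X : Dat U D) : ℕ :=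
  Nat.card {d : D // (∀ u, X.a u d = 0 ∧ X.y u d = 0) ∧ X.yq d = 0 ∧ X.yr d = 0 ∧ X.aq d = X.ar d}

/-- number of `d` with `a_u = 0` for `u ∉ M`, all `a_u ∈ {0, t}`, all `y_u ∈ {0, t}`, `a_q = a_r`,
`y_q = y_r ∈ {0, t}` -/
noncomputable def Km (X : Dat U D) (M : Finset U) (t : V2) : ℕ :=
  Nat.card {d : D // (∀ u, (u ∉ M → X.a u d = 0) ∧ (X.a u d = 0 ∨ X.a u d = t) ∧
    (X.y u d = 0 ∨ X.y u d = t)) ∧ X.aq d = X.ar d ∧ X.yq d = X.yr d ∧
    (X.yq d = 0 ∨ X.yq d = t)}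

/-- number of `d` with all `a = 0` -/
noncomputable def K0 (X : Dat U D) : ℕ :=
  Nat.card {d : D // (∀ u, X.a u d = 0) ∧ X.aq d = 0 ∧ X.ar d = 0}

end Dat

/-- The pattern is uncoupled with respect to the places in `M`. -/
def Unc {U : Type} (M : Finset U) (v : U → LL) (vq vr : LL) : Prop :=
  (∀ i ∈ M, ∀ u, QQ (v i + v u) = 0) ∧ ∀ i ∈ M, QQ (v i + vq + vr) = 0

/-- all values lie in one coset of the plane `inW k` -/
def NW {U : Type} (k : Fin 6) (v : U → LL) (vq vr : LL) : Prop :=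
  (∀ u u', inW k (v u + v u')) ∧ ∀ u, inW k (v u + vq + vr)

/-! ## The elliptic surface -/

/-- the family `y^2 = x (x - (m+n) m^2 n) (x - (m+n)^2 m n)` -/
def F3 : Fam 3 where
  r := ![1, 1, 0]
  s := ![1, 0, 1]
  al := 1
  be := 1
  ga := -1
  ea := ![1, 2, 1]
  eb := ![2, 1, 1]
  ec := ![1, 1, 2]
  d := 4
  hk := by norm_num
  hrs := by decide
  hal := by norm_num
  hbe := by norm_num
  hga := by norm_num
  htype := by
    intro i
    left
    fin_cases i <;> simp [Pool.Agent.H77.SV.Star]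
  hd := by decide
  hea := by decide
  heb := by decide
  hec := by decide
  hbal1 := by decide
  hbal2 := by decide
  hid := by
    intro m n
    simp [Fin.prod_univ_three]
    ring

/-! ## Local data at a pair of natural numbers `(Y, Z)`; `X = Y + Z` -/

/-- the odd primes dividing `X Y Z` -/
def oddP (Y Z : ℕ) : Finset ℕ := (((Y + Z) * Y * Z).primeFactors).erase 2

/-- those at most `z` -/
def smP (z Y Z : ℕ) : Finset ℕ := (oddP Y Z).filter (· ≤ z)

/-- the primes `> z` of `X` -/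
def bgX (z Y Z : ℕ) : Finset ℕ := (Y + Z).primeFactors.filter (z < ·)

/-- the largest prime factor -/
def lpf (N : ℕ) : ℕ := N.primeFactors.sup id

/-- the form which `p` divides: `0`, `1`, `2` for `X`, `Y`, `Z` -/
def typ (Y Z p : ℕ) : Fin 3 := if p ∣ Y then 1 else if p ∣ Z then 2 else 0

/-- the twist bit -/
def rho (Y Z p : ℕ) : ZMod 2 :=
  if p ∣ Y then bt p ((Y / p * Z : ℕ) : ℤ) else
  if p ∣ Z then bt p (((Y + Z) * (Z / p) : ℕ) : ℤ) else bt p (((Y + Z) / p * Z : ℕ) : ℤ)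

/-- the matrix part of the local conditions -/
def NN (τ : Fin 3) (ε : ZMod 2) (v : V2) : V2 :=
  if τ = 0 then (ε * v.2, ε * v.2) else if τ = 1 then (0, ε * (v.1 + v.2)) else (0, ε * v.2)

/-- vectors `(v, s, t)`: valuations at odd primes, signs, valuations at `2` -/
abbrev EE : Type := (ℕ → V2) × V2 × V2

/-- the vector `y_p` of the local condition at `p` -/
def yF (Y Z : ℕ) (a : ℕ → V2) (s t : V2) (p : ℕ) : V2 :=
  ∑ q ∈ (oddP Y Z).erase p, bt p q • a q + bt p 2 • t + bt p (-1) • s + rho Y Z p • a p +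
    NN (typ Y Z p) (bt p (-1)) (a p)

/-- `y_p` as a linear map -/
def yL (Y Z p : ℕ) : EE →ₗ[ZMod 2] V2 where
  toFun d := yF Y Z d.1 d.2.1 d.2.2 p
  map_add' d e := by
    have h : NN (typ Y Z p) (bt p (-1)) (d.1 p + e.1 p) = NN (typ Y Z p) (bt p (-1)) (d.1 p) +
        NN (typ Y Z p) (bt p (-1)) (e.1 p) := by
      unfold NN
      split_ifs <;> ext <;> simp <;> ring
    simp only [yF, Prod.fst_add, Prod.snd_add, Pi.add_apply, h, smul_add, sum_add_distrib]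
    abel
  map_smul' c d := by
    have h : NN (typ Y Z p) (bt p (-1)) (c • d.1 p) = c • NN (typ Y Z p) (bt p (-1)) (d.1 p) := by
      unfold NN
      split_ifs <;> ext <;> simp <;> ring
    simp only [yF, Prod.smul_fst, Prod.smul_snd, Pi.smul_apply, h, smul_add, smul_sum,
      RingHom.id_apply]
    have h1 : ∀ (x : ZMod 2) (u : V2), x • c • u = c • x • u := fun x u => smul_comm x c u
    simp only [h1]

/-- the three functionals of the condition at `2` -/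
def cL1 (Y Z : ℕ) : EE →ₗ[ZMod 2] ZMod 2 where
  toFun d := ∑ p ∈ oddP Y Z, bt p 2 * (d.1 p).1
  map_add' d e := by simp [mul_add, sum_add_distrib]
  map_smul' c d := by
    simp only [Prod.smul_fst, Pi.smul_apply, smul_eq_mul, RingHom.id_apply, mul_sum]
    exact sum_congr rfl fun p _ => by ring

def cL2 (Y Z : ℕ) : EE →ₗ[ZMod 2] ZMod 2 where
  toFun d := ∑ p ∈ oddP Y Z, bt p (-1) * (d.1 p).2 + d.2.1.2 + d.2.2.1
  map_add' d e := by
    simp only [Prod.fst_add, Prod.snd_add, Pi.add_apply, mul_add, sum_add_distrib]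
    ring
  map_smul' c d := by
    simp only [Prod.smul_fst, Prod.smul_snd, Pi.smul_apply, smul_eq_mul, RingHom.id_apply,
      mul_sum, mul_add]
    congr 2
    exact sum_congr rfl fun p _ => by ring

def cL3 (Y Z : ℕ) : EE →ₗ[ZMod 2] ZMod 2 where
  toFun d := ∑ p ∈ oddP Y Z, (bt p 2 * (d.1 p).2 + bt p (-1) * (d.1 p).1)
  map_add' d e := by
    simp only [Prod.fst_add, Prod.snd_add, Pi.add_apply, mul_add, sum_add_distrib]
    ring
  map_smul' c d := by
    simp only [Prod.smul_fst, Prod.smul_snd, Pi.smul_apply, smul_eq_mul, RingHom.id_apply, mul_sum]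
    exact sum_congr rfl fun p _ => by ring

/-- the condition at `2` -/
def Cd (Y Z : ℕ) (d : EE) : Prop := cL1 Y Z d = 0 ∧ cL2 Y Z d = 0 ∧ cL3 Y Z d = 0

/-- vectors with support in the odd primes of `X Y Z`, first sign `+`, condition at `2` -/
def G2 (Y Z : ℕ) : Submodule (ZMod 2) EE where
  carrier := {d | (∀ p, p ∉ oddP Y Z → d.1 p = 0) ∧ d.2.1.1 = 0 ∧ Cd Y Z d}
  zero_mem' := ⟨fun _ _ => rfl, rfl, map_zero _, map_zero _, map_zero _⟩
  add_mem' := by
    rintro d e ⟨h1, h2, h3, h4, h5⟩ ⟨g1, g2, g3, g4, g5⟩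
    refine ⟨fun p hp => ?_, ?_, ?_, ?_, ?_⟩
    · rw [Prod.fst_add, Pi.add_apply, h1 p hp, g1 p hp, add_zero]
    · rw [Prod.snd_add, Prod.fst_add, Prod.fst_add, h2, g2, add_zero]
    · rw [map_add, h3, g3, add_zero]
    · rw [map_add, h4, g4, add_zero]
    · rw [map_add, h5, g5, add_zero]
  smul_mem' := by
    rintro c d ⟨h1, h2, h3, h4, h5⟩
    refine ⟨fun p hp => ?_, ?_, ?_, ?_, ?_⟩
    · rw [Prod.smul_fst, Pi.smul_apply, h1 p hp, smul_zero]
    · rw [Prod.smul_snd, Prod.smul_fst, Prod.smul_fst, h2, smul_zero]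
    · rw [map_smul, h3, smul_zero]
    · rw [map_smul, h4, smul_zero]
    · rw [map_smul, h5, smul_zero]

/-- elements of `G2` which satisfy the conditions at the primes of `Q` -/
def DDQ (Q : Finset ℕ) (Y Z : ℕ) : Submodule (ZMod 2) EE :=
  G2 Y Z ⊓ ⨅ p ∈ Q, LinearMap.ker (yL Y Z p)

/-- elements of `G2` which satisfy the conditions at the small primes -/
def DD (z Y Z : ℕ) : Submodule (ZMod 2) EE := DDQ (smP z Y Z) Y Z

/-- the Selmer group -/
def Sl (Y Z : ℕ) : Submodule (ZMod 2) EE := DDQ (oddP Y Z) Y Z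

theorem mem_DDQ {Q : Finset ℕ} {Y Z : ℕ} {d : EE} : d ∈ DDQ Q Y Z ↔
    ((∀ p, p ∉ oddP Y Z → d.1 p = 0) ∧ d.2.1.1 = 0 ∧ Cd Y Z d) ∧
      ∀ p ∈ Q, yF Y Z d.1 d.2.1 d.2.2 p = 0 := by
  rw [DDQ, Submodule.mem_inf]
  simp only [Submodule.mem_iInf, LinearMap.mem_ker]
  rfl

instance finite_G2 (Y Z : ℕ) : Finite (G2 Y Z) := by
  have : Function.Injective (fun d : G2 Y Z =>
      ((fun p : oddP Y Z => d.1.1 p, d.1.2) : (oddP Y Z → V2) × V2 × V2)) := by
    rintro ⟨d, hd⟩ ⟨e, he⟩ h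
    simp only [Prod.mk.injEq] at h
    apply Subtype.ext
    refine Prod.ext (funext fun p => ?_) h.2
    by_cases hp : p ∈ oddP Y Z
    · exact congrFun h.1 ⟨p, hp⟩
    · show d.1 p = e.1 p
      rw [hd.1 p hp, he.1 p hp]
  exact Finite.of_injective _ this

instance finite_DDQ (Q : Finset ℕ) (Y Z : ℕ) : Finite (DDQ Q Y Z) :=
  Finite.of_injective (fun d : DDQ Q Y Z => (⟨d.1, d.2.1⟩ : G2 Y Z)) fun _ _ h =>
    Subtype.ext (congrArg (fun g : G2 Y Z => g.1) h)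

instance finite_DD (z Y Z : ℕ) : Finite (DD z Y Z) := finite_DDQ _ _ _

instance finite_Sl (Y Z : ℕ) : Finite (Sl Y Z) := finite_DDQ _ _ _

noncomputable instance fintype_DD (z Y Z : ℕ) : Fintype (DD z Y Z) := Fintype.ofFinite _

/-- the valuation at `p` as a linear map -/
def aL (p : ℕ) : EE →ₗ[ZMod 2] V2 where
  toFun d := d.1 p
  map_add' _ _ := rfl
  map_smul' _ _ := rfl

/-- the `j`-th prime `> z` of `X`, in increasing order, `j = 0, 1, ...` -/
def uu (z Y Z j : ℕ) : ℕ := ((bgX z Y Z).sort (· ≤ ·)).getD j 0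

/-- the algebraic data of `(Y, Z)` -/
def dat (z Y Z k : ℕ) : Dat (Fin k) (DD z Y Z) where
  a j := (aL (uu z Y Z j)).comp (DD z Y Z).subtype
  y j := (yL Y Z (uu z Y Z j)).comp (DD z Y Z).subtype
  aq := (aL (lpf Y)).comp (DD z Y Z).subtype
  yq := (yL Y Z (lpf Y)).comp (DD z Y Z).subtype
  ar := (aL (lpf Z)).comp (DD z Y Z).subtype
  yr := (yL Y Z (lpf Z)).comp (DD z Y Z).subtype

/-- the term of a pattern at `(Y, Z)` -/
noncomputable def TT (z Y Z k : ℕ) (v : Fin k → LL) (vq vr : LL) : ℝ := (dat z Y Z k).Tm v vq vr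

/-- the medium places -/
def MM (J k : ℕ) : Finset (Fin k) := univ.filter fun j => (j : ℕ) < J

/-! ## Parameters -/

/-- `w`: small primes are excluded; `A`: size of the smooth part; `B`: length of the intervals;
`J`: number of intervals; `E0`: first exponent -/
structure Par where
  w : ℕ
  A : ℕ
  B : ℕ
  J : ℕ
  E0 : ℕ

namespace Par

variable (P : Par)

/-- left exponents -/
def ee (i : ℕ) : ℕ := P.E0 * (13 * P.B) ^ i

/-- right exponents -/
def ff (i : ℕ) : ℕ := P.B * P.ee i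

/-- the large exponent -/
def M : ℕ := P.ee P.J

/-- the primes of the `i`-th interval -/
def I (z i : ℕ) : Finset ℕ := (Ioc (z ^ P.ee i) (z ^ P.ff i)).filter Nat.Prime

/-- the sum of their reciprocals -/
noncomputable def L (z i : ℕ) : ℝ := ∑ p ∈ P.I z i, 1 / (p : ℝ)

/-- the expected number of elements of the set `SS` -/
noncomputable def U0 (z T : ℕ) : ℝ :=
  (T : ℝ) ^ 2 / ((P.M : ℝ) ^ 3 * Real.log P.w ^ 3) * ∏ i ∈ range P.J, P.L z i

/-- admissible parameters -/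
structure Adm : Prop where
  hw : 384 ≤ P.w
  hA : 1 ≤ P.A
  hB : 3 ≤ P.B
  hJ : 2 ≤ P.J
  hE : 100 * (P.A + 3) ≤ P.E0

/-- `z` is adapted to `T` -/
def TZ (z T : ℕ) : Prop := z ^ (30 * P.M) ≤ T ∧ T < (z + 1) ^ (30 * P.M)

/-- the prime of the `i`-th interval dividing `X` -/
def ppI (z Y Z i : ℕ) : ℕ := ((P.I z i).filter (· ∣ Y + Z)).sup id

end Par

/-- the conditions which define the set `SS` -/
structure Ok (P : Par) (z Y Z : ℕ) : Prop where
  hY : Y % 16 = 7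
  hZ : Z % 16 = 7
  hc : Y.Coprime Z
  hw : ∀ p : ℕ, p.Prime → p ≠ 2 → p ≤ P.w → ¬ p ∣ (Y + Z) * Y * Z
  hsq : ∀ p : ℕ, p.Prime → p ≠ 2 → ¬ p ^ 2 ∣ (Y + Z) * Y * Z
  hq : Y ≤ z * lpf Y
  hr : Z ≤ z * lpf Z
  hI : ∀ i < P.J, ((P.I z i).filter (· ∣ Y + Z)).card = 1
  hn : ∀ p : ℕ, p.Prime → p ∣ Y + Z → z < p → p ≤ z ^ P.M → ∃ i < P.J, p ∈ P.I z i
  hA : ∏ p ∈ (smP z Y Z).filter (· ∣ Y + Z), p ≤ z ^ P.A

open Classical in
/-- the set of the construction -/
noncomputable def SS (P : Par) (z T : ℕ) : Finset (ℕ × ℕ) :=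
  ((Ioc (T / 2) T) ×ˢ (Ioc (T / 2) T)).filter fun x => Ok P z x.1 x.2

/-- its part with `k` primes `> z` of `X` -/
noncomputable def SSk (P : Par) (z T k : ℕ) : Finset (ℕ × ℕ) :=
  (SS P z T).filter fun x => (bgX z x.1 x.2).card = k

end Pool.Agent.H77.K3
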