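import Pool.Agent.H77.K3.Defs
import Pool.Agent.H77.SV.CntPhi

/-!
# Definitions for the upper bounds
-/

set_option autoImplicit false

namespace Pool.Agent.H77.K3

open Finset Pool.Agent.H77.SV

/-- the states of the primes of `(w, z]` at `(Y, Z)` -/
noncomputable def stt (w z Y Z : ℕ) : Pr w z → Stt 3 := fun p => F3.st (Y : ℤ) (Z : ℤ) p

/-- forget the primes with `p^2 | X Y Z` -/
def jn {w z : ℕ} (φ : Pr w z → Stt 3) : Pr w z → Option (Fin 3 × ZMod 2) := fun p => (φ p).join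

/-- the inhomogeneous term which comes from the primes `q`, `r` -/
def exx (τ : Fin 3) (ε : ZMod 2) (a : V2) : V2 :=
  if τ = 0 then 0 else if τ = 1 then (ε * a.1, ε * a.1) else (ε * a.1, 0)

/-- the conditions at the small primes; `h` is the contribution of the medium primes -/
def SolP {w z : ℕ} (ψ : Pr w z → Option (Fin 3 × ZMod 2)) (h : ℕ → V2) (v : Pr w z → V2)
    (a s t : V2) : Prop :=
  ∀ p : Pr w z, match ψ p with
    | none => v p = 0
    | some x => lin (Pr w z) v p + bt p 2 • t + bt p (-1) • s + exx x.1 (bt p (-1)) a + h p =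
        x.2 • v p + NN x.1 (bt p (-1)) (v p)

open Classical in
/-- their solutions `(v, a, s, t)` -/
noncomputable def solF {w z : ℕ} (ψ : Pr w z → Option (Fin 3 × ZMod 2)) (h : ℕ → V2) :
    Finset ((Pr w z → V2) × V2 × V2 × V2) :=
  univ.filter fun x => SolP ψ h x.1 x.2.1 x.2.2.1 x.2.2.2

/-- the integer `(-1)^(c.s) 2^(c.t) prod p^(c.v_p)` -/
def Dc {w z : ℕ} (c : V2) (v : Pr w z → V2) (s t : V2) : ℤ :=
  (if dot c s = 1 then -1 else 1) * (if dot c t = 1 then 2 else 1) *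
    ∏ p : Pr w z, (if dot c (v p) = 1 then ((p : ℕ) : ℤ) else 1)

/-- contribution of the medium primes `pp i`, `α i = true`, at which the value is `t0` -/
def hal {J : ℕ} (pp : Fin J → ℕ) (α : Fin J → Bool) (t0 : V2) (p : ℕ) : V2 :=
  ∑ i : Fin J, if α i then bt p ((pp i : ℕ) : ℤ) • t0 else 0

/-- the type at which `t0` is not an eigenvector of `NN` -/
def ft (t0 : V2) : Fin 3 := if t0 = (0, 1) then 0 else if t0 = (1, 0) then 1 else 2

/-- eigenvalues at the other types: `NN τ ε t0 = (ε * nn) • t0` -/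
def nn (t0 : V2) (τ : Fin 3) : ZMod 2 :=
  if t0 = (0, 1) then 1 else if t0 = (1, 0) then 0 else if τ = 0 then 1 else 0

/-- `p = 3 mod 4` and `p` has the type `ft t0` -/
def Fo {w z : ℕ} (ψ : Pr w z → Option (Fin 3 × ZMod 2)) (t0 : V2) (p : Pr w z) : Prop :=
  (p : ℕ) % 4 = 3 ∧ ∃ ρ, ψ p = some (ft t0, ρ)

open Classical in
/-- the number of these primes -/
noncomputable def n3 {w z : ℕ} (ψ : Pr w z → Option (Fin 3 × ZMod 2)) (t0 : V2) : ℕ :=
  (univ.filter fun p => Fo ψ t0 p).card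

/-- the integer `prod p^(α_p)` -/
def Da {w z : ℕ} (α : Pr w z → ZMod 2) : ℤ :=
  ∏ p : Pr w z, (if α p = 1 then ((p : ℕ) : ℤ) else 1)

open Classical in
/-- the dual group: `α` supported on `ψ ≠ none`, `Da α = 1 mod 8`, conditions at the primes which are
not in `Fo`, and `Da α` is a square modulo all `pp i` -/
noncomputable def R0s {w z J : ℕ} (ψ : Pr w z → Option (Fin 3 × ZMod 2)) (t0 : V2)
    (pp : Fin J → ℕ) : Finset (Pr w z → ZMod 2) :=
  univ.filter fun α =>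
    (∀ p, ψ p = none → α p = 0) ∧ (∑ p, α p * bt p (-1) = 0) ∧ (∑ p, α p * bt p 2 = 0) ∧
    (∀ p x, ψ p = some x → ¬ Fo ψ t0 p →
      ∑ q ∈ univ.erase p, α q * bt (p : ℕ) ((q : ℕ) : ℤ) =
        α p * (x.2 + nn t0 x.1 * bt p (-1) + bt p (-1))) ∧
    ∀ i, bt (pp i) (Da α) = 0

/-- the weight of the states -/
noncomputable def Wt {w z : ℕ} (T : ℕ) (φ : Pr w z → Stt 3) : ℝ :=
  ∏ p : Pr w z, wN 3 (1 / Real.log T) p (φ p)

/-- no square, and the product of the primes which occur is at most `z^a` -/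
def Rest {w z : ℕ} (a : ℕ) (φ : Pr w z → Stt 3) : Prop :=
  (∀ p, φ p ≠ some none) ∧ ∏ p : Pr w z, (if φ p = none then 1 else (p : ℕ)) ≤ z ^ a

/-- the property of the theorem PrimeHalf -/
def PH (B e0 A' : ℕ) : Prop :=
  ∀ e : ℕ, e0 ≤ e → ∃ z0 : ℕ, ∀ z : ℕ, z0 ≤ z → ∀ D : ℤ, ¬ IsSquare D → |D| ≤ (z : ℤ) ^ A' →
    ∑ p ∈ (Ioc (z ^ e) (z ^ (B * e))).filter (fun p => p.Prime ∧ bt p D = 0), 1 / (p : ℝ) ≤
      0.7 * ∑ p ∈ (Ioc (z ^ e) (z ^ (B * e))).filter Nat.Prime, 1 / (p : ℝ)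

/-- the pairs to which the general upper bound applies -/
structure Bs (P : Par) (z T Y Z : ℕ) : Prop where
  hY : 1 ≤ Y ∧ Y ≤ T
  hZ : 1 ≤ Z ∧ Z ≤ T
  hc : Y.Coprime Z
  hw : ∀ p : ℕ, p.Prime → 384 < p → p ≤ P.w → ¬ p ∣ (Y + Z) * Y * Z
  hyz : ∀ p : ℕ, p.Prime → z < p → p ≤ z ^ P.M → ¬ p ∣ Y * Z
  hI : ∀ i < P.J, ((P.I z i).filter (· ∣ Y + Z)).card = 1
  hn : ∀ p : ℕ, p.Prime → z < p → p ≤ z ^ P.M → p ∣ Y + Z →
    (∃ i < P.J, p ∈ P.I z i) ∧ ¬ p ^ 2 ∣ Y + Z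
  hg : F3.Good T (z ^ P.M) (Y : ℤ) (Z : ℤ)

open Classical in
/-- the set of these pairs -/
noncomputable def BS (P : Par) (z T : ℕ) : Finset (ℕ × ℕ) :=
  ((Icc 1 T) ×ˢ (Icc 1 T)).filter fun x => Bs P z T x.1 x.2

end Pool.Agent.H77.K3
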