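import Pool.Agent.H77.K3.Defs4

/-!
# L3: the large sieve

`Qs ⊆ [1, N1]`, `Rs ⊆ [1, N2]`, `F^2 ≤ N1`, `F^2 ≤ N2`, `1 ≤ z`. Then
`sum_(z < f ≤ F) (1/f) sum_(χ ∈ prims f) Sx Qs χ * Sx Rs χ ≤ 40 N1 N2 / z`.

Proof. `1/f ≤ 1/z`, and by the inequality of the arithmetic and geometric means and
`mult_large_sieve` (`H37/SFQ/Mult.lean`; `R = F`, `M = 0`, `a` = indicator function of `Qs`):
`sum_(f ≤ F) sum_χ Sx Qs χ Sx Rs χ ≤ (N2/N1) 5 N1 (N1 + F^2) / 2 + (N1/N2) 5 N2 (N2 + F^2) / 2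
≤ 10 N1 N2`.
-/

set_option autoImplicit false

namespace Pool.Agent.H77.K3

open Finset Pool.Agent.H77.SV Pool.Agent.H37.SFQ

theorem ls_sq (F N : ℕ) (hF : 1 ≤ F) (h1 : F ^ 2 ≤ N) (Qs : Finset ℕ) (hQ : Qs ⊆ Icc 1 N) :
    ∑ f ∈ Icc 1 F, ∑ χ ∈ prims f, Sx Qs χ ^ 2 ≤ 10 * (N : ℝ) ^ 2 := by
  classical
  have h := mult_large_sieve hF 0 N (fun n => if n ∈ Qs then (1 : ℂ) else 0)
  have hQ' : Qs ⊆ Ioc 0 (0 + N) := by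
    intro q hq
    have h2 := mem_Icc.1 (hQ hq)
    rw [mem_Ioc]
    omega
  have e1 : ∀ f : ℕ, ∀ χ : DirichletCharacter ℂ f,
      ‖∑ n ∈ Ioc 0 (0 + N), (if n ∈ Qs then (1 : ℂ) else 0) * χ n‖ ^ 2 = Sx Qs χ ^ 2 := by
    intro f χ
    unfold Sx
    congr 2
    simp only [ite_mul, one_mul, zero_mul]
    rw [← Finset.sum_filter]
    congr 1
    ext n
    rw [mem_filter]
    exact ⟨fun h3 => h3.2, fun h3 => ⟨hQ' h3, h3⟩⟩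
  have e2 : ∑ n ∈ Ioc 0 (0 + N), ‖(if n ∈ Qs then (1 : ℂ) else 0)‖ ^ 2 ≤ (N : ℝ) := by
    calc ∑ n ∈ Ioc 0 (0 + N), ‖(if n ∈ Qs then (1 : ℂ) else 0)‖ ^ 2
        ≤ ∑ n ∈ Ioc 0 (0 + N), (1 : ℝ) := by
          refine sum_le_sum fun n _ => ?_
          split_ifs <;> simp
      _ = N := by simp
  simp only [e1] at h
  refine h.trans ?_
  have h3 : (F : ℝ) ^ 2 ≤ N := by exact_mod_cast h1
  have h4 : (0 : ℝ) ≤ N := Nat.cast_nonneg N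
  calc 5 * ((N : ℝ) + (F : ℝ) ^ 2) * ∑ n ∈ Ioc 0 (0 + N), ‖(if n ∈ Qs then (1 : ℂ) else 0)‖ ^ 2
      ≤ 5 * ((N : ℝ) + (F : ℝ) ^ 2) * N := by
        refine mul_le_mul_of_nonneg_left e2 ?_
        positivity
    _ ≤ 10 * (N : ℝ) ^ 2 := by nlinarith

theorem ls_sum (z F N1 N2 : ℕ) (hz : 1 ≤ z) (h1 : F ^ 2 ≤ N1) (h2 : F ^ 2 ≤ N2)
    (Qs Rs : Finset ℕ) (hQ : Qs ⊆ Icc 1 N1) (hR : Rs ⊆ Icc 1 N2) :
    ∑ f ∈ Ioc z F, 1 / (f : ℝ) * ∑ χ ∈ prims f, Sx Qs χ * Sx Rs χ ≤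
      40 * N1 * N2 / z := by
  have hz0 : (0 : ℝ) < z := by exact_mod_cast hz
  rcases Nat.eq_zero_or_pos F with hF | hF
  · subst hF
    rw [Ioc_eq_empty (by omega), sum_empty]
    positivity
  have hN1 : 0 < N1 := lt_of_lt_of_le (by positivity) h1
  have hN2 : 0 < N2 := lt_of_lt_of_le (by positivity) h2
  have r1 : (0 : ℝ) < N1 := by exact_mod_cast hN1
  have r2 : (0 : ℝ) < N2 := by exact_mod_cast hN2
  have hT : ∀ f : ℕ, 0 ≤ ∑ χ ∈ prims f, Sx Qs χ * Sx Rs χ := fun f =>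
    sum_nonneg fun χ _ => mul_nonneg (norm_nonneg _) (norm_nonneg _)
  have s1 : ∑ f ∈ Ioc z F, 1 / (f : ℝ) * ∑ χ ∈ prims f, Sx Qs χ * Sx Rs χ ≤
      ∑ f ∈ Icc 1 F, 1 / (z : ℝ) * ∑ χ ∈ prims f, Sx Qs χ * Sx Rs χ := by
    refine (sum_le_sum fun f hf => ?_).trans
      (sum_le_sum_of_subset_of_nonneg (s := Ioc z F) (t := Icc 1 F) ?_ ?_)
    · refine mul_le_mul_of_nonneg_right ?_ (hT f)
      have hf' := mem_Ioc.1 hf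
      have h3 : (z : ℝ) ≤ f := by exact_mod_cast hf'.1.le
      exact one_div_le_one_div_of_le hz0 h3
    · intro f hf
      have hf' := mem_Ioc.1 hf
      rw [mem_Icc]
      omega
    · intro f _ _
      exact mul_nonneg (by positivity) (hT f)
  have s2 : ∑ f ∈ Icc 1 F, ∑ χ ∈ prims f, Sx Qs χ * Sx Rs χ ≤ 10 * N1 * N2 := by
    have a1 := ls_sq F N1 hF h1 Qs hQ
    have a2 := ls_sq F N2 hF h2 Rs hR
    have a3 : ∑ f ∈ Icc 1 F, ∑ χ ∈ prims f, Sx Qs χ * Sx Rs χ ≤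
        (N2 / N1 / 2 : ℝ) * ∑ f ∈ Icc 1 F, ∑ χ ∈ prims f, Sx Qs χ ^ 2 +
        (N1 / N2 / 2 : ℝ) * ∑ f ∈ Icc 1 F, ∑ χ ∈ prims f, Sx Rs χ ^ 2 := by
      rw [mul_sum, mul_sum, ← sum_add_distrib]
      refine sum_le_sum fun f _ => ?_
      rw [mul_sum, mul_sum, ← sum_add_distrib]
      refine sum_le_sum fun χ _ => ?_
      generalize Sx Qs χ = a
      generalize Sx Rs χ = b
      have k1 : (N2 / N1 / 2 : ℝ) * a ^ 2 + (N1 / N2 / 2 : ℝ) * b ^ 2 - a * b =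
          (N2 * a - N1 * b) ^ 2 / (2 * N1 * N2) := by
        field_simp
        ring
      have k2 : 0 ≤ (N2 * a - N1 * b) ^ 2 / (2 * N1 * N2 : ℝ) := by positivity
      linarith
    refine a3.trans ?_
    have a4 : (N2 / N1 / 2 : ℝ) * ∑ f ∈ Icc 1 F, ∑ χ ∈ prims f, Sx Qs χ ^ 2 ≤
        (N2 / N1 / 2 : ℝ) * (10 * (N1 : ℝ) ^ 2) := mul_le_mul_of_nonneg_left a1 (by positivity)
    have a5 : (N1 / N2 / 2 : ℝ) * ∑ f ∈ Icc 1 F, ∑ χ ∈ prims f, Sx Rs χ ^ 2 ≤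
        (N1 / N2 / 2 : ℝ) * (10 * (N2 : ℝ) ^ 2) := mul_le_mul_of_nonneg_left a2 (by positivity)
    have a6 : (N2 / N1 / 2 : ℝ) * (10 * (N1 : ℝ) ^ 2) + (N1 / N2 / 2 : ℝ) * (10 * (N2 : ℝ) ^ 2) =
        10 * N1 * N2 := by
      field_simp
      ring
    linarith
  rw [← mul_sum] at s1
  refine s1.trans ?_
  calc 1 / (z : ℝ) * ∑ f ∈ Icc 1 F, ∑ χ ∈ prims f, Sx Qs χ * Sx Rs χ
      ≤ 1 / (z : ℝ) * (10 * N1 * N2) := mul_le_mul_of_nonneg_left s2 (by positivity)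
    _ = 10 * N1 * N2 / z := by ring
    _ ≤ 40 * N1 * N2 / z := by
        refine div_le_div_of_nonneg_right ?_ hz0.le
        have : (0 : ℝ) ≤ N1 * N2 := by positivity
        nlinarith

end Pool.Agent.H77.K3
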