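import Pool.Agent.H77.K3.L2
import Pool.Agent.H77.K3.L3
import Pool.Agent.H77.K3.N1

/-!
# L4: the total error

For `M ≥ 1` there is `C` such that for `z ≥ 2`, `1 ≤ b, c ≤ z`, `Qs ⊆ [1, N1]`, `Rs ⊆ [1, N2]` sets of
primes `> z^M`, `z^(20 M) ≤ N1, N2`:
`sum_(d ∈ Ds z M) 2^ω(d) |Er Qs Rs b c d| ≤ C N1 N2 / z`.

Proof. `d ∈ Ds` has only prime factors in `(z, z^M]`, so `b, c` (`≤ z`) and all elements of `Qs`, `Rs`
are prime to `d`. `char_exp` and `prim_red`:
`sum ≤ sum_d 2^ω(d)/φ(d) sum_(f | d, f > 1) H(f)`, `H(f) = sum_(χ ∈ prims f) Sx Sx`. Write `d = f d'` with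
`f, d' ∈ Ds` coprime: `2^ω(d)/φ(d) = 2^ω(f)/φ(f) * 2^ω(d')/φ(d')`. So the sum is at most
`(sum_(d' ∈ Ds) 2^ω(d')/φ(d')) * sum_(f ∈ Ds, f > 1) 2^ω(f)/φ(f) H(f)`.
The first factor is at most `prod_(z < p ≤ z^M) (1 + 2/(p-1)) ≤ exp (sum 4/p) ≤ C_M` (`mert2`,
`log log z^M - log log z = log M`). In the second `f > 1` has a prime factor, so `f > z`;
`φ(f) ≥ f/2^ω(f)` and `ω(f) ≤ 10 M` (`z^ω(f) < f ≤ z^(10M)`), so `2^ω(f)/φ(f) ≤ 4^(10M)/f`. `ls_sum` with
`F = z^(10M)`, `F^2 = z^(20M) ≤ N1, N2`.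
-/

set_option autoImplicit false

namespace Pool.Agent.H77.K3

open Finset Pool.Agent.H77.SV Pool.Agent.H37.SFQ

private noncomputable def l4g (d : ℕ) : ℝ := 2 ^ d.primeFactors.card / (d.totient : ℝ)

private noncomputable def l4H (Qs Rs : Finset ℕ) (f : ℕ) : ℝ :=
  ∑ χ ∈ prims f, Sx Qs χ * Sx Rs χ

private lemma l4H_nonneg (Qs Rs : Finset ℕ) (f : ℕ) : 0 ≤ l4H Qs Rs f :=
  Finset.sum_nonneg fun _ _ => mul_nonneg (norm_nonneg _) (norm_nonneg _)

private lemma l4g_nonneg (d : ℕ) : 0 ≤ l4g d := by unfold l4g; positivity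

private lemma l4g_mul {a b : ℕ} (h : a.Coprime b) : l4g (a * b) = l4g a * l4g b := by
  unfold l4g
  rw [Nat.Coprime.primeFactors_mul h, Finset.card_union_of_disjoint h.disjoint_primeFactors,
    Nat.totient_mul h, pow_add, div_mul_div_comm]
  push_cast
  rfl

private lemma l4g_prod {e : ℕ} (he : Squarefree e) :
    l4g e = ∏ p ∈ e.primeFactors, (2 / ((p : ℝ) - 1)) := by
  have h0 : e ≠ 0 := he.ne_zero
  have h1 : e.totient = ∏ p ∈ e.primeFactors, (p - 1) := by
    have h := Nat.totient_mul_prod_primeFactors e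
    rw [Nat.prod_primeFactors_of_squarefree he, mul_comm] at h
    exact Nat.eq_of_mul_eq_mul_left (Nat.pos_of_ne_zero h0) h
  have h2 : (e.totient : ℝ) = ∏ p ∈ e.primeFactors, ((p : ℝ) - 1) := by
    rw [h1]
    push_cast
    refine Finset.prod_congr rfl fun p hp => ?_
    rw [Nat.cast_sub (Nat.prime_of_mem_primeFactors hp).one_le, Nat.cast_one]
  unfold l4g
  rw [h2, Finset.prod_div_distrib, Finset.prod_const]

private lemma l4_mem {z M d : ℕ} : d ∈ Ds z M ↔
    (1 ≤ d ∧ d ≤ z ^ (10 * M)) ∧ Squarefree d ∧ ∀ p ∈ d.primeFactors, z < p ∧ p ≤ z ^ M := by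
  rw [Ds, Finset.mem_filter, Finset.mem_Icc]

private lemma l4_dvd {z M d f : ℕ} (hd : d ∈ Ds z M) (hf : f ∣ d) : f ∈ Ds z M := by
  rw [l4_mem] at hd ⊢
  obtain ⟨⟨h1, h2⟩, h3, h4⟩ := hd
  have hd0 : d ≠ 0 := by omega
  refine ⟨⟨Nat.pos_of_ne_zero fun h => hd0 ?_, (Nat.le_of_dvd (by omega) hf).trans h2⟩,
    h3.squarefree_of_dvd hf, fun p hp => h4 p (Nat.primeFactors_mono hf hd0 hp)⟩
  rw [h] at hf
  exact Nat.eq_zero_of_zero_dvd hf

private lemma l4_cop {z M d n : ℕ} (hd : d ∈ Ds z M) (h1 : 1 ≤ n) (h2 : n ≤ z) :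
    n.Coprime d := by
  rw [l4_mem] at hd
  rw [Nat.coprime_iff_gcd_eq_one]
  by_contra h
  obtain ⟨p, hp, hpd⟩ := Nat.exists_prime_and_dvd h
  have h3 : p ∣ n := hpd.trans (Nat.gcd_dvd_left _ _)
  have h4 : p ∣ d := hpd.trans (Nat.gcd_dvd_right _ _)
  have h5 := (hd.2.2 p (Nat.mem_primeFactors.2 ⟨hp, h4, by omega⟩)).1
  have h6 := Nat.le_of_dvd h1 h3
  omega

private lemma l4_copq {z M d q : ℕ} (hd : d ∈ Ds z M) (hq : q.Prime) (h2 : z ^ M < q) :
    q.Coprime d := by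
  rw [l4_mem] at hd
  rw [hq.coprime_iff_not_dvd]
  intro h
  have h5 := (hd.2.2 q (Nat.mem_primeFactors.2 ⟨hq, h, by omega⟩)).2
  omega

/-- the first step: characters -/
private lemma l4_step {z M b c d : ℕ} (hd : d ∈ Ds z M) (hb1 : 1 ≤ b) (hb : b ≤ z) (hc1 : 1 ≤ c)
    (hc : c ≤ z) (Qs Rs : Finset ℕ) (hQ : ∀ q ∈ Qs, q.Prime ∧ z ^ M < q)
    (hR : ∀ q ∈ Rs, q.Prime ∧ z ^ M < q) :
    2 ^ d.primeFactors.card * |Er Qs Rs b c d| ≤
      ∑ f ∈ ((Ds z M).erase 1).filter (· ∣ d), l4g f * l4H Qs Rs f * l4g (d / f) := by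
  have hm := l4_mem.1 hd
  have hd0 : d ≠ 0 := by omega
  have : NeZero d := ⟨hd0⟩
  have h1 := char_exp (d := d) (l4_cop hd hb1 hb) (l4_cop hd hc1 hc) Qs Rs
    (fun q hq => l4_copq hd (hQ q hq).1 (hQ q hq).2) (fun q hq => l4_copq hd (hR q hq).1 (hR q hq).2)
  have h2 := prim_red (d := d) Qs Rs
    (fun q hq => l4_copq hd (hQ q hq).1 (hQ q hq).2) (fun q hq => l4_copq hd (hR q hq).1 (hR q hq).2)
  have h3 : |Er Qs Rs b c d| ≤ 1 / (d.totient : ℝ) * ∑ f ∈ d.divisors.erase 1, l4H Qs Rs f :=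
    h1.trans (mul_le_mul_of_nonneg_left h2 (by positivity))
  have hset : ((Ds z M).erase 1).filter (· ∣ d) = d.divisors.erase 1 := by
    ext f
    rw [Finset.mem_filter, Finset.mem_erase, Finset.mem_erase, Nat.mem_divisors]
    constructor
    · rintro ⟨⟨h, -⟩, h'⟩
      exact ⟨h, h', hd0⟩
    · rintro ⟨h, h', -⟩
      exact ⟨⟨h, l4_dvd hd h'⟩, h'⟩
  rw [hset]
  calc 2 ^ d.primeFactors.card * |Er Qs Rs b c d| ≤
      2 ^ d.primeFactors.card * (1 / (d.totient : ℝ) * ∑ f ∈ d.divisors.erase 1, l4H Qs Rs f) :=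
        mul_le_mul_of_nonneg_left h3 (by positivity)
    _ = ∑ f ∈ d.divisors.erase 1, l4g d * l4H Qs Rs f := by
        rw [← Finset.mul_sum, l4g]
        ring
    _ = _ := by
        refine Finset.sum_congr rfl fun f hf => ?_
        rw [Finset.mem_erase, Nat.mem_divisors] at hf
        have hfd : f * (d / f) = d := Nat.mul_div_cancel' hf.2.1
        have hsq : Squarefree (f * (d / f)) := by rw [hfd]; exact hm.2.1
        have hcop := (Nat.squarefree_mul_iff.1 hsq).1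
        have : l4g d = l4g f * l4g (d / f) := by rw [← l4g_mul hcop, hfd]
        rw [this]
        ring

/-- the sum over the complementary divisors -/
private lemma l4_sum {z M : ℕ} (hz : 2 ≤ z) (hM : 1 ≤ M) {C0 : ℝ} (hC0 : 0 < C0)
    (hC : ∀ x y : ℕ, 2 ≤ x → x ≤ y →
    |∑ p ∈ (Ioc x y).filter Nat.Prime, 1 / (p : ℝ) -
      (Real.log (Real.log y) - Real.log (Real.log x))| ≤ C0 / Real.log x) :
    ∑ e ∈ Ds z M, l4g e ≤ Real.exp (4 * (Real.log M + C0 / Real.log 2)) := by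
  have hlogz : 0 < Real.log z := Real.log_pos (by exact_mod_cast (by omega : 1 < z))
  have hlog2 : 0 < Real.log 2 := Real.log_pos (by norm_num)
  have h1 : ∑ e ∈ Ds z M, l4g e ≤ ∑ S ∈ (Pr z (z ^ M)).powerset, ∏ p ∈ S, (2 / ((p : ℝ) - 1)) := by
    have hinj : Set.InjOn Nat.primeFactors (Ds z M : Set ℕ) := by
      intro x hx y hy hxy
      have hx' := (l4_mem.1 (Finset.mem_coe.1 hx)).2.1
      have hy' := (l4_mem.1 (Finset.mem_coe.1 hy)).2.1
      rw [← Nat.prod_primeFactors_of_squarefree hx', ← Nat.prod_primeFactors_of_squarefree hy', hxy]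
    have e1 : ∑ e ∈ Ds z M, l4g e =
        ∑ S ∈ (Ds z M).image Nat.primeFactors, ∏ p ∈ S, (2 / ((p : ℝ) - 1)) := by
      rw [Finset.sum_image hinj]
      exact Finset.sum_congr rfl fun e he => l4g_prod (l4_mem.1 he).2.1
    rw [e1]
    refine Finset.sum_le_sum_of_subset_of_nonneg ?_ ?_
    · intro S hS
      rw [Finset.mem_image] at hS
      obtain ⟨e, he, rfl⟩ := hS
      rw [Finset.mem_powerset]
      intro p hp
      rw [Pr, Finset.mem_filter, Finset.mem_Ioc]
      exact ⟨(l4_mem.1 he).2.2 p hp, Nat.prime_of_mem_primeFactors hp⟩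
    · intro S hS _
      rw [Finset.mem_powerset] at hS
      refine Finset.prod_nonneg fun p hp => ?_
      have h := hS hp
      rw [Pr, Finset.mem_filter] at h
      have : (1 : ℝ) ≤ p := by exact_mod_cast h.2.one_le
      exact div_nonneg (by norm_num) (by linarith)
  refine h1.trans ?_
  rw [← Finset.prod_one_add]
  have h2 : ∏ p ∈ Pr z (z ^ M), (1 + 2 / ((p : ℝ) - 1)) ≤
      Real.exp (∑ p ∈ Pr z (z ^ M), 4 * (1 / (p : ℝ))) := by
    rw [Real.exp_sum]
    refine Finset.prod_le_prod ?_ ?_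
    · intro p hp
      rw [Pr, Finset.mem_filter] at hp
      have : (1 : ℝ) ≤ p := by exact_mod_cast hp.2.one_le
      have : 0 ≤ 2 / ((p : ℝ) - 1) := div_nonneg (by norm_num) (by linarith)
      linarith
    · intro p hp
      rw [Pr, Finset.mem_filter] at hp
      have h2p : (2 : ℝ) ≤ p := by exact_mod_cast hp.2.two_le
      have h3 : 2 / ((p : ℝ) - 1) ≤ 4 * (1 / (p : ℝ)) := by
        rw [mul_one_div, div_le_div_iff₀ (by linarith) (by linarith)]
        linarith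
      have h4 := Real.add_one_le_exp (4 * (1 / (p : ℝ)))
      linarith
  refine h2.trans (Real.exp_le_exp.2 ?_)
  rw [← Finset.mul_sum]
  refine mul_le_mul_of_nonneg_left ?_ (by norm_num)
  have hzM : z ≤ z ^ M := Nat.le_self_pow (by omega) z
  have h5 := (abs_le.1 (hC z (z ^ M) hz hzM)).2
  have h6 : Real.log (Real.log ((z ^ M : ℕ) : ℝ)) = Real.log M + Real.log (Real.log z) := by
    push_cast
    rw [Real.log_pow, Real.log_mul (by positivity) hlogz.ne']
  rw [h6] at h5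
  have h7 : C0 / Real.log z ≤ C0 / Real.log 2 := by
    refine div_le_div_of_nonneg_left hC0.le hlog2 (Real.log_le_log (by norm_num) ?_)
    exact_mod_cast hz
  have h8 : ∑ p ∈ Pr z (z ^ M), 1 / (p : ℝ) = ∑ p ∈ (Ioc z (z ^ M)).filter Nat.Prime, 1 / (p : ℝ) :=
    rfl
  rw [h8]
  linarith

/-- the bound for `l4g` -/
private lemma l4g_le {z M f : ℕ} (hz : 2 ≤ z) (hf : f ∈ Ds z M) (hf1 : f ≠ 1) :
    z < f ∧ l4g f ≤ 4 ^ (10 * M) * (1 / (f : ℝ)) := by
  obtain ⟨⟨h1, h2⟩, h3, h4⟩ := l4_mem.1 hf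
  have hf0 : (0 : ℝ) < f := by exact_mod_cast h1
  constructor
  · obtain ⟨p, hp, hpf⟩ := Nat.exists_prime_and_dvd hf1
    have h5 := (h4 p (Nat.mem_primeFactors.2 ⟨hp, hpf, by omega⟩)).1
    have h6 := Nat.le_of_dvd h1 hpf
    omega
  · have hω : f.primeFactors.card ≤ 10 * M := by
      have h5 : z ^ f.primeFactors.card ≤ f := by
        conv_rhs => rw [← Nat.prod_primeFactors_of_squarefree h3]
        rw [← Finset.prod_const]
        exact Finset.prod_le_prod' fun p hp => (h4 p hp).1.le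
      exact (Nat.pow_le_pow_iff_right (by omega)).1 (h5.trans h2)
    have h6 : l4g f ≤ ∏ p ∈ f.primeFactors, (4 / (p : ℝ)) := by
      rw [l4g_prod h3]
      refine Finset.prod_le_prod ?_ ?_
      · intro p hp
        have : (1 : ℝ) ≤ p := by exact_mod_cast (Nat.prime_of_mem_primeFactors hp).one_le
        exact div_nonneg (by norm_num) (by linarith)
      · intro p hp
        have h2p : (2 : ℝ) ≤ p := by exact_mod_cast (Nat.prime_of_mem_primeFactors hp).two_le
        rw [div_le_div_iff₀ (by linarith) (by linarith)]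
        linarith
    have h7 : ∏ p ∈ f.primeFactors, (4 / (p : ℝ)) = 4 ^ f.primeFactors.card / (f : ℝ) := by
      rw [Finset.prod_div_distrib, Finset.prod_const]
      congr 1
      have h := Nat.prod_primeFactors_of_squarefree h3
      calc ∏ p ∈ f.primeFactors, (p : ℝ) = ((∏ p ∈ f.primeFactors, p : ℕ) : ℝ) := by push_cast; rfl
        _ = (f : ℝ) := by rw [h]
    rw [h7] at h6
    refine h6.trans ?_
    rw [mul_one_div]
    exact div_le_div_of_nonneg_right (pow_le_pow_right₀ (by norm_num) hω) hf0.le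

theorem err_sum (M : ℕ) (hM : 1 ≤ M) : ∃ C : ℝ, 0 < C ∧ ∀ z b c N1 N2 : ℕ, 2 ≤ z →
    1 ≤ b → b ≤ z → 1 ≤ c → c ≤ z → z ^ (20 * M) ≤ N1 → z ^ (20 * M) ≤ N2 →
    ∀ Qs Rs : Finset ℕ, (∀ q ∈ Qs, q.Prime ∧ z ^ M < q ∧ q ≤ N1) →
    (∀ q ∈ Rs, q.Prime ∧ z ^ M < q ∧ q ≤ N2) →
    ∑ d ∈ Ds z M, 2 ^ d.primeFactors.card * |Er Qs Rs b c d| ≤ C * N1 * N2 / z := by
  obtain ⟨C0, hC0, hC⟩ := mert2
  refine ⟨Real.exp (4 * (Real.log M + C0 / Real.log 2)) * (4 ^ (10 * M) * 40), by positivity, ?_⟩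
  intro z b c N1 N2 hz hb1 hb hc1 hc hN1 hN2 Qs Rs hQ hR
  set E : ℝ := Real.exp (4 * (Real.log M + C0 / Real.log 2)) with hE
  have hE0 : 0 ≤ E := (Real.exp_pos _).le
  calc ∑ d ∈ Ds z M, 2 ^ d.primeFactors.card * |Er Qs Rs b c d| ≤
      ∑ d ∈ Ds z M, ∑ f ∈ ((Ds z M).erase 1).filter (· ∣ d),
        l4g f * l4H Qs Rs f * l4g (d / f) :=
        Finset.sum_le_sum fun d hd => l4_step hd hb1 hb hc1 hc Qs Rs
          (fun q hq => ⟨(hQ q hq).1, (hQ q hq).2.1⟩) (fun q hq => ⟨(hR q hq).1, (hR q hq).2.1⟩)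
    _ = ∑ f ∈ (Ds z M).erase 1, ∑ d ∈ (Ds z M).filter (f ∣ ·),
        l4g f * l4H Qs Rs f * l4g (d / f) := by
        refine Finset.sum_comm' fun d f => ?_
        rw [Finset.mem_filter, Finset.mem_filter]
        tauto
    _ ≤ ∑ f ∈ (Ds z M).erase 1, l4g f * l4H Qs Rs f * E := by
        refine Finset.sum_le_sum fun f hf => ?_
        rw [← Finset.mul_sum]
        refine mul_le_mul_of_nonneg_left ?_ (mul_nonneg (l4g_nonneg f) (l4H_nonneg Qs Rs f))
        have hf0 : 0 < f := by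
          have := (l4_mem.1 (Finset.mem_of_mem_erase hf)).1
          omega
        have hinj : Set.InjOn (fun d => d / f) ((Ds z M).filter (f ∣ ·) : Set ℕ) := by
          intro x hx y hy hxy
          rw [Finset.mem_coe, Finset.mem_filter] at hx hy
          simp only at hxy
          rw [← Nat.mul_div_cancel' hx.2, ← Nat.mul_div_cancel' hy.2, hxy]
        have e1 : ∑ d ∈ (Ds z M).filter (f ∣ ·), l4g (d / f) =
            ∑ e ∈ ((Ds z M).filter (f ∣ ·)).image (fun d => d / f), l4g e :=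
          (Finset.sum_image hinj).symm
        rw [e1]
        refine (Finset.sum_le_sum_of_subset_of_nonneg ?_ fun e _ _ => l4g_nonneg e).trans
          (l4_sum hz hM hC0 hC)
        intro e he
        rw [Finset.mem_image] at he
        obtain ⟨d, hd, rfl⟩ := he
        rw [Finset.mem_filter] at hd
        exact l4_dvd hd.1 (Nat.div_dvd_of_dvd hd.2)
    _ = E * ∑ f ∈ (Ds z M).erase 1, l4g f * l4H Qs Rs f := by
        rw [Finset.mul_sum]
        exact Finset.sum_congr rfl fun f _ => mul_comm _ _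
    _ ≤ E * (4 ^ (10 * M) * (40 * N1 * N2 / z)) := by
        refine mul_le_mul_of_nonneg_left ?_ hE0
        calc ∑ f ∈ (Ds z M).erase 1, l4g f * l4H Qs Rs f ≤
            ∑ f ∈ (Ds z M).erase 1, 4 ^ (10 * M) * (1 / (f : ℝ) * l4H Qs Rs f) := by
              refine Finset.sum_le_sum fun f hf => ?_
              rw [← mul_assoc]
              exact mul_le_mul_of_nonneg_right
                (l4g_le hz (Finset.mem_of_mem_erase hf) (Finset.ne_of_mem_erase hf)).2
                (l4H_nonneg Qs Rs f)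
          _ ≤ ∑ f ∈ Ioc z (z ^ (10 * M)), 4 ^ (10 * M) * (1 / (f : ℝ) * l4H Qs Rs f) := by
              refine Finset.sum_le_sum_of_subset_of_nonneg ?_ ?_
              · intro f hf
                rw [Finset.mem_Ioc]
                exact ⟨(l4g_le hz (Finset.mem_of_mem_erase hf) (Finset.ne_of_mem_erase hf)).1,
                  (l4_mem.1 (Finset.mem_of_mem_erase hf)).1.2⟩
              · intro f _ _
                have := l4H_nonneg Qs Rs f
                positivity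
          _ = 4 ^ (10 * M) * ∑ f ∈ Ioc z (z ^ (10 * M)), 1 / (f : ℝ) * l4H Qs Rs f :=
              (Finset.mul_sum ..).symm
          _ ≤ 4 ^ (10 * M) * (40 * N1 * N2 / z) := by
              refine mul_le_mul_of_nonneg_left ?_ (by positivity)
              have hsq : (z ^ (10 * M)) ^ 2 = z ^ (20 * M) := by
                rw [← pow_mul]
                congr 1
                ring
              refine ls_sum z (z ^ (10 * M)) N1 N2 (by omega) (by rw [hsq]; exact hN1)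
                (by rw [hsq]; exact hN2) Qs Rs ?_ ?_
              · intro q hq
                rw [Finset.mem_Icc]
                exact ⟨(hQ q hq).1.one_le, (hQ q hq).2.2⟩
              · intro q hq
                rw [Finset.mem_Icc]
                exact ⟨(hR q hq).1.one_le, (hR q hq).2.2⟩
    _ = E * (4 ^ (10 * M) * 40) * N1 * N2 / z := by ring

end Pool.Agent.H77.K3
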