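import Pool.Agent.H77.K3.Defs4
import Pool.Agent.H77.K3.N1

/-!
# L7: Mertens estimates for the sieve

`blk_sum`: for `M ≥ 1` and `z ≥ z0(M)`, `y = z^M`: for every `k`:
`sum_(p ∈ Pr z y, blk y p = k) 1/(p-1) ≤ 0.8`. Proof. `blk y p = k` means
`p^(2^k) ≤ y < p^(2^(k+1))` (`m = Nat.log p y`, `2^k ≤ m < 2^(k+1)`). So these primes lie in
`(x, x']`, `x = max z (y^(1/2^(k+1)) (floor))`, `x' = floor y^(1/2^k)`; if there are any then
`z < x'`. `mert2`: `sum 1/p ≤ log (log x' / log x) + C/log x`, `log x' ≤ log y/2^k`,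
`log x ≥ log (y^(1/2^(k+1))) - 1/x..`: as `x + 1 > y^(1/2^(k+1))`, `log x ≥ log (x+1) - 1/x`, so the
ratio is at most `2 (1 + 2/(z log z))`, and the sum is at most `log 2 + (C+2)/log z ≤ 0.75` for
`z ≥ z0`; and `1/(p-1) ≤ (1 + 2/z)/p`.

`V_low`: there is an absolute `c > 0` such that `VV0 z M ≥ c / M` for `z ≥ z0(M)`. Proof:
`1 - u ≥ exp (- u - u^2)` for `0 ≤ u ≤ 1/2`, `sum_(z<p≤z^M) 1/(p-1) ≤ (1+2/z) (log M + C/log z)`.

`L_low`: for `P.Adm`, `z ≥ z0(P)`, `i < J`: `P.L z i ≥ 1/2` (`log B ≥ log 3 > 1`).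
-/

set_option autoImplicit false

namespace Pool.Agent.H77.K3

open Finset Pool.Agent.H77.SV

open Filter Topology in
theorem blk_sum (M : ℕ) (hM : 1 ≤ M) : ∃ z0 : ℕ, ∀ z : ℕ, z0 ≤ z → ∀ k : ℕ,
    ∑ p ∈ (Pr z (z ^ M)).filter (fun p => blk (z ^ M) p = k), 1 / ((p : ℝ) - 1) ≤ 0.8 := by
  obtain ⟨C, hC0, hC⟩ := mert2
  have hlog2 : Real.log 2 < 0.8 := by
    have := Real.log_two_lt_d9
    linarith
  have hlim : Tendsto (fun z : ℕ => 1 / (z : ℝ) + (1 + 1 / (z : ℝ)) *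
      (Real.log 2 + C / Real.log z)) atTop (𝓝 (0 + (1 + 0) * (Real.log 2 + 0))) := by
    have h1 : Tendsto (fun z : ℕ => 1 / (z : ℝ)) atTop (𝓝 0) := tendsto_const_div_atTop_nhds_zero_nat 1
    have h2 : Tendsto (fun z : ℕ => C / Real.log z) atTop (𝓝 0) :=
      Tendsto.div_atTop tendsto_const_nhds (Real.tendsto_log_atTop.comp tendsto_natCast_atTop_atTop)
    exact h1.add ((h1.const_add 1).mul (h2.const_add _))
  have hev : ∀ᶠ z : ℕ in atTop, 1 / (z : ℝ) + (1 + 1 / (z : ℝ)) *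
      (Real.log 2 + C / Real.log z) < 0.8 := by
    apply hlim.eventually_lt_const
    linarith
  obtain ⟨z1, hz1⟩ := eventually_atTop.1 hev
  refine ⟨max z1 2, fun z hz k => ?_⟩
  have hz1' := hz1 z (le_trans (le_max_left _ _) hz)
  have hz2 : 2 ≤ z := le_trans (le_max_right _ _) hz
  have hzR : (2 : ℝ) ≤ z := by exact_mod_cast hz2
  set S := (Pr z (z ^ M)).filter (fun p => blk (z ^ M) p = k) with hS
  -- properties of the elements
  have hmem : ∀ p ∈ S, z < p ∧ p ≤ z ^ M ∧ p.Prime ∧ p ^ (2 ^ k) ≤ z ^ M ∧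
      z ^ M < p ^ (2 ^ (k + 1)) := by
    intro p hp
    rw [hS, mem_filter, Pr, mem_filter, mem_Ioc] at hp
    obtain ⟨⟨⟨h1, h2⟩, h3⟩, h4⟩ := hp
    have hp1 : 1 < p := h3.one_lt
    have hy0 : z ^ M ≠ 0 := by positivity
    have hm : Nat.log p (z ^ M) ≠ 0 := by
      rw [Ne, Nat.log_eq_zero_iff, not_or]
      constructor
      · omega
      · omega
    have h5 : 2 ^ k ≤ Nat.log p (z ^ M) := by
      rw [← h4]
      exact Nat.pow_log_le_self 2 hm
    have h6 : Nat.log p (z ^ M) < 2 ^ (k + 1) := by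
      rw [← h4]
      exact Nat.lt_pow_succ_log_self (by norm_num) _
    refine ⟨h1, h2, h3, ?_, ?_⟩
    · exact le_trans (Nat.pow_le_pow_right (by omega) h5) (Nat.pow_log_le_self p hy0)
    · refine lt_of_lt_of_le (Nat.lt_pow_succ_log_self hp1 _) ?_
      exact Nat.pow_le_pow_right (by omega) h6
  rcases S.eq_empty_or_nonempty with he | hne
  · rw [he, sum_empty]
    norm_num
  -- minimum and maximum
  set a := S.min' hne with ha
  set b := S.max' hne with hb
  obtain ⟨a1, a2, a3, a4, a5⟩ := hmem a (S.min'_mem hne)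
  obtain ⟨b1, b2, b3, b4, b5⟩ := hmem b (S.max'_mem hne)
  have hab : a ≤ b := S.min'_le b (S.max'_mem hne)
  have hsub : S ⊆ insert a ((Ioc a b).filter Nat.Prime) := by
    intro p hp
    rw [mem_insert, mem_filter, mem_Ioc]
    rcases eq_or_lt_of_le (S.min'_le p hp) with h | h
    · exact Or.inl h.symm
    · exact Or.inr ⟨⟨h, S.le_max' p hp⟩, (hmem p hp).2.2.1⟩
  have haR : (z : ℝ) + 1 ≤ a := by exact_mod_cast a1
  have hnot : a ∉ (Ioc a b).filter Nat.Prime := by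
    simp
  have hterm : ∀ p ∈ (Ioc a b).filter Nat.Prime, 1 / ((p : ℝ) - 1) ≤
      (1 + 1 / (z : ℝ)) * (1 / (p : ℝ)) := by
    intro p hp
    rw [mem_filter, mem_Ioc] at hp
    have h1 : (z : ℝ) + 1 ≤ p := by
      have : z + 1 ≤ p := by omega
      exact_mod_cast this
    have h2 : (0 : ℝ) < (p : ℝ) - 1 := by linarith
    have h3 : (0 : ℝ) < (p : ℝ) := by linarith
    have h4 : (0 : ℝ) < z := by linarith
    rw [div_le_iff₀ h2]
    have h5 : (1 + 1 / (z : ℝ)) * (1 / (p : ℝ)) * ((p : ℝ) - 1) =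
        (((z : ℝ) + 1) * ((p : ℝ) - 1)) / (z * p) := by
      field_simp
    rw [h5, le_div_iff₀ (by positivity)]
    nlinarith
  have hb' : 1 / ((a : ℝ) - 1) ≤ 1 / (z : ℝ) := by
    apply one_div_le_one_div_of_le (by linarith)
    linarith
  have hmer := (abs_le.1 (hC a b (by omega) hab)).2
  have hla : 0 < Real.log a := Real.log_pos (by linarith)
  have hlz : 0 < Real.log z := Real.log_pos (by linarith)
  have hlb : 0 < Real.log b := Real.log_pos (by
    have : (a : ℝ) ≤ b := by exact_mod_cast hab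
    linarith)
  have hloglog : Real.log (Real.log b) - Real.log (Real.log a) ≤ Real.log 2 := by
    rw [← Real.log_div hlb.ne' hla.ne']
    apply Real.log_le_log (by positivity)
    rw [div_le_iff₀ hla]
    -- `b ^ (2 ^ k) ≤ y < a ^ (2 ^ (k + 1))`
    have h1 : (b : ℝ) ^ (2 ^ k) ≤ (a : ℝ) ^ (2 ^ (k + 1)) := by
      exact_mod_cast (le_of_lt (lt_of_le_of_lt b4 a5))
    have hb0 : (0 : ℝ) < b := by exact_mod_cast b3.pos
    have h2 := Real.log_le_log (pow_pos hb0 _) h1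
    rw [Real.log_pow, Real.log_pow] at h2
    push_cast at h2
    rw [pow_succ] at h2
    have h3 : (0 : ℝ) < 2 ^ k := by positivity
    have h4 : (2 : ℝ) ^ k * Real.log b ≤ 2 ^ k * (2 * Real.log a) := by
      calc _ ≤ _ := h2
        _ = _ := by ring
    exact le_of_mul_le_mul_left h4 h3
  have hCa : C / Real.log a ≤ C / Real.log z := by
    apply div_le_div_of_nonneg_left hC0.le hlz
    apply Real.log_le_log (by linarith) (by linarith)
  calc ∑ p ∈ S, 1 / ((p : ℝ) - 1)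
      ≤ ∑ p ∈ insert a ((Ioc a b).filter Nat.Prime), 1 / ((p : ℝ) - 1) := by
        apply sum_le_sum_of_subset_of_nonneg hsub
        intro p hp _
        have h1 : 1 ≤ p := by
          rw [mem_insert, mem_filter, mem_Ioc] at hp
          omega
        have h2 : (1 : ℝ) ≤ p := by exact_mod_cast h1
        exact one_div_nonneg.2 (by linarith)
    _ = 1 / ((a : ℝ) - 1) + ∑ p ∈ (Ioc a b).filter Nat.Prime, 1 / ((p : ℝ) - 1) :=
        sum_insert hnot
    _ ≤ 1 / (z : ℝ) + (1 + 1 / (z : ℝ)) * ∑ p ∈ (Ioc a b).filter Nat.Prime, 1 / (p : ℝ) := by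
        rw [mul_sum]
        exact add_le_add hb' (sum_le_sum hterm)
    _ ≤ 1 / (z : ℝ) + (1 + 1 / (z : ℝ)) * (Real.log 2 + C / Real.log z) := by
        have h7 : ∑ p ∈ (Ioc a b).filter Nat.Prime, 1 / (p : ℝ) ≤
            Real.log 2 + C / Real.log z := by linarith
        have h8 : (0 : ℝ) ≤ 1 + 1 / (z : ℝ) := by positivity
        have h9 := mul_le_mul_of_nonneg_left h7 h8
        linarith
    _ ≤ 0.8 := hz1'.le

open Filter Topology in
theorem V_low : ∃ c : ℝ, 0 < c ∧ ∀ M : ℕ, 1 ≤ M → ∃ z0 : ℕ, ∀ z : ℕ, z0 ≤ z →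
    c / M ≤ VV0 z M := by
  obtain ⟨C, hC0, hC⟩ := mert2
  refine ⟨Real.exp (-1), Real.exp_pos _, fun M hM => ?_⟩
  have hMR : (1 : ℝ) ≤ M := by exact_mod_cast hM
  have hlim : Tendsto (fun z : ℕ => (1 + 4 / (z : ℝ)) *
      (Real.log M + C / Real.log z)) atTop (𝓝 ((1 + 0) * (Real.log M + 0))) := by
    have h1 : Tendsto (fun z : ℕ => 4 / (z : ℝ)) atTop (𝓝 0) := tendsto_const_div_atTop_nhds_zero_nat 4
    have h2 : Tendsto (fun z : ℕ => C / Real.log z) atTop (𝓝 0) :=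
      Tendsto.div_atTop tendsto_const_nhds (Real.tendsto_log_atTop.comp tendsto_natCast_atTop_atTop)
    exact (h1.const_add 1).mul (h2.const_add _)
  have hev : ∀ᶠ z : ℕ in atTop, (1 + 4 / (z : ℝ)) *
      (Real.log M + C / Real.log z) < Real.log M + 1 := by
    apply hlim.eventually_lt_const
    linarith
  obtain ⟨z1, hz1⟩ := eventually_atTop.1 hev
  refine ⟨max z1 2, fun z hz => ?_⟩
  have hz1' := hz1 z (le_trans (le_max_left _ _) hz)
  have hz2 : 2 ≤ z := le_trans (le_max_right _ _) hz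
  have hzR : (2 : ℝ) ≤ z := by exact_mod_cast hz2
  have hzM : z ≤ z ^ M := Nat.le_self_pow (by omega) z
  have hlz : 0 < Real.log z := Real.log_pos (by linarith)
  have hmer := (abs_le.1 (hC z (z ^ M) hz2 hzM)).2
  have hll : Real.log (Real.log ((z ^ M : ℕ) : ℝ)) = Real.log M + Real.log (Real.log z) := by
    rw [Nat.cast_pow, Real.log_pow, Real.log_mul (by positivity) hlz.ne']
  rw [hll] at hmer
  have hsum : ∑ p ∈ (Ioc z (z ^ M)).filter Nat.Prime, 1 / (p : ℝ) ≤ Real.log M + C / Real.log z := by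
    linarith
  -- the factors
  have hfac : ∀ p ∈ (Ioc z (z ^ M)).filter Nat.Prime,
      Real.exp (-((1 + 4 / (z : ℝ)) * (1 / (p : ℝ)))) ≤ 1 - 1 / ((p : ℝ) - 1) := by
    intro p hp
    rw [mem_filter, mem_Ioc] at hp
    have h1 : (z : ℝ) + 1 ≤ p := by
      have : z + 1 ≤ p := by omega
      exact_mod_cast this
    have hp2 : (0 : ℝ) < (p : ℝ) - 2 := by linarith
    have hp1 : (0 : ℝ) < (p : ℝ) - 1 := by linarith
    have hp0 : (0 : ℝ) < (p : ℝ) := by linarith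
    have hz0 : (0 : ℝ) < z := by linarith
    have h2 : 1 - 1 / ((p : ℝ) - 1) = (1 + 1 / ((p : ℝ) - 2))⁻¹ := by
      have h3 : 1 + 1 / ((p : ℝ) - 2) = ((p : ℝ) - 1) / ((p : ℝ) - 2) := by
        rw [eq_div_iff hp2.ne', add_mul, one_div_mul_cancel hp2.ne']
        ring
      rw [h3, inv_div, eq_div_iff hp1.ne', sub_mul, one_div_mul_cancel hp1.ne']
      ring
    rw [h2, Real.exp_neg]
    apply inv_anti₀ (by positivity)
    have h4 : 1 / ((p : ℝ) - 2) ≤ (1 + 4 / (z : ℝ)) * (1 / (p : ℝ)) := by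
      rw [div_le_iff₀ hp2]
      have h5 : (1 + 4 / (z : ℝ)) * (1 / (p : ℝ)) * ((p : ℝ) - 2) =
          (((z : ℝ) + 4) * ((p : ℝ) - 2)) / (z * p) := by
        field_simp
      rw [h5, le_div_iff₀ (by positivity)]
      nlinarith
    calc 1 + 1 / ((p : ℝ) - 2) ≤ 1 + (1 + 4 / (z : ℝ)) * (1 / (p : ℝ)) := by linarith
      _ = (1 + 4 / (z : ℝ)) * (1 / (p : ℝ)) + 1 := by ring
      _ ≤ _ := Real.add_one_le_exp _
  have hprod : Real.exp (∑ p ∈ (Ioc z (z ^ M)).filter Nat.Prime,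
      -((1 + 4 / (z : ℝ)) * (1 / (p : ℝ)))) ≤ VV0 z M := by
    rw [Real.exp_sum]
    unfold VV0 Pr
    exact prod_le_prod (fun p _ => (Real.exp_pos _).le) hfac
  refine le_trans ?_ hprod
  have hc : Real.exp (-1) / (M : ℝ) = Real.exp (-(Real.log M + 1)) := by
    rw [neg_add, Real.exp_add, Real.exp_neg (Real.log M), Real.exp_log (by linarith)]
    rw [div_eq_mul_inv, mul_comm]
  rw [hc]
  apply Real.exp_le_exp.2
  rw [sum_neg_distrib, neg_le_neg_iff, ← mul_sum]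
  have h8 : (0 : ℝ) ≤ 1 + 4 / (z : ℝ) := by positivity
  have h9 := mul_le_mul_of_nonneg_left hsum h8
  linarith

open Filter Topology in
theorem L_low {P : Par} (hP : P.Adm) : ∃ z0 : ℕ, ∀ z : ℕ, z0 ≤ z → ∀ i < P.J,
    1 / 2 ≤ P.L z i := by
  obtain ⟨C, hC0, hC⟩ := mert2
  have hev : ∀ᶠ z : ℕ in atTop, C / Real.log z < 1 / 2 := by
    have h2 : Tendsto (fun z : ℕ => C / Real.log z) atTop (𝓝 0) :=
      Tendsto.div_atTop tendsto_const_nhds (Real.tendsto_log_atTop.comp tendsto_natCast_atTop_atTop)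
    exact h2.eventually_lt_const (by norm_num)
  obtain ⟨z1, hz1⟩ := eventually_atTop.1 hev
  refine ⟨max z1 2, fun z hz i hi => ?_⟩
  have hz1' := hz1 z (le_trans (le_max_left _ _) hz)
  have hz2 : 2 ≤ z := le_trans (le_max_right _ _) hz
  have hzR : (2 : ℝ) ≤ z := by exact_mod_cast hz2
  have hlz : 0 < Real.log z := Real.log_pos (by linarith)
  have hB := hP.hB
  have hE := hP.hE
  have he1 : 1 ≤ P.ee i := by
    unfold Par.ee
    apply Nat.one_le_iff_ne_zero.2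
    apply mul_ne_zero
    · omega
    · apply pow_ne_zero
      omega
  have hef : P.ee i ≤ P.ff i := by
    unfold Par.ff
    exact Nat.le_mul_of_pos_left _ (by omega)
  have hbig : z ≤ z ^ P.ee i := Nat.le_self_pow (by omega) z
  have hle : z ^ P.ee i ≤ z ^ P.ff i := Nat.pow_le_pow_right (by omega) hef
  have hmer := (abs_le.1 (hC (z ^ P.ee i) (z ^ P.ff i) (by omega) hle)).1
  have heR : (1 : ℝ) ≤ (P.ee i : ℝ) := by exact_mod_cast he1
  have hBR : (3 : ℝ) ≤ (P.B : ℝ) := by exact_mod_cast hB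
  have hl1 : Real.log ((z ^ P.ee i : ℕ) : ℝ) = P.ee i * Real.log z := by
    rw [Nat.cast_pow, Real.log_pow]
  have hl2 : Real.log ((z ^ P.ff i : ℕ) : ℝ) = P.B * (P.ee i * Real.log z) := by
    rw [Nat.cast_pow, Real.log_pow, Par.ff, Nat.cast_mul, mul_assoc]
  rw [hl1, hl2, Real.log_mul (by positivity) (by positivity)] at hmer
  have hlogB : 1 < Real.log P.B := by
    rw [Real.lt_log_iff_exp_lt (by linarith)]
    have := Real.exp_one_lt_d9
    linarith
  have hCe : C / (P.ee i * Real.log z) ≤ C / Real.log z := by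
    apply div_le_div_of_nonneg_left hC0.le hlz
    nlinarith
  have hL : P.L z i = ∑ p ∈ (Ioc (z ^ P.ee i) (z ^ P.ff i)).filter Nat.Prime, 1 / (p : ℝ) := rfl
  rw [hL]
  linarith

end Pool.Agent.H77.K3
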