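import Pool.Agent.H77.K3.Defs4
import Pool.Agent.H77.K3.X2

/-!
# L9: `S1` contains the disjoint union of the sets counted by `NB`

For `P.Adm`, `2 ≤ z`, `w ≤ z`, `TZ z T`:
`# S1 ≥ sum_(b ∈ Bset) sum_(c ∈ Bset, coprime to b) sum_((α,β) ∈ Cl) sum_(pp ∈ prod I_i) NB`.

Proof. The map `(b, c, α, β, pp, q, r) ↦ (b q, c r)` goes into `S1` and is injective.
Into `S1`: `Y = b q ∈ (T/2, T]`, `b ≤ z` and `T ≥ z^(30M)`, so `q > z^M ≥ z ≥ b`, so `lpf Y = q`,
`Y / lpf Y = b ≤ z`; the same for `Z`. `Y = α mod WW`, so `Y = 7 mod 16` and no `p ∈ oP w` divides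
`Y`, `Z`, `Y + Z` (`WW` is divisible by `16` and by these `p`). `hI`: the only prime of `I i` dividing
`X` is `pp i` (`I i ⊆ Pr z (z^M)`, the others do not divide `X` unless they are a `pp j`, and
`pp j ∈ I j` is not in `I i` for `j ≠ i`). `hn`: a prime of `(z, z^M]` dividing `X` is some `pp i`.
Injective: `q = lpf Y`, `b = Y/q`, `α = Y mod WW`, `pp i` is the prime of `I i` dividing `X`.
-/

set_option autoImplicit false

namespace Pool.Agent.H77.K3

open Finset Pool.Agent.H77.SV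

private theorem l9_fib {α β : Type} [DecidableEq β] (s : Finset α) (t : Finset β) (f : α → β) :
    ∑ b ∈ t, (s.filter (fun a => f a = b)).card ≤ s.card := by
  classical
  have h1 : ∀ b ∈ t, (s.filter (fun a => f a = b)).card = ∑ a ∈ s, if f a = b then 1 else 0 :=
    fun b _ => Finset.card_filter _ _
  rw [Finset.sum_congr rfl h1, Finset.sum_comm, Finset.card_eq_sum_ones]
  refine Finset.sum_le_sum fun a _ => ?_
  rw [Finset.sum_ite_eq]
  split_ifs <;> simp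

private theorem l9_lpf {b q : ℕ} (hb : 1 ≤ b) (hq : q.Prime) (hbq : b < q) : lpf (b * q) = q := by
  unfold lpf
  rw [Nat.primeFactors_mul (by omega) hq.ne_zero, hq.primeFactors]
  apply le_antisymm
  · refine Finset.sup_le fun p hp => ?_
    rcases Finset.mem_union.1 hp with h | h
    · have := Nat.le_of_mem_primeFactors h
      show p ≤ q
      omega
    · rw [Finset.mem_singleton] at h
      exact h.le
  · exact Finset.le_sup (f := id) (Finset.mem_union_right _ (Finset.mem_singleton_self q))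

private theorem l9_dvd {w : ℕ} {Y α p : ℕ} (h : Y % WW w = α) (hp : p ∣ WW w) :
    p ∣ Y ↔ p ∣ α := by
  rw [← h]
  exact (Nat.dvd_mod_iff hp).symm

private theorem l9_16 (w : ℕ) : 16 ∣ WW w := ⟨_, rfl⟩

private theorem l9_p {w p : ℕ} (h : p ∈ oP w) : p ∣ WW w :=
  (Finset.dvd_prod_of_mem (fun p => p) h).trans (Dvd.intro_left 16 rfl)

private theorem l9_q {M z T b q : ℕ} (hM : 1 ≤ M) (hz : 2 ≤ z) (hT : z ^ (30 * M) ≤ T)
    (hb : b ≤ z) (h2 : T / 2 < b * q) : z ^ M < q := by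
  have h3 : T < 2 * z * q := by
    calc T < 2 * (b * q) := by omega
      _ ≤ 2 * (z * q) := Nat.mul_le_mul_left 2 (Nat.mul_le_mul_right q hb)
      _ = 2 * z * q := by ring
  have h4 : z ^ (30 * M) < z ^ 2 * q := by
    calc z ^ (30 * M) ≤ T := hT
      _ < 2 * z * q := h3
      _ ≤ z * z * q := Nat.mul_le_mul_right q (Nat.mul_le_mul_right z hz)
      _ = z ^ 2 * q := by ring
  have h5 : z ^ (30 * M) = z ^ 2 * z ^ (30 * M - 2) := by
    rw [← pow_add]
    congr 1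
    omega
  rw [h5] at h4
  have h6 : z ^ (30 * M - 2) < q := Nat.lt_of_mul_lt_mul_left h4
  exact lt_of_le_of_lt (Nat.pow_le_pow_right (by omega) (by omega)) h6

private theorem l9_pos {P : Par} (hP : P.Adm) (i : ℕ) : 1 ≤ P.ee i := by
  have h1 : 1 ≤ P.E0 := by
    have := hP.hE
    omega
  have h2 : 1 ≤ (13 * P.B) ^ i := Nat.one_le_pow _ _ (by have := hP.hB; omega)
  exact Nat.mul_pos h1 h2

private theorem l9_fe {P : Par} (hP : P.Adm) {i j : ℕ} (hij : i < j) : P.ff i ≤ P.ee j := by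
  have h1 : P.ee (i + 1) ≤ P.ee j :=
    Nat.mul_le_mul_left _ (Nat.pow_le_pow_right (by have := hP.hB; omega) hij)
  rw [ee_succ] at h1
  omega

private theorem l9_I {P : Par} {z i p : ℕ} :
    p ∈ P.I z i ↔ z ^ P.ee i < p ∧ p ≤ z ^ P.ff i ∧ p.Prime := by
  rw [Par.I, mem_filter, mem_Ioc, and_assoc]

private theorem l9_dj {P : Par} (hP : P.Adm) {z i j p : ℕ} (hz : 2 ≤ z) (hi : p ∈ P.I z i)
    (hj : p ∈ P.I z j) : i = j := by
  rw [l9_I] at hi hj
  have key : ∀ a b, a < b → z ^ P.ff a ≤ z ^ P.ee b := fun a b h =>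
    Nat.pow_le_pow_right (by omega) (l9_fe hP h)
  rcases lt_trichotomy i j with h | h | h
  · have := key i j h
    omega
  · exact h
  · have := key j i h
    omega

private theorem l9_ex {P : Par} (hP : P.Adm) {z T : ℕ} (hz : 2 ≤ z) (hT : P.TZ z T)
    {b c α β q r : ℕ} {pp : Fin P.J → ℕ}
    (hb : b ∈ Bset P.w z) (hc : c ∈ Bset P.w z) (hbc : b.Coprime c) (hx : (α, β) ∈ Cl P.w)
    (hpp : ∀ i : Fin P.J, pp i ∈ P.I z i) (hq : q ∈ Qa P.w T b α) (hr : r ∈ Qa P.w T c β)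
    (h1 : ∀ i, pp i ∣ b * q + c * r)
    (h2 : ∀ p ∈ Pr z (z ^ P.M), (∀ i, p ≠ pp i) → ¬ p ∣ b * q + c * r) :
    Ok1 P z (b * q) (c * r) ∧ b * q / lpf (b * q) = b ∧ c * r / lpf (c * r) = c ∧
      ∀ i : Fin P.J, P.ppI z (b * q) (c * r) i = pp i := by
  simp only [Bset, mem_filter, mem_Icc] at hb hc
  obtain ⟨⟨hb1, hbz⟩, hbs, hbw⟩ := hb
  obtain ⟨⟨hc1, hcz⟩, hcs, hcw⟩ := hc
  simp only [Qa, mem_filter, mem_Ioc] at hq hr
  obtain ⟨⟨hq0, hqT⟩, hqp, hq2, hq3, hq4⟩ := hq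
  obtain ⟨⟨hr0, hrT⟩, hrp, hr2, hr3, hr4⟩ := hr
  simp only [Cl, mem_filter, mem_product, mem_range] at hx
  obtain ⟨-, hα, hβ, hx⟩ := hx
  have hM : 1 ≤ P.M := l9_pos hP P.J
  have hzM : z ≤ z ^ P.M := by
    calc z = z ^ 1 := (pow_one z).symm
      _ ≤ z ^ P.M := Nat.pow_le_pow_right (by omega) hM
  have hqz := l9_q hM hz hT.1 hbz hq2
  have hrz := l9_q hM hz hT.1 hcz hr2
  have lq : lpf (b * q) = q := l9_lpf hb1 hqp (by omega)
  have lr : lpf (c * r) = r := l9_lpf hc1 hrp (by omega)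
  have dq : b * q / lpf (b * q) = b := by rw [lq]; exact Nat.mul_div_cancel _ hq0
  have dr : c * r / lpf (c * r) = c := by rw [lr]; exact Nat.mul_div_cancel _ hr0
  -- the primes of `(z, z^M]`
  have hfM : ∀ i : Fin P.J, P.ff i ≤ P.M := fun i => by
    have := ff_le_M hP i.2
    omega
  have hbig : ∀ p : ℕ, p.Prime → p ∣ b * q + c * r → z < p → p ≤ z ^ P.M → ∃ i, p = pp i := by
    intro p hp hd hzp hpM
    by_contra hcon
    push Not at hcon
    refine h2 p ?_ hcon hd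
    unfold Pr
    rw [mem_filter, mem_Ioc]
    exact ⟨⟨hzp, hpM⟩, hp⟩
  have hset : ∀ i : Fin P.J, (P.I z i).filter (· ∣ b * q + c * r) = {pp i} := by
    intro i
    ext p
    rw [mem_filter, mem_singleton]
    constructor
    · rintro ⟨hI, hd⟩
      obtain ⟨e1, e2, e3⟩ := l9_I.1 hI
      have hze : z ≤ z ^ P.ee i := by
        calc z = z ^ 1 := (pow_one z).symm
          _ ≤ z ^ P.ee i := Nat.pow_le_pow_right (by omega) (l9_pos hP i)
      obtain ⟨j, hj⟩ := hbig p e3 hd (by omega)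
        (e2.trans (Nat.pow_le_pow_right (by omega) (hfM i)))
      have hIj := hpp j
      rw [← hj] at hIj
      have : (i : ℕ) = j := l9_dj hP hz hI hIj
      rw [hj, Fin.ext this]
    · rintro rfl
      exact ⟨hpp i, h1 i⟩
  refine ⟨⟨?_, ?_, ?_, ?_, ?_, ?_, ?_, ?_, ?_, ?_⟩, dq, dr, ?_⟩
  · rw [← Nat.mod_mod_of_dvd (b * q) (l9_16 P.w), hq4]
    exact hα
  · rw [← Nat.mod_mod_of_dvd (c * r) (l9_16 P.w), hr4]
    exact hβ
  · intro p hp hp2 hpw hd
    have hmem : p ∈ oP P.w := by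
      unfold oP
      rw [mem_filter, mem_Ioc]
      have := hp.two_le
      exact ⟨⟨by omega, hpw⟩, hp⟩
    obtain ⟨a1, a2, a3⟩ := hx p hmem
    have hW := l9_p hmem
    rcases (Nat.Prime.dvd_mul hp).1 hd with h | h
    · rcases (Nat.Prime.dvd_mul hp).1 h with h | h
      · apply a3
        have h3 : (b * q + c * r) ≡ (α + β) [MOD WW P.w] := by
          rw [← hq4, ← hr4]
          exact Nat.ModEq.add (Nat.mod_modEq _ _).symm (Nat.mod_modEq _ _).symm
        exact ((h3.dvd_iff hW).1 h)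
      · exact a1 ((l9_dvd hq4 hW).1 h)
    · exact a2 ((l9_dvd hr4 hW).1 h)
  · rw [lq]
    exact Nat.mul_le_mul_right q hbz
  · rw [lr]
    exact Nat.mul_le_mul_right r hcz
  · rw [dq]
    exact hbs
  · rw [dr]
    exact hcs
  · rw [dq, dr]
    exact hbc
  · intro i hi
    rw [hset ⟨i, hi⟩, card_singleton]
  · intro p hp hd hzp hpM
    obtain ⟨i, hi⟩ := hbig p hp hd hzp hpM
    exact ⟨i, i.2, hi ▸ hpp i⟩
  · intro i
    rw [Par.ppI, hset i, sup_singleton]
    rfl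

open Classical in
private theorem l9_NB {P : Par} (hP : P.Adm) {z T : ℕ} (hz : 2 ≤ z) (hT : P.TZ z T)
    {b c : ℕ} {x : ℕ × ℕ} {pp : Fin P.J → ℕ}
    (hb : b ∈ Bset P.w z) (hc : c ∈ Bset P.w z) (hbc : b.Coprime c) (hx : x ∈ Cl P.w)
    (hpp : ∀ i : Fin P.J, pp i ∈ P.I z i) :
    NB P z T b c x.1 x.2 pp ≤
      (((((S1 P z T).filter fun y => y.1 / lpf y.1 = b).filter fun y => y.2 / lpf y.2 = c).filter
        fun y => (y.1 % WW P.w, y.2 % WW P.w) = x).filter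
        fun y => (fun i : Fin P.J => P.ppI z y.1 y.2 i) = pp).card := by
  unfold NB
  refine Finset.card_le_card_of_injOn (fun y => (b * y.1, c * y.2)) ?_ ?_
  · intro y hy
    rw [Finset.mem_coe, mem_filter, mem_product] at hy
    obtain ⟨⟨hq, hr⟩, h1, h2⟩ := hy
    obtain ⟨k1, k2, k3, k4⟩ := l9_ex hP hz hT hb hc hbc (show (x.1, x.2) ∈ Cl P.w from hx) hpp hq
      hr h1 h2
    simp only [Qa, mem_filter, mem_Ioc] at hq hr
    rw [Finset.mem_coe]
    simp only [mem_filter, S1, mem_product, mem_Ioc]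
    refine ⟨⟨⟨⟨⟨⟨⟨hq.2.2.1, hq.2.2.2.1⟩, hr.2.2.1, hr.2.2.2.1⟩, k1⟩, k2⟩, k3⟩, ?_⟩, ?_⟩
    · rw [hq.2.2.2.2, hr.2.2.2.2]
    · funext i
      exact k4 i
  · intro y _ y' _ h
    have hb1 : 0 < b := by
      simp only [Bset, mem_filter, mem_Icc] at hb
      omega
    have hc1 : 0 < c := by
      simp only [Bset, mem_filter, mem_Icc] at hc
      omega
    have h1 := congrArg Prod.fst h
    have h2 := congrArg Prod.snd h
    exact Prod.ext (Nat.eq_of_mul_eq_mul_left hb1 h1) (Nat.eq_of_mul_eq_mul_left hc1 h2)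

theorem card_S1 {P : Par} (hP : P.Adm) {z T : ℕ} (hz : 2 ≤ z) (hwz : P.w ≤ z) (hT : P.TZ z T) :
    ∑ b ∈ Bset P.w z, ∑ c ∈ (Bset P.w z).filter (fun c => b.Coprime c), ∑ x ∈ Cl P.w,
      ∑ pp ∈ Fintype.piFinset (fun i : Fin P.J => P.I z i), NB P z T b c x.1 x.2 pp ≤
      (S1 P z T).card := by
  classical
  refine le_trans (Finset.sum_le_sum fun b hb => ?_)
    (l9_fib (S1 P z T) (Bset P.w z) (fun y => y.1 / lpf y.1))
  refine le_trans (Finset.sum_le_sum fun c hc => ?_)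
    (l9_fib _ ((Bset P.w z).filter fun c => b.Coprime c) (fun y => y.2 / lpf y.2))
  refine le_trans (Finset.sum_le_sum fun x hx => ?_)
    (l9_fib _ (Cl P.w) (fun y => (y.1 % WW P.w, y.2 % WW P.w)))
  refine le_trans (Finset.sum_le_sum fun pp hpp => ?_)
    (l9_fib _ (Fintype.piFinset (fun i : Fin P.J => P.I z i))
      (fun y => (fun i : Fin P.J => P.ppI z y.1 y.2 i)))
  rw [mem_filter] at hc
  exact l9_NB hP hz hT hb hc.1 hc.2 hx (fun i => Fintype.mem_piFinset.1 hpp i)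

end Pool.Agent.H77.K3
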