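import Mathlib

/-!
# P1: symmetric forms over `F_2` with a characteristic vector

Let `B` be a symmetric bilinear form on a finite `F_2`-space `E`, and let `e ∈ E` be such that
`B x x = B x e` for all `x`, and `B e e = 0`. Then `dim E + dim (ker B)` is even.

Proof. Put `B' x y = B x y + B x e * B y e`. It is symmetric and alternating:
`B' x x = B x x + (B x e)^2 = B x x + B x e = 0`. The kernels agree: if `B x = 0` then `B x e = 0`,
so `B' x y = 0` for all `y`. If `B' x = 0`, then `0 = B' x e = B x e + B x e * B e e = B x e`, so
`B x y = B' x y + B x e * B y e = 0` for all `y`. So it suffices that an alternating form `B'` has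
even rank: by induction on `dim E`: if `B' = 0` then the kernel is `E`. Otherwise choose `x, y` with
`B' x y = 1`, `H = span {x, y}` (dimension 2: `B' x x = B' y y = 0`), `E = H ⊕ H^⊥`
(`z - B'(z,y) x - B'(z,x) y ∈ H^⊥`), the kernel of `B'` is contained in `H^⊥` and is the kernel of the
restriction of `B'` to `H^⊥`. (Or: `E / ker B'` with the induced nondegenerate alternating form;
choose a maximal isotropic subspace `W`, then `W = W^⊥`, `dim = 2 dim W`,
`LinearMap.BilinForm.finrank_orthogonal`.)
-/

set_option autoImplicit false

namespace Pool.Agent.H77.K3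

private theorem even_rank_alt (n : ℕ) : ∀ (E : Type) [AddCommGroup E] [Module (ZMod 2) E] [Finite E]
    (B : E →ₗ[ZMod 2] E →ₗ[ZMod 2] ZMod 2) (_ : ∀ x y, B x y = B y x) (_ : ∀ x, B x x = 0)
    (_ : Module.finrank (ZMod 2) E = n),
    Even (Module.finrank (ZMod 2) E + Module.finrank (ZMod 2) (LinearMap.ker B)) := by
  induction n using Nat.strong_induction_on with
  | _ n ih =>
    intro E _ _ _ B hs ha hn
    have : Module.Finite (ZMod 2) E := Module.Finite.of_finite
    by_cases h0 : B = 0
    · subst h0
      rw [LinearMap.ker_zero, finrank_top]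
      exact ⟨_, rfl⟩
    · have hex : ∃ x y, B x y ≠ 0 := by
        by_contra hcon
        push Not at hcon
        apply h0
        ext x y
        simpa using hcon x y
      obtain ⟨x, y, hxy⟩ := hex
      have h01 : ∀ a : ZMod 2, a ≠ 0 → a = 1 := by decide
      have hxy1 : B x y = 1 := h01 _ hxy
      have hyx1 : B y x = 1 := by rw [hs]; exact hxy1
      let f : E →ₗ[ZMod 2] (ZMod 2 × ZMod 2) := (B x).prod (B y)
      have hf : ∀ z, f z = (B x z, B y z) := fun z => rfl
      have hsurj : LinearMap.range f = ⊤ := by
        rw [LinearMap.range_eq_top]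
        intro ⟨a, b⟩
        refine ⟨a • y + b • x, ?_⟩
        rw [hf]
        simp [hxy1, hyx1, ha x, ha y]
      have hrk := LinearMap.finrank_range_add_finrank_ker f
      rw [hsurj, finrank_top, Module.finrank_prod, Module.finrank_self] at hrk
      set K := LinearMap.ker f with hK
      have hmK : ∀ z, z ∈ K ↔ B x z = 0 ∧ B y z = 0 := by
        intro z
        rw [hK, LinearMap.mem_ker, hf, Prod.mk_eq_zero]
      let B' : K →ₗ[ZMod 2] K →ₗ[ZMod 2] ZMod 2 := B.compl₁₂ K.subtype K.subtype
      have hB' : ∀ u v : K, B' u v = B u v := fun u v => rfl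
      have key := ih (Module.finrank (ZMod 2) K) (by omega) K B' (fun u v => by
        rw [hB', hB', hs]) (fun u => by rw [hB', ha]) rfl
      have hker : (LinearMap.ker B').map K.subtype = LinearMap.ker B := by
        ext z
        simp only [Submodule.mem_map, LinearMap.mem_ker, Submodule.subtype_apply]
        constructor
        · rintro ⟨w, hw, rfl⟩
          have hwK := (hmK w).mp w.2
          ext u
          have huK : u + (B u y) • x + (B u x) • y ∈ K := by
            rw [hmK]
            have h2 : ∀ a : ZMod 2, a + a = 0 := by decide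
            constructor
            · simp only [map_add, map_smul, ha x, hxy1, smul_eq_mul, mul_zero, mul_one, add_zero]
              rw [hs x u, h2]
            · simp only [map_add, map_smul, ha y, hyx1, smul_eq_mul, mul_zero, mul_one, add_zero]
              rw [hs y u, h2]
          have h3 := LinearMap.congr_fun hw ⟨_, huK⟩
          rw [hB'] at h3
          simp only [map_add, map_smul, smul_eq_mul, LinearMap.zero_apply] at h3
          rw [hs w x, hwK.1, hs w y, hwK.2] at h3
          simpa using h3
        · intro hz
          have hzK : z ∈ K := by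
            rw [hmK, hs x z, hs y z, hz]
            simp
          refine ⟨⟨z, hzK⟩, ?_, rfl⟩
          ext u
          rw [hB', hz]
          simp
      have hfk : Module.finrank (ZMod 2) (LinearMap.ker B)
          = Module.finrank (ZMod 2) (LinearMap.ker B') := by
        rw [← hker]
        exact (LinearEquiv.finrank_eq (Submodule.equivMapOfInjective K.subtype
          K.injective_subtype (LinearMap.ker B'))).symm
      rw [hfk, ← hrk]
      obtain ⟨m, hm⟩ := key
      exact ⟨m + 1, by omega⟩

theorem even_rank {E : Type} [AddCommGroup E] [Module (ZMod 2) E] [Finite E]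
    (B : E →ₗ[ZMod 2] E →ₗ[ZMod 2] ZMod 2) (hs : ∀ x y, B x y = B y x) (e : E)
    (he : ∀ x, B x x = B x e) (hee : B e e = 0) :
    Even (Module.finrank (ZMod 2) E + Module.finrank (ZMod 2) (LinearMap.ker B)) := by
  let C : E →ₗ[ZMod 2] E →ₗ[ZMod 2] ZMod 2 := B + (LinearMap.mul (ZMod 2) (ZMod 2)).compl₁₂ (B e) (B e)
  have hC : ∀ x y, C x y = B x y + B e x * B e y := fun x y => rfl
  have hker : LinearMap.ker B = LinearMap.ker C := by
    ext x
    simp only [LinearMap.mem_ker]
    constructor
    · intro hx
      ext y
      rw [hC, hs e x, hx]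
      simp
    · intro hx
      have h1 : B e x = 0 := by
        have := LinearMap.congr_fun hx e
        rw [hC, hee, mul_zero, add_zero, hs x e] at this
        simpa using this
      ext y
      have := LinearMap.congr_fun hx y
      rw [hC, h1, zero_mul, add_zero] at this
      exact this
  rw [hker]
  refine even_rank_alt _ E C ?_ ?_ rfl
  · intro x y
    rw [hC, hC, hs x y, mul_comm]
  · intro x
    have h2 : ∀ a : ZMod 2, a + a * a = 0 := by decide
    rw [hC, he x, hs x e, h2]

end Pool.Agent.H77.K3
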