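import Pool.Agent.H77.K3.B1

/-!
# P2: the symmetric form whose kernel is the Selmer group

`P = oddP Y Z`, `ε_p = bt p (-1)`, `e_p = bt p 2`. `EP = (P → V2) × F_2 × F_2 ∋ x = (v, σ, τ)`;
`a = sum ε_p v_p`, `b = sum e_p v_p ∈ V2`, `t1 = a.2 + σ`, `c = a.1 + b.2`, `s = (0, σ)`,
`t = (t1, τ)`, `Y_p(x) = yF .. v s t p`. (`toE x = (v, s, t)`, `v` extended by `0`.)
`BF x x' = sum_(p ∈ P) om (v_p) (Y_p(x')) + t1 * c' + τ * b'.1`.

`bf_symm`. As in B2 (without using the conditions of `G2`):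
`sum_p [om v_p Y'_p + om Y_p v'_p] = om a a' + om a s' + om s a' + om b t' + om t b'`
`= a.1 t1' + t1 a'.1 + b.2 t1' + t1 b'.2 + b.1 τ' + τ b'.1 = c t1' + t1 c' + b.1 τ' + τ b'.1`
(`a.1 a'.2 + a.1 σ' = a.1 t1'`). Hence `BF x x' + BF x' x = 0`.

`bf_diag`: `BF x x = sum over p ∈ P with typ 0 of ε_p (v_p).2 + sum over p with typ 1 of
ε_p (v_p).1`. Proof: `sum_p om v_p Y_p = sum_(p ≠ q) [q/p] om v_p v_q + om b t + om a s +
sum_p om v_p (NN v_p)` (`om v_p v_p = 0`, so no `rho`). The first sum over unordered pairs is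
`sum_(p<q) ε_p ε_q om v_p v_q` (`bt_qr`), and
`a.1 a.2 = sum_p ε_p (v_p).1 (v_p).2 + sum_(p<q) ε_p ε_q om v_p v_q`. And `om v (NN v)` is
`ε (v.1 v.2 + v.2)`, `ε (v.1 v.2 + v.1)`, `ε v.1 v.2` for the types 0, 1, 2 (squares in `F_2`). So
`sum_p om v_p Y_p = a.1 a.2 + (b.1 τ + b.2 t1) + a.1 σ + ℓ = (a.1 + b.2) t1 + b.1 τ + ℓ`, `ℓ` the claimed
value; add `t1 c + τ b.1`.

`bf_ker`: `BF x x' = 0` for all `x` iff `Y_p(x') = 0` for all `p ∈ P`, `c' = 0`, `b'.1 = 0`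
(take `x = (0,0,1)`, `x = (0,1,0)`, and `x = (v, 0, 0)` with `v` supported at one prime; `om` is
nondegenerate), that is, iff `toE x' ∈ Sl Y Z` (`mem_DDQ`; the second condition at 2 holds by the
definition of `t1`).
-/

set_option autoImplicit false

namespace Pool.Agent.H77.K3

open Finset Pool.Agent.H77.SV

/-- the space -/
abbrev EP (Y Z : ℕ) : Type := (oddP Y Z → V2) × ZMod 2 × ZMod 2

/-- extension by zero -/
def exv {Y Z : ℕ} (v : oddP Y Z → V2) (p : ℕ) : V2 := if h : p ∈ oddP Y Z then v ⟨p, h⟩ else 0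

def aV {Y Z : ℕ} (v : oddP Y Z → V2) : V2 := ∑ p : oddP Y Z, bt (p : ℕ) (-1) • v p

def bV {Y Z : ℕ} (v : oddP Y Z → V2) : V2 := ∑ p : oddP Y Z, bt (p : ℕ) 2 • v p

/-- the vector of `EE` -/
def toE {Y Z : ℕ} (x : EP Y Z) : EE := (exv x.1, (0, x.2.1), ((aV x.1).2 + x.2.1, x.2.2))

/-- the form -/
def BF (Y Z : ℕ) (x x' : EP Y Z) : ZMod 2 :=
  ∑ p : oddP Y Z, om (x.1 p) (yL Y Z p (toE x')) +
    ((aV x.1).2 + x.2.1) * ((aV x'.1).1 + (bV x'.1).2) + x.2.2 * (bV x'.1).1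

private lemma P2_exv {Y Z : ℕ} (v : oddP Y Z → V2) (p : oddP Y Z) : exv v (p : ℕ) = v p := by
  unfold exv
  rw [dif_pos p.2]

private lemma P2_exv_add {Y Z : ℕ} (v w : oddP Y Z → V2) (p : ℕ) :
    exv (v + w) p = exv v p + exv w p := by
  unfold exv
  split_ifs
  · rfl
  · rw [add_zero]

private lemma P2_aV {Y Z : ℕ} (v : oddP Y Z → V2) :
    aV v = ∑ p ∈ oddP Y Z, bt p (-1) • exv v p := by
  rw [← Finset.sum_coe_sort]
  unfold aV
  exact sum_congr rfl fun p _ => by rw [P2_exv]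

private lemma P2_bV {Y Z : ℕ} (v : oddP Y Z → V2) :
    bV v = ∑ p ∈ oddP Y Z, bt p 2 • exv v p := by
  rw [← Finset.sum_coe_sort]
  unfold bV
  exact sum_congr rfl fun p _ => by rw [P2_exv]

private lemma P2_aV1 {Y Z : ℕ} (v : oddP Y Z → V2) :
    (aV v).1 = ∑ p ∈ oddP Y Z, bt p (-1) * (exv v p).1 := by
  rw [P2_aV, Prod.fst_sum]; rfl

private lemma P2_aV2 {Y Z : ℕ} (v : oddP Y Z → V2) :
    (aV v).2 = ∑ p ∈ oddP Y Z, bt p (-1) * (exv v p).2 := by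
  rw [P2_aV, Prod.snd_sum]; rfl

private lemma P2_bV1 {Y Z : ℕ} (v : oddP Y Z → V2) :
    (bV v).1 = ∑ p ∈ oddP Y Z, bt p 2 * (exv v p).1 := by
  rw [P2_bV, Prod.fst_sum]; rfl

private lemma P2_bV2 {Y Z : ℕ} (v : oddP Y Z → V2) :
    (bV v).2 = ∑ p ∈ oddP Y Z, bt p 2 * (exv v p).2 := by
  rw [P2_bV, Prod.snd_sum]; rfl

private lemma P2_BF {Y Z : ℕ} (x x' : EP Y Z) : BF Y Z x x' =
    ∑ p ∈ oddP Y Z, om (exv x.1 p) (yL Y Z p (toE x')) +
    ((aV x.1).2 + x.2.1) * ((aV x'.1).1 + (bV x'.1).2) + x.2.2 * (bV x'.1).1 := by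
  unfold BF
  rw [← Finset.sum_coe_sort (oddP Y Z)]
  congr 2
  exact sum_congr rfl fun p _ => by rw [P2_exv]

private theorem P2_two : (2 : ZMod 2) = 0 := rfl

private theorem P2_idem : ∀ x : ZMod 2, x * x = x := by decide

private theorem P2_N (Y Z p : ℕ) (x y : V2) :
    om x (NN (typ Y Z p) (bt p (-1)) y) + om (NN (typ Y Z p) (bt p (-1)) x) y =
      bt p (-1) * om x y := by
  unfold NN om
  split_ifs
  · linear_combination (bt p (-1) * x.2 * y.2) * P2_two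
  · linear_combination (bt p (-1) * x.1 * y.1) * P2_two
  · ring

private theorem P2_add_right (x y z : V2) : om x (y + z) = om x y + om x z := by
  unfold om; simp only [Prod.fst_add, Prod.snd_add]; ring

private theorem P2_add_left (x y z : V2) : om (x + y) z = om x z + om y z := by
  unfold om; simp only [Prod.fst_add, Prod.snd_add]; ring

private theorem P2_smul_right (c : ZMod 2) (x y : V2) : om x (c • y) = c * om x y := by
  unfold om; simp only [Prod.smul_fst, Prod.smul_snd, smul_eq_mul]; ring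

private theorem P2_smul_left (c : ZMod 2) (x y : V2) : om (c • x) y = c * om x y := by
  unfold om; simp only [Prod.smul_fst, Prod.smul_snd, smul_eq_mul]; ring

private theorem P2_symm (x y : V2) : om x y = om y x := by
  unfold om; ring

private theorem P2_sum_right {ι : Type} (S : Finset ι) (x : V2) (f : ι → V2) :
    om x (∑ i ∈ S, f i) = ∑ i ∈ S, om x (f i) := by
  unfold om
  rw [Prod.fst_sum, Prod.snd_sum, mul_sum, mul_sum, ← sum_add_distrib]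

private theorem P2_sum_left {ι : Type} (S : Finset ι) (x : V2) (f : ι → V2) :
    om (∑ i ∈ S, f i) x = ∑ i ∈ S, om (f i) x := by
  unfold om
  rw [Prod.fst_sum, Prod.snd_sum, sum_mul, sum_mul, ← sum_add_distrib]

private theorem P2_term (Y Z p : ℕ) (d d' : EE) :
    om (d.1 p) (yL Y Z p d') + om (yL Y Z p d) (d'.1 p) =
      (∑ q ∈ (oddP Y Z).erase p, bt p q * om (d.1 p) (d'.1 q) +
        ∑ q ∈ (oddP Y Z).erase p, bt p q * om (d.1 q) (d'.1 p)) +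
      bt p 2 * (om (d.1 p) d'.2.2 + om d.2.2 (d'.1 p)) +
      bt p (-1) * (om (d.1 p) d'.2.1 + om d.2.1 (d'.1 p)) +
      bt p (-1) * om (d.1 p) (d'.1 p) := by
  have hN := P2_N Y Z p (d.1 p) (d'.1 p)
  have h1 : yL Y Z p d' = yF Y Z d'.1 d'.2.1 d'.2.2 p := rfl
  have h2 : yL Y Z p d = yF Y Z d.1 d.2.1 d.2.2 p := rfl
  rw [h1, h2]
  unfold yF
  simp only [P2_add_right, P2_add_left, P2_smul_right, P2_smul_left, P2_sum_right, P2_sum_left]
  linear_combination hN + (rho Y Z p * om (d.1 p) (d'.1 p)) * P2_two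

private theorem P2_mem {Y Z p : ℕ} (h : p ∈ oddP Y Z) : p.Prime ∧ p ≠ 2 := by
  unfold oddP at h
  rw [mem_erase] at h
  exact ⟨Nat.prime_of_mem_primeFactors h.2, h.1⟩

/-- reciprocity without the conditions at `2` -/
private theorem P2_R {Y Z : ℕ} (d d' : EE) :
    ∑ p ∈ oddP Y Z, (om (d.1 p) (yL Y Z p d') + om (yL Y Z p d) (d'.1 p)) =
      ((∑ p ∈ oddP Y Z, bt p (-1) * (d.1 p).1) * (∑ p ∈ oddP Y Z, bt p (-1) * (d'.1 p).2) +
      (∑ p ∈ oddP Y Z, bt p (-1) * (d.1 p).2) * (∑ p ∈ oddP Y Z, bt p (-1) * (d'.1 p).1)) +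
      ((∑ p ∈ oddP Y Z, bt p 2 * (d.1 p).1) * d'.2.2.2 +
        (∑ p ∈ oddP Y Z, bt p 2 * (d.1 p).2) * d'.2.2.1 +
      (d.2.2.1 * (∑ p ∈ oddP Y Z, bt p 2 * (d'.1 p).2) +
        d.2.2.2 * (∑ p ∈ oddP Y Z, bt p 2 * (d'.1 p).1))) +
      ((∑ p ∈ oddP Y Z, bt p (-1) * (d.1 p).1) * d'.2.1.2 +
        (∑ p ∈ oddP Y Z, bt p (-1) * (d.1 p).2) * d'.2.1.1 +
      (d.2.1.1 * (∑ p ∈ oddP Y Z, bt p (-1) * (d'.1 p).2) +
        d.2.1.2 * (∑ p ∈ oddP Y Z, bt p (-1) * (d'.1 p).1))) := by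
  set P := oddP Y Z with hP
  have hdouble : ∑ p ∈ P, (∑ q ∈ P.erase p, bt p q * om (d.1 p) (d'.1 q) +
      ∑ q ∈ P.erase p, bt p q * om (d.1 q) (d'.1 p)) +
      ∑ p ∈ P, bt p (-1) * om (d.1 p) (d'.1 p) =
      ∑ p ∈ P, ∑ q ∈ P, bt p (-1) * bt q (-1) * om (d.1 p) (d'.1 q) := by
    have hswap : ∑ p ∈ P, ∑ q ∈ P.erase p, bt p q * om (d.1 q) (d'.1 p) =
        ∑ p ∈ P, ∑ q ∈ P.erase p, bt q p * om (d.1 p) (d'.1 q) := by
      apply Finset.sum_comm'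
      intro x y
      simp only [mem_erase]
      constructor
      · rintro ⟨a, b, c⟩; exact ⟨⟨fun h => b h.symm, a⟩, c⟩
      · rintro ⟨⟨a, b⟩, c⟩; exact ⟨b, fun h => a h.symm, c⟩
    rw [sum_add_distrib, hswap, ← sum_add_distrib, ← sum_add_distrib]
    apply sum_congr rfl
    intro p hp
    obtain ⟨hpp, hp2⟩ := P2_mem hp
    rw [← sum_erase_add P _ hp, ← sum_add_distrib, P2_idem]
    congr 1
    apply sum_congr rfl
    intro q hq
    rw [mem_erase] at hq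
    obtain ⟨hqp, hq2⟩ := P2_mem hq.2
    rw [← bt_qr hpp hqp hp2 hq2 (Ne.symm hq.1)]
    ring
  have hprod : ∑ p ∈ P, ∑ q ∈ P, bt p (-1) * bt q (-1) * om (d.1 p) (d'.1 q) =
      (∑ p ∈ P, bt p (-1) * (d.1 p).1) * (∑ p ∈ P, bt p (-1) * (d'.1 p).2) +
      (∑ p ∈ P, bt p (-1) * (d.1 p).2) * (∑ p ∈ P, bt p (-1) * (d'.1 p).1) := by
    rw [sum_mul_sum, sum_mul_sum, ← sum_add_distrib]
    apply sum_congr rfl
    intro p _
    rw [← sum_add_distrib]
    apply sum_congr rfl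
    intro q _
    unfold om
    ring
  have ht : ∑ p ∈ P, bt p 2 * (om (d.1 p) d'.2.2 + om d.2.2 (d'.1 p)) =
      (∑ p ∈ P, bt p 2 * (d.1 p).1) * d'.2.2.2 + (∑ p ∈ P, bt p 2 * (d.1 p).2) * d'.2.2.1 +
      (d.2.2.1 * (∑ p ∈ P, bt p 2 * (d'.1 p).2) + d.2.2.2 * (∑ p ∈ P, bt p 2 * (d'.1 p).1)) := by
    rw [sum_mul, sum_mul, mul_sum, mul_sum, ← sum_add_distrib, ← sum_add_distrib,
      ← sum_add_distrib]
    apply sum_congr rfl
    intro p _
    unfold om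
    ring
  have hsg : ∑ p ∈ P, bt p (-1) * (om (d.1 p) d'.2.1 + om d.2.1 (d'.1 p)) =
      (∑ p ∈ P, bt p (-1) * (d.1 p).1) * d'.2.1.2 + (∑ p ∈ P, bt p (-1) * (d.1 p).2) * d'.2.1.1 +
      (d.2.1.1 * (∑ p ∈ P, bt p (-1) * (d'.1 p).2) +
        d.2.1.2 * (∑ p ∈ P, bt p (-1) * (d'.1 p).1)) := by
    rw [sum_mul, sum_mul, mul_sum, mul_sum, ← sum_add_distrib, ← sum_add_distrib,
      ← sum_add_distrib]
    apply sum_congr rfl
    intro p _
    unfold om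
    ring
  have hall : ∑ p ∈ P, (om (d.1 p) (yL Y Z p d') + om (yL Y Z p d) (d'.1 p)) =
      (∑ p ∈ P, (∑ q ∈ P.erase p, bt p q * om (d.1 p) (d'.1 q) +
      ∑ q ∈ P.erase p, bt p q * om (d.1 q) (d'.1 p)) +
      ∑ p ∈ P, bt p (-1) * om (d.1 p) (d'.1 p)) +
      ∑ p ∈ P, bt p 2 * (om (d.1 p) d'.2.2 + om d.2.2 (d'.1 p)) +
      ∑ p ∈ P, bt p (-1) * (om (d.1 p) d'.2.1 + om d.2.1 (d'.1 p)) := by
    rw [← sum_add_distrib, ← sum_add_distrib, ← sum_add_distrib]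
    apply sum_congr rfl
    intro p _
    rw [P2_term]
    ring
  rw [hall, hdouble, hprod, ht, hsg]

/-- a double sum over the pairs `p ≠ q` is a sum over the pairs `p < q` -/
private theorem P2_pairs (P : Finset ℕ) (f : ℕ → ℕ → ZMod 2) :
    ∑ p ∈ P, ∑ q ∈ P.erase p, f p q =
      ∑ p ∈ P, ∑ q ∈ P.filter (p < ·), (f p q + f q p) := by
  have h1 : ∀ p ∈ P, ∑ q ∈ P.erase p, f p q =
      ∑ q ∈ P.filter (p < ·), f p q + ∑ q ∈ P.filter (· < p), f p q := by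
    intro p _
    rw [← sum_union]
    · apply sum_congr _ fun _ _ => rfl
      ext q
      simp only [mem_erase, mem_union, mem_filter]
      constructor
      · rintro ⟨h, hq⟩
        rcases lt_or_gt_of_ne h with h' | h'
        · exact Or.inr ⟨hq, h'⟩
        · exact Or.inl ⟨hq, h'⟩
      · rintro (⟨hq, h⟩ | ⟨hq, h⟩)
        · exact ⟨ne_of_gt h, hq⟩
        · exact ⟨ne_of_lt h, hq⟩
    · rw [disjoint_left]
      intro q h h'
      simp only [mem_filter] at h h'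
      exact absurd h.2 (not_lt.2 h'.2.le)
  rw [sum_congr rfl h1, sum_add_distrib]
  have h2 : ∑ p ∈ P, ∑ q ∈ P.filter (· < p), f p q =
      ∑ p ∈ P, ∑ q ∈ P.filter (p < ·), f q p := by
    apply Finset.sum_comm'
    intro x y
    simp only [mem_filter]
    tauto
  rw [h2, ← sum_add_distrib]
  exact sum_congr rfl fun p _ => by rw [← sum_add_distrib]

/-- the quadratic version of reciprocity -/
private theorem P2_quad {Y Z : ℕ} (v : ℕ → V2) :
    ∑ p ∈ oddP Y Z, ∑ q ∈ (oddP Y Z).erase p, bt p q * om (v p) (v q) =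
      (∑ p ∈ oddP Y Z, bt p (-1) * (v p).1) * (∑ p ∈ oddP Y Z, bt p (-1) * (v p).2) +
        ∑ p ∈ oddP Y Z, bt p (-1) * ((v p).1 * (v p).2) := by
  set P := oddP Y Z with hP
  have h1 : ∑ p ∈ P, ∑ q ∈ P.erase p, bt p q * om (v p) (v q) =
      ∑ p ∈ P, ∑ q ∈ P.filter (p < ·), bt p (-1) * bt q (-1) * om (v p) (v q) := by
    rw [P2_pairs]
    apply sum_congr rfl
    intro p hp
    apply sum_congr rfl
    intro q hq
    rw [mem_filter] at hq
    obtain ⟨hpp, hp2⟩ := P2_mem hp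
    obtain ⟨hqp, hq2⟩ := P2_mem hq.1
    rw [← bt_qr hpp hqp hp2 hq2 (ne_of_lt hq.2), P2_symm (v q) (v p)]
    ring
  have h2 : (∑ p ∈ P, bt p (-1) * (v p).1) * (∑ p ∈ P, bt p (-1) * (v p).2) =
      ∑ p ∈ P, bt p (-1) * ((v p).1 * (v p).2) +
        ∑ p ∈ P, ∑ q ∈ P.filter (p < ·), bt p (-1) * bt q (-1) * om (v p) (v q) := by
    have h3 : ∀ p ∈ P, ∑ q ∈ P, bt p (-1) * (v p).1 * (bt q (-1) * (v q).2) =
        ∑ q ∈ P.erase p, bt p (-1) * (v p).1 * (bt q (-1) * (v q).2) +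
          bt p (-1) * ((v p).1 * (v p).2) := by
      intro p hp
      rw [← sum_erase_add P _ hp]
      congr 1
      linear_combination ((v p).1 * (v p).2) * P2_idem (bt p (-1))
    rw [sum_mul_sum, sum_congr rfl h3, sum_add_distrib, P2_pairs, add_comm]
    congr 1
    apply sum_congr rfl
    intro p _
    apply sum_congr rfl
    intro q _
    unfold om
    ring
  rw [h1, h2]
  linear_combination -(∑ p ∈ P, bt p (-1) * ((v p).1 * (v p).2)) * P2_two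

theorem toE_add {Y Z : ℕ} (x y : EP Y Z) : toE (x + y) = toE x + toE y := by
  have h1 : exv (x + y).1 = exv x.1 + exv y.1 := by
    funext p
    rw [Prod.fst_add, P2_exv_add]
    rfl
  have h2 : aV (x + y).1 = aV x.1 + aV y.1 := by
    unfold aV
    rw [← sum_add_distrib]
    exact sum_congr rfl fun p _ => by rw [Prod.fst_add, Pi.add_apply, smul_add]
  unfold toE
  rw [h1, h2]
  refine Prod.ext rfl (Prod.ext (Prod.ext ?_ rfl) (Prod.ext ?_ rfl))
  · simp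
  · simp only [Prod.snd_add, Prod.fst_add]
    ring

theorem bf_symm {Y Z : ℕ} (x x' : EP Y Z) : BF Y Z x x' = BF Y Z x' x := by
  have h := P2_R (Y := Y) (Z := Z) (toE x) (toE x')
  have e1 : ∑ p ∈ oddP Y Z, bt p (-1) * ((toE x).1 p).1 = (aV x.1).1 := (P2_aV1 _).symm
  have e2 : ∑ p ∈ oddP Y Z, bt p (-1) * ((toE x).1 p).2 = (aV x.1).2 := (P2_aV2 _).symm
  have e3 : ∑ p ∈ oddP Y Z, bt p 2 * ((toE x).1 p).1 = (bV x.1).1 := (P2_bV1 _).symm
  have e4 : ∑ p ∈ oddP Y Z, bt p 2 * ((toE x).1 p).2 = (bV x.1).2 := (P2_bV2 _).symm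
  have e1' : ∑ p ∈ oddP Y Z, bt p (-1) * ((toE x').1 p).1 = (aV x'.1).1 := (P2_aV1 _).symm
  have e2' : ∑ p ∈ oddP Y Z, bt p (-1) * ((toE x').1 p).2 = (aV x'.1).2 := (P2_aV2 _).symm
  have e3' : ∑ p ∈ oddP Y Z, bt p 2 * ((toE x').1 p).1 = (bV x'.1).1 := (P2_bV1 _).symm
  have e4' : ∑ p ∈ oddP Y Z, bt p 2 * ((toE x').1 p).2 = (bV x'.1).2 := (P2_bV2 _).symm
  rw [e1, e2, e3, e4, e1', e2', e3', e4', sum_add_distrib] at h
  have hy : ∑ p ∈ oddP Y Z, om (yL Y Z p (toE x)) ((toE x').1 p) =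
      ∑ p ∈ oddP Y Z, om (exv x'.1 p) (yL Y Z p (toE x)) :=
    sum_congr rfl fun p _ => P2_symm _ _
  have hx : ∑ p ∈ oddP Y Z, om ((toE x).1 p) (yL Y Z p (toE x')) =
      ∑ p ∈ oddP Y Z, om (exv x.1 p) (yL Y Z p (toE x')) := rfl
  have s1 : (toE x).2.1.1 = 0 := rfl
  have s2 : (toE x).2.1.2 = x.2.1 := rfl
  have t1 : (toE x).2.2.1 = (aV x.1).2 + x.2.1 := rfl
  have t2 : (toE x).2.2.2 = x.2.2 := rfl
  have s1' : (toE x').2.1.1 = 0 := rfl
  have s2' : (toE x').2.1.2 = x'.2.1 := rfl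
  have t1' : (toE x').2.2.1 = (aV x'.1).2 + x'.2.1 := rfl
  have t2' : (toE x').2.2.2 = x'.2.2 := rfl
  rw [hy, hx, s1, s2, t1, t2, s1', s2', t1', t2'] at h
  rw [P2_BF, P2_BF]
  generalize (∑ p ∈ oddP Y Z, om (exv x.1 p) (yL Y Z p (toE x'))) = S at *
  generalize (∑ p ∈ oddP Y Z, om (exv x'.1 p) (yL Y Z p (toE x))) = S' at *
  generalize (aV x.1).1 = a1 at *
  generalize (aV x.1).2 = a2 at *
  generalize (bV x.1).1 = b1 at *
  generalize (bV x.1).2 = b2 at *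
  generalize (aV x'.1).1 = a1' at *
  generalize (aV x'.1).2 = a2' at *
  generalize (bV x'.1).1 = b1' at *
  generalize (bV x'.1).2 = b2' at *
  linear_combination h - (S' - (a2 + x.2.1) * (a1' + b2') - x.2.2 * b1') * P2_two

theorem bf_diag {Y Z : ℕ} (x : EP Y Z) : BF Y Z x x =
    ∑ p : oddP Y Z, (if typ Y Z p = 0 then bt (p : ℕ) (-1) * (x.1 p).2 else
      if typ Y Z p = 1 then bt (p : ℕ) (-1) * (x.1 p).1 else 0) := by
  have hterm : ∀ p, om (exv x.1 p) (yL Y Z p (toE x)) =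
      ∑ q ∈ (oddP Y Z).erase p, bt p q * om (exv x.1 p) (exv x.1 q) +
      bt p 2 * om (exv x.1 p) ((aV x.1).2 + x.2.1, x.2.2) +
      bt p (-1) * om (exv x.1 p) (0, x.2.1) +
      om (exv x.1 p) (NN (typ Y Z p) (bt p (-1)) (exv x.1 p)) := by
    intro p
    have h1 : yL Y Z p (toE x) =
      yF Y Z (exv x.1) (0, x.2.1) ((aV x.1).2 + x.2.1, x.2.2) p := rfl
    rw [h1]
    unfold yF
    simp only [P2_add_right, P2_smul_right, P2_sum_right]
    have h2 : om (exv x.1 p) (exv x.1 p) = 0 := by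
      unfold om
      linear_combination ((exv x.1 p).1 * (exv x.1 p).2) * P2_two
    rw [h2, mul_zero, add_zero]
  have hN : ∀ p, bt p (-1) * ((exv x.1 p).1 * (exv x.1 p).2) +
      om (exv x.1 p) (NN (typ Y Z p) (bt p (-1)) (exv x.1 p)) =
      (if typ Y Z p = 0 then bt p (-1) * (exv x.1 p).2 else
        if typ Y Z p = 1 then bt p (-1) * (exv x.1 p).1 else 0) := by
    intro p
    have i1 := P2_idem (exv x.1 p).1
    have i2 := P2_idem (exv x.1 p).2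
    unfold NN om
    split_ifs
    · linear_combination (bt p (-1) * (exv x.1 p).1 * (exv x.1 p).2) * P2_two + bt p (-1) * i2
    · linear_combination (bt p (-1) * (exv x.1 p).1 * (exv x.1 p).2) * P2_two + bt p (-1) * i1
    · linear_combination (bt p (-1) * (exv x.1 p).1 * (exv x.1 p).2) * P2_two
  have hR : ∑ p : oddP Y Z, (if typ Y Z p = 0 then bt (p : ℕ) (-1) * (x.1 p).2 else
      if typ Y Z p = 1 then bt (p : ℕ) (-1) * (x.1 p).1 else 0) =
      ∑ p ∈ oddP Y Z, (bt p (-1) * ((exv x.1 p).1 * (exv x.1 p).2) +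
      om (exv x.1 p) (NN (typ Y Z p) (bt p (-1)) (exv x.1 p))) := by
    rw [← Finset.sum_coe_sort (oddP Y Z)]
    apply sum_congr rfl
    intro p _
    rw [hN, P2_exv]
  rw [hR, P2_BF, sum_congr rfl fun p _ => hterm p]
  simp only [sum_add_distrib]
  rw [P2_quad]
  have hb : ∑ p ∈ oddP Y Z, bt p 2 * om (exv x.1 p) ((aV x.1).2 + x.2.1, x.2.2) =
      (bV x.1).1 * x.2.2 + (bV x.1).2 * ((aV x.1).2 + x.2.1) := by
    rw [P2_bV1, P2_bV2, sum_mul, sum_mul, ← sum_add_distrib]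
    apply sum_congr rfl
    intro p _
    unfold om
    ring
  have ha : ∑ p ∈ oddP Y Z, bt p (-1) * om (exv x.1 p) (0, x.2.1) = (aV x.1).1 * x.2.1 := by
    rw [P2_aV1, sum_mul]
    apply sum_congr rfl
    intro p _
    unfold om
    ring
  rw [hb, ha, ← P2_aV1, ← P2_aV2]
  generalize (∑ p ∈ oddP Y Z, bt p (-1) * ((exv x.1 p).1 * (exv x.1 p).2)) = S1
  generalize (∑ p ∈ oddP Y Z, om (exv x.1 p) (NN (typ Y Z p) (bt p (-1)) (exv x.1 p))) = S2
  generalize (aV x.1).1 = a1 at *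
  generalize (aV x.1).2 = a2 at *
  generalize (bV x.1).1 = b1 at *
  generalize (bV x.1).2 = b2 at *
  linear_combination (a1 * a2 + a1 * x.2.1 + b1 * x.2.2 + b2 * (a2 + x.2.1)) * P2_two

theorem bf_ker {Y Z : ℕ} (x' : EP Y Z) : (∀ x, BF Y Z x x' = 0) ↔ toE x' ∈ Sl Y Z := by
  have hc1 : cL1 Y Z (toE x') = (bV x'.1).1 := (P2_bV1 _).symm
  have hc2 : cL2 Y Z (toE x') = 0 := by
    have h : cL2 Y Z (toE x') = (aV x'.1).2 + x'.2.1 + ((aV x'.1).2 + x'.2.1) := by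
      have h' : cL2 Y Z (toE x') = ∑ p ∈ oddP Y Z, bt p (-1) * (exv x'.1 p).2 + x'.2.1 +
        ((aV x'.1).2 + x'.2.1) := rfl
      rw [h', ← P2_aV2]
    rw [h]
    exact CharTwo.add_self_eq_zero _
  have hc3 : cL3 Y Z (toE x') = (aV x'.1).1 + (bV x'.1).2 := by
    rw [P2_aV1, P2_bV2, add_comm, ← sum_add_distrib]
    rfl
  have hmem : toE x' ∈ Sl Y Z ↔ (bV x'.1).1 = 0 ∧ (aV x'.1).1 + (bV x'.1).2 = 0 ∧
      ∀ p ∈ oddP Y Z, yL Y Z p (toE x') = 0 := by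
    unfold Sl
    rw [mem_DDQ]
    unfold Cd
    rw [hc1, hc2, hc3]
    constructor
    · rintro ⟨⟨-, -, h1, -, h3⟩, h⟩
      exact ⟨h1, h3, h⟩
    · rintro ⟨h1, h3, h⟩
      refine ⟨⟨fun p hp => ?_, rfl, h1, rfl, h3⟩, h⟩
      show exv x'.1 p = 0
      unfold exv
      rw [dif_neg hp]
  rw [hmem]
  constructor
  · intro h
    have h1 : (bV x'.1).1 = 0 := by
      have := h ((0 : oddP Y Z → V2), (0 : ZMod 2), (1 : ZMod 2))
      unfold BF at this
      simpa [om, aV] using this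
    have h2 : (aV x'.1).1 + (bV x'.1).2 = 0 := by
      have := h ((0 : oddP Y Z → V2), (1 : ZMod 2), (0 : ZMod 2))
      unfold BF at this
      simpa [om, aV] using this
    refine ⟨h1, h2, fun p hp => ?_⟩
    have h3 : ∀ w : V2, om w (yL Y Z p (toE x')) = 0 := by
      intro w
      have := h (Pi.single (⟨p, hp⟩ : oddP Y Z) w, (0 : ZMod 2), (0 : ZMod 2))
      unfold BF at this
      rw [h1, h2, mul_zero, mul_zero, add_zero, add_zero,
        Finset.sum_eq_single (⟨p, hp⟩ : oddP Y Z)] at this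
      · simpa using this
      · intro q _ hq
        have hz : (Pi.single (⟨p, hp⟩ : oddP Y Z) w : oddP Y Z → V2) q = 0 :=
          Pi.single_eq_of_ne hq _
        simp only [hz]
        simp [om]
      · intro h'
        exact absurd (Finset.mem_univ _) h'
    have h4 := h3 (1, 0)
    have h5 := h3 (0, 1)
    simp only [om, one_mul, zero_mul, add_zero, zero_add] at h4 h5
    exact Prod.ext h5 h4
  · rintro ⟨h1, h2, h3⟩ x
    unfold BF
    rw [h1, h2, mul_zero, mul_zero, add_zero, add_zero]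
    apply Finset.sum_eq_zero
    intro p _
    rw [h3 p p.2]
    simp [om]

end Pool.Agent.H77.K3
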