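import Pool.Agent.H77.K3.N1
import Pool.Agent.H77.K3.Defs3
import Pool.Agent.H24.UM.Rankin
import Pool.Agent.H24.UM.Jac

/-!
# PHm: at most 0.7 of the primes of a long interval have `(D/p) = 1`

There is `B ≥ 3` such that for every `A'` there is `e0` with `PH B e0 A'`.

Proof. `Pool.Agent.H24.UM.prod_bound` (in `H24/UM/Rankin.lean`) with `χ = jr D`
(`jr_rchar D`, `M = 4 |D| ≤ 4 z^A'`, `H24/UM/Jac.lean`), `D := D0 = z^(e/4)` (natural division),
`y = z^(B e)`, `P` the set of the primes `p ∈ (z^e, z^(B e)]` with `bt p D = 0`. Hypotheses: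
`D0^4 ≤ z^e`; `20 M (1 + log D0) ≤ 80 z^A' (1 + e log z) ≤ z^(e/4)` if `e/4 ≥ A' + 2` and `z ≥ z0(e)`.
For `p ∈ P`: `p > z^e ≥ |D|`, so `p ∤ D` (`D ≠ 0` as `0` is a square), `p` odd, `jacobiSym D p ≠ -1`,
so it is `1` and `χ p = 1`. So `prod_(p ∈ P) (1 + 2/p) ≤ C log (z^(B e)) / log (z^(e/4)) ≤ 8 B C`
(`e/4 ≥ e/8` for `e ≥ 8`). As `log (1 + u) ≥ u - u^2/2` and `sum 1/p^2 ≤ 1`:
`2 σ ≤ log (8 B C) + 2` for `σ = sum_(p ∈ P) 1/p`, i.e. `σ ≤ (log B)/2 + C1`, `C1` absolute.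
By `mert2` `Λ = sum over all primes of (z^e, z^(B e)] of 1/p ≥ log B - C2` (`log log z^(B e) -
log log z^e = log B`). So `σ ≤ 0.7 Λ` as soon as `0.2 log B ≥ C1 + 0.7 C2`: choose `B` so.
-/

set_option autoImplicit false

namespace Pool.Agent.H77.K3

open Finset Pool.Agent.H77.SV

private lemma ph_sq (w z : ℕ) (hw : 1 ≤ w) (hwz : w ≤ z) (P : Finset ℕ) (hP : P ⊆ Ioc w z) :
    ∑ p ∈ P, 1 / (p : ℝ) ^ 2 ≤ 1 := by
  have h1 : ∑ p ∈ P, 1 / (p : ℝ) ^ 2 ≤ ∑ n ∈ Ioc w z, 1 / (n : ℝ) ^ 2 :=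
    Finset.sum_le_sum_of_subset_of_nonneg hP (fun _ _ _ => by positivity)
  have h2 : ∀ k : ℕ, ∑ n ∈ Ioc w (w + k), 1 / (n : ℝ) ^ 2 ≤ 1 / (w : ℝ) - 1 / ((w + k : ℕ) : ℝ) := by
    intro k
    induction k with
    | zero => simp
    | succ k ih =>
      rw [← add_assoc, Finset.sum_Ioc_succ_top (by omega)]
      have ha : (0 : ℝ) < ((w + k : ℕ) : ℝ) := by exact_mod_cast (by omega : 0 < w + k)
      have hb : (0 : ℝ) < ((w + k + 1 : ℕ) : ℝ) := by positivity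
      have h3 : 1 / ((w + k + 1 : ℕ) : ℝ) ^ 2 ≤ 1 / ((w + k : ℕ) : ℝ) - 1 / ((w + k + 1 : ℕ) : ℝ) := by
        rw [div_sub_div _ _ ha.ne' hb.ne', div_le_div_iff₀ (by positivity) (by positivity)]
        push_cast at ha ⊢
        nlinarith
      linarith
  obtain ⟨k, rfl⟩ : ∃ k, z = w + k := ⟨z - w, by omega⟩
  have h3 : (0 : ℝ) ≤ 1 / ((w + k : ℕ) : ℝ) := by positivity
  have h4 : (1 : ℝ) / w ≤ 1 := by
    have : (1 : ℝ) ≤ w := by exact_mod_cast hw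
    rw [div_le_one (by linarith)]
    exact this
  linarith [h2 k]

/-- `χ p = 1` -/
private lemma ph_chi {D : ℤ} (hD : D ≠ 0) {p : ℕ} (hp : p.Prime) (hp2 : p ≠ 2)
    (hDp : |D| < (p : ℤ)) (hb : bt p D = 0) : Pool.Agent.H24.UM.jr D p = 1 := by
  have h1 : Odd p := hp.odd_of_ne_two hp2
  have h2 : jacobiSym D p ≠ -1 := by
    intro h
    unfold bt at hb
    rw [if_pos h] at hb
    exact one_ne_zero hb
  have h3 : jacobiSym D p ≠ 0 := by
    intro h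
    rw [jacobiSym.eq_zero_iff] at h
    apply h.2
    have hnd : ¬ p ∣ D.natAbs := by
      intro hd
      have := Nat.le_of_dvd (Int.natAbs_pos.2 hD) hd
      have h5 : (D.natAbs : ℤ) = |D| := Int.natCast_natAbs D
      omega
    have h6 : Nat.Coprime p D.natAbs := (Nat.Prime.coprime_iff_not_dvd hp).2 hnd
    rw [Int.gcd_eq_natAbs_gcd_natAbs]
    simpa using h6.symm
  have h4 : jacobiSym D p = 1 := by
    rcases jacobiSym.trichotomy D p with h | h | h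
    · exact absurd h h3
    · exact h
    · exact absurd h h2
  unfold Pool.Agent.H24.UM.jr Pool.Agent.H24.UM.jc
  rw [if_pos h1, h4]
  norm_num

private lemma ph_D {A' k z : ℕ} (hk : A' + 3 ≤ k) (hz : 80 * (1 + k) ≤ z) {D : ℤ}
    (hD : |D| ≤ (z : ℤ) ^ A') :
    20 * ((4 * D.natAbs : ℕ) : ℝ) * (1 + Real.log ((z ^ k : ℕ) : ℝ)) ≤ ((z ^ k : ℕ) : ℝ) := by
  have hz1 : (1 : ℝ) ≤ z := by exact_mod_cast (by omega : 1 ≤ z)
  have h1 : ((D.natAbs : ℕ) : ℝ) ≤ (z : ℝ) ^ A' := by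
    have h5 : (D.natAbs : ℤ) = |D| := Int.natCast_natAbs D
    have h6 : ((D.natAbs : ℤ)) ≤ (z : ℤ) ^ A' := by rw [h5]; exact hD
    exact_mod_cast h6
  have h2 : Real.log ((z ^ k : ℕ) : ℝ) ≤ k * z := by
    push_cast
    rw [Real.log_pow]
    have := Real.log_le_self (show (0 : ℝ) ≤ z by linarith)
    exact mul_le_mul_of_nonneg_left this (Nat.cast_nonneg k)
  have h2' : 0 ≤ Real.log ((z ^ k : ℕ) : ℝ) := Real.log_natCast_nonneg _
  have h3 : 80 * (1 + (k : ℝ) * z) ≤ (z : ℝ) ^ 3 := by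
    have h4 : 80 * (1 + (k : ℝ)) ≤ z := by exact_mod_cast hz
    have hk0 : (0 : ℝ) ≤ k := Nat.cast_nonneg k
    nlinarith [mul_nonneg hk0 (by linarith : (0 : ℝ) ≤ (z : ℝ) - 1),
      mul_le_mul_of_nonneg_right h4 (by linarith : (0 : ℝ) ≤ (z : ℝ)),
      mul_nonneg (mul_nonneg (by linarith : (0 : ℝ) ≤ (z : ℝ)) (by linarith : (0 : ℝ) ≤ (z : ℝ)))
        (by linarith : (0 : ℝ) ≤ (z : ℝ) - 1)]
  have h4 : (z : ℝ) ^ A' * (z : ℝ) ^ 3 ≤ (z : ℝ) ^ k := by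
    rw [← pow_add]
    exact pow_le_pow_right₀ hz1 hk
  have h5 : (0 : ℝ) ≤ (z : ℝ) ^ A' := by positivity
  calc 20 * ((4 * D.natAbs : ℕ) : ℝ) * (1 + Real.log ((z ^ k : ℕ) : ℝ))
      = ((D.natAbs : ℕ) : ℝ) * (80 * (1 + Real.log ((z ^ k : ℕ) : ℝ))) := by
        push_cast
        ring
    _ ≤ (z : ℝ) ^ A' * (z : ℝ) ^ 3 :=
        mul_le_mul h1 (by linarith) (by positivity) h5
    _ ≤ (z : ℝ) ^ k := h4
    _ = _ := by push_cast; rfl

theorem prime_half : ∃ B : ℕ, 3 ≤ B ∧ ∀ A' : ℕ, ∃ e0 : ℕ, PH B e0 A' := by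
  obtain ⟨C, hC0, hC⟩ := Pool.Agent.H24.UM.sum_bound
  obtain ⟨C2, hC20, hC2⟩ := mert2
  have hl2 : 0 < Real.log 2 := Real.log_pos (by norm_num)
  set K : ℝ := 0.7 * (C2 / Real.log 2) + (Real.log 8 + 4 + C) / 2 with hK
  obtain ⟨B0, hB0⟩ := exists_nat_ge (Real.exp (5 * K))
  refine ⟨max 3 B0, le_max_left _ _, fun A' => ⟨4 * (A' + 3), fun e he => ?_⟩⟩
  set B := max 3 B0 with hB
  have hB3 : 3 ≤ B := le_max_left _ _
  have hBr : (3 : ℝ) ≤ B := by exact_mod_cast hB3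
  have hBK : K ≤ 0.2 * Real.log B := by
    have h1 : Real.exp (5 * K) ≤ B := hB0.trans (by exact_mod_cast le_max_right 3 B0)
    have h2 : 5 * K ≤ Real.log B := (Real.le_log_iff_exp_le (by linarith)).2 h1
    linarith
  set k := e / 4 with hk
  have hk1 : A' + 3 ≤ k := by omega
  have hk4 : 4 * k ≤ e := by omega
  have hk8 : e ≤ 8 * k := by omega
  have hkB : e ≤ B * e := Nat.le_mul_of_pos_left e (by omega)
  refine ⟨80 * (1 + k), fun z hz D hDs hDz => ?_⟩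
  have hz2 : 2 ≤ z := by omega
  have hzr : (2 : ℝ) ≤ z := by exact_mod_cast hz2
  have hlz : Real.log 2 ≤ Real.log z := Real.log_le_log (by norm_num) hzr
  have hD0 : D ≠ 0 := by
    rintro rfl
    exact hDs ⟨0, rfl⟩
  set P := (Ioc (z ^ e) (z ^ (B * e))).filter (fun p => p.Prime ∧ bt p D = 0) with hP
  have he1 : z ^ A' ≤ z ^ e := Nat.pow_le_pow_right (by omega) (by omega)
  have he2 : 2 ≤ z ^ e := by
    calc 2 ≤ z ^ 1 := by simpa using hz2
      _ ≤ z ^ e := Nat.pow_le_pow_right (by omega) (by omega)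
  have he3 : z ^ e ≤ z ^ (B * e) := Nat.pow_le_pow_right (by omega) hkB
  have hPm : ∀ p ∈ P, p.Prime ∧ z ^ e < p ∧ p ≤ z ^ (B * e) ∧ bt p D = 0 := by
    intro p hp
    rw [hP, mem_filter, mem_Ioc] at hp
    exact ⟨hp.2.1, hp.1.1, hp.1.2, hp.2.2⟩
  have hchi : ∀ p ∈ P, Pool.Agent.H24.UM.jr D p = 1 := by
    intro p hp
    obtain ⟨h1, h2, h3, h4⟩ := hPm p hp
    refine ph_chi hD0 h1 (by omega) ?_ h4
    refine hDz.trans_lt ?_
    exact_mod_cast (he1.trans_lt h2)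
  have h1 := hC (Pool.Agent.H24.UM.jr D) ((4 * D.natAbs : ℕ) : ℝ)
    (Pool.Agent.H24.UM.jr_rchar D hDs) (z ^ k) (z ^ (B * e)) P (ph_D hk1 hz hDz)
    (Nat.pow_le_pow_right (by omega) (by omega)) (fun p hp => ⟨(hPm p hp).1, by
      rw [← pow_mul]
      exact (Nat.pow_le_pow_right (by omega) (by omega)).trans_lt (hPm p hp).2.1,
      (hPm p hp).2.2.1⟩)
  have h2 : ∑ p ∈ P, (1 + Pool.Agent.H24.UM.jr D p) / p = 2 * ∑ p ∈ P, 1 / (p : ℝ) := by
    rw [Finset.mul_sum]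
    refine Finset.sum_congr rfl fun p hp => ?_
    rw [hchi p hp]
    ring
  have h3 := ph_sq (z ^ e) (z ^ (B * e)) (by omega) he3 P (Finset.filter_subset _ _)
  have hkr : (0 : ℝ) < k := by exact_mod_cast (by omega : 0 < k)
  have her : (0 : ℝ) < e := by exact_mod_cast (by omega : 0 < e)
  have hlzp : 0 < Real.log z := by linarith
  have hBn : 0 < B := by omega
  have hen : 0 < e := by omega
  have h4 : Real.log (Real.log ((z ^ (B * e) : ℕ) : ℝ) / Real.log ((z ^ k : ℕ) : ℝ)) ≤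
      Real.log 8 + Real.log B := by
    rw [← Real.log_mul (by norm_num) (by linarith)]
    have h5 : Real.log ((z ^ (B * e) : ℕ) : ℝ) / Real.log ((z ^ k : ℕ) : ℝ) = B * e / k := by
      push_cast
      rw [Real.log_pow, Real.log_pow]
      push_cast
      field_simp
    rw [h5]
    apply Real.log_le_log (by positivity)
    rw [div_le_iff₀ hkr]
    have h6 : (e : ℝ) ≤ 8 * k := by exact_mod_cast hk8
    nlinarith
  have h5 := (abs_le.1 (hC2 (z ^ e) (z ^ (B * e)) he2 he3)).1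
  have h6 : Real.log (Real.log ((z ^ (B * e) : ℕ) : ℝ)) - Real.log (Real.log ((z ^ e : ℕ) : ℝ)) =
      Real.log B := by
    push_cast
    rw [Real.log_pow, Real.log_pow, ← Real.log_div (by positivity) (by positivity)]
    congr 1
    push_cast
    field_simp
  have h7 : C2 / Real.log ((z ^ e : ℕ) : ℝ) ≤ C2 / Real.log 2 := by
    apply div_le_div_of_nonneg_left hC20.le hl2
    apply Real.log_le_log (by norm_num)
    exact_mod_cast he2
  rw [h6] at h5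
  rw [h2] at h1
  linarith

end Pool.Agent.H77.K3
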