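import Pool.Agent.H77.K3.Defs3
import Pool.Agent.H77.K3.X4
import Pool.Agent.H77.K3.D4

/-!
# V0: the states at an element of `SS`, and membership in `BS`

`st_eq`: for a prime `p > 384` and `(Y, Z) ∈ SS`, `F3.st Y Z p` is `some (some (typ, rho))` if
`p ∈ oddP Y Z` and `none` otherwise. (`F3.P Y Z = (Y+Z) Y Z`; `Ok.hsq`; `F3.idx` is an index `i` with
`p | l_i`, and as `Y`, `Z` are coprime only one of `X, Y, Z` is divisible by `p`, the one with index
`typ Y Z p`; `lb_R`.)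

`rest`: the states of `(Y,Z)` satisfy `Rest (A+2)`: `Wt`-restriction: the primes of `(w, z]` whose
state is not `none` are those of `smP z Y Z` (all odd primes of `X Y Z` are `> w`); those dividing
`X` have product `≤ z^A` (`Ok.hA`), those dividing `Y` divide `Y / lpf Y ≤ z`, the same for `Z`.

`ss_bs`: `SS P z T ⊆ BS P z T` for `P.w ≤ z`, `2 ≤ z`. `hyz`: a prime `> z` of `Y` is `lpf Y > z^M`. `hn`: `Ok.hn`,
`Ok.hsq`. `hg`: `F3.Good T (z^M) Y Z`: the `z^M`-smooth part of `|P(Y,Z)| = (Y+Z) Y Z` is the product of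
`2` (`X = 14 mod 16`, so `X` is divisible by 2 exactly once; `Y`, `Z` odd), of the primes of `smP`
(at most `z^(A+2)`) and of the `ppI i ≤ z^(ff i)`, `i < J`, each exactly once; `sum_(i<J) ff i ≤ M`
(`13 ff i = ee (i+1)`, geometric). So it is at most `2 z^(A+2) z^M ≤ z^(2M)`, and
`(z^(2M))^4 ≤ z^(30M) ≤ T`.
-/

set_option autoImplicit false

namespace Pool.Agent.H77.K3

open Finset Pool.Agent.H77.SV

private theorem v0_l0 (m n : ℤ) : F3.l 0 m n = m + n := by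
  simp [Fam.l, F3]

private theorem v0_l1 (m n : ℤ) : F3.l 1 m n = m := by
  simp [Fam.l, F3]

private theorem v0_l2 (m n : ℤ) : F3.l 2 m n = n := by
  simp [Fam.l, F3]

private theorem v0_P (Y Z : ℕ) : F3.P (Y : ℤ) (Z : ℤ) = (((Y + Z) * Y * Z : ℕ) : ℤ) := by
  unfold Fam.P
  rw [Fin.prod_univ_three, v0_l0, v0_l1, v0_l2]
  push_cast
  ring

private theorem v0_cop {Y Z : ℕ} (hc : Y.Coprime Z) {p : ℕ} (hp : p.Prime) :
    ¬ (p ∣ Y ∧ p ∣ Z) := fun ⟨h1, h2⟩ =>
  hp.one_lt.ne' (Nat.dvd_one.1 (hc ▸ Nat.dvd_gcd h1 h2))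

private theorem v0_typ {Y Z : ℕ} (hc : Y.Coprime Z) {p : ℕ} (hp : p.Prime) (i : Fin 3)
    (h : (p : ℤ) ∣ F3.l i (Y : ℤ) (Z : ℤ)) : i = typ Y Z p := by
  have hcop := v0_cop hc hp
  unfold typ
  fin_cases i
  · have h1 : (p : ℤ) ∣ ((Y + Z : ℕ) : ℤ) := by
      have h2 := v0_l0 (Y : ℤ) (Z : ℤ)
      push_cast
      rw [← h2]
      exact h
    have h3 : p ∣ Y + Z := Int.natCast_dvd_natCast.1 h1
    have h4 : ¬ p ∣ Y := fun h5 => hcop ⟨h5, (Nat.dvd_add_right h5).1 h3⟩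
    have h5 : ¬ p ∣ Z := fun h5 => h4 ((Nat.dvd_add_left h5).1 h3)
    rw [if_neg h4, if_neg h5]
    rfl
  · have h1 : (p : ℤ) ∣ (Y : ℤ) := by
      have h2 := v0_l1 (Y : ℤ) (Z : ℤ)
      rw [← h2]
      exact h
    rw [if_pos (Int.natCast_dvd_natCast.1 h1)]
    rfl
  · have h1 : (p : ℤ) ∣ (Z : ℤ) := by
      have h2 := v0_l2 (Y : ℤ) (Z : ℤ)
      rw [← h2]
      exact h
    have h3 : p ∣ Z := Int.natCast_dvd_natCast.1 h1
    rw [if_neg fun h4 => hcop ⟨h4, h3⟩, if_pos h3]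
    rfl

private theorem v0_idx {Y Z : ℕ} (hc : Y.Coprime Z) {p : ℕ} (hp : p.Prime)
    (hd : p ∣ (Y + Z) * Y * Z) : F3.idx p (Y : ℤ) (Z : ℤ) = typ Y Z p := by
  have hex : ∃ i, (p : ℤ) ∣ F3.l i (Y : ℤ) (Z : ℤ) := by
    rcases (Nat.Prime.dvd_mul hp).1 hd with h | h
    · rcases (Nat.Prime.dvd_mul hp).1 h with h | h
      · refine ⟨0, ?_⟩
        rw [v0_l0]
        exact_mod_cast Int.natCast_dvd_natCast.2 h
      · refine ⟨1, ?_⟩
        rw [v0_l1]
        exact Int.natCast_dvd_natCast.2 h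
    · refine ⟨2, ?_⟩
      rw [v0_l2]
      exact Int.natCast_dvd_natCast.2 h
  unfold Fam.idx
  rw [dif_pos hex]
  exact v0_typ hc hp _ hex.choose_spec

private theorem v0_prod_ne {P : Par} {z T Y Z : ℕ} (hF : Fac P z T Y Z) :
    (Y + Z) * Y * Z ≠ 0 := by
  have h1 := hF.hT
  have h2 : 0 < Y := by omega
  have h3 : 0 < Z := by omega
  positivity

theorem st_eq {P : Par} (hP : P.Adm) {z T : ℕ} (hz : 2 ≤ z) (hT : P.TZ z T) {x : ℕ × ℕ}
    (hx : x ∈ SS P z T) {p : ℕ} (hp : p.Prime) (hpw : 384 < p) :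
    F3.st (x.1 : ℤ) (x.2 : ℤ) p =
      if p ∈ oddP x.1 x.2 then some (some (typ x.1 x.2 p, rho x.1 x.2 p)) else none := by
  have hF := fac hP hz hT hx
  have hne := v0_prod_ne hF
  have hp2 : p ≠ 2 := by omega
  have hmem : (p : ℤ) ∣ F3.P (x.1 : ℤ) (x.2 : ℤ) ↔ p ∈ oddP x.1 x.2 := by
    rw [v0_P, Int.natCast_dvd_natCast]
    simp only [oddP, mem_erase, Nat.mem_primeFactors]
    exact ⟨fun h => ⟨hp2, hp, h, hne⟩, fun h => h.2.2.1⟩
  unfold Fam.st
  by_cases h : p ∈ oddP x.1 x.2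
  · have hd : p ∣ (x.1 + x.2) * x.1 * x.2 := by
      have h1 := h
      simp only [oddP, mem_erase, Nat.mem_primeFactors] at h1
      exact h1.2.2.1
    have hsq : ¬ (p : ℤ) ^ 2 ∣ F3.P (x.1 : ℤ) (x.2 : ℤ) := by
      rw [v0_P]
      intro h1
      have h2 : ((p ^ 2 : ℕ) : ℤ) ∣ (((x.1 + x.2) * x.1 * x.2 : ℕ) : ℤ) := by
        push_cast
        push_cast at h1
        exact h1
      exact hF.hok.hsq p hp hp2 (Int.natCast_dvd_natCast.1 h2)
    rw [if_pos (hmem.2 h), if_neg hsq, if_pos h, v0_idx hF.hok.hc hp hd,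
      lb_R h hF.hok.hc (hF.hok.hsq p hp hp2)]
  · rw [if_neg (fun h1 => h (hmem.1 h1)), if_neg h]

private theorem v0_union_le (s t : Finset ℕ) (h : ∀ p ∈ s, 1 ≤ p) :
    ∏ p ∈ s ∪ t, p ≤ (∏ p ∈ s, p) * ∏ p ∈ t, p := by
  rw [← Finset.prod_union_inter]
  refine Nat.le_mul_of_pos_right _ (Finset.prod_pos fun p hp => ?_)
  exact h p (mem_inter.1 hp).1

private theorem v0_subset_le {s t : Finset ℕ} (hst : s ⊆ t) (h : ∀ p ∈ t, 1 ≤ p) :
    ∏ p ∈ s, p ≤ ∏ p ∈ t, p :=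
  Nat.le_of_dvd (Finset.prod_pos fun p hp => h p hp) (Finset.prod_dvd_prod_of_subset _ _ _ hst)

private theorem v0_M {P : Par} (hP : P.Adm) : P.A + 3 ≤ P.M := by
  have h1 := hP.hE
  have h2 : 1 ≤ (13 * P.B) ^ P.J := Nat.one_le_pow _ _ (by have := hP.hB; omega)
  have h3 : P.E0 ≤ P.E0 * (13 * P.B) ^ P.J := Nat.le_mul_of_pos_right _ h2
  have h4 : P.M = P.E0 * (13 * P.B) ^ P.J := rfl
  omega

private theorem v0_zM {P : Par} (hP : P.Adm) {z : ℕ} (hz : 2 ≤ z) : z ≤ z ^ P.M := by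
  have h1 := v0_M hP
  calc z = z ^ 1 := (pow_one z).symm
    _ ≤ z ^ P.M := Nat.pow_le_pow_right (by omega) (by omega)

private theorem v0_part {S : Finset ℕ} {Y q z : ℕ} (hY : 0 < Y) (hq : q.Prime) (hd : q ∣ Y)
    (hb : Y / q ≤ z) (hS : ∀ p ∈ S, p.Prime ∧ p ≠ q ∧ p ∣ Y) : ∏ p ∈ S, p ≤ z := by
  have h1 : ∏ p ∈ S, p ∣ Y / q := by
    refine Finset.prod_primes_dvd _ (fun p hp => (hS p hp).1.prime) fun p hp => ?_
    obtain ⟨h2, h3, h4⟩ := hS p hp
    have h5 : Y = q * (Y / q) := (Nat.mul_div_cancel' hd).symm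
    have h6 : p ∣ q * (Y / q) := h5 ▸ h4
    rcases (Nat.Prime.dvd_mul h2).1 h6 with h | h
    · exact absurd ((Nat.prime_dvd_prime_iff_eq h2 hq).1 h) h3
    · exact h
  exact (Nat.le_of_dvd (Nat.div_pos (Nat.le_of_dvd hY hd) hq.pos) h1).trans hb

private theorem v0_smP {P : Par} (hP : P.Adm) {z T : ℕ} (hz : 2 ≤ z) {Y Z : ℕ}
    (hF : Fac P z T Y Z) : ∏ p ∈ smP z Y Z, p ≤ z ^ (P.A + 2) := by
  have hT := hF.hT
  have hzM := v0_zM hP hz
  have hmem : ∀ p ∈ smP z Y Z, p.Prime ∧ p ≤ z ∧ p ∣ (Y + Z) * Y * Z := by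
    intro p hp
    simp only [smP, oddP, mem_filter, mem_erase, Nat.mem_primeFactors] at hp
    exact ⟨hp.1.2.1, hp.2, hp.1.2.2.1⟩
  have hsub : smP z Y Z ⊆ ((smP z Y Z).filter (· ∣ Y + Z) ∪ (smP z Y Z).filter (· ∣ Y)) ∪
      (smP z Y Z).filter (· ∣ Z) := by
    intro p hp
    obtain ⟨h1, -, h2⟩ := hmem p hp
    simp only [mem_union, mem_filter]
    rcases (Nat.Prime.dvd_mul h1).1 h2 with h | h
    · rcases (Nat.Prime.dvd_mul h1).1 h with h | h
      · exact Or.inl (Or.inl ⟨hp, h⟩)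
      · exact Or.inl (Or.inr ⟨hp, h⟩)
    · exact Or.inr ⟨hp, h⟩
  have hpos : ∀ S : Finset ℕ, S ⊆ smP z Y Z → ∀ p ∈ S, 1 ≤ p := fun S hS p hp =>
    (hmem p (hS hp)).1.one_le
  have h1 : ∏ p ∈ smP z Y Z, p ≤ ((∏ p ∈ (smP z Y Z).filter (· ∣ Y + Z), p) *
      ∏ p ∈ (smP z Y Z).filter (· ∣ Y), p) * ∏ p ∈ (smP z Y Z).filter (· ∣ Z), p := by
    refine (v0_subset_le hsub ?_).trans ?_
    · intro p hp
      refine hpos _ ?_ p hp
      exact Finset.union_subset (Finset.union_subset (filter_subset _ _) (filter_subset _ _))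
        (filter_subset _ _)
    · refine (v0_union_le _ _ (hpos _ (Finset.union_subset (filter_subset _ _)
        (filter_subset _ _)))).trans ?_
      exact Nat.mul_le_mul_right _ (v0_union_le _ _ (hpos _ (filter_subset _ _)))
  have h2 : ∏ p ∈ (smP z Y Z).filter (· ∣ Y), p ≤ z := by
    refine v0_part (by omega) hF.pq hF.dq hF.bq fun p hp => ?_
    obtain ⟨h3, h4⟩ := mem_filter.1 hp
    obtain ⟨h5, h6, -⟩ := hmem p h3
    have h7 := hF.gq
    exact ⟨h5, by omega, h4⟩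
  have h3 : ∏ p ∈ (smP z Y Z).filter (· ∣ Z), p ≤ z := by
    refine v0_part (by omega) hF.pr hF.dr hF.cr fun p hp => ?_
    obtain ⟨h3, h4⟩ := mem_filter.1 hp
    obtain ⟨h5, h6, -⟩ := hmem p h3
    have h7 := hF.gr
    exact ⟨h5, by omega, h4⟩
  calc ∏ p ∈ smP z Y Z, p ≤ _ := h1
    _ ≤ (z ^ P.A * z) * z := Nat.mul_le_mul (Nat.mul_le_mul hF.hok.hA h2) h3
    _ = z ^ (P.A + 2) := by ring

theorem rest {P : Par} (hP : P.Adm) {z T : ℕ} (hz : 2 ≤ z) (hT : P.TZ z T) {x : ℕ × ℕ}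
    (hx : x ∈ SS P z T) : Rest (P.A + 2) (stt P.w z x.1 x.2) := by
  classical
  have hF := fac hP hz hT hx
  have hst : ∀ p : Pr P.w z, stt P.w z x.1 x.2 p =
      if (p : ℕ) ∈ oddP x.1 x.2 then some (some (typ x.1 x.2 p, rho x.1 x.2 p)) else none := by
    intro p
    have hp := p.2
    simp only [Pr, mem_filter, mem_Ioc] at hp
    have h1 := hP.hw
    exact st_eq hP hz hT hx hp.2 (by omega)
  refine ⟨fun p => ?_, ?_⟩
  · rw [hst]
    split_ifs <;> simp
  · have h1 : ∏ p : Pr P.w z, (if stt P.w z x.1 x.2 p = none then 1 else (p : ℕ)) =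
        ∏ p ∈ (Pr P.w z).filter (· ∈ oddP x.1 x.2), p := by
      rw [Finset.prod_filter,
        ← Finset.prod_coe_sort (Pr P.w z) (fun p => if p ∈ oddP x.1 x.2 then p else 1)]
      refine prod_congr rfl fun p _ => ?_
      rw [hst]
      by_cases h : (p : ℕ) ∈ oddP x.1 x.2
      · rw [if_pos h, if_pos h, if_neg (by simp)]
      · rw [if_neg h, if_neg h, if_pos rfl]
    have h2 : ∏ p ∈ (Pr P.w z).filter (· ∈ oddP x.1 x.2), p ≤ ∏ p ∈ smP z x.1 x.2, p := by
      refine v0_subset_le ?_ fun p hp => ?_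
      · intro p hp
        obtain ⟨h3, h4⟩ := mem_filter.1 hp
        simp only [Pr, mem_filter, mem_Ioc] at h3
        exact mem_filter.2 ⟨h4, h3.1.2⟩
      · simp only [smP, oddP, mem_filter, mem_erase, Nat.mem_primeFactors] at hp
        exact hp.1.2.1.one_le
    calc ∏ p : Pr P.w z, (if stt P.w z x.1 x.2 p = none then 1 else (p : ℕ)) = _ := h1
      _ ≤ _ := h2
      _ ≤ _ := v0_smP hP hz hF

private theorem v0_sum_ff {P : Par} (hP : P.Adm) (n : ℕ) :
    ∑ i ∈ range n, P.ff i ≤ P.ee n := by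
  induction n with
  | zero => simp
  | succ n ih =>
    have h1 : P.ee (n + 1) = 13 * P.ff n := by
      unfold Par.ff Par.ee
      rw [pow_succ]
      ring
    have h2 : P.ee n ≤ P.ff n := Nat.le_mul_of_pos_left _ (by have := hP.hB; omega)
    rw [sum_range_succ]
    omega

private theorem v0_med {P : Par} {z Y Z : ℕ} (hok : Ok P z Y Z) (n : ℕ)
    (hn : n ≤ P.J) (S : Finset ℕ) (hS : ∀ p ∈ S, p ∣ Y + Z ∧ ∃ i < n, p ∈ P.I z i) :
    ∏ p ∈ S, p ≤ z ^ (∑ i ∈ range n, P.ff i) := by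
  classical
  induction n generalizing S with
  | zero =>
    have h1 : S = ∅ := by
      rw [Finset.eq_empty_iff_forall_notMem]
      intro p hp
      obtain ⟨-, i, hi, -⟩ := hS p hp
      omega
    rw [h1]
    simp
  | succ n ih =>
    have hI := hok.hI n (by omega)
    obtain ⟨q, hq⟩ := Finset.card_eq_one.1 hI
    have hq1 : q ∈ (P.I z n).filter (· ∣ Y + Z) := by
      rw [hq]
      exact mem_singleton_self q
    have hq2 : q ≤ z ^ P.ff n := by
      have h1 := (mem_filter.1 hq1).1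
      simp only [Par.I, mem_filter, mem_Ioc] at h1
      exact h1.1.2
    have hq3 : 1 ≤ q := by
      have h1 := (mem_filter.1 hq1).1
      simp only [Par.I, mem_filter, mem_Ioc] at h1
      exact h1.2.one_le
    have hsub : S ⊆ insert q (S.erase q) := by
      intro p hp
      by_cases h : p = q
      · exact mem_insert.2 (Or.inl h)
      · exact mem_insert.2 (Or.inr (mem_erase.2 ⟨h, hp⟩))
    have hpr : ∀ p ∈ insert q (S.erase q), 1 ≤ p := by
      intro p hp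
      rcases mem_insert.1 hp with h | h
      · omega
      · obtain ⟨-, i, -, h2⟩ := hS p (mem_of_mem_erase h)
        simp only [Par.I, mem_filter, mem_Ioc] at h2
        exact h2.2.one_le
    have h1 : ∏ p ∈ S.erase q, p ≤ z ^ (∑ i ∈ range n, P.ff i) := by
      refine ih (by omega) _ fun p hp => ?_
      obtain ⟨h2, h3⟩ := mem_erase.1 hp
      obtain ⟨h4, i, h5, h6⟩ := hS p h3
      refine ⟨h4, i, ?_, h6⟩
      by_contra h7
      have h8 : i = n := by omega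
      rw [h8] at h6
      have h9 : p ∈ (P.I z n).filter (· ∣ Y + Z) := mem_filter.2 ⟨h6, h4⟩
      rw [hq] at h9
      exact h2 (mem_singleton.1 h9)
    calc ∏ p ∈ S, p ≤ ∏ p ∈ insert q (S.erase q), p := v0_subset_le hsub hpr
      _ = q * ∏ p ∈ S.erase q, p := Finset.prod_insert (notMem_erase q S)
      _ ≤ z ^ P.ff n * z ^ (∑ i ∈ range n, P.ff i) := Nat.mul_le_mul hq2 h1
      _ = z ^ (∑ i ∈ range (n + 1), P.ff i) := by
        rw [sum_range_succ, pow_add, mul_comm]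

theorem ss_bs {P : Par} (hP : P.Adm) {z T : ℕ} (hz : 2 ≤ z) (hwz : P.w ≤ z) (hT : P.TZ z T) :
    SS P z T ⊆ BS P z T := by
  classical
  intro x hx
  have hF := fac hP hz hT hx
  obtain ⟨Y, Z⟩ := x
  change Fac P z T Y Z at hF
  have hok := hF.hok
  have hTT := hF.hT
  have hne : (Y + Z) * Y * Z ≠ 0 := v0_prod_ne hF
  have hzM := v0_zM hP hz
  have hM := v0_M hP
  have hY16 := hok.hY
  have hZ16 := hok.hZ
  have hyz : ∀ p : ℕ, p.Prime → z < p → p ≤ z ^ P.M → ¬ p ∣ Y * Z := by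
    intro p hp h1 h2 h3
    rcases (Nat.Prime.dvd_mul hp).1 h3 with h | h
    · have h4 := hF.uq p hp h1 h
      have h5 := hF.gq
      omega
    · have h4 := hF.ur p hp h1 h
      have h5 := hF.gr
      omega
  have hgood : sm (z ^ P.M) ((Y + Z) * Y * Z) ≤ z ^ (2 * P.M) := by
    set N := (Y + Z) * Y * Z with hN
    have hfac : ∀ p ∈ N.primeFactors.filter (· ≤ z ^ P.M), p ^ N.factorization p = p := by
      intro p hp
      simp only [mem_filter, Nat.mem_primeFactors] at hp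
      obtain ⟨⟨hpp, hd, -⟩, -⟩ := hp
      have h1 : 1 ≤ N.factorization p := (hpp.dvd_iff_one_le_factorization hne).1 hd
      have h2 : N.factorization p ≤ 1 := by
        by_contra h3
        have h4 : p ^ 2 ∣ N := (hpp.pow_dvd_iff_le_factorization hne).2 (by omega)
        by_cases h5 : p = 2
        · rw [h5] at h4
          have h6 : 4 ∣ (Y + Z) * Y * Z := by
            rw [← hN]
            exact h4
          have h7 : ((Y + Z) * Y * Z) % 16 = 14 := by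
            simp [Nat.mul_mod, Nat.add_mod, hY16, hZ16]
          omega
        · exact hok.hsq p hpp h5 h4
      have h3 : N.factorization p = 1 := le_antisymm h2 h1
      rw [h3, pow_one]
    unfold sm
    rw [Finset.prod_congr rfl hfac]
    have hsub : N.primeFactors.filter (· ≤ z ^ P.M) ⊆ ({2} ∪ smP z Y Z) ∪
        (N.primeFactors.filter fun p => z < p ∧ p ≤ z ^ P.M) := by
      intro p hp
      simp only [mem_filter] at hp
      simp only [mem_union, mem_singleton, mem_filter, smP, oddP, mem_erase]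
      by_cases h1 : p ≤ z
      · by_cases h2 : p = 2
        · exact Or.inl (Or.inl h2)
        · exact Or.inl (Or.inr ⟨⟨h2, hp.1⟩, h1⟩)
      · exact Or.inr ⟨hp.1, by omega, hp.2⟩
    have hpos : ∀ S : Finset ℕ, S ⊆ ({2} ∪ smP z Y Z) ∪
        (N.primeFactors.filter fun p => z < p ∧ p ≤ z ^ P.M) → ∀ p ∈ S, 1 ≤ p := by
      intro S hS p hp
      have h1 := hS hp
      simp only [mem_union, mem_singleton, mem_filter, smP, oddP, mem_erase] at h1
      rcases h1 with (h1 | h1) | h1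
      · omega
      · exact (Nat.prime_of_mem_primeFactors h1.1.2).one_le
      · exact (Nat.prime_of_mem_primeFactors h1.1).one_le
    have h1 : ∏ p ∈ N.primeFactors.filter (· ≤ z ^ P.M), p ≤ ((∏ p ∈ ({2} : Finset ℕ), p) *
        ∏ p ∈ smP z Y Z, p) * ∏ p ∈ N.primeFactors.filter (fun p => z < p ∧ p ≤ z ^ P.M), p := by
      refine (v0_subset_le hsub (hpos _ (Finset.Subset.refl _))).trans ?_
      refine (v0_union_le _ _ (hpos _ subset_union_left)).trans ?_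
      exact Nat.mul_le_mul_right _ (v0_union_le _ _ (hpos _
        (subset_union_left.trans subset_union_left)))
    have h2 : ∏ p ∈ N.primeFactors.filter (fun p => z < p ∧ p ≤ z ^ P.M), p ≤
        z ^ (∑ i ∈ range P.J, P.ff i) := by
      refine v0_med hok P.J le_rfl _ fun p hp => ?_
      simp only [mem_filter, Nat.mem_primeFactors] at hp
      obtain ⟨⟨hpp, hd, -⟩, h3, h4⟩ := hp
      have h5 : p ∣ Y + Z := by
        have h6 : p ∣ (Y + Z) * (Y * Z) := by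
          rw [← mul_assoc]
          exact hd
        rcases (Nat.Prime.dvd_mul hpp).1 h6 with h | h
        · exact h
        · exact absurd h (hyz p hpp h3 h4)
      exact ⟨h5, hok.hn p hpp h5 h3 h4⟩
    have h3 := v0_smP hP hz hF
    have h4 : ∑ i ∈ range P.J, P.ff i ≤ P.M := v0_sum_ff hP P.J
    rw [prod_singleton] at h1
    calc ∏ p ∈ N.primeFactors.filter (· ≤ z ^ P.M), p ≤ _ := h1
      _ ≤ (z ^ 1 * z ^ (P.A + 2)) * z ^ (∑ i ∈ range P.J, P.ff i) := by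
        refine Nat.mul_le_mul (Nat.mul_le_mul ?_ h3) h2
        rw [pow_one]
        exact hz
      _ = z ^ (1 + (P.A + 2) + ∑ i ∈ range P.J, P.ff i) := by
        rw [← pow_add, ← pow_add]
      _ ≤ z ^ (2 * P.M) := Nat.pow_le_pow_right (by omega) (by omega)
  unfold BS
  rw [mem_filter]
  refine ⟨mem_product.2 ⟨mem_Icc.2 ⟨by omega, hTT.2.1⟩, mem_Icc.2 ⟨by omega, hTT.2.2.2⟩⟩, ?_⟩
  refine ⟨⟨by show 1 ≤ Y; omega, hTT.2.1⟩, ⟨by show 1 ≤ Z; omega, hTT.2.2.2⟩, hok.hc, ?_, hyz, hok.hI,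
    ?_, ?_⟩
  · intro p hp h1 h2
    exact hok.hw p hp (by omega) h2
  · intro p hp h1 h2 h3
    refine ⟨hok.hn p hp h3 h1 h2, fun h4 => ?_⟩
    exact hok.hsq p hp (by omega) (dvd_mul_of_dvd_left (dvd_mul_of_dvd_left h4 _) _)
  · unfold Fam.Good
    have h1 : (F3.P ((Y, Z).1 : ℤ) ((Y, Z).2 : ℤ)).natAbs = (Y + Z) * Y * Z := by
      rw [v0_P, Int.natAbs_natCast]
    rw [h1]
    calc sm (z ^ P.M) ((Y + Z) * Y * Z) ^ 4 ≤ (z ^ (2 * P.M)) ^ 4 := Nat.pow_le_pow_left hgood 4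
      _ = z ^ (8 * P.M) := by rw [← pow_mul]; congr 1; ring
      _ ≤ z ^ (30 * P.M) := Nat.pow_le_pow_right (by omega) (by omega)
      _ ≤ T := hT.1

end Pool.Agent.H77.K3
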