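import Pool.Agent.H77.K3.V0

/-!
# W1: the general upper bound

There is an absolute `C` such that for nonnegative `g` and `z ≥ z0(P)`:
`sum_(x ∈ BS) g(states in (w, z], (ppI i)_i) ≤ C T^2 (log z^M)^(-3) *
 sum_(pp ∈ prod I_i) (prod 1/pp_i) * sum_φ g(φ, pp) Wt T φ`.

Proof. `cnt_phi` (`SV/CntPhi.lean`) for `F3`, `w := 384` (`big`), `z := y = z^M`
(`y^24 ≤ z^(30M) ≤ T`, `384 < y`): constant `C0`. For `x = (Y, Z) ∈ BS` the pair of integers is in
`F3.box T`, `Good T y`, and the state of a prime `p ∈ (384, y]` is: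
`none` for `p ≤ w` (`Bs.hw`); `stt` for `w < p ≤ z`; for `z < p ≤ y`: `none` unless `p` divides
`(Y+Z) Y Z`, then `p ∤ Y Z`, `p | X`, `p^2 ∤ X`, `p ∈ I i` for some `i`, so `p = ppI i` (`hI`: it is the
only element of `I i` dividing `X`), and the state is `some (some (0, ρ_i))` with some `ρ_i ∈ F_2`
(`idx = 0`: `p | l_0 = X` only). So `x` is counted by `cnt_phi` for the state vector determined by
`(φ, pp, ρ)`, with `pp_i = ppI i ∈ I i`. Group the sum by `(φ, pp, ρ)`: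
`sum ≤ sum_(φ, pp, ρ) g(φ, pp) C0 T^2/(log y)^3 prod wN`. The product is `Wt T φ` times
`prod_i (1 + 3/pp_i)/(2 pp_i^(1+σ))` (different `i` give different primes; if `pp` is not injective or
not in the range there is nothing to count); sum over `ρ ∈ F_2^J` and use `pp_i^(1+σ) ≥ pp_i`,
`prod (1 + 3/pp_i) ≤ (1 + 3/z)^J ≤ 2` for `z ≥ z0(J)`. `C = 2 C0`.
-/

set_option autoImplicit false

namespace Pool.Agent.H77.K3

open Finset Pool.Agent.H77.SV

/-! ### exponents -/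

private theorem W1_ee_pos {P : Par} (hP : P.Adm) (i : ℕ) : 1 ≤ P.ee i := by
  unfold Par.ee
  have h1 := hP.hE
  have h2 := hP.hB
  have h3 : 1 ≤ P.E0 := by omega
  have h4 : 1 ≤ (13 * P.B) ^ i := Nat.one_le_pow _ _ (by omega)
  exact Nat.mul_pos h3 h4

private theorem W1_ee_mono {P : Par} (hP : P.Adm) {i j : ℕ} (h : i ≤ j) : P.ee i ≤ P.ee j := by
  unfold Par.ee
  have h2 := hP.hB
  exact Nat.mul_le_mul_left _ (Nat.pow_le_pow_right (by omega) h)

private theorem W1_ff_le {P : Par} (hP : P.Adm) {i j : ℕ} (h : i < j) : P.ff i ≤ P.ee j := by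
  refine le_trans ?_ (W1_ee_mono hP (Nat.succ_le_of_lt h))
  unfold Par.ff Par.ee
  rw [pow_succ]
  have h2 := hP.hB
  have h3 : P.E0 * ((13 * P.B) ^ i * (13 * P.B)) = 13 * (P.B * (P.E0 * (13 * P.B) ^ i)) := by ring
  rw [h3]
  omega

private theorem W1_I {P : Par} {z i p : ℕ} : p ∈ P.I z i ↔
    (z ^ P.ee i < p ∧ p ≤ z ^ P.ff i) ∧ p.Prime := by
  unfold Par.I
  rw [mem_filter, mem_Ioc]

private theorem W1_I_bd {P : Par} (hP : P.Adm) {z i p : ℕ} (hz : 2 ≤ z) (hi : i < P.J)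
    (h : p ∈ P.I z i) : z < p ∧ p ≤ z ^ P.M := by
  rw [W1_I] at h
  constructor
  · have h1 : z ≤ z ^ P.ee i := Nat.le_self_pow (by have := W1_ee_pos hP i; omega) z
    omega
  · exact h.1.2.trans (Nat.pow_le_pow_right (by omega) (W1_ff_le hP hi))

private theorem W1_I_lt {P : Par} (hP : P.Adm) {z i j p q : ℕ} (hz : 2 ≤ z) (hij : i < j)
    (h : p ∈ P.I z i) (h' : q ∈ P.I z j) : p < q := by
  rw [W1_I] at h h'
  have h1 : z ^ P.ff i ≤ z ^ P.ee j := Nat.pow_le_pow_right (by omega) (W1_ff_le hP hij)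
  omega

/-! ### the prime of an interval -/

private theorem W1_ppI {P : Par} {z T Y Z : ℕ} (h : Bs P z T Y Z) {i : ℕ} (hi : i < P.J) :
    (P.ppI z Y Z i ∈ P.I z i ∧ P.ppI z Y Z i ∣ Y + Z) ∧
      ∀ p, p ∈ P.I z i → p ∣ Y + Z → p = P.ppI z Y Z i := by
  obtain ⟨q, hq⟩ := card_eq_one.mp (h.hI i hi)
  have h1 : P.ppI z Y Z i = q := by
    unfold Par.ppI
    rw [hq]
    simp
  have h2 : q ∈ (P.I z i).filter (· ∣ Y + Z) := by rw [hq]; exact mem_singleton_self q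
  rw [h1]
  refine ⟨mem_filter.mp h2, ?_⟩
  intro p hp hpd
  have h3 : p ∈ (P.I z i).filter (· ∣ Y + Z) := mem_filter.mpr ⟨hp, hpd⟩
  rw [hq] at h3
  exact mem_singleton.mp h3

/-! ### the vector of states -/

open Classical in
private noncomputable def W1_Phi {w z J : ℕ} (y : ℕ) (φ : Pr w z → Stt 3) (pp : Fin J → ℕ)
    (ρ : Fin J → ZMod 2) : Pr 384 y → Stt 3 :=
  fun p => if h : (p : ℕ) ∈ Pr w z then φ ⟨p, h⟩ else
    if h : ∃ i, pp i = (p : ℕ) then some (some (0, ρ h.choose)) else none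

private theorem W1_mem_Pr {w z p : ℕ} : p ∈ Pr w z ↔ (w < p ∧ p ≤ z) ∧ p.Prime := by
  unfold Pr
  rw [mem_filter, mem_Ioc]

private theorem W1_prod {w z J y : ℕ} (hw : 384 ≤ w) (hzy : z ≤ y) (σ : ℝ) (φ : Pr w z → Stt 3)
    (pp : Fin J → ℕ) (ρ : Fin J → ZMod 2) (hinj : Function.Injective pp)
    (hpp : ∀ i, (z < pp i ∧ pp i ≤ y) ∧ (pp i).Prime) (hz : 384 ≤ z) :
    ∏ p : Pr 384 y, wN 3 σ p (W1_Phi y φ pp ρ p) =
      (∏ p : Pr w z, wN 3 σ p (φ p)) *
        ∏ i, (1 + (3 : ℝ) / (pp i : ℝ)) / (2 * (pp i : ℝ) ^ (1 + σ)) := by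
  classical
  let G : ℕ → ℝ := fun p => if h : p ∈ Pr w z then wN 3 σ p (φ ⟨p, h⟩) else
    if ∃ i, pp i = p then (1 + (3 : ℝ) / (p : ℝ)) / (2 * (p : ℝ) ^ (1 + σ)) else 1
  have hG : ∀ p : Pr 384 y, wN 3 σ p (W1_Phi y φ pp ρ p) = G p := by
    intro p
    simp only [W1_Phi, G]
    split_ifs with h1 h2
    · rfl
    · simp [wN]
    · rfl
  rw [Finset.prod_congr rfl (fun p _ => hG p), Finset.prod_coe_sort (Pr 384 y) G]
  have hsub : Pr w z ∪ univ.image pp ⊆ Pr 384 y := by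
    intro p hp
    rcases mem_union.mp hp with h | h
    · rw [W1_mem_Pr] at h ⊢
      exact ⟨⟨by omega, by omega⟩, h.2⟩
    · obtain ⟨i, -, rfl⟩ := mem_image.mp h
      rw [W1_mem_Pr]
      have := hpp i
      exact ⟨⟨by omega, by omega⟩, this.2⟩
  rw [← Finset.prod_subset hsub]
  · have hdisj : Disjoint (Pr w z) (univ.image pp) := by
      rw [Finset.disjoint_left]
      intro p hp hp'
      obtain ⟨i, -, rfl⟩ := mem_image.mp hp'
      rw [W1_mem_Pr] at hp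
      have := hpp i
      omega
    rw [Finset.prod_union hdisj, Finset.prod_image (fun i _ j _ h => hinj h)]
    congr 1
    · rw [← Finset.prod_coe_sort (Pr w z) G]
      apply Finset.prod_congr rfl
      intro p _
      simp only [G]
      rw [dif_pos p.2]
    · apply Finset.prod_congr rfl
      intro i _
      simp only [G]
      rw [dif_neg, if_pos ⟨i, rfl⟩]
      rw [W1_mem_Pr]
      have := hpp i
      omega
  · intro p _ hp
    rw [mem_union, not_or] at hp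
    simp only [G]
    rw [dif_neg hp.1, if_neg]
    rintro ⟨i, hi⟩
    exact hp.2 (mem_image.mpr ⟨i, mem_univ _, hi⟩)

private theorem W1_P (Y Z : ℕ) : F3.P (Y : ℤ) (Z : ℤ) = (((Y + Z) * Y * Z : ℕ) : ℤ) := by
  simp [Fam.P, Fam.l, F3, Fin.prod_univ_three]

private theorem W1_l1 (Y Z : ℕ) : F3.l 1 (Y : ℤ) (Z : ℤ) = (Y : ℤ) := by
  simp [Fam.l, F3]

private theorem W1_l2 (Y Z : ℕ) : F3.l 2 (Y : ℤ) (Z : ℤ) = (Z : ℤ) := by
  simp [Fam.l, F3]

/-- the twist bits at the primes of the intervals -/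
private noncomputable def W1_rho (P : Par) (z Y Z : ℕ) (i : Fin P.J) : ZMod 2 :=
  lb (P.ppI z Y Z i) ((F3.R 0 (Y : ℤ) (Z : ℤ) : ℤ) : ℚ)

private theorem W1_state {P : Par} (hP : P.Adm) {z T Y Z : ℕ} (hz : P.w < z)
    (h : Bs P z T Y Z) (p : Pr 384 (z ^ P.M)) :
    F3.st (Y : ℤ) (Z : ℤ) p = W1_Phi (z ^ P.M) (stt P.w z Y Z) (fun i => P.ppI z Y Z i)
      (W1_rho P z Y Z) p := by
  classical
  obtain ⟨p, hp⟩ := p
  have hp' := W1_mem_Pr.mp hp
  have hw := hP.hw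
  have hz2 : 2 ≤ z := by omega
  simp only [W1_Phi]
  by_cases h1 : p ∈ Pr P.w z
  · rw [dif_pos h1]; rfl
  rw [dif_neg h1]
  rw [W1_mem_Pr] at h1
  have hcast : ∀ N : ℕ, ((p : ℤ) ∣ (N : ℤ)) ↔ p ∣ N := fun N => Int.natCast_dvd_natCast
  by_cases h2 : p ≤ P.w
  · -- small primes
    have h3 : ¬ p ∣ (Y + Z) * Y * Z := h.hw p hp'.2 hp'.1.1 h2
    have h4 : F3.st (Y : ℤ) (Z : ℤ) p = none := by
      unfold Fam.st
      rw [W1_P, if_neg]
      rw [hcast]; exact h3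
    rw [h4, dif_neg]
    rintro ⟨i, hi⟩
    have h5 := (W1_ppI h i.2).1.1
    have h6 := W1_I_bd hP hz2 i.2 h5
    omega
  · have hzp : z < p := by
      by_contra h3
      exact h1 ⟨⟨by omega, by omega⟩, hp'.2⟩
    have hyz : ¬ p ∣ Y * Z := h.hyz p hp'.2 hzp hp'.1.2
    by_cases h3 : p ∣ Y + Z
    · -- the prime of an interval
      obtain ⟨⟨i, hi, hpi⟩, hsq⟩ := h.hn p hp'.2 hzp hp'.1.2 h3
      have h4 : P.ppI z Y Z i = p := ((W1_ppI h hi).2 p hpi h3).symm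
      have hex : ∃ i : Fin P.J, P.ppI z Y Z i = p := ⟨⟨i, hi⟩, h4⟩
      rw [dif_pos hex]
      have hdP : (p : ℤ) ∣ F3.P (Y : ℤ) (Z : ℤ) := by
        rw [W1_P, hcast, mul_assoc]
        exact Dvd.dvd.mul_right h3 _
      have hdP2 : ¬ (p : ℤ) ^ 2 ∣ F3.P (Y : ℤ) (Z : ℤ) := by
        rw [W1_P, ← Nat.cast_pow, Int.natCast_dvd_natCast, mul_assoc]
        intro h5
        apply hsq
        have hco : Nat.Coprime (p ^ 2) (Y * Z) :=
          Nat.Coprime.pow_left 2 ((Nat.Prime.coprime_iff_not_dvd hp'.2).mpr hyz)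
        exact hco.dvd_of_dvd_mul_right h5
      have hidx : F3.idx p (Y : ℤ) (Z : ℤ) = 0 := by
        have h5 := idx_dvd (F := F3) hp'.2 hdP
        have h6 : ∀ j : Fin 3, j = 0 ∨ j = 1 ∨ j = 2 := by decide
        rcases h6 (F3.idx p (Y : ℤ) (Z : ℤ)) with h7 | h7 | h7
        · exact h7
        · rw [h7, W1_l1, hcast] at h5
          exact absurd (Dvd.dvd.mul_right h5 Z) hyz
        · rw [h7, W1_l2, hcast] at h5
          exact absurd (Dvd.dvd.mul_left h5 Y) hyz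
      unfold Fam.st
      rw [if_pos hdP, if_neg hdP2, hidx]
      have h8 := hex.choose_spec
      simp only [W1_rho]
      rw [h8]
    · have h4 : F3.st (Y : ℤ) (Z : ℤ) p = none := by
        unfold Fam.st
        rw [W1_P, if_neg]
        rw [hcast, mul_assoc, hp'.2.dvd_mul, not_or]
        exact ⟨h3, hyz⟩
      rw [h4, dif_neg]
      rintro ⟨i, hi⟩
      apply h3
      have h5 := (W1_ppI h i.2).1.2
      rw [← hi]
      exact h5

private theorem W1_num (J z : ℕ) (hz : 5 * J + 3 ≤ z) : (1 + (3 : ℝ) / z) ^ J ≤ 2 := by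
  have hz0 : (0 : ℝ) < z := by
    have : 0 < z := by omega
    exact_mod_cast this
  have h1 : (1 + (3 : ℝ) / z) ≤ Real.exp (3 / z) := by
    have := Real.add_one_le_exp ((3 : ℝ) / z)
    linarith
  calc (1 + (3 : ℝ) / z) ^ J ≤ Real.exp (3 / z) ^ J := by gcongr
    _ = Real.exp (J * (3 / z)) := by rw [← Real.exp_nat_mul]
    _ ≤ Real.exp (Real.log 2) := by
        apply Real.exp_le_exp.mpr
        have h2 : (5 * J + 3 : ℝ) ≤ z := by exact_mod_cast hz
        have h3 : (J : ℝ) * (3 / z) ≤ 0.6 := by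
          rw [mul_div_assoc', div_le_iff₀ hz0]
          linarith
        have := Real.log_two_gt_d9
        linarith
    _ = 2 := Real.exp_log (by norm_num)

private theorem W1_prodle {J z : ℕ} (hz : 1 ≤ z) (σ : ℝ) (hσ : 0 ≤ σ) (pp : Fin J → ℕ)
    (hpp : ∀ i, z < pp i) :
    ∏ i, (1 + (3 : ℝ) / (pp i : ℝ)) / (2 * (pp i : ℝ) ^ (1 + σ)) ≤
      ((1 + (3 : ℝ) / z) / 2) ^ J * ∏ i, 1 / (pp i : ℝ) := by
  have h1 : ((1 + (3 : ℝ) / z) / 2) ^ J = ∏ _i : Fin J, ((1 + (3 : ℝ) / z) / 2) := by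
    rw [Finset.prod_const, card_univ, Fintype.card_fin]
  rw [h1, ← Finset.prod_mul_distrib]
  apply Finset.prod_le_prod
  · intro i _; positivity
  · intro i _
    have hz0 : (0 : ℝ) < z := by exact_mod_cast hz
    have h2 : (z : ℝ) < pp i := by exact_mod_cast hpp i
    have h3 : (0 : ℝ) < pp i := by linarith
    have h4 : (1 : ℝ) ≤ pp i := by
      have : (1 : ℝ) ≤ z := by exact_mod_cast hz
      linarith
    have h5 : (pp i : ℝ) ≤ (pp i : ℝ) ^ (1 + σ) := by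
      calc (pp i : ℝ) = (pp i : ℝ) ^ (1 : ℝ) := (Real.rpow_one _).symm
        _ ≤ _ := Real.rpow_le_rpow_of_exponent_le h4 (by linarith)
    have h6 : (3 : ℝ) / pp i ≤ 3 / z := by gcongr
    calc (1 + (3 : ℝ) / (pp i : ℝ)) / (2 * (pp i : ℝ) ^ (1 + σ)) ≤
        (1 + (3 : ℝ) / z) / (2 * (pp i : ℝ)) := by gcongr
      _ = (1 + (3 : ℝ) / z) / 2 * (1 / (pp i : ℝ)) := by
          field_simp

open Classical in
private theorem W1_count {P : Par} (hP : P.Adm) {z T : ℕ} (hz : P.w < z)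
    (φ : Pr P.w z → Stt 3) (pp : Fin P.J → ℕ) (ρ : Fin P.J → ZMod 2) :
    (((BS P z T).filter fun x => (stt P.w z x.1 x.2, ((fun i : Fin P.J => P.ppI z x.1 x.2 i),
      W1_rho P z x.1 x.2)) = (φ, (pp, ρ))).card) ≤
    (((F3.box T).filter fun x => F3.Good T (z ^ P.M) x.1 x.2 ∧
      ∀ p : Pr 384 (z ^ P.M), F3.st x.1 x.2 p = W1_Phi (z ^ P.M) φ pp ρ p).card) := by
  apply Finset.card_le_card_of_injOn (fun x => ((x.1 : ℤ), (x.2 : ℤ)))
  · intro x hx
    rw [Finset.mem_coe, mem_filter] at hx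
    obtain ⟨hx1, hx2⟩ := hx
    unfold BS at hx1
    rw [mem_filter] at hx1
    have hb := hx1.2
    rw [Prod.mk.injEq, Prod.mk.injEq] at hx2
    obtain ⟨h1, h2, h3⟩ := hx2
    rw [Finset.mem_coe, mem_filter]
    refine ⟨?_, hb.hg, ?_⟩
    · unfold Fam.box
      rw [mem_filter, mem_product, mem_Icc, mem_Icc]
      have hY := hb.hY
      have hZ := hb.hZ
      refine ⟨⟨⟨by simp only; omega, by simp only; omega⟩,
        ⟨by simp only; omega, by simp only; omega⟩⟩, ?_, ?_⟩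
      · exact Nat.isCoprime_iff_coprime.mpr hb.hc
      · simp only
        rw [W1_P]
        have h4 : (x.1 + x.2) * x.1 * x.2 ≠ 0 := by
          have : x.1 ≠ 0 := by omega
          have : x.2 ≠ 0 := by omega
          have : x.1 + x.2 ≠ 0 := by omega
          positivity
        exact_mod_cast h4
    · intro p
      have h5 := W1_state hP hz hb p
      simp only
      rw [h5, ← h1, ← h2, ← h3]
  · intro x _ y _ hxy
    simp only [Prod.mk.injEq, Nat.cast_inj] at hxy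
    exact Prod.ext hxy.1 hxy.2

theorem ubgen : ∃ C : ℝ, 0 < C ∧ ∀ P : Par, P.Adm → ∃ z0 : ℕ, ∀ z T : ℕ, z0 ≤ z → P.TZ z T →
    ∀ g : (Pr P.w z → Stt 3) → (Fin P.J → ℕ) → ℝ, (∀ φ pp, 0 ≤ g φ pp) →
    ∑ x ∈ BS P z T, g (stt P.w z x.1 x.2) (fun i => P.ppI z x.1 x.2 i) ≤
      C * (T : ℝ) ^ 2 / Real.log ((z : ℝ) ^ P.M) ^ 3 *
        ∑ pp ∈ Fintype.piFinset (fun i : Fin P.J => P.I z i),
          (∏ i, 1 / (pp i : ℝ)) * ∑ φ : Pr P.w z → Stt 3, g φ pp * Wt T φ := by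
  classical
  obtain ⟨C0, hC0, hcnt⟩ := cnt_phi (big (le_refl 384))
  refine ⟨2 * C0, by positivity, fun P hP => ⟨max (P.w + 1) (5 * P.J + 3), ?_⟩⟩
  intro z T hz hTZ g hg
  have hwz : P.w < z := by have := le_trans (le_max_left _ _) hz; omega
  have hz5 : 5 * P.J + 3 ≤ z := le_trans (le_max_right _ _) hz
  have hw384 := hP.hw
  have hM1 : 1 ≤ P.M := W1_ee_pos hP _
  have hzy : z ≤ z ^ P.M := Nat.le_self_pow (by omega) z
  have hy24 : (z ^ P.M) ^ 24 ≤ T := by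
    refine le_trans ?_ hTZ.1
    rw [← pow_mul]
    exact Nat.pow_le_pow_right (by omega) (by omega)
  have hy384 : 384 < z ^ P.M := by omega
  have hT1 : 1 ≤ T := le_trans (Nat.one_le_pow _ _ (by omega)) hy24
  have hσ : 0 ≤ 1 / Real.log (T : ℝ) := by
    have : (1 : ℝ) ≤ T := by exact_mod_cast hT1
    have := Real.log_nonneg this
    positivity
  let S : Finset ((Pr P.w z → Stt 3) × ((Fin P.J → ℕ) × (Fin P.J → ZMod 2))) :=
    univ ×ˢ (Fintype.piFinset (fun i : Fin P.J => P.I z i) ×ˢ univ)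
  let key : ℕ × ℕ → (Pr P.w z → Stt 3) × ((Fin P.J → ℕ) × (Fin P.J → ZMod 2)) :=
    fun x => (stt P.w z x.1 x.2, ((fun i : Fin P.J => P.ppI z x.1 x.2 i), W1_rho P z x.1 x.2))
  have hmaps : ∀ x ∈ BS P z T, key x ∈ S := by
    intro x hx
    unfold BS at hx
    rw [mem_filter] at hx
    simp only [S, key, mem_product, mem_univ, true_and, and_true, Fintype.mem_piFinset]
    intro i
    exact (W1_ppI hx.2 i.2).1.1
  rw [← Finset.sum_fiberwise_of_maps_to hmaps]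
  set L3 : ℝ := Real.log ((z : ℝ) ^ P.M) ^ 3 with hL3
  have hL3' : 0 ≤ L3 := by
    have h1 : (1 : ℝ) ≤ (z : ℝ) ^ P.M := by
      have : 1 ≤ z ^ P.M := by omega
      exact_mod_cast this
    have := Real.log_nonneg h1
    positivity
  have hWt : ∀ φ : Pr P.w z → Stt 3, 0 ≤ Wt T φ := by
    intro φ
    unfold Wt
    apply Finset.prod_nonneg
    intro p _
    rcases φ p with _ | _ | a <;> simp only [wN] <;> positivity
  set q : ℝ := ((1 + (3 : ℝ) / z) / 2) ^ P.J with hq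
  have hterm : ∀ t ∈ S, ∑ x ∈ (BS P z T).filter (fun x => key x = t),
      g (stt P.w z x.1 x.2) (fun i => P.ppI z x.1 x.2 i) ≤
      g t.1 t.2.1 * (C0 * (T : ℝ) ^ 2 / L3 * (Wt T t.1 * (q * ∏ i, 1 / (t.2.1 i : ℝ)))) := by
    rintro ⟨φ, pp, ρ⟩ ht
    simp only [S, mem_product, mem_univ, true_and, and_true, Fintype.mem_piFinset] at ht
    have h1 : ∑ x ∈ (BS P z T).filter (fun x => key x = (φ, pp, ρ)),
        g (stt P.w z x.1 x.2) (fun i => P.ppI z x.1 x.2 i) =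
        g φ pp * (((BS P z T).filter (fun x => key x = (φ, pp, ρ))).card : ℝ) := by
      rw [mul_comm, ← nsmul_eq_mul, ← Finset.sum_const]
      apply Finset.sum_congr rfl
      intro x hx
      have hx2 := (mem_filter.mp hx).2
      simp only [key, Prod.mk.injEq] at hx2
      rw [hx2.1, hx2.2.1]
    rw [h1]
    apply mul_le_mul_of_nonneg_left _ (hg φ pp)
    have hpp : ∀ i, (z < pp i ∧ pp i ≤ z ^ P.M) ∧ (pp i).Prime := fun i =>
      ⟨W1_I_bd hP (by omega) i.2 (ht i), (W1_I.mp (ht i)).2⟩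
    have hinj : Function.Injective pp := by
      apply StrictMono.injective
      intro i j hij
      exact W1_I_lt hP (by omega) hij (ht i) (ht j)
    have h2 := W1_count hP (T := T) hwz φ pp ρ
    have h3 := hcnt T (z ^ P.M) hy384 hy24 (W1_Phi (z ^ P.M) φ pp ρ)
    rw [W1_prod hP.hw hzy _ φ pp ρ hinj hpp (by omega)] at h3
    have h4 := W1_prodle (z := z) (by omega) _ hσ pp (fun i => (hpp i).1.1)
    have hcast : Real.log (((z ^ P.M : ℕ) : ℝ)) ^ 3 = L3 := by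
      rw [Nat.cast_pow]
    rw [hcast] at h3
    calc (((BS P z T).filter (fun x => key x = (φ, pp, ρ))).card : ℝ)
        ≤ (((F3.box T).filter fun x => F3.Good T (z ^ P.M) x.1 x.2 ∧
          ∀ p : Pr 384 (z ^ P.M), F3.st x.1 x.2 p = W1_Phi (z ^ P.M) φ pp ρ p).card : ℝ) := by
          exact_mod_cast h2
      _ ≤ _ := h3
      _ ≤ _ := by
          apply mul_le_mul_of_nonneg_left _ (by positivity)
          exact mul_le_mul_of_nonneg_left h4 (hWt φ)
  refine (Finset.sum_le_sum hterm).trans ?_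
  have hcard : (Fintype.card (Fin P.J → ZMod 2) : ℝ) = 2 ^ P.J := by
    rw [Fintype.card_fun, ZMod.card, Fintype.card_fin]
    push_cast
    rfl
  have hq2 : (2 : ℝ) ^ P.J * q ≤ 2 := by
    rw [hq, ← mul_pow]
    have : (2 : ℝ) * ((1 + (3 : ℝ) / z) / 2) = 1 + 3 / z := by ring
    rw [this]
    exact W1_num _ _ hz5
  have hsum : ∑ t ∈ S, g t.1 t.2.1 * (C0 * (T : ℝ) ^ 2 / L3 *
      (Wt T t.1 * (q * ∏ i, 1 / (t.2.1 i : ℝ)))) =
      ((2 : ℝ) ^ P.J * q) * (C0 * (T : ℝ) ^ 2 / L3 *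
        ∑ pp ∈ Fintype.piFinset (fun i : Fin P.J => P.I z i),
          (∏ i, 1 / (pp i : ℝ)) * ∑ φ : Pr P.w z → Stt 3, g φ pp * Wt T φ) := by
    simp only [S]
    rw [Finset.sum_product]
    have hin : ∀ φ : Pr P.w z → Stt 3,
        ∑ y ∈ Fintype.piFinset (fun i : Fin P.J => P.I z i) ×ˢ
          (univ : Finset (Fin P.J → ZMod 2)), g φ y.1 * (C0 * (T : ℝ) ^ 2 / L3 *
            (Wt T φ * (q * ∏ i, 1 / (y.1 i : ℝ)))) =
        ∑ pp ∈ Fintype.piFinset (fun i : Fin P.J => P.I z i), (2 : ℝ) ^ P.J *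
          (g φ pp * (C0 * (T : ℝ) ^ 2 / L3 * (Wt T φ * (q * ∏ i, 1 / (pp i : ℝ))))) := by
      intro φ
      rw [Finset.sum_product]
      apply Finset.sum_congr rfl
      intro pp _
      simp only
      rw [Finset.sum_const, card_univ, nsmul_eq_mul, hcard]
    rw [Finset.sum_congr rfl (fun φ _ => hin φ), Finset.sum_comm]
    simp only [Finset.mul_sum]
    apply Finset.sum_congr rfl
    intro pp _
    apply Finset.sum_congr rfl
    intro φ _
    ring
  rw [hsum]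
  have hnn : 0 ≤ C0 * (T : ℝ) ^ 2 / L3 *
        ∑ pp ∈ Fintype.piFinset (fun i : Fin P.J => P.I z i),
          (∏ i, 1 / (pp i : ℝ)) * ∑ φ : Pr P.w z → Stt 3, g φ pp * Wt T φ := by
    apply mul_nonneg (by positivity)
    apply Finset.sum_nonneg
    intro pp _
    apply mul_nonneg (by positivity)
    apply Finset.sum_nonneg
    intro φ _
    exact mul_nonneg (hg φ pp) (hWt φ)
  calc _ ≤ 2 * (C0 * (T : ℝ) ^ 2 / L3 *
        ∑ pp ∈ Fintype.piFinset (fun i : Fin P.J => P.I z i),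
          (∏ i, 1 / (pp i : ℝ)) * ∑ φ : Pr P.w z → Stt 3, g φ pp * Wt T φ) :=
        mul_le_mul_of_nonneg_right hq2 hnn
    _ = _ := by ring

end Pool.Agent.H77.K3
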