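import Pool.Agent.H77.K3.W1
import Pool.Agent.H77.K3.W5
import Pool.Agent.H77.K3.W6
import Pool.Agent.H77.K3.V3

/-!
# W8: the nonsquare part of `Km`

`t0 ≠ 0`. `cntN ψ pp t0`: the sum over `α` of the number of elements of `cntK ψ pp t0 α` whose
`Dc (J2 t0)` is not a square. For given `w, A` there is `C` such that for `z ≥ z0(P)`:
`(1/2)^J sum_(x ∈ SS) cntN ≤ C 0.85^J U0`.

Proof. As in W7: `ubgen` with `g φ pp = [Rest (A+2) φ] cntN (jn φ) pp t0`. For fixed `φ`, `α` apply `mix`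
with `K = {i : α i = false}`, `S pp = (solF (jn φ) (hal pp α t0)).filter (Dc (J2 t0) not a square)`,
which only depends on the `pp i` with `α i = true` (`hal`), `R = 64 # Sel`, `θ = 0.7`,
`Q x p = (bt p (Dc (J2 t0) x) = 0)`; `|Dc| ≤ z^(A+3)`, `PH`. So
`sum_pp (prod 1/pp_i) #... ≤ 0.7^#K 64 # Sel prod L_i`, and
`(1/2)^J sum_α 0.7^#{i : α i = false} = ((1 + 0.7)/2)^J = 0.85^J`.
-/

set_option autoImplicit false

namespace Pool.Agent.H77.K3

open Finset Pool.Agent.H77.SV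

open Classical in
/-- the nonsquare part -/
noncomputable def cntN {w z J : ℕ} (ψ : Pr w z → Option (Fin 3 × ZMod 2)) (pp : Fin J → ℕ)
    (t0 : V2) : ℕ :=
  ∑ α : Fin J → Bool, ((cntK ψ pp t0 α).filter fun x =>
    ¬ IsSquare (Dc (J2 t0) x.1 x.2.2.1 x.2.2.2)).card

/-- bound of the integer -/
private theorem w8_Dc_le {w z a : ℕ} {φ : Pr w z → Stt 3} (hφ : Rest a φ) {h : ℕ → V2}
    {x : (Pr w z → V2) × V2 × V2 × V2} (hx : SolP (jn φ) h x.1 x.2.1 x.2.2.1 x.2.2.2)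
    (c : V2) (hz : 2 ≤ z) : |Dc c x.1 x.2.2.1 x.2.2.2| ≤ (z : ℤ) ^ (a + 1) := by
  have h1 : |∏ p : Pr w z, (if dot c (x.1 p) = 1 then ((p : ℕ) : ℤ) else 1)| ≤
      ((∏ p : Pr w z, (if φ p = none then 1 else (p : ℕ)) : ℕ) : ℤ) := by
    rw [Finset.abs_prod, Nat.cast_prod]
    refine Finset.prod_le_prod (fun _ _ => abs_nonneg _) fun p _ => ?_
    have hp1 : (1 : ℤ) ≤ ((p : ℕ) : ℤ) := by
      have h := p.2
      unfold Pr at h
      rw [mem_filter] at h
      exact_mod_cast h.2.one_lt.le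
    by_cases hp : φ p = none
    · have h2 := hx p
      have h3 : jn φ p = none := by unfold jn; rw [hp]; rfl
      rw [h3] at h2
      have h4 : x.1 p = 0 := h2
      have h5 : dot c (x.1 p) = 0 := by rw [h4]; simp [dot]
      rw [if_pos hp, h5, if_neg (by decide)]
      simp
    · rw [if_neg hp]
      split_ifs with h5
      · rw [abs_of_nonneg (by omega)]
      · simpa using hp1
  have h2 : ((∏ p : Pr w z, (if φ p = none then 1 else (p : ℕ)) : ℕ) : ℤ) ≤ (z : ℤ) ^ a := by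
    exact_mod_cast hφ.2
  have h3 : |(if dot c x.2.2.1 = 1 then (-1 : ℤ) else 1)| = 1 := by split_ifs <;> simp
  have h4 : |(if dot c x.2.2.2 = 1 then (2 : ℤ) else 1)| ≤ 2 := by split_ifs <;> simp
  unfold Dc
  rw [abs_mul, abs_mul, h3, one_mul, pow_succ, mul_comm]
  have h5 : (2 : ℤ) ≤ z := by exact_mod_cast hz
  exact mul_le_mul (h1.trans h2) (h4.trans h5) (abs_nonneg _) (by positivity)

/-- sum over `α` -/
private theorem w8_alpha (J : ℕ) :
    ∑ α : Fin J → Bool, (0.7 : ℝ) ^ (univ.filter fun i => α i = false).card = 1.7 ^ J := by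
  have h1 : ∀ α : Fin J → Bool, (0.7 : ℝ) ^ (univ.filter fun i => α i = false).card =
      ∏ i, (if α i = false then (0.7 : ℝ) else 1) := by
    intro α
    rw [prod_ite, prod_const, prod_const_one, mul_one]
  rw [sum_congr rfl fun α _ => h1 α]
  have h2 := Finset.prod_univ_sum (fun _ : Fin J => (univ : Finset Bool))
    (fun _ b => if b = false then (0.7 : ℝ) else 1)
  rw [Fintype.piFinset_univ] at h2
  rw [← h2]
  simp
  norm_num

/-- the inner sum -/
private theorem w8_inner (P : Par) {z : ℕ} (hz : 2 ≤ z) {φ : Pr P.w z → Stt 3}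
    (hφ : Rest (P.A + 2) φ) (t0 : V2)
    (hph : ∀ i : Fin P.J, ∀ D : ℤ, ¬ IsSquare D → |D| ≤ (z : ℤ) ^ (P.A + 3) →
      ∑ p ∈ (P.I z i).filter (fun p => bt p D = 0), 1 / (p : ℝ) ≤
        0.7 * ∑ p ∈ P.I z i, 1 / (p : ℝ)) :
    ∑ pp ∈ Fintype.piFinset (fun i : Fin P.J => P.I z i),
      (∏ i, 1 / (pp i : ℝ)) * (cntN (jn φ) pp t0 : ℝ) ≤
      1.7 ^ P.J * (64 * ((Sel F3.ty F3.N (Pr P.w z) (jn φ)).card : ℝ)) *
        ∏ i : Fin P.J, P.L z i := by
  classical
  have key : ∀ α : Fin P.J → Bool,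
      ∑ pp ∈ Fintype.piFinset (fun i : Fin P.J => P.I z i),
        (∏ i, 1 / (pp i : ℝ)) * (((cntK (jn φ) pp t0 α).filter fun x =>
          ¬ IsSquare (Dc (J2 t0) x.1 x.2.2.1 x.2.2.2)).card : ℝ) ≤
      0.7 ^ (univ.filter fun i => α i = false).card *
        (64 * ((Sel F3.ty F3.N (Pr P.w z) (jn φ)).card : ℝ)) * ∏ i : Fin P.J, P.L z i := by
    intro α
    have h := mix (X := (Pr P.w z → V2) × V2 × V2 × V2) (fun i : Fin P.J => P.I z i)
      (univ.filter fun i => α i = false) (fun p => 1 / (p : ℝ)) (fun p => by positivity)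
      0.7 (64 * ((Sel F3.ty F3.N (Pr P.w z) (jn φ)).card : ℝ)) (by norm_num) (by positivity)
      (fun pp => (solF (jn φ) (hal pp α t0)).filter fun x =>
        ¬ IsSquare (Dc (J2 t0) x.1 x.2.2.1 x.2.2.2)) ?_
      (fun x p => bt p (Dc (J2 t0) x.1 x.2.2.1 x.2.2.2) = 0) ?_ ?_
    · refine le_trans (le_of_eq (sum_congr rfl fun pp _ => ?_)) h
      refine congrArg (fun s : Finset ((Pr P.w z → V2) × V2 × V2 × V2) =>
        (∏ i, 1 / (pp i : ℝ)) * (s.card : ℝ)) ?_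
      unfold cntK
      ext x
      simp only [mem_filter, mem_univ, true_and]
      tauto
    · intro pp pp' hpp
      have hh : hal pp α t0 = hal pp' α t0 := by
        funext p
        unfold hal
        refine sum_congr rfl fun i _ => ?_
        by_cases hα : α i = true
        · rw [if_pos hα, if_pos hα, hpp i (by simp [hα])]
        · rw [if_neg hα, if_neg hα]
      simp only [hh]
    · intro pp x hx i hi
      rw [mem_filter] at hx
      have hs : SolP (jn φ) (hal pp α t0) x.1 x.2.1 x.2.2.1 x.2.2.2 := by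
        have := hx.1
        unfold solF at this
        rw [mem_filter] at this
        exact this.2
      refine le_trans (le_of_eq ?_) (hph i _ hx.2 (w8_Dc_le hφ hs _ hz))
      refine sum_congr ?_ fun _ _ => rfl
      ext p
      simp only [mem_filter]
    · intro pp
      refine le_trans (Nat.cast_le.2 (card_filter_le _ _)) ?_
      exact_mod_cast card_solF (jn φ) (hal pp α t0)
  have hsum : ∀ pp : Fin P.J → ℕ, (∏ i, 1 / (pp i : ℝ)) * (cntN (jn φ) pp t0 : ℝ) =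
      ∑ α : Fin P.J → Bool, (∏ i, 1 / (pp i : ℝ)) * (((cntK (jn φ) pp t0 α).filter fun x =>
          ¬ IsSquare (Dc (J2 t0) x.1 x.2.2.1 x.2.2.2)).card : ℝ) := by
    intro pp
    unfold cntN
    rw [Nat.cast_sum, mul_sum]
  rw [sum_congr rfl fun pp _ => hsum pp, sum_comm]
  refine (sum_le_sum fun α _ => key α).trans (le_of_eq ?_)
  rw [← sum_mul, ← sum_mul, w8_alpha]


theorem ub_kmN (w A : ℕ) (t0 : V2) (h0 : t0 ≠ 0) :
    ∃ C : ℝ, 0 < C ∧ ∀ B J E0 : ℕ, (⟨w, A, B, J, E0⟩ : Par).Adm →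
    PH B E0 (A + 3) → ∃ z0 : ℕ, ∀ z T : ℕ, z0 ≤ z → (⟨w, A, B, J, E0⟩ : Par).TZ z T →
    (1 / 2 : ℝ) ^ J * ∑ x ∈ SS ⟨w, A, B, J, E0⟩ z T,
      (cntN (jn (stt w z x.1 x.2))
        (fun i : Fin J => (⟨w, A, B, J, E0⟩ : Par).ppI z x.1 x.2 i) t0 : ℝ) ≤
      C * 0.85 ^ J * (⟨w, A, B, J, E0⟩ : Par).U0 z T := by
  classical
  by_cases hw : 384 ≤ w
  swap
  · exact ⟨1, one_pos, fun B J E0 hP => absurd hP.hw hw⟩
  obtain ⟨C1, hC1, h1⟩ := ubgen
  obtain ⟨C2, hC2, h2⟩ := sum_sel w hw (A + 2)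
  have hlw : 0 < Real.log w := Real.log_pos (by exact_mod_cast (by omega : 1 < w))
  refine ⟨C1 * 64 * C2 * Real.log w ^ 3, by positivity, fun B J E0 hP hPH => ?_⟩
  obtain ⟨z1, hz1⟩ := h1 ⟨w, A, B, J, E0⟩ hP
  have hB : 3 ≤ B := hP.hB
  have hE : 100 * (A + 3) ≤ E0 := hP.hE
  have he : ∀ i, E0 ≤ (⟨w, A, B, J, E0⟩ : Par).ee i := fun i =>
    Nat.le_mul_of_pos_right _ (pow_pos (show 0 < 13 * B by omega) _)
  choose zz hzz using fun i => hPH ((⟨w, A, B, J, E0⟩ : Par).ee i) (he i)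
  refine ⟨max (max z1 w) (max 8 ((range J).sup zz)), fun z T hz hT => ?_⟩
  have hzz1 : z1 ≤ z := (le_max_left _ _).trans ((le_max_left _ _).trans hz)
  have hzw : w ≤ z := (le_max_right _ _).trans ((le_max_left _ _).trans hz)
  have hz8 : 8 ≤ z := (le_max_left _ _).trans ((le_max_right _ _).trans hz)
  have hzs : (range J).sup zz ≤ z := (le_max_right _ _).trans ((le_max_right _ _).trans hz)
  have hT1 : 1 ≤ T := le_trans (Nat.one_le_pow _ _ (by omega)) hT.1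
  have hlz : 0 < Real.log z := Real.log_pos (by exact_mod_cast (by omega : 1 < z))
  have hph : ∀ i : Fin J, ∀ D : ℤ, ¬ IsSquare D → |D| ≤ (z : ℤ) ^ (A + 3) →
      ∑ p ∈ ((⟨w, A, B, J, E0⟩ : Par).I z i).filter (fun p => bt p D = 0), 1 / (p : ℝ) ≤
        0.7 * ∑ p ∈ (⟨w, A, B, J, E0⟩ : Par).I z i, 1 / (p : ℝ) := by
    intro i D hD hDz
    have h := hzz (i : ℕ) z ((Finset.le_sup (f := zz) (mem_range.2 i.2)).trans hzs) D hD hDz
    have hI : ((⟨w, A, B, J, E0⟩ : Par).I z i).filter (fun p => bt p D = 0) =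
        (Ioc (z ^ (⟨w, A, B, J, E0⟩ : Par).ee i) (z ^ (B * (⟨w, A, B, J, E0⟩ : Par).ee i))).filter
          (fun p => p.Prime ∧ bt p D = 0) := by
      unfold Par.I
      rw [filter_filter]
      rfl
    rw [hI]
    exact h
  set g : (Pr w z → Stt 3) → (Fin J → ℕ) → ℝ := fun φ pp =>
    if Rest (A + 2) φ then (cntN (jn φ) pp t0 : ℝ) else 0 with hg
  have hg0 : ∀ φ pp, 0 ≤ g φ pp := by
    intro φ pp
    simp only [hg]
    split_ifs
    · positivity
    · exact le_refl _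
  have hub := hz1 z T hzz1 hT g hg0
  have hstep1 : ∑ x ∈ SS ⟨w, A, B, J, E0⟩ z T,
      (cntN (jn (stt w z x.1 x.2))
        (fun i : Fin J => (⟨w, A, B, J, E0⟩ : Par).ppI z x.1 x.2 i) t0 : ℝ) ≤
      ∑ x ∈ BS ⟨w, A, B, J, E0⟩ z T, g (stt w z x.1 x.2)
        (fun i => (⟨w, A, B, J, E0⟩ : Par).ppI z x.1 x.2 i) := by
    refine le_trans (le_of_eq (sum_congr rfl fun x hx => ?_))
      (sum_le_sum_of_subset_of_nonneg (ss_bs hP (by omega) hzw hT) fun x _ _ => hg0 _ _)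
    have hr := rest hP (by omega) hT hx
    simp only [hg]
    rw [if_pos hr]
  have hWt : ∀ φ : Pr w z → Stt 3, 0 ≤ Wt T φ := by
    intro φ
    unfold Wt
    refine prod_nonneg fun p _ => ?_
    rcases φ p with _ | _ | a
    · simp [wN]
    · simp only [wN]; positivity
    · simp only [wN]; positivity
  have hL : 0 ≤ ∏ i : Fin J, (⟨w, A, B, J, E0⟩ : Par).L z i := by
    refine prod_nonneg fun i _ => ?_
    unfold Par.L
    exact sum_nonneg fun p _ => by positivity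
  have hstep2 : ∑ pp ∈ Fintype.piFinset (fun i : Fin J => (⟨w, A, B, J, E0⟩ : Par).I z i),
      (∏ i, 1 / (pp i : ℝ)) * ∑ φ : Pr w z → Stt 3, g φ pp * Wt T φ ≤
      1.7 ^ J * 64 * (∏ i : Fin J, (⟨w, A, B, J, E0⟩ : Par).L z i) * (C2 * Real.log z ^ 3) := by
    calc ∑ pp ∈ Fintype.piFinset (fun i : Fin J => (⟨w, A, B, J, E0⟩ : Par).I z i),
          (∏ i, 1 / (pp i : ℝ)) * ∑ φ : Pr w z → Stt 3, g φ pp * Wt T φ
        = ∑ φ : Pr w z → Stt 3, Wt T φ *
          ∑ pp ∈ Fintype.piFinset (fun i : Fin J => (⟨w, A, B, J, E0⟩ : Par).I z i),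
            (∏ i, 1 / (pp i : ℝ)) * g φ pp := by
          simp only [mul_sum]
          rw [sum_comm]
          exact sum_congr rfl fun φ _ => sum_congr rfl fun pp _ => by ring
      _ ≤ ∑ φ : Pr w z → Stt 3, 1.7 ^ J * 64 *
            (∏ i : Fin J, (⟨w, A, B, J, E0⟩ : Par).L z i) *
            (if Rest (A + 2) φ then
              Wt T φ * ((Sel F3.ty F3.N (Pr w z) (jn φ)).card : ℝ) else 0) := by
          refine sum_le_sum fun φ _ => ?_
          by_cases hφ : Rest (A + 2) φ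
          · rw [if_pos hφ]
            have h := w8_inner ⟨w, A, B, J, E0⟩ (by omega : 2 ≤ z) hφ t0 hph
            have h' : ∑ pp ∈ Fintype.piFinset
                (fun i : Fin J => (⟨w, A, B, J, E0⟩ : Par).I z i),
                (∏ i, 1 / (pp i : ℝ)) * g φ pp ≤
                1.7 ^ J * (64 * ((Sel F3.ty F3.N (Pr w z) (jn φ)).card : ℝ)) *
                  ∏ i : Fin J, (⟨w, A, B, J, E0⟩ : Par).L z i := by
              simp only [hg, if_pos hφ]
              exact h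
            refine (mul_le_mul_of_nonneg_left h' (hWt φ)).trans (le_of_eq ?_)
            ring
          · rw [if_neg hφ]
            simp [hg, if_neg hφ]
      _ = 1.7 ^ J * 64 * (∏ i : Fin J, (⟨w, A, B, J, E0⟩ : Par).L z i) *
            ∑ φ : Pr w z → Stt 3, (if Rest (A + 2) φ then
              Wt T φ * ((Sel F3.ty F3.N (Pr w z) (jn φ)).card : ℝ) else 0) := by
          rw [mul_sum]
      _ ≤ _ := mul_le_mul_of_nonneg_left (h2 z T hz8 hT1)
          (mul_nonneg (by positivity) hL)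
  have hM : 0 < (⟨w, A, B, J, E0⟩ : Par).M := lt_of_lt_of_le (by omega) (he J)
  have hM' : (0 : ℝ) < ((⟨w, A, B, J, E0⟩ : Par).M : ℝ) := by exact_mod_cast hM
  have hlogM : Real.log ((z : ℝ) ^ (⟨w, A, B, J, E0⟩ : Par).M) =
      ((⟨w, A, B, J, E0⟩ : Par).M : ℝ) * Real.log z := Real.log_pow _ _
  rw [hlogM] at hub
  have hprod : ∏ i ∈ range J, (⟨w, A, B, J, E0⟩ : Par).L z i =
      ∏ i : Fin J, (⟨w, A, B, J, E0⟩ : Par).L z i := (Fin.prod_univ_eq_prod_range _ _).symm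
  have hU : (⟨w, A, B, J, E0⟩ : Par).U0 z T =
      (T : ℝ) ^ 2 / (((⟨w, A, B, J, E0⟩ : Par).M : ℝ) ^ 3 * Real.log w ^ 3) *
        ∏ i : Fin J, (⟨w, A, B, J, E0⟩ : Par).L z i := by
    rw [← hprod]
    rfl
  have hstep3 := (hstep1.trans hub).trans (mul_le_mul_of_nonneg_left hstep2
    (by positivity : 0 ≤ C1 * (T : ℝ) ^ 2 /
      (((⟨w, A, B, J, E0⟩ : Par).M : ℝ) * Real.log z) ^ 3))
  refine (mul_le_mul_of_nonneg_left hstep3 (by positivity : (0 : ℝ) ≤ (1 / 2) ^ J)).trans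
    (le_of_eq ?_)
  rw [hU]
  have h85 : (0.85 : ℝ) ^ J = (1 / 2) ^ J * 1.7 ^ J := by
    rw [← mul_pow]
    norm_num
  rw [h85]
  field_simp

end Pool.Agent.H77.K3
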