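import Pool.Agent.H77.K3.Z1
import Pool.Agent.H77.K3.W7
import Pool.Agent.H77.K3.W10
import Pool.Agent.H77.K3.PHm
import Pool.Agent.H77.K3.L13

/-!
# Z2: choice of the parameters

`c1, w, A` from `lower`; `B` from `prime_half`; `C` the maximum of the constants of `ub_str`, `ub_km`
(three values of `t0`), `ub_k0` for `w, A`. Choose `J ≥ 2` with
`12 C 0.7^J + 12 C 0.85^J + 2^80 (1/2)^J C ≤ c1/8`; `E0 ≥ E1(B, J)` (`lower`) and `≥ e0(A+3)` (`prime_half`),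
`ε = c1/200`. Then for `z ≥ z0`: `sum # Sl ≤ 12 # SS + (c1/8 + 12 ε) U0 + (J+31) T^2/z`, and
`(J + 31) T^2/z ≤ (c1/8) U0` for `z ≥ z0` because `U0 ≥ 2^(-J) T^2 M^(-3) (log w)^(-3)` (`L_low`). As
`c1 U0 ≤ # SS`, the sum is `≤ 12.5 # SS`. The second assertion: `# SS ≥ c1 U0 ≥ c T^2`.
-/

set_option autoImplicit false

namespace Pool.Agent.H77.K3

open Finset Pool.Agent.H77.SV

theorem avg : ∃ (P : Par) (c : ℝ), P.Adm ∧ 0 < c ∧ ∃ z0 : ℕ, ∀ z T : ℕ, z0 ≤ z → P.TZ z T →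
    ∑ x ∈ SS P z T, (Nat.card (Sl x.1 x.2) : ℝ) ≤ 12.5 * (SS P z T).card ∧
    c * (T : ℝ) ^ 2 ≤ (SS P z T).card := by
  obtain ⟨c1, w, A, hc1, hw, hA, hlow⟩ := lower
  obtain ⟨B, hB, hPH⟩ := prime_half
  obtain ⟨e0, he0⟩ := hPH (A + 3)
  obtain ⟨C1, hC1, hstr⟩ := ub_str w A
  obtain ⟨C2, hC2, hk10⟩ := ub_km w A (1, 0) (by decide)
  obtain ⟨C3, hC3, hk01⟩ := ub_km w A (0, 1) (by decide)
  obtain ⟨C4, hC4, hk11⟩ := ub_km w A (1, 1) (by decide)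
  obtain ⟨C5, hC5, hk0⟩ := ub_k0 w A
  set K : ℝ := 12 * C1 + 4 * (C2 + C3 + C4) + 2 ^ 80 * C5 with hK
  have hKp : 0 < K := by positivity
  obtain ⟨n, hn⟩ := exists_pow_lt_of_lt_one (show 0 < c1 / (8 * K) by positivity)
    (show (0.85 : ℝ) < 1 by norm_num)
  obtain ⟨J, hJ2, hJ⟩ : ∃ J : ℕ, 2 ≤ J ∧ (0.85 : ℝ) ^ J ≤ c1 / (8 * K) :=
    ⟨n + 2, by omega, le_trans (pow_le_pow_of_le_one (by norm_num) (by norm_num) (by omega))
      hn.le⟩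
  obtain ⟨E1, hE1⟩ := hlow B J hB hJ2
  obtain ⟨hAdm, zl, hzl⟩ := hE1 (max E1 e0) (le_max_left _ _)
  have hPH' : PH B (max E1 e0) (A + 3) := fun e he => he0 e (le_trans (le_max_right _ _) he)
  have hε : 0 < c1 / 100 := by positivity
  obtain ⟨z1, hz1⟩ := hstr B J _ hAdm hPH'
  obtain ⟨z2, hz2⟩ := hk10 B J _ hAdm hPH' (c1 / 100) hε
  obtain ⟨z3, hz3⟩ := hk01 B J _ hAdm hPH' (c1 / 100) hε
  obtain ⟨z4, hz4⟩ := hk11 B J _ hAdm hPH' (c1 / 100) hε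
  obtain ⟨z5, hz5⟩ := hk0 B J _ hAdm
  obtain ⟨z6, hz6⟩ := sum_Sl hAdm
  obtain ⟨z7, hz7⟩ := L_low hAdm
  generalize hE : max E1 e0 = E0 at *
  set P : Par := ⟨w, A, B, J, E0⟩ with hP
  have hM : 0 < P.M := by
    have h1 : 0 < P.E0 := lt_of_lt_of_le (by positivity) hAdm.hE
    have h2 : 0 < P.B := lt_of_lt_of_le (by norm_num) hAdm.hB
    simp only [Par.M, Par.ee]
    positivity
  have hMr : (0 : ℝ) < P.M := by exact_mod_cast hM
  have hlw : 0 < Real.log P.w := by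
    apply Real.log_pos
    have : 384 ≤ P.w := hAdm.hw
    have : (384 : ℝ) ≤ P.w := by exact_mod_cast this
    linarith
  set q : ℝ := (1 / 2 : ℝ) ^ J / ((P.M : ℝ) ^ 3 * Real.log P.w ^ 3) with hq
  have hqp : 0 < q := by positivity
  obtain ⟨z8, hz8⟩ := exists_nat_ge (4 * ((J : ℝ) + 31) / (c1 * q))
  refine ⟨P, c1 * q, hAdm, by positivity,
    zl + z1 + z2 + z3 + z4 + z5 + z6 + z7 + z8 + 1, ?_⟩
  intro z T hz hTZ
  have hU : q * (T : ℝ) ^ 2 ≤ P.U0 z T := by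
    have h1 : (1 / 2 : ℝ) ^ J ≤ ∏ i ∈ range P.J, P.L z i := by
      have h2 : ∏ i ∈ range J, (1 / 2 : ℝ) ≤ ∏ i ∈ range P.J, P.L z i := by
        apply Finset.prod_le_prod
        · intro i _; norm_num
        · intro i hi
          exact hz7 z (by omega) i (Finset.mem_range.1 hi)
      simpa using h2
    have h3 : q * (T : ℝ) ^ 2 =
        (T : ℝ) ^ 2 / ((P.M : ℝ) ^ 3 * Real.log P.w ^ 3) * (1 / 2 : ℝ) ^ J := by
      rw [hq]; ring
    rw [h3, Par.U0]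
    exact mul_le_mul_of_nonneg_left h1 (by positivity)
  have hU0 : 0 ≤ P.U0 z T := le_trans (by positivity) hU
  have b1 := hz1 z T (by omega) hTZ
  have b2 := hz2 z T (by omega) hTZ
  have b3 := hz3 z T (by omega) hTZ
  have b4 := hz4 z T (by omega) hTZ
  have b5 := hz5 z T (by omega) hTZ
  have b6 := hz6 z T (by omega) hTZ
  have b0 := hzl z T (by omega) hTZ
  have hPJ : P.J = J := rfl
  rw [hPJ] at b6
  have hzp : (0 : ℝ) < z := by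
    have : 0 < z := by omega
    exact_mod_cast this
  have herr : ((J : ℝ) + 31) * (T : ℝ) ^ 2 / z ≤ c1 / 4 * P.U0 z T := by
    have h1 : 4 * ((J : ℝ) + 31) / (c1 * q) ≤ z := by
      refine hz8.trans ?_
      have : z8 ≤ z := by omega
      exact_mod_cast this
    rw [div_le_iff₀ (by positivity)] at h1
    rw [div_le_iff₀ hzp]
    have h2 : ((J : ℝ) + 31) ≤ c1 / 4 * q * z := by nlinarith
    calc ((J : ℝ) + 31) * (T : ℝ) ^ 2 ≤ (c1 / 4 * q * z) * (T : ℝ) ^ 2 :=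
          mul_le_mul_of_nonneg_right h2 (by positivity)
      _ = c1 / 4 * (q * (T : ℝ) ^ 2) * z := by ring
      _ ≤ c1 / 4 * P.U0 z T * z := by gcongr
  have p1 : (0.7 : ℝ) ^ J ≤ 0.85 ^ J := pow_le_pow_left₀ (by norm_num) (by norm_num) J
  have p2 : (1 / 2 : ℝ) ^ J ≤ 0.85 ^ J := pow_le_pow_left₀ (by norm_num) (by norm_num) J
  have hKJ : K * 0.85 ^ J ≤ c1 / 8 := by
    have := mul_le_mul_of_nonneg_left hJ hKp.le
    refine this.trans (le_of_eq ?_)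
    field_simp
  have b5' : 2 ^ 80 * (1 / 2 : ℝ) ^ J * ∑ x ∈ SS P z T,
      ((dat z x.1 x.2 (bgX z x.1 x.2).card).K0 : ℝ) ≤ 2 ^ 80 * 0.85 ^ J * (C5 * P.U0 z T) :=
    mul_le_mul (mul_le_mul_of_nonneg_left p2 (by positivity)) b5
      (Finset.sum_nonneg fun _ _ => Nat.cast_nonneg _) (by positivity)
  have b1' : C1 * 0.7 ^ J * P.U0 z T ≤ C1 * 0.85 ^ J * P.U0 z T :=
    mul_le_mul_of_nonneg_right (mul_le_mul_of_nonneg_left p1 hC1.le) hU0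
  have hKU : K * 0.85 ^ J * P.U0 z T ≤ c1 / 8 * P.U0 z T :=
    mul_le_mul_of_nonneg_right hKJ hU0
  have hKe : K * 0.85 ^ J * P.U0 z T = 12 * (C1 * 0.85 ^ J * P.U0 z T) +
      4 * (C2 * 0.85 ^ J * P.U0 z T) + 4 * (C3 * 0.85 ^ J * P.U0 z T) +
      4 * (C4 * 0.85 ^ J * P.U0 z T) + 2 ^ 80 * 0.85 ^ J * (C5 * P.U0 z T) := by
    rw [hK]; ring
  rw [add_mul] at b2 b3 b4
  have hcU : 0 ≤ c1 * P.U0 z T := by positivity
  constructor
  · linarith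
  · have := mul_le_mul_of_nonneg_left hU hc1.le
    linarith

end Pool.Agent.H77.K3
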